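import Pool.Agent.P.MP_65d7bf_co.Sem

namespace Pool.Agent.P.MP_65d7bf_co

/-- A packed polynomial with natural packed value. -/
def RN (e : Env) (d0 d1 d2 d3 n m : ℕ) (v : ℝ) : Prop := Rep e d0 d1 d2 d3 ⟨n, m⟩ v
def RP (e : Env) (d0 d1 d2 d3 p n m : ℕ) (v : ℝ) : Prop := Rep e d0 d1 d2 d3 ⟨(p : ℤ) - n, m⟩ v
def RQ (e : Env) (d0 d1 d2 d3 : ℕ) (x : Q) (v : ℝ) : Prop := RP e d0 d1 d2 d3 x.p x.n x.m v
def RQ3 (e : Env) (d0 d1 d2 d3 : ℕ) (x : Q3) (v : R3) : Prop :=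
  RP e d0 d1 d2 d3 x.xp x.xn x.xm v.a ∧ RP e d0 d1 d2 d3 x.yp x.yn x.ym v.b ∧
    RP e d0 d1 d2 d3 x.zp x.zn x.zm v.c

variable {e : Env} {d0 d1 d2 d3 c0 c1 c2 c3 : ℕ}

theorem RN.of_eq {n m v w} (h : RN e d0 d1 d2 d3 n m v) (hv : v = w) : RN e d0 d1 d2 d3 n m w :=
  hv ▸ h
theorem RP.of_eq {p n m v w} (h : RP e d0 d1 d2 d3 p n m v) (hv : v = w) :
    RP e d0 d1 d2 d3 p n m w := hv ▸ h
theorem RQ.of_eq {x v w} (h : RQ e d0 d1 d2 d3 x v) (hv : v = w) : RQ e d0 d1 d2 d3 x w := hv ▸ h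

theorem sub_sub_cast (p n : ℕ) : ((Nat.sub p n : ℕ) : ℤ) - (Nat.sub n p : ℕ) = p - n := by
  change ((p - n : ℕ) : ℤ) - (n - p : ℕ) = _
  omega

theorem RP.nrm {p n m v} (h : RP e d0 d1 d2 d3 p n m v) :
    RP e d0 d1 d2 d3 (Nat.sub p n) (Nat.sub n p) m v :=
  Rep.cast h (sub_sub_cast p n).symm le_rfl

theorem RP.neg {p n m v} (h : RP e d0 d1 d2 d3 p n m v) : RP e d0 d1 d2 d3 n p m (-v) :=
  (Rep.cast (Rep.smul (-1) h) (by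
    change (-1) * ((p : ℤ) - n) = n - p
    ring) (by
    change 1 * m ≤ m
    omega)).of_eq (by push_cast; ring)

theorem RP.add {p n m v p' n' m' w} (h : RP e d0 d1 d2 d3 p n m v)
    (h' : RP e d0 d1 d2 d3 p' n' m' w) :
    RP e d0 d1 d2 d3 (Nat.add p p') (Nat.add n n') (Nat.add m m') (v + w) :=
  Rep.cast (Rep.add h h') (by
    change ((p : ℤ) - n) + (p' - n') = ((p + p' : ℕ) : ℤ) - (n + n' : ℕ)
    push_cast; ring) le_rfl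

theorem RP.mul {p n m v p' n' m' w} (h : RP e d0 d1 d2 d3 p n m v)
    (h' : RP e c0 c1 c2 c3 p' n' m' w) :
    RP e (d0 + c0) (d1 + c1) (d2 + c2) (d3 + c3) (Nat.add (Nat.mul p p') (Nat.mul n n'))
      (Nat.add (Nat.mul p n') (Nat.mul n p')) (Nat.mul m m') (v * w) :=
  Rep.cast (Rep.mul h h') (by
    change ((p : ℤ) - n) * (p' - n') = ((p * p' + n * n' : ℕ) : ℤ) - (p * n' + n * p' : ℕ)
    push_cast; ring) le_rfl

theorem RP.muln {p n m v k l w} (h : RP e d0 d1 d2 d3 p n m v) (h' : RN e c0 c1 c2 c3 k l w) :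
    RP e (d0 + c0) (d1 + c1) (d2 + c2) (d3 + c3) (Nat.mul p k) (Nat.mul n k) (Nat.mul m l)
      (v * w) :=
  Rep.cast (Rep.mul h h') (by
    change ((p : ℤ) - n) * k = ((p * k : ℕ) : ℤ) - (n * k : ℕ)
    push_cast; ring) le_rfl

theorem rn_cst (e : Env) (k : ℕ) : RN e 0 0 0 0 k k k :=
  (Rep.cast (rep_cst e k) rfl le_rfl).of_eq (by simp)

theorem RP.mulc {p n m v} (h : RP e d0 d1 d2 d3 p n m v) (k : ℕ) :
    RP e d0 d1 d2 d3 (Nat.mul p k) (Nat.mul n k) (Nat.mul m k) (v * k) := h.muln (rn_cst e k)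

theorem rp_cst (e : Env) (p n : ℕ) : RP e 0 0 0 0 p n (Nat.add p n) ((p : ℝ) - n) :=
  RP.of_eq (Rep.cast (rep_cst e (p - n)) rfl (by
    change ((p : ℤ) - n).natAbs ≤ p + n
    omega)) (by simp)

theorem rp_zero (e : Env) (d0 d1 d2 d3 : ℕ) : RP e d0 d1 d2 d3 0 0 0 0 :=
  ⟨Empty, inferInstance, fun _ => 0, fun _ => 0, fun _ => 0, fun i => i.elim, by simp, by simp,
    by simp⟩

theorem rn_zero (e : Env) (d0 d1 d2 d3 : ℕ) : RN e d0 d1 d2 d3 0 0 0 := rp_zero e d0 d1 d2 d3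

theorem RN.mul {n m v k l w} (h : RN e d0 d1 d2 d3 n m v) (h' : RN e c0 c1 c2 c3 k l w) :
    RN e (d0 + c0) (d1 + c1) (d2 + c2) (d3 + c3) (Nat.mul n k) (Nat.mul m l) (v * w) :=
  Rep.cast (Rep.mul h h') rfl le_rfl

theorem RN.cmul {n m v} (h : RN e d0 d1 d2 d3 n m v) (k : ℕ) :
    RN e d0 d1 d2 d3 (Nat.mul k n) (Nat.mul k m) (k * v) := by
  have := (rn_cst e k).mul h
  simp only [zero_add] at this
  exact this

theorem RN.rq {n m v} (h : RN e d0 d1 d2 d3 n m v) : RQ e d0 d1 d2 d3 ⟨n, 0, m⟩ v :=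
  Rep.cast h (by simp) le_rfl

theorem RQ.sg {x v} (s : Bool) (h : RQ e d0 d1 d2 d3 x v) :
    RQ e d0 d1 d2 d3 (x.sg s) (sgn s * v) := by
  cases s
  · exact (RP.neg h).of_eq (neg_one_mul v).symm
  · exact h.of_eq (one_mul v).symm

theorem RQ.add {x v y w} (h : RQ e d0 d1 d2 d3 x v) (h' : RQ e d0 d1 d2 d3 y w) :
    RQ e d0 d1 d2 d3 (x.add y) (v + w) := RP.add h h'

theorem RQ.muln {x v k l w} (h : RQ e d0 d1 d2 d3 x v) (h' : RN e c0 c1 c2 c3 k l w) :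
    RQ e (d0 + c0) (d1 + c1) (d2 + c2) (d3 + c3) (x.muln k l) (v * w) := RP.muln h h'

theorem RQ.mulc {x v} (h : RQ e d0 d1 d2 d3 x v) (k : ℕ) :
    RQ e d0 d1 d2 d3 (x.muln k k) (v * k) := RP.mulc h k

/-- The four products are given as `muln` facts of a common degree. -/
theorem rq_sum4 {x y z w : Q} {n0 m0 n1 m1 n2 m2 n3 m3 : ℕ} {a b c d : ℝ}
    (h0 : RQ e d0 d1 d2 d3 (x.muln n0 m0) a) (h1 : RQ e d0 d1 d2 d3 (y.muln n1 m1) b)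
    (h2 : RQ e d0 d1 d2 d3 (z.muln n2 m2) c) (h3 : RQ e d0 d1 d2 d3 (w.muln n3 m3) d) :
    RQ e d0 d1 d2 d3 (sum4 x y z w n0 m0 n1 m1 n2 m2 n3 m3) (a + b + (c + d)) :=
  RP.nrm ((RP.add h0 h1).add (RP.add h2 h3))

theorem rq_optF {x y z w : Q} {a b c d : ℝ} (k l : ℕ)
    (hx : RQ e d0 d1 d2 d3 x a) (hy : RQ e c0 c1 c2 c3 y b)
    (hz : RQ e d0 d1 d2 d3 z c) (hw : RQ e c0 c1 c2 c3 w d) :
    RQ e (d0 + c0) (d1 + c1) (d2 + c2) (d3 + c3) (optF x y z w k l) (a * b * k - c * d * l) :=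
  (RP.add ((RP.mul hx hy).mulc k) ((RP.mul hz hw).mulc l).neg).of_eq (by ring)

theorem rq_difF {x y : Q} {a b w : ℝ} {n m : ℕ} (k l : ℕ)
    (hx : RQ e d0 d1 d2 d3 x a) (hy : RQ e d0 d1 d2 d3 y b) (h : RN e c0 c1 c2 c3 n m w) :
    RQ e (d0 + c0) (d1 + c1) (d2 + c2) (d3 + c3) (difF x y k l n m) ((a * k - b * l) * w) :=
  (RP.muln (RP.add (RP.mulc hx k) (RP.mulc hy l).neg).nrm h).of_eq (by ring)

theorem rq3_crs {x y : Q3} {a b : R3} (hx : RQ3 e d0 d1 d2 d3 x a) (hy : RQ3 e c0 c1 c2 c3 y b) :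
    RQ3 e (d0 + c0) (d1 + c1) (d2 + c2) (d3 + c3) (crs x y) (a.crs b) :=
  ⟨((hx.2.1.mul hy.2.2).add (hx.2.2.mul hy.2.1).neg).nrm.of_eq (sub_eq_add_neg _ _).symm,
    ((hx.2.2.mul hy.1).add (hx.1.mul hy.2.2).neg).nrm.of_eq (sub_eq_add_neg _ _).symm,
    ((hx.1.mul hy.2.1).add (hx.2.1.mul hy.1).neg).nrm.of_eq (sub_eq_add_neg _ _).symm⟩

theorem rq_dot {x y : Q3} {a b : R3} (hx : RQ3 e d0 d1 d2 d3 x a) (hy : RQ3 e c0 c1 c2 c3 y b) :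
    RQ e (d0 + c0) (d1 + c1) (d2 + c2) (d3 + c3) (dot x y) (a.dot b) :=
  (((hx.1.mul hy.1).add (hx.2.1.mul hy.2.1)).add (hx.2.2.mul hy.2.2)).nrm

theorem rq_dotU {x : Q3} {a : R3} (u : U) (hx : RQ3 e d0 d1 d2 d3 x a) :
    RQ e d0 d1 d2 d3 (dotU x u) (a.dot u.re) :=
  (((hx.1.mul (rp_cst e u.xp u.xn)).add (hx.2.1.mul (rp_cst e u.yp u.yn))).add
    (hx.2.2.mul (rp_cst e u.zp u.zn))).nrm

theorem negQ_ok {b x v} (hB : e.B = b + 1) (t0 : e.t0.nn) (t1 : e.t1.nn)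
    (t2 : e.t2.nn) (t3 : e.t3.nn) (h0 : d0 ≤ 2) (h1 : d1 ≤ 2) (h2 : d2 ≤ 2) (h3 : d3 ≤ 2)
    (h : RQ e d0 d1 d2 d3 x v) (hn : negQ (Nat.shiftLeft 1 b) (msk b 12) x = true) : v ≤ 0 := by
  obtain ⟨p, n, m⟩ := x
  refine neg_ok hB t0 t1 t2 t3 h0 h1 h2 h3 h ?_
  change Bool.rec false (Bool.rec false (Nat.beq (Nat.land (Nat.sub n p) (msk b 12)) 0)
    (Nat.ble p n)) (Nat.ble (Nat.succ m) (Nat.shiftLeft 1 b)) = true at hn
  change cond (Nat.ble (Nat.succ m) (Nat.shiftLeft 1 b)) _ false = true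
  cases h4 : Nat.ble (Nat.succ m) (Nat.shiftLeft 1 b)
  · rw [h4] at hn; exact absurd hn Bool.false_ne_true
  rw [h4] at hn
  cases h5 : Nat.ble p n
  · rw [h5] at hn; exact absurd hn Bool.false_ne_true
  rw [h5] at hn
  obtain ⟨k, rfl⟩ := Nat.exists_eq_add_of_le (Nat.le_of_ble_eq_true h5)
  have e1 : Nat.sub (p + k) p = k := Nat.add_sub_cancel_left ..
  rw [e1] at hn
  rcases k with _ | k
  · have : ((p : ℤ) - (p + 0 : ℕ)) = Int.ofNat 0 := by simp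
    simp only [this]; rfl
  · have : ((p : ℤ) - (p + (k + 1) : ℕ)) = Int.negSucc k := by
      rw [Int.negSucc_eq]; push_cast; ring
    simp only [this]; exact hn

/-- Linear forms in the three weights `t` are packed with shift `k`. -/
def Cmb (e : Env) (d0 d1 d2 d3 k : ℕ) (t : T3) : Prop :=
  ∀ a b c : ℤ, Rep e d0 d1 d2 d3
    ⟨a + b * 2 ^ k + c * 2 ^ (3 * k), a.natAbs + b.natAbs + c.natAbs⟩ (t.p * a + t.q * b + t.r * c)

theorem cmb_cast {k : ℕ} {a b c : ℤ} {v} (h : Rep e d0 d1 d2 d3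
    (K.cmb k (K.cst a) (K.cst b) (K.cst c)) v) : Rep e d0 d1 d2 d3
    ⟨a + b * 2 ^ k + c * 2 ^ (3 * k), a.natAbs + b.natAbs + c.natAbs⟩ v :=
  h.cast (by
    change a + b <<< k + c <<< (3 * k) = _
    rw [Int.shiftLeft_eq, Int.shiftLeft_eq]) le_rfl

theorem cmbs0 (e : Env) : Cmb e 1 0 0 0 (Nat.mul e.B 1) e.t0 := fun a b c =>
  cmb_cast (cmb0 (rep_cst e a) (rep_cst e b) (rep_cst e c))
theorem cmbs1 (e : Env) : Cmb e 0 1 0 0 (Nat.mul e.B 7) e.t1 := fun a b c =>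
  cmb_cast (cmb1 (rep_cst e a) (rep_cst e b) (rep_cst e c))
theorem cmbs2 (e : Env) : Cmb e 0 0 1 0 (Nat.mul e.B 49) e.t2 := fun a b c =>
  cmb_cast (cmb2 (rep_cst e a) (rep_cst e b) (rep_cst e c))
theorem cmbs3 (e : Env) : Cmb e 0 0 0 1 (Nat.mul e.B 343) e.t3 := fun a b c =>
  cmb_cast (cmb3 (rep_cst e a) (rep_cst e b) (rep_cst e c))

theorem pk_cast (k a b c : ℕ) :
    ((Nat.add (Nat.add a (Nat.shiftLeft b k)) (Nat.shiftLeft c (Nat.mul 3 k)) : ℕ) : ℤ) =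
      a + b * 2 ^ k + c * 2 ^ (3 * k) := by
  change ((a + b <<< k + c <<< (3 * k) : ℕ) : ℤ) = _
  rw [Nat.shiftLeft_eq, Nat.shiftLeft_eq]; push_cast; ring

theorem Cmb.rn {k t} (h : Cmb e d0 d1 d2 d3 k t) (a b c : ℕ) :
    RN e d0 d1 d2 d3 (Nat.add (Nat.add a (Nat.shiftLeft b k)) (Nat.shiftLeft c (Nat.mul 3 k)))
      (Nat.add (Nat.add a b) c) (t.p * a + t.q * b + t.r * c) :=
  RN.of_eq (Rep.cast (h a b c) (pk_cast k a b c).symm le_rfl) (by simp)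

theorem abs_cast (p n : ℕ) : ((p : ℤ) - n).natAbs ≤ Nat.add (Nat.sub p n) (Nat.sub n p) := by
  change _ ≤ (p - n) + (n - p)
  omega

theorem Cmb.rp {k t} (h : Cmb e d0 d1 d2 d3 k t) (a a' b b' c c' : ℕ) {p n : ℕ}
    (hp : (p : ℤ) - n = (a - a') + (b - b') * 2 ^ k + (c - c') * 2 ^ (3 * k)) :
    RP e d0 d1 d2 d3 p n (Nat.add (Nat.add (Nat.add (Nat.sub a a') (Nat.sub a' a))
      (Nat.add (Nat.sub b b') (Nat.sub b' b))) (Nat.add (Nat.sub c c') (Nat.sub c' c)))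
      (t.p * (a - a') + t.q * (b - b') + t.r * (c - c')) :=
  (Rep.cast (h (a - a') (b - b') (c - c')) hp.symm
    (add_le_add (add_le_add (abs_cast _ _) (abs_cast _ _)) (abs_cast _ _))).of_eq (by simp)

end Pool.Agent.P.MP_65d7bf_co
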