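import Pool.Agent.P.MP_65d7bf_co.St

namespace Pool.Agent.P.MP_65d7bf_co

open Finset Matrix

namespace Block

theorem sum_ev (T : Tet) (z : Fin 3 → ℤ) : ∑ i, T.ev i z = 1 := by
  simp only [Tet.ev]
  rw [sum_add_distrib, T.sb, sum_comm]
  simp [← sum_mul, T.sa]

theorem recon (T : Tet) (z : Fin 3 → ℤ) (l : Fin 3) : (z l : ℝ) = ∑ i, T.ev i z * T.v i l := by
  let V : Matrix (Fin 4) (Fin 4) ℝ := Matrix.of fun k j => ![T.v j 0, T.v j 1, T.v j 2, 1] k
  have h1 : T.mat * V = 1 := by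
    ext i j
    have := T.dual i j
    rw [Fin.sum_univ_three] at this
    rw [Matrix.mul_apply, Fin.sum_univ_four, Matrix.one_apply, ← this]
    simp [Tet.mat, V]
  have h2 : V * T.mat = 1 := mul_eq_one_comm.mp h1
  have h3 := fun k => congrFun (congrFun h2 l.castSucc) k
  have a0 := h3 0
  have a1 := h3 1
  have a2 := h3 2
  have a3 := h3 3
  simp only [Tet.ev, Fin.sum_univ_three, Fin.sum_univ_four]
  fin_cases l <;>
    simp [Matrix.mul_apply, Matrix.one_apply, Fin.sum_univ_four, Tet.mat, V] at a0 a1 a2 a3 ⊢ <;>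
    linear_combination (-z 0) * a0 - (z 1) * a1 - (z 2) * a2 - a3

theorem finite (T : Tet) (t : ℝ) : {z : Fin 3 → ℤ | ∀ j, -t < T.ev j z}.Finite := by
  refine (Set.Finite.pi' fun l : Fin 3 => Set.finite_Icc (-⌈∑ i, (1 + 3 * |t|) * |T.v i l|⌉)
    ⌈∑ i, (1 + 3 * |t|) * |T.v i l|⌉).subset fun z hz l => ?_
  have h1 : ∀ j, |T.ev j z| ≤ 1 + 3 * |t| := fun j => by
    have hs := sum_ev T z
    rw [Fin.sum_univ_four] at hs
    have := le_abs_self t
    have := abs_nonneg t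
    have h0 := hz 0
    have h1 := hz 1
    have h2 := hz 2
    have h3 := hz 3
    rw [abs_le]
    fin_cases j <;> constructor <;> simp only [Fin.zero_eta, Fin.mk_one, Fin.reduceFinMk] <;>
      linarith
  have h2 : |(z l : ℝ)| ≤ ∑ i, (1 + 3 * |t|) * |T.v i l| := by
    rw [recon T z l]
    refine (abs_sum_le_sum_abs _ _).trans (sum_le_sum fun i _ => ?_)
    rw [abs_mul]
    exact mul_le_mul_of_nonneg_right (h1 i) (abs_nonneg _)
  have h3 := h2.trans (Int.le_ceil _)
  rw [← Int.cast_abs, Int.cast_le] at h3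
  exact abs_le.mp h3

theorem nonempty (T : Tet) (i : Fin 4) : ∃ z : Fin 3 → ℤ, ∀ j, j ≠ i → 0 < T.ev j z := by
  set R : ℝ := 1 + ∑ j, ∑ k, |T.a j k| with hR
  set x : Fin 3 → ℝ := fun l => R * ∑ m, T.v m l + (1 - 4 * R) * T.v i l with hx
  refine ⟨fun l => ⌊x l⌋, fun j hj => ?_⟩
  have h1 : ∑ m, (∑ k, T.a j k * T.v m k + T.b j) = 1 := by simp [T.dual]
  have h2 := T.dual j i
  rw [if_neg hj] at h2
  have h3 : ∑ k, T.a j k * x k + T.b j = R := by
    simp only [hx, Fin.sum_univ_three, Fin.sum_univ_four] at h1 h2 ⊢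
    linear_combination R * h1 + (1 - 4 * R) * h2
  have h4 : ∑ k, |T.a j k| ≤ ∑ j, ∑ k, |T.a j k| :=
    single_le_sum (f := fun j => ∑ k, |T.a j k|)
      (fun _ _ => sum_nonneg fun _ _ => abs_nonneg _) (mem_univ j)
  have h5 : ∑ k, T.a j k * x k ≤ ∑ k, (T.a j k * (⌊x k⌋ : ℝ) + |T.a j k|) :=
    sum_le_sum fun k _ => by
      have e1 := Int.floor_le (x k)
      have e2 := Int.lt_floor_add_one (x k)
      have e3 := le_abs_self (T.a j k)
      have e4 := abs_nonneg (T.a j k)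
      nlinarith
  rw [sum_add_distrib] at h5
  unfold Tet.ev
  linarith

/-- the tetrahedron with its facets pushed out -/
noncomputable def grow (T : Tet) (c : Fin 4 → ℝ) (hc : 0 < 1 + ∑ j, c j) : Tet where
  a i k := T.a i k / (1 + ∑ j, c j)
  b i := (T.b i + c i) / (1 + ∑ j, c j)
  v j l := (1 + ∑ j, c j) * T.v j l - ∑ m, c m * T.v m l
  sa k := by rw [← sum_div, T.sa, zero_div]
  sb := by rw [← sum_div, sum_add_distrib, T.sb, div_self hc.ne']
  dual i j := by
    have h1 : ∑ m, c m * (∑ k, T.a i k * T.v m k + T.b i) = c i := by simp [T.dual]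
    rw [← T.dual i j]
    simp only [div_mul_eq_mul_div]
    rw [← sum_div, ← add_div, div_eq_iff hc.ne']
    simp only [Fin.sum_univ_three, Fin.sum_univ_four] at h1 ⊢
    linear_combination -h1

theorem grow_ev (T : Tet) (c : Fin 4 → ℝ) (hc : 0 < 1 + ∑ j, c j) (i : Fin 4) (z : Fin 3 → ℤ) :
    (grow T c hc).ev i z = (T.ev i z + c i) / (1 + ∑ j, c j) := by
  simp only [Tet.ev, grow, div_mul_eq_mul_div]
  rw [← sum_div, ← add_div, add_assoc]

end Block

theorem block (h : Push) : Block := by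
  intro T ho wi ge
  obtain ⟨c, p, c0, h1, h2, h3⟩ := h (Fin 3 → ℤ) 4 T.ev (Block.finite T) ho (Block.nonempty T)
  have hs : 0 ≤ ∑ j, c j := sum_nonneg fun j _ => c0 j
  have hc : 0 < 1 + ∑ j, c j := by linarith
  refine ⟨Block.grow T c hc, p, fun z => ?_, fun u hu => ?_, fun y hy i => ?_, fun i => ?_,
    fun i j hij => ?_⟩
  · obtain ⟨j, hj⟩ := h1 z
    exact ⟨j, by rw [Block.grow_ev]; exact div_nonpos_of_nonpos_of_nonneg hj hc.le⟩
  · obtain ⟨i, j, hij⟩ := wi u hu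
    refine ⟨i, j, ?_⟩
    have e : ∑ k, (u k : ℝ) * (Block.grow T c hc).v i k - ∑ k, (u k : ℝ) * (Block.grow T c hc).v j k =
        (1 + ∑ j, c j) * (∑ k, (u k : ℝ) * T.v i k - ∑ k, (u k : ℝ) * T.v j k) := by
      simp only [Block.grow, Fin.sum_univ_three]
      ring
    have := Real.sqrt_nonneg 2
    rw [e]
    nlinarith
  · have e : (Block.grow T c hc).lin i y = T.lin i y / (1 + ∑ j, c j) := by
      simp only [Tet.lin, Block.grow, div_mul_eq_mul_div]
      rw [← sum_div]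
    rw [e]
    exact div_ne_zero (ge y hy i) hc.ne'
  · rw [Block.grow_ev, h2, zero_div]
  · rw [Block.grow_ev]
    exact div_pos (h3 i j hij) hc

end Pool.Agent.P.MP_65d7bf_co
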