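import Pool.Agent.P.MP_65d7bf_co.St2

namespace Pool.Agent.P.MP_65d7bf_co

open Finset Matrix

namespace BridgeD

theorem det4 (M : Matrix (Fin 4) (Fin 4) ℝ) : M.det =
    M 0 0 * (M 1 1 * (M 2 2 * M 3 3 - M 2 3 * M 3 2) - M 1 2 * (M 2 1 * M 3 3 - M 2 3 * M 3 1) +
      M 1 3 * (M 2 1 * M 3 2 - M 2 2 * M 3 1)) -
    M 0 1 * (M 1 0 * (M 2 2 * M 3 3 - M 2 3 * M 3 2) - M 1 2 * (M 2 0 * M 3 3 - M 2 3 * M 3 0) +
      M 1 3 * (M 2 0 * M 3 2 - M 2 2 * M 3 0)) +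
    M 0 2 * (M 1 0 * (M 2 1 * M 3 3 - M 2 3 * M 3 1) - M 1 1 * (M 2 0 * M 3 3 - M 2 3 * M 3 0) +
      M 1 3 * (M 2 0 * M 3 1 - M 2 1 * M 3 0)) -
    M 0 3 * (M 1 0 * (M 2 1 * M 3 2 - M 2 2 * M 3 1) - M 1 1 * (M 2 0 * M 3 2 - M 2 2 * M 3 0) +
      M 1 2 * (M 2 0 * M 3 1 - M 2 1 * M 3 0)) := by
  rw [Matrix.det_succ_row_zero, Fin.sum_univ_four]
  simp only [Matrix.det_fin_three, Matrix.submatrix_apply]
  simp [Fin.succAbove, Fin.lt_def]
  ring

theorem row0 {A : Matrix (Fin 4) (Fin 4) ℝ} (h : ∀ j, ∑ i, A i j = 1) (j : Fin 4) :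
    A 0 j = 1 - A 1 j - A 2 j - A 3 j := by
  have := h j
  rw [Fin.sum_univ_four] at this
  linarith

theorem det_eq {A : Matrix (Fin 4) (Fin 4) ℝ} (h : ∀ j, ∑ i, A i j = 1) :
    (rowsOf A).det 0 = A.det := by
  rw [det4, row0 h 0, row0 h 1, row0 h 2, row0 h 3]
  simp only [rowsOf, Rows.det, X4.nv, R3.crs, R3.dot]
  push_cast
  ring

theorem phi_eq {A : Matrix (Fin 4) (Fin 4) ℝ} (h : ∀ j, ∑ i, A i j = 1) (a b c : ℝ) (i : Fin 4) :
    (rowsOf A).phi 0 ⟨a, b, c⟩ i =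
      (A.updateRow i ![0, a, b, c]).det - (A.updateRow 0 ![0, a, b, c]).det := by
  have h0 := row0 h 0
  have h1 := row0 h 1
  have h2 := row0 h 2
  have h3 := row0 h 3
  rw [det4, det4]
  fin_cases i
  · exact (sub_self _).symm
  · change ((((rowsOf A).r2.nv 0).crs ((rowsOf A).r3.nv 0)).dot ⟨a, b, c⟩) = _
    simp [rowsOf, X4.nv, R3.crs, R3.dot, Matrix.updateRow_apply, h0, h1, h2, h3]
    ring
  · change (-(((rowsOf A).r1.nv 0).crs ((rowsOf A).r3.nv 0)).dot ⟨a, b, c⟩) = _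
    simp [rowsOf, X4.nv, R3.crs, R3.dot, Matrix.updateRow_apply, h0, h1, h2, h3]
    ring
  · change ((((rowsOf A).r1.nv 0).crs ((rowsOf A).r2.nv 0)).dot ⟨a, b, c⟩) = _
    simp [rowsOf, X4.nv, R3.crs, R3.dot, Matrix.updateRow_apply, h0, h1, h2, h3]
    ring

theorem dz_eq (x o : ℕ) : dz x o = ((x / 2 ^ o % 256 : ℕ) : ℤ) - 128 := by
  unfold dz
  rw [Nat.shiftRight_eq_div_pow, show (255 : ℕ) = 2 ^ 8 - 1 from rfl,
    Nat.and_two_pow_sub_one_eq_mod]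

theorem sqrt_lt : (19601 : ℝ) / 5741 < 2 + √2 := by
  have : (8119 : ℝ) / 5741 < √2 := by
    apply Real.lt_sqrt_of_sq_lt
    norm_num
  linarith

end BridgeD

open BridgeD in
theorem bridgeD : BridgeD := by
  intro c g1 g2 g0 A hc hc' hg G Z
  have hs := G.sum
  have hd := det_eq hs
  obtain ⟨z0, zp⟩ := Z
  have p01 := zp 0 1 (by decide)
  have p02 := zp 0 2 (by decide)
  have p03 := zp 0 3 (by decide)
  have p10 := zp 1 0 (by decide)
  have p12 := zp 1 2 (by decide)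
  have p13 := zp 1 3 (by decide)
  have p20 := zp 2 0 (by decide)
  have p21 := zp 2 1 (by decide)
  have p23 := zp 2 3 (by decide)
  have p30 := zp 3 0 (by decide)
  have p31 := zp 3 1 (by decide)
  have p32 := zp 3 2 (by decide)
  have key : ∀ h a b k : ℤ, (c : ℤ) ∣ h → (c : ℤ) ∣ a - k * g1 → (c : ℤ) ∣ b - k * g2 →
      ∃ k' : ℤ, ∀ j, (c : ℤ) ∣ (![h - a - b - k, a, b, k] : Fin 4 → ℤ) j -
        k' * (![g0, g1, g2, 1] : Fin 4 → ℤ) j := by
    intro h a b k hh ha hb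
    refine ⟨k, fun j => ?_⟩
    fin_cases j
    · change (c : ℤ) ∣ h - a - b - k - k * g0
      have : h - a - b - k - k * g0 =
        h - (a - k * g1) - (b - k * g2) - k * (g0 + g1 + g2 + 1) := by ring
      rw [this]
      exact dvd_sub (dvd_sub (dvd_sub hh ha) hb) (dvd_mul_of_dvd_right hg k)
    · exact ha
    · exact hb
    · change (c : ℤ) ∣ k - k * 1
      simp
  have ev : ∀ (h a b k : ℤ) (i : Fin 4), ∑ j, A i j * ((![h - a - b - k, a, b, k] : Fin 4 → ℤ) j : ℝ) =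
      X4.ev ⟨A i 0, A i 1, A i 2, A i 3⟩ 0 h a b k := by
    intro h a b k i
    rw [Fin.sum_univ_four]
    simp [X4.ev]
    ring
  refine ⟨⟨?_, ?_, ?_, ?_, ?_, ?_, ?_, ?_, ?_, ?_, ?_, ?_, ?_, ?_⟩, ?_⟩
  · simpa [Fin.sum_univ_four, rowsOf] using hs 0
  · simpa [Fin.sum_univ_four, rowsOf] using hs 1
  · simpa [Fin.sum_univ_four, rowsOf] using hs 2
  · simpa [Fin.sum_univ_four, rowsOf, cD] using hs 3
  · change 0 < A 0 0 + A 0 1 + A 0 2 + A 0 3
    linarith [z0 0]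
  · change 0 < A 1 0 + A 1 1 + A 1 2 + A 1 3
    linarith [z0 1]
  · change 0 < A 2 0 + A 2 1 + A 2 2 + A 2 3
    linarith [z0 2]
  · change 0 < A 3 0 + A 3 1 + A 3 2 + A 3 3
    linarith [z0 3]
  · intro a b k ha hb n0 n1 n2 n3
    change NeP a b k 8421504 at n0
    change NeP a b k (8421504 + c) at n1
    change NeP a b k (8421504 + 256 * c) at n2
    change NeP a b k (8421504 + 65536 * c) at n3
    simp only [NeP, dz_eq] at n0 n1 n2 n3
    obtain ⟨i, hi⟩ := G.hol ![c - a - b - k, a, b, k] (by rw [Fin.sum_univ_four]; simp; ring)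
      (key c a b k dvd_rfl ha hb) (by
        intro i e
        have e1 : a = Pd c i 1 := congrFun e 1
        have e2 : b = Pd c i 2 := congrFun e 2
        have e3 : k = Pd c i 3 := congrFun e 3
        fin_cases i <;> simp [Pd] at e1 e2 e3 <;> omega)
    rw [ev] at hi
    fin_cases i
    · exact Or.inl (by exact_mod_cast hi)
    · exact Or.inr (Or.inl (by exact_mod_cast hi))
    · exact Or.inr (Or.inr (Or.inl (by exact_mod_cast hi)))
    · exact Or.inr (Or.inr (Or.inr (by exact_mod_cast hi)))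
  · intro a b k hn hdv
    obtain ⟨i, j, hij⟩ := G.wid ![0, a, b, k] (by
        rw [Fin.sum_univ_four]
        simpa [cD] using hdv) (by
        rcases hn with h | h | h
        exacts [⟨1, 0, h⟩, ⟨2, 0, h⟩, ⟨3, 0, h⟩])
    have e : (fun j => ((![0, a, b, k] : Fin 4 → ℤ) j : ℝ)) = ![0, (a : ℝ), b, k] := by
      funext j
      fin_cases j <;> simp
    rw [e] at hij
    refine ⟨i, i.2, j, j.2, ?_⟩
    change 19601 * (rowsOf A).det 0 ^ 2 < 5741 * ((rowsOf A).det 0 *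
      ((rowsOf A).phi 0 ⟨a, b, k⟩ i - (rowsOf A).phi 0 ⟨a, b, k⟩ j))
    rw [hd, phi_eq hs, phi_eq hs]
    have hD : A.det ≠ 0 := by
      intro h
      have := G.vol
      rw [h, abs_zero] at this
      have h2 : (0 : ℝ) ≤ ((c : ℤ) : ℝ) / 80 := by positivity
      linarith
    have hq : 0 < A.det ^ 2 := by positivity
    have h1 := mul_lt_mul_of_pos_right (sqrt_lt.trans hij) hq
    have h2 : ∀ x : ℝ, x / A.det * A.det ^ 2 = A.det * x := by
      intro x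
      field_simp
    rw [h2] at h1
    linarith
  · intro a b k hn ha hb
    have h := G.cho ![0 - a - b - k, a, b, k] (by rw [Fin.sum_univ_four]; simp; ring)
      (key 0 a b k (dvd_zero _) ha hb) (by
        intro e
        have e1 : a = 0 := congrFun e 1
        have e2 : b = 0 := congrFun e 2
        have e3 : k = 0 := congrFun e 3
        omega)
    rw [Fin.sum_univ_four, ev, ev, ev, ev] at h
    change 14 * (c : ℝ) < 19 * (|X4.ev ⟨A 0 0, A 0 1, A 0 2, A 0 3⟩ 0 0 a b k| +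
      |X4.ev ⟨A 1 0, A 1 1, A 1 2, A 1 3⟩ 0 0 a b k| +
      |X4.ev ⟨A 2 0, A 2 1, A 2 2, A 2 3⟩ 0 0 a b k| +
      |X4.ev ⟨A 3 0, A 3 1, A 3 2, A 3 3⟩ 0 0 a b k|)
    push_cast at h
    linarith
  · have h := G.vol
    change (c : ℝ) < 80 * |(rowsOf A).det 0|
    rw [hd]
    push_cast at h
    linarith
  · intro h
    exact absurd h (by simp [cD])
  · intro h
    exact absurd h (by simp [cD])
  · intro s
    refine ⟨⟨⟨A 0 1, A 0 2, A 0 3⟩, ⟨p01.le, p02.le, p03.le⟩, ?_⟩,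
      ⟨⟨A 1 0, A 1 2, A 1 3⟩, ⟨p10.le, p12.le, p13.le⟩, ?_⟩,
      ⟨⟨A 2 0, A 2 1, A 2 3⟩, ⟨p20.le, p21.le, p23.le⟩, ?_⟩,
      ⟨⟨A 3 0, A 3 1, A 3 2⟩, ⟨p30.le, p31.le, p32.le⟩, ?_⟩⟩ <;>
    simp [InT, root, rowsOf, z0]

end Pool.Agent.P.MP_65d7bf_co
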