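import Pool.Agent.P.MP_65d7bf_co.BridgeD

namespace Pool.Agent.P.MP_65d7bf_co

open Finset Matrix

namespace BridgeS

theorem nv_eq (a b c d : ℝ) :
    X4.nv ⟨a, b, c, d + a + b + c⟩ 1 = X4.nv ⟨a, b, c, d⟩ 0 := by
  simp only [X4.nv, R3.mk.injEq]
  push_cast
  refine ⟨trivial, trivial, ?_⟩
  ring

theorem detS (A : Matrix (Fin 4) (Fin 4) ℝ) : (rowsS A).det 1 = (rowsOf A).det 0 := by
  simp only [Rows.det, rowsS, rowsOf, nv_eq]

theorem phiS (A : Matrix (Fin 4) (Fin 4) ℝ) (u : R3) (a : ℕ) :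
    (rowsS A).phi 1 u a = (rowsOf A).phi 0 u a := by
  simp only [Rows.phi, rowsS, rowsOf, nv_eq]

theorem cof (A : Matrix (Fin 4) (Fin 4) ℝ) :
    A 0 0 * (A.updateRow 0 ![0, 0, 0, 1]).det + A 1 0 * (A.updateRow 1 ![0, 0, 0, 1]).det +
      A 2 0 * (A.updateRow 2 ![0, 0, 0, 1]).det + A 3 0 * (A.updateRow 3 ![0, 0, 0, 1]).det = 0 := by
  simp only [BridgeD.det4]
  simp [Matrix.updateRow_apply]
  ring

theorem cof1 (A : Matrix (Fin 4) (Fin 4) ℝ) : (A.updateRow 1 ![0, 0, 0, 1]).det =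
    A 0 0 * (A 2 1 * A 3 2 - A 2 2 * A 3 1) - A 0 1 * (A 2 0 * A 3 2 - A 2 2 * A 3 0) +
      A 0 2 * (A 2 0 * A 3 1 - A 2 1 * A 3 0) := by
  simp only [BridgeD.det4]
  simp [Matrix.updateRow_apply]

theorem dir_eq : (dirU (67896321 >>> 2)).re = ⟨0, 0, 1⟩ := by
  have : dirU (67896321 >>> 2) = ⟨0, 0, 0, 0, 1, 0⟩ := rfl
  rw [this]
  simp [U.re]

theorem ev_eq (A : Matrix (Fin 4) (Fin 4) ℝ) (h a b k : ℤ) (i : Fin 4) :
    ∑ j, A i j * ((![h - a - b - 3 * k, a + k, b + k, k] : Fin 4 → ℤ) j : ℝ) =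
      X4.ev ⟨A i 0, A i 1, A i 2, A i 3 + A i 0 + A i 1 + A i 2⟩ 1 h a b k := by
  rw [Fin.sum_univ_four]
  simp [X4.ev]
  ring

end BridgeS

open BridgeD BridgeS in
theorem bridgeS : BridgeS := by
  intro A G C T
  have hs := G.sum
  have hd : (rowsS A).det 1 = A.det := (detS A).trans (det_eq hs)
  have hp : ∀ (a b c : ℝ) (i : Fin 4), (rowsS A).phi 1 ⟨a, b, c⟩ i =
      (A.updateRow i ![0, a, b, c]).det - (A.updateRow 0 ![0, a, b, c]).det :=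
    fun a b c i => (phiS A _ _).trans (phi_eq hs a b c i)
  obtain ⟨⟨a0, a1, a2, a3⟩, ⟨b0, b1, b2, b3⟩, ⟨c0, c1, c2, c3⟩, d0, d1, d2, d3⟩ := C
  obtain ⟨t0, t1, t2, t3, t4⟩ := T
  have hsq : (0 : ℝ) ≤ √2 := Real.sqrt_nonneg 2
  have hD1 : 0 < (A.updateRow 1 ![0, 0, 0, 1]).det := by
    rw [cof1, a0, d0, c0]
    have e1 := mul_pos (mul_pos a1 c2) d1
    have e2 := mul_pos a2 (mul_pos c1 (sub_pos.2 d2))
    have e3 := mul_pos a2 (mul_pos c2 (d1.trans d2))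
    nlinarith
  have hpos : 0 < A.det := by
    have h1 : 0 < hgt A 1 := by linarith
    unfold hgt at h1
    exact (div_pos_iff_of_pos_left hD1).1 h1
  have hq : 0 < A.det ^ 2 := by positivity
  have h2 : ∀ x : ℝ, x / A.det * A.det ^ 2 = A.det * x := by
    intro x
    field_simp
  have s0 := hs 0
  have s1 := hs 1
  have s2 := hs 2
  have s3 := hs 3
  rw [Fin.sum_univ_four] at s0 s1 s2 s3
  refine ⟨⟨s0, s1, s2, ?_, ?_, ?_, ?_, ?_, ?_, ?_, ?_, ?_, ?_, ?_⟩, hd ▸ hpos, ?_, ?_⟩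
  · change (A 0 3 + A 0 0 + A 0 1 + A 0 2) + (A 1 3 + A 1 0 + A 1 1 + A 1 2) +
      (A 2 3 + A 2 0 + A 2 1 + A 2 2) + (A 3 3 + A 3 0 + A 3 1 + A 3 2) = 3 * ((1 : ℕ) : ℝ) + 1
    push_cast
    linarith
  · change 0 < A 0 0 + A 0 1 + A 0 2 + (A 0 3 + A 0 0 + A 0 1 + A 0 2)
    linarith
  · change 0 < A 1 0 + A 1 1 + A 1 2 + (A 1 3 + A 1 0 + A 1 1 + A 1 2)
    linarith
  · change 0 < A 2 0 + A 2 1 + A 2 2 + (A 2 3 + A 2 0 + A 2 1 + A 2 2)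
    linarith
  · change 0 < A 3 0 + A 3 1 + A 3 2 + (A 3 3 + A 3 0 + A 3 1 + A 3 2)
    linarith
  · intro a b k _ _ n0 n1 n2 n3
    change NeP a b k 8421504 at n0
    change NeP a b k 8421505 at n1
    change NeP a b k 8421761 at n2
    change NeP a b k 8421760 at n3
    simp only [NeP, dz_eq] at n0 n1 n2 n3
    obtain ⟨i, hi⟩ := G.hol ![1 - a - b - 3 * k, a + k, b + k, k]
      (by rw [Fin.sum_univ_four]; simp; ring) ⟨0, fun j => one_dvd _⟩ (by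
        intro i e
        have e1 : a + k = Psq i 1 := congrFun e 1
        have e2 : b + k = Psq i 2 := congrFun e 2
        have e3 : k = Psq i 3 := congrFun e 3
        fin_cases i <;> simp [Psq] at e1 e2 e3 <;> omega)
    rw [ev_eq, show ((1 : ℤ) : ℝ) = ((1 : ℕ) : ℝ) by simp] at hi
    fin_cases i
    · exact Or.inl hi
    · exact Or.inr (Or.inl hi)
    · exact Or.inr (Or.inr (Or.inl hi))
    · exact Or.inr (Or.inr (Or.inr hi))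
  · intro a b k hn _
    obtain ⟨i, j, hij⟩ := G.wid ![0, a, b, k] (one_dvd _) (by
        rcases hn with h | h | h
        exacts [⟨1, 0, h⟩, ⟨2, 0, h⟩, ⟨3, 0, h⟩])
    have e : (fun j => ((![0, a, b, k] : Fin 4 → ℤ) j : ℝ)) = ![0, (a : ℝ), b, k] := by
      funext j
      fin_cases j <;> simp
    rw [e] at hij
    refine ⟨i, i.2, j, j.2, ?_⟩
    change 19601 * (rowsS A).det 1 ^ 2 < 5741 * ((rowsS A).det 1 *
      ((rowsS A).phi 1 ⟨a, b, k⟩ i - (rowsS A).phi 1 ⟨a, b, k⟩ j))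
    rw [hd, hp, hp]
    have h1 := mul_lt_mul_of_pos_right (sqrt_lt.trans hij) hq
    rw [h2] at h1
    linarith
  · intro a b k hn _ _
    have h := G.cho ![0 - a - b - 3 * k, a + k, b + k, k]
      (by rw [Fin.sum_univ_four]; simp; ring) ⟨0, fun j => one_dvd _⟩ (by
        intro e
        have e1 : a + k = 0 := congrFun e 1
        have e2 : b + k = 0 := congrFun e 2
        have e3 : k = 0 := congrFun e 3
        omega)
    rw [Fin.sum_univ_four, ev_eq, ev_eq, ev_eq, ev_eq] at h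
    change 14 * ((1 : ℕ) : ℝ) <
      19 * (|X4.ev ⟨A 0 0, A 0 1, A 0 2, A 0 3 + A 0 0 + A 0 1 + A 0 2⟩ 1 0 a b k| +
      |X4.ev ⟨A 1 0, A 1 1, A 1 2, A 1 3 + A 1 0 + A 1 1 + A 1 2⟩ 1 0 a b k| +
      |X4.ev ⟨A 2 0, A 2 1, A 2 2, A 2 3 + A 2 0 + A 2 1 + A 2 2⟩ 1 0 a b k| +
      |X4.ev ⟨A 3 0, A 3 1, A 3 2, A 3 3 + A 3 0 + A 3 1 + A 3 2⟩ 1 0 a b k|)
    push_cast at h ⊢
    linarith
  · have h := G.vol
    change ((1 : ℕ) : ℝ) < 80 * |(rowsS A).det 1|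
    rw [hd]
    push_cast at h ⊢
    linarith
  · intro h
    exact absurd h (by simp [cS])
  · intro _
    change 19601 * (rowsS A).det 1 ^ 2 < 11482 * ((rowsS A).det 1 *
      (A 0 0 * ((rowsS A).phi 1 ⟨0, 0, 1⟩ (1 : Fin 4) - (rowsS A).phi 1 ⟨0, 0, 1⟩ (0 : Fin 4)) +
        A 2 0 * ((rowsS A).phi 1 ⟨0, 0, 1⟩ (1 : Fin 4) - (rowsS A).phi 1 ⟨0, 0, 1⟩ (2 : Fin 4)) +
        A 3 0 * ((rowsS A).phi 1 ⟨0, 0, 1⟩ (1 : Fin 4) - (rowsS A).phi 1 ⟨0, 0, 1⟩ (3 : Fin 4))))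
    rw [hd, hp, hp, hp, hp]
    have hc := cof A
    have hb : A 0 0 * (((A.updateRow 1 ![0, 0, 0, 1]).det - (A.updateRow 0 ![0, 0, 0, 1]).det) -
          ((A.updateRow 0 ![0, 0, 0, 1]).det - (A.updateRow 0 ![0, 0, 0, 1]).det)) +
        A 2 0 * (((A.updateRow 1 ![0, 0, 0, 1]).det - (A.updateRow 0 ![0, 0, 0, 1]).det) -
          ((A.updateRow 2 ![0, 0, 0, 1]).det - (A.updateRow 0 ![0, 0, 0, 1]).det)) +
        A 3 0 * (((A.updateRow 1 ![0, 0, 0, 1]).det - (A.updateRow 0 ![0, 0, 0, 1]).det) -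
          ((A.updateRow 3 ![0, 0, 0, 1]).det - (A.updateRow 0 ![0, 0, 0, 1]).det)) =
        (A.updateRow 1 ![0, 0, 0, 1]).det := by
      linear_combination (A.updateRow 1 ![0, 0, 0, 1]).det * s0 - hc
    rw [hb]
    have h1 := mul_lt_mul_of_pos_right (sqrt_lt.trans t4) hq
    unfold hgt at h1
    rw [mul_assoc, h2] at h1
    linarith
  · have r1 : InR ⟨1, 0, 1, 2, 1, 0, 2, 2, 0, 0, 0, 1⟩ (rowsS A).r1 := by
      refine ⟨⟨2 * A 1 0 - A 1 2, A 1 2 - A 1 0, A 1 3 + A 1 2 - A 1 0⟩,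
        ⟨sub_nonneg.2 t2, sub_nonneg.2 b2.le, b3⟩, ?_⟩
      simp only [InT, rowsS]
      push_cast
      refine ⟨?_, ?_, ?_, ?_⟩ <;> linarith
    have r2 : InR ⟨1, 1, 0, 2, 1, 0, 1, 2, 0, 0, 0, 1⟩ (rowsS A).r2 := by
      refine ⟨⟨A 2 1, A 2 2, A 2 3⟩, ⟨c1.le, c2.le, c3⟩, ?_⟩
      simp only [InT, rowsS]
      push_cast
      refine ⟨?_, ?_, ?_, ?_⟩ <;> linarith
    have r0 : ∃ i : Bool, InR (Bool.rec ⟨0, 1, 0, 0, 0, 0, 1, 0, 0, 0, 1, 1⟩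
        ⟨0, 1, 0, 0, 0, 0, 1, 1, 0, 1, 0, 1⟩ i) (rowsS A).r0 := by
      rcases le_total (A 0 3 + A 0 1) 0 with h | h
      · refine ⟨false, ⟨A 0 1, -(A 0 3 + A 0 1), A 0 1 + A 0 2 + A 0 3⟩,
          ⟨a1.le, neg_nonneg.2 h, a3⟩, ?_⟩
        simp only [InT, rowsS]
        push_cast
        refine ⟨?_, ?_, ?_, ?_⟩ <;> linarith
      · refine ⟨true, ⟨-A 0 3, A 0 2, A 0 3 + A 0 1⟩, ⟨neg_nonneg.2 t0, a2.le, h⟩, ?_⟩
        simp only [InT, rowsS]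
        push_cast
        refine ⟨?_, ?_, ?_, ?_⟩ <;> linarith
    have r3 : ∃ j : Bool, InR (Bool.rec ⟨1, 1, 0, 2, 0, 1, 0, 0, 0, 1, 0, 1⟩
        ⟨1, 1, 0, 2, 0, 1, 0, 1, 1, 1, 0, 3⟩ j) (rowsS A).r3 := by
      rcases le_total (A 3 3) 0 with h | h
      · refine ⟨false, ⟨A 3 0, -A 3 3, A 3 3 + A 3 1 - A 3 0⟩, ⟨d1.le, neg_nonneg.2 h, d3⟩, ?_⟩
        simp only [InT, rowsS]
        push_cast
        refine ⟨?_, ?_, ?_, ?_⟩ <;> linarith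
      · refine ⟨true, ⟨A 3 0 - A 3 3, A 3 1 - A 3 0, A 3 3⟩,
          ⟨sub_nonneg.2 t1, sub_nonneg.2 d2.le, h⟩, ?_⟩
        simp only [InT, rowsS]
        push_cast
        refine ⟨?_, ?_, ?_, ?_⟩ <;> linarith
    obtain ⟨i, r0⟩ := r0
    obtain ⟨j, r3⟩ := r3
    exact ⟨i, j, r0, r1, r2, r3⟩
  · intro h hh
    rw [List.mem_singleton] at hh
    subst hh
    intro a ha
    rw [dir_eq]
    change 1 * (rowsS A).phi 1 ⟨0, 0, 1⟩ (⟨a, ha⟩ : Fin 4) ≤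
      1 * (rowsS A).phi 1 ⟨0, 0, 1⟩ (1 : Fin 4)
    rw [hp, hp]
    have h1 := t3 ⟨a, ha⟩
    unfold hgt at h1
    rw [div_le_div_iff_of_pos_right hpos] at h1
    linarith

end Pool.Agent.P.MP_65d7bf_co
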