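import Pool.Agent.P.MP_65d7bf_co.Spec

namespace Pool.Agent.P.MP_65d7bf_co

namespace CandS

theorem band {X c : Bool} (h : @Bool.rec (fun _ => Bool) false X c = true) :
    c = true ∧ X = true := by
  cases c
  · exact absurd h Bool.false_ne_true
  · exact ⟨rfl, h⟩

theorem bimp {X c : Bool} (h : @Bool.rec (fun _ => Bool) true X c = true) (hc : c = true) :
    X = true := by
  subst hc
  exact h

theorem bor {X c : Bool} (h : @Bool.rec (fun _ => Bool) X true c = true) :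
    c = true ∨ X = true := by
  cases c
  · exact Or.inr h
  · exact Or.inl rfl

theorem all4_ok {f : ℕ → Bool} (h : all4 f = true) : ∀ a < 4, f a = true := by
  obtain ⟨h0, h⟩ := band h
  obtain ⟨h1, h⟩ := band h
  obtain ⟨h2, h3⟩ := band h
  intro a ha
  interval_cases a <;> assumption

theorem sgn_sq (s : Bool) : sgn s * sgn s = 1 := by
  cases s
  · change (-1 : ℝ) * (-1) = 1
    ring
  · exact one_mul 1

theorem re_sg (u : U) (s : Bool) :
    (u.sg s).re = ⟨sgn s * u.re.a, sgn s * u.re.b, sgn s * u.re.c⟩ := by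
  obtain ⟨xp, xn, yp, yn, zp, zn⟩ := u
  cases s
  · change R3.mk ((xn : ℝ) - xp) ((yn : ℝ) - yp) ((zn : ℝ) - zp) =
      ⟨-1 * ((xp : ℝ) - xn), -1 * ((yp : ℝ) - yn), -1 * ((zp : ℝ) - zn)⟩
    congr 1 <;> ring
  · change R3.mk ((xp : ℝ) - xn) ((yp : ℝ) - yn) ((zp : ℝ) - zn) =
      ⟨1 * ((xp : ℝ) - xn), 1 * ((yp : ℝ) - yn), 1 * ((zp : ℝ) - zn)⟩
    congr 1 <;> ring

theorem neg_sg (u : U) (s : Bool) : ((u.sg false).sg s).re = ((u.sg true).sg s).re.neg := by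
  have s1 : sgn true = 1 := rfl
  have s0 : sgn false = -1 := rfl
  rw [re_sg, re_sg, re_sg, re_sg, s0, s1]
  simp only [R3.neg]
  congr 1 <;> ring

theorem phi_sg (R : Rows) (k : ℕ) (u : U) (s : Bool) {a : ℕ} (ha : a < 4) :
    R.phi k (u.sg s).re a = sgn s * R.phi k u.re a := by
  rw [re_sg]
  interval_cases a
  · exact (mul_zero _).symm
  · change R3.dot _ _ = _ * R3.dot _ _
    simp only [R3.dot]
    ring
  · change -R3.dot _ _ = _ * -R3.dot _ _
    simp only [R3.dot]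
    ring
  · change R3.dot _ _ = _ * R3.dot _ _
    simp only [R3.dot]
    ring

theorem look_top {k : ℕ} {s : Bool} {R : Rows} {key : ℕ} (ctx : List ℕ) (hc : Ctx k s R ctx)
    (h : look ctx key ≤ 3) : IsTop k s R key (look ctx key) := by
  induction ctx with
  | nil => exact absurd h (by change ¬ 4 ≤ 3; omega)
  | cons x t ih =>
    have e : look (x :: t) key = @Bool.rec (fun _ => ℕ) (look t key) (Nat.land x 3)
      (Nat.beq (Nat.shiftRight x 2) key) := rfl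
    rw [e] at h ⊢
    cases hb : Nat.beq (Nat.shiftRight x 2) key
    · rw [hb] at h
      exact ih (fun y hy => hc y (List.mem_cons_of_mem _ hy)) h
    · have := hc x List.mem_cons_self
      rw [← Nat.eq_of_beq_eq_true hb]
      exact this

theorem dg_le (a b i : ℕ) : dg a b i ≤ 2 := by
  unfold dg
  split_ifs <;> omega

theorem dir_even (n : ℕ) : dirU (Nat.mul 2 n) = (dec3 n).sg true := by
  have e1 : Nat.shiftRight (Nat.mul 2 n) 1 = n := by
    change (2 * n) >>> 1 = n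
    rw [Nat.shiftRight_eq_div_pow]
    omega
  have e2 : Nat.land (Nat.mul 2 n) 1 = 0 := by
    change (2 * n) &&& 1 = 0
    rw [Nat.and_one_is_mod]
    omega
  unfold dirU
  rw [e1, e2]
  rfl

theorem dir_odd (n : ℕ) : dirU (Nat.succ (Nat.mul 2 n)) = (dec3 n).sg false := by
  have e1 : Nat.shiftRight (Nat.succ (Nat.mul 2 n)) 1 = n := by
    change (2 * n + 1) >>> 1 = n
    rw [Nat.shiftRight_eq_div_pow]
    omega
  have e2 : Nat.land (Nat.succ (Nat.mul 2 n)) 1 = 1 := by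
    change (2 * n + 1) &&& 1 = 1
    rw [Nat.and_one_is_mod]
    omega
  unfold dirU
  rw [e1, e2]
  rfl

theorem nz_ok (u : U) (h : nz u = true) :
    (u.xp : ℤ) - u.xn ≠ 0 ∨ (u.yp : ℤ) - u.yn ≠ 0 ∨ (u.zp : ℤ) - u.zn ≠ 0 := by
  obtain ⟨xp, xn, yp, yn, zp, zn⟩ := u
  by_contra hn
  have e1 : xp = xn := by dsimp only at hn; omega
  have e2 : yp = yn := by dsimp only at hn; omega
  have e3 : zp = zn := by dsimp only at hn; omega
  subst e1 e2 e3
  exact Bool.false_ne_true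
    (bimp (bimp (bimp h (Nat.beq_refl _)) (Nat.beq_refl _)) (Nat.beq_refl _))

theorem okD_ok (cf : Cfg) (u : U) (h : okD cf u = true) : (cf.c : ℤ) ∣
    ((u.xp : ℤ) - u.xn) * cf.g1 + ((u.yp : ℤ) - u.yn) * cf.g2 + ((u.zp : ℤ) - u.zn) := by
  obtain ⟨xp, xn, yp, yn, zp, zn⟩ := u
  have h1 : (xp * cf.g1 + yp * cf.g2 + zp) % cf.c = (xn * cf.g1 + yn * cf.g2 + zn) % cf.c :=
    Nat.eq_of_beq_eq_true h
  have h2 := (Nat.modEq_iff_dvd.1 h1.symm)
  convert h2 using 1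
  push_cast
  ring

def dl (a i : ℕ) : ℕ := if i = a then 1 else 0

theorem deg {e : Env} {d0 d1 d2 d3 c0 c1 c2 c3 : ℕ} {x v} (h : RQ e d0 d1 d2 d3 x v)
    (h0 : d0 = c0) (h1 : d1 = c1) (h2 : d2 = c2) (h3 : d3 = c3) : RQ e c0 c1 c2 c3 x v := by
  subst h0 h1 h2 h3
  exact h

theorem dg_dl {a b : ℕ} (h : a ≠ b) (i : ℕ) : dg a b i + (dl a i + dl b i) = 1 := by
  unfold dg dl
  split_ifs <;> omega

theorem wsel {e : Env} {k : ℕ} {s : Bool} {R : Rows} {l : Lf} (h : LfOk e k s R l) :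
    ∃ W : ℕ → ℝ, ∀ a < 4, 0 < W a ∧ RN e (dl a 0) (dl a 1) (dl a 2) (dl a 3)
      (sel a l.w0 l.w1 l.w2 l.w3) (sel a l.m0 l.m1 l.m2 l.m3) (W a) ∧
      RQ e 1 1 1 1 (sel a l.e0 l.e1 l.e2 l.e3) (sgn s * R.det k * W a) := by
  obtain ⟨W0, W1, W2, W3, p0, p1, p2, p3, n0, n1, n2, n3, q0, q1, q2, q3⟩ := h.w
  refine ⟨fun a => sel a W0 W1 W2 W3, fun a ha => ?_⟩
  interval_cases a
  exacts [⟨p0, n0, q0⟩, ⟨p1, n1, q1⟩, ⟨p2, n2, q2⟩, ⟨p3, n3, q3⟩]

end CandS

open CandS in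
theorem candSpec : CandSpec := by
  intro e k s R p ctx key j v hp hc hv h
  unfold candOk at h
  unfold candAl
  cases hj : Nat.ble 256 j
  · rw [hj] at h
    have h4 := all4_ok h
    obtain ⟨a, ha, hm⟩ := Finset.exists_max_image (Finset.range 4)
      (fun a => sgn s * R.phi k (dirU key).re a) ⟨0, by simp⟩
    rw [Finset.mem_range] at ha
    have hm' : IsTop k s R key a := fun i hi => hm i (Finset.mem_range.2 hi)
    rcases bor (h4 a ha) with h1 | h1
    · exact ⟨a, ha, h1, hm'⟩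
    · obtain ⟨h2, h3⟩ := band h1
      have hd : Nat.land (Nat.shiftRight j (Nat.mul 2 a)) 3 < 4 :=
        Nat.lt_succ_of_le Nat.and_le_right
      refine ⟨_, hd, h2, fun i hi => (hm' i hi).trans ?_⟩
      have := hp.ng _ _ _ _ _ _ (dg_le _ _ _) (dg_le _ _ _) (dg_le _ _ _) (dg_le _ _ _)
        (hp.ee _ v a _ ha hd hv) h3
      rw [phi_sg _ _ _ _ ha, phi_sg _ _ _ _ hd] at this
      linarith
  · rw [hj] at h
    have h3 := Nat.le_of_ble_eq_true h
    exact ⟨look ctx key, Nat.lt_succ_of_le h3, Nat.beq_refl _, look_top ctx hc h3⟩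

open CandS in
theorem colW_ok (h : CandSpec) : ColW := by
  intro cf st R e l n j1 j2 lam a hl hlam k hk
  unfold colW at hk
  cases hnz : nz (dec3 n) <;> rw [hnz] at hk
  · exact absurd hk Bool.false_ne_true
  cases hD : okD cf (dec3 n) <;> rw [hD] at hk
  · exact absurd hk Bool.false_ne_true
  dsimp only at hk
  unfold colW1 at hk
  obtain ⟨c1, hk⟩ := band hk
  obtain ⟨c2, hk⟩ := band hk
  have s1 : sgn true = 1 := rfl
  have s0 : sgn false = -1 := rfl
  have hv : ((dirU (Nat.succ (Nat.mul 2 n))).sg st.s).re =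
      ((dirU (Nat.mul 2 n)).sg st.s).re.neg := by
    rw [dir_even, dir_odd]
    exact neg_sg _ _
  have hu : ((dirU (Nat.mul 2 n)).sg st.s).re =
      ((dirU (Nat.succ (Nat.mul 2 n))).sg st.s).re.neg := by
    rw [hv]
    simp only [R3.neg, neg_neg]
  obtain ⟨x, hx, ax, tx⟩ := h _ _ _ _ _ _ _ _ _ hl.p a.cx hv c1
  obtain ⟨y, hy, ay, ty⟩ := h _ _ _ _ _ _ _ _ _ hl.p a.cx hu c2
  obtain ⟨i, hi, j, hj, hw⟩ := a.fx.wid _ _ _ (nz_ok _ hnz) (okD_ok cf _ hD)
  have hre : (⟨((((dec3 n).xp : ℤ) - (dec3 n).xn : ℤ) : ℝ), ((((dec3 n).yp : ℤ) - (dec3 n).yn : ℤ) : ℝ),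
      ((((dec3 n).zp : ℤ) - (dec3 n).zn : ℤ) : ℝ)⟩ : R3) = (dec3 n).re := by
    simp only [U.re]
    push_cast
    rfl
  rw [hre] at hw
  have t1 := tx i hi
  have t2 := ty j hj
  rw [dir_even, phi_sg _ _ _ _ hi, phi_sg _ _ _ _ hx, s1] at t1
  rw [dir_odd, phi_sg _ _ _ _ hj, phi_sg _ _ _ _ hy, s0] at t2
  have hd := a.dt
  have hs := sgn_sq st.s
  have key : 19601 * (sgn st.s * R.det cf.ka) ^ 2 < 5741 * (sgn st.s * R.det cf.ka *
      (sgn st.s * R.phi cf.ka (dec3 n).re x - sgn st.s * R.phi cf.ka (dec3 n).re y)) := by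
    have e1 : (sgn st.s * R.det cf.ka) ^ 2 = R.det cf.ka ^ 2 := by
      linear_combination R.det cf.ka ^ 2 * hs
    have e2 : R.det cf.ka * (R.phi cf.ka (dec3 n).re i - R.phi cf.ka (dec3 n).re j) =
        sgn st.s * R.det cf.ka *
          (sgn st.s * R.phi cf.ka (dec3 n).re i - sgn st.s * R.phi cf.ka (dec3 n).re j) := by
      linear_combination (-(R.det cf.ka *
        (R.phi cf.ka (dec3 n).re i - R.phi cf.ka (dec3 n).re j))) * hs
    have e3 := mul_le_mul_of_nonneg_left (show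
      sgn st.s * R.phi cf.ka (dec3 n).re i - sgn st.s * R.phi cf.ka (dec3 n).re j ≤
      sgn st.s * R.phi cf.ka (dec3 n).re x - sgn st.s * R.phi cf.ka (dec3 n).re y by linarith) hd.le
    rw [e1]
    rw [e2] at hw
    linarith
  have hxy : x ≠ y := by
    rintro rfl
    rw [sub_self, mul_zero, mul_zero] at key
    have := sq_nonneg (sgn st.s * R.det cf.ka)
    linarith
  have hk' := (bor (bimp (all4_ok (bimp (all4_ok hk x hx) ax) y hy) ay)).resolve_left
    fun h1 => hxy (Nat.eq_of_beq_eq_true h1)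
  obtain ⟨W, hW⟩ := wsel hl
  obtain ⟨px, nx, qx⟩ := hW x hx
  obtain ⟨py, ny, qy⟩ := hW y hy
  have he := deg ((hl.p.ee _ _ x y hx hy hv).muln (nx.mul ny)) (dg_dl hxy 0) (dg_dl hxy 1)
    (dg_dl hxy 2) (dg_dl hxy 3)
  refine ⟨_, _, ?_, rq_optF (Nat.mul 5741 lam) (Nat.mul 19601 lam) hl.S he qx qy, hk'⟩
  rw [phi_sg _ _ _ _ hx, phi_sg _ _ _ _ hy, dir_even, phi_sg _ _ _ _ hx, phi_sg _ _ _ _ hy, s1]
  simp only [Nat.mul_eq]
  push_cast
  have hl' : (0 : ℝ) < lam := Nat.cast_pos.2 hlam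
  have := mul_pos (mul_pos hl' (mul_pos px py)) (sub_pos.2 key)
  linarith

open CandS in
theorem wbrSpec (hP : PreSpec) (h : CandSpec) : WbrSpec := by
  intro cf st R e b x f0 f1 f2 f3 a hb hw
  have hp := hP cf st R e b a hb
  have hc := a.cx
  obtain ⟨s, r0, r1, r2, r3, ctx⟩ := st
  obtain ⟨c1, hk⟩ := band hw
  have hv : ((dirU (Nat.shiftRight x 9)).sg (Bool.rec true false s)).re =
      ((dirU (Nat.shiftRight x 9)).sg s).re.neg := by
    rw [re_sg, re_sg]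
    have : sgn (Bool.rec true false s) = -sgn s := by
      cases s
      · exact (neg_neg (1 : ℝ)).symm
      · rfl
    rw [this]
    simp only [R3.neg, neg_mul]
  obtain ⟨y, hy, ay, ty⟩ := h _ _ _ _ _ _ _ _ _ hp hc hv c1
  have hf := bimp (all4_ok hk y hy) ay
  refine ⟨Nat.add (Nat.mul 4 (Nat.shiftRight x 9)) y, ?_, ?_⟩
  · have e1 : Nat.add (Nat.mul 4 (Nat.shiftRight x 9)) y >>> 2 = Nat.shiftRight x 9 := by
      rw [Nat.shiftRight_eq_div_pow]
      simp only [Nat.add_eq, Nat.mul_eq]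
      omega
    have e2 : Nat.add (Nat.mul 4 (Nat.shiftRight x 9)) y &&& 3 = y := by
      rw [show (3 : ℕ) = 2 ^ 2 - 1 from rfl, Nat.and_two_pow_sub_one_eq_mod]
      simp only [Nat.add_eq, Nat.mul_eq]
      omega
    rw [e1, e2]
    exact ty
  · interval_cases y
    exacts [Or.inl hf, Or.inr (Or.inl hf), Or.inr (Or.inr (Or.inl hf)),
      Or.inr (Or.inr (Or.inr hf))]

end Pool.Agent.P.MP_65d7bf_co
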