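import Pool.Agent.P.MP_65d7bf_co.St

namespace Pool.Agent.P.MP_65d7bf_co

namespace Cases

/-- Three blocking points span the lattice. -/
theorem uni (h3 : Tri) {n : ℕ} {a b c : Fin n → ℝ} {p q : Fin n → ℤ} (hf : Free2 (Pol a b c))
    (hb : Blocked2 a b c p q) {i j k : Fin n} (hij : i ≠ j) (hik : i ≠ k) (hjk : j ≠ k) :
    (p j - p i) * (q k - q i) - (p k - p i) * (q j - q i) = 1 ∨
      (p j - p i) * (q k - q i) - (p k - p i) * (q j - q i) = -1 := by
  have h0 : ∀ m r, 0 ≤ a m * p r + b m * q r + c m := fun m r => by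
    by_cases h : m = r
    · subst h; exact (hb.1 m).ge
    · exact (hb.2 m r h).le
  obtain ⟨x, hx⟩ := h3 ![p j - p i, q j - q i, 0] ![p k - p i, q k - q i, 0] (by
    intro α β l h1 h2 h4 h5 h6 h7
    by_contra h8
    obtain ⟨X, hX⟩ := h7 0
    obtain ⟨Y, hY⟩ := h7 1
    simp only [Matrix.cons_val_zero, Matrix.cons_val_one] at hX hY
    have e1 : (α : ℝ) * (p j - p i) + β * (p k - p i) = l * X := by exact_mod_cast hX
    have e2 : (α : ℝ) * (q j - q i) + β * (q k - q i) = l * Y := by exact_mod_cast hY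
    have hl : (0 : ℝ) < l := by exact_mod_cast (by omega : 0 < l)
    have r1 : (0 : ℝ) ≤ α := by exact_mod_cast h1
    have r2 : (0 : ℝ) ≤ β := by exact_mod_cast h2
    have r3 : (0 : ℝ) ≤ l - α - β := by exact_mod_cast (by omega : 0 ≤ l - α - β)
    have two : ∀ s t A B : ℝ, 0 ≤ s → 0 ≤ t → 0 < s + t → 0 < A → 0 < B → 0 < s * A + t * B := by
      intro s t A B hs ht hst hA hB
      rcases hs.eq_or_lt with rfl | hs
      · nlinarith
      · nlinarith [mul_pos hs hA, mul_nonneg ht hB.le]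
    refine hf (p i + X) (q i + Y) fun m => ?_
    refine pos_of_mul_pos_left (b := (l : ℝ)) ?_ hl.le
    have e3 : (a m * ((p i + X : ℤ) : ℝ) + b m * ((q i + Y : ℤ) : ℝ) + c m) * l =
        (l - α - β) * (a m * p i + b m * q i + c m) + α * (a m * p j + b m * q j + c m) +
          β * (a m * p k + b m * q k + c m) := by
      push_cast
      linear_combination (-a m) * e1 - b m * e2
    rw [e3]
    have s1 := mul_nonneg r3 (h0 m i)
    have s2 := mul_nonneg r1 (h0 m j)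
    have s3 := mul_nonneg r2 (h0 m k)
    by_cases hi : m = i
    · have := two _ _ _ _ r1 r2 (by exact_mod_cast (by omega : 0 < α + β))
        (hb.2 m j (hi ▸ hij)) (hb.2 m k (hi ▸ hik))
      linarith
    · by_cases hj : m = j
      · have := two _ _ _ _ r3 r2 (by exact_mod_cast (by omega : 0 < l - α - β + β))
          (hb.2 m i hi) (hb.2 m k (hj ▸ hjk))
        linarith
      · have := two _ _ _ _ r3 r1 (by exact_mod_cast (by omega : 0 < l - α - β + α))
          (hb.2 m i hi) (hb.2 m j hj)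
        linarith)
  refine Int.eq_one_or_neg_one_of_mul_eq_one (v := x 2) ?_
  simp only [Matrix.cons_val_zero, Matrix.cons_val_one, Matrix.cons_val] at hx
  linear_combination hx

/-- Change of coordinates. -/
theorem move (ht : Trans2) {n : ℕ} {a b c : Fin n → ℝ} {p q : Fin n → ℤ}
    (hf : Free2 (Pol a b c)) (hw : Wide2 (Pol a b c)) (hb : Blocked2 a b c p q)
    (r s t u x y : ℤ) (π : Equiv.Perm (Fin n)) (hd : r * u - s * t = 1 ∨ r * u - s * t = -1)
    (P Q : Fin n → ℤ)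
    (h : ∀ j, r * P j + s * Q j + x = p (π j) ∧ t * P j + u * Q j + y = q (π j)) :
    ∃ a' b' c' : Fin n → ℝ, Free2 (Pol a' b' c') ∧ Wide2 (Pol a' b' c') ∧
      Blocked2 a' b' c' P Q := by
  obtain ⟨a', b', c', h1, h2, h3⟩ := ht n a b c r s t u x y π hd
  have e : ∀ i j, a' i * P j + b' i * Q j + c' i =
      a (π i) * p (π j) + b (π i) * q (π j) + c (π i) := fun i j => by
    rw [h1, ← (h j).1, ← (h j).2]
    push_cast
    rfl
  exact ⟨a', b', c', h2 hf, h3 hw, fun i => (e i i).trans (hb.1 _),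
    fun i j hij => (hb.2 _ _ (π.injective.ne hij)).trans_eq (e i j).symm⟩

end Cases

theorem case3 (h3 : Tri) (ht : Trans2) (hn : TriNorm) : Case3 := by
  intro a b c p q hf hw hb
  obtain ⟨a', b', c', h1, h2, h4⟩ := Cases.move ht hf hw hb (p 1 - p 0) (p 2 - p 0) (q 1 - q 0)
    (q 2 - q 0) (p 0) (q 0) 1 (Cases.uni h3 hf hb (by decide) (by decide) (by decide))
    ![0, 1, 0] ![0, 0, 1] (fun j => by fin_cases j <;> simp)
  exact hn a' b' c' h1 h2 h4

theorem case4 (h3 : Tri) (ht : Trans2) (hn : SqNorm) : Case4 := by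
  intro a b c p q hf hw hb
  have hd := Cases.uni h3 hf hb (i := 0) (j := 1) (k := 2) (by decide) (by decide) (by decide)
  obtain ⟨D, hD⟩ : ∃ D, D = (p 1 - p 0) * (q 2 - q 0) - (p 2 - p 0) * (q 1 - q 0) := ⟨_, rfl⟩
  have hDD : D * D = 1 := by rcases hd with h | h <;> rw [hD, h] <;> rfl
  obtain ⟨A, hA⟩ : ∃ A, A = D * ((p 3 - p 0) * (q 2 - q 0) - (p 2 - p 0) * (q 3 - q 0)) :=
    ⟨_, rfl⟩
  obtain ⟨B, hB⟩ : ∃ B, B = D * ((p 1 - p 0) * (q 3 - q 0) - (p 3 - p 0) * (q 1 - q 0)) :=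
    ⟨_, rfl⟩
  have e1 : (p 1 - p 0) * A + (p 2 - p 0) * B + p 0 = p 3 := by
    rw [hA, hB]; linear_combination (p 3 - p 0) * hDD - D * (p 3 - p 0) * hD
  have e2 : (q 1 - q 0) * A + (q 2 - q 0) * B + q 0 = q 3 := by
    rw [hA, hB]; linear_combination (q 3 - q 0) * hDD - D * (q 3 - q 0) * hD
  obtain ⟨a, b, c, hf, hw, hb⟩ := Cases.move ht hf hw hb (p 1 - p 0) (p 2 - p 0) (q 1 - q 0)
    (q 2 - q 0) (p 0) (q 0) 1 hd ![0, 1, 0, A] ![0, 0, 1, B] (fun j => by
      fin_cases j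
      · simp
      · simp
      · simp
      · exact ⟨e1, e2⟩)
  have k1 := Cases.uni h3 hf hb (i := 0) (j := 1) (k := 3) (by decide) (by decide) (by decide)
  have k2 := Cases.uni h3 hf hb (i := 0) (j := 2) (k := 3) (by decide) (by decide) (by decide)
  have k3 := Cases.uni h3 hf hb (i := 1) (j := 2) (k := 3) (by decide) (by decide) (by decide)
  simp only [Matrix.cons_val_zero, Matrix.cons_val_one, Matrix.cons_val] at k1 k2 k3
  have k4 : (A = 1 ∧ B = 1) ∨ (A = -1 ∧ B = 1) ∨ (A = 1 ∧ B = -1) := by omega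
  rcases k4 with ⟨rfl, rfl⟩ | ⟨rfl, rfl⟩ | ⟨rfl, rfl⟩
  · obtain ⟨a, b, c, -, hw, hb⟩ := Cases.move ht hf hw hb 1 0 0 1 0 0 (Equiv.swap 2 3)
      (by decide) ![0, 1, 1, 0] ![0, 0, 1, 1] (by decide)
    exact hn a b c hw hb
  · obtain ⟨a, b, c, -, hw, hb⟩ := Cases.move ht hf hw hb 1 (-1) 0 1 0 0 1
      (by decide) ![0, 1, 1, 0] ![0, 0, 1, 1] (by decide)
    exact hn a b c hw hb
  · obtain ⟨a, b, c, -, hw, hb⟩ := Cases.move ht hf hw hb 1 0 (-1) 1 0 0
      (Equiv.swap 1 3 * Equiv.swap 2 3) (by decide) ![0, 1, 1, 0] ![0, 0, 1, 1] (by decide)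
    exact hn a b c hw hb

end Pool.Agent.P.MP_65d7bf_co
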