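import Pool.Agent.P.MP_65d7bf_co.St2

namespace Pool.Agent.P.MP_65d7bf_co

open Finset Matrix

namespace CheckT

theorem sign {c : ℕ} {d : ℝ} (h : (c : ℝ) < 80 * |d|) : ∃ s, 0 < sgn s * d := by
  have h0 : (0 : ℝ) ≤ c := Nat.cast_nonneg c
  rcases lt_trichotomy d 0 with h1 | h1 | h1
  · refine ⟨false, ?_⟩
    change 0 < (-1) * d
    linarith
  · rw [h1, abs_zero] at h
    linarith
  · refine ⟨true, ?_⟩
    change 0 < 1 * d
    linarith

theorem allO {cf : Cfg} {l : List ℕ} (h : AllO cf l) {x : ℕ} (hx : x ∈ l) (s : Bool) :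
    Emp cf (ordSt s x) := by
  induction l with
  | nil => cases hx
  | cons y l ih =>
    obtain ⟨h1, h2, h3⟩ := h
    rcases List.mem_cons.1 hx with rfl | hx
    · cases s
      exacts [h2, h1]
    · exact ih h3 hx

theorem ctx (k : ℕ) (s : Bool) (R : Rows) : Ctx k s R [] := fun _ h => by cases h

theorem ent (A : Matrix (Fin 4) (Fin 4) ℝ) (i j : Fin 4) :
    ((rowsOf A).row i).ent j = A i j := by
  fin_cases i <;> fin_cases j <;> rfl

theorem runD (hb : BridgeD) {c g1 g2 : ℕ} {g0 : ℤ} (h : RunD c g1 g2) (h0 : 0 < c)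
    (h1 : c < 128) (h2 : (c : ℤ) ∣ g0 + g1 + g2 + 1) {A : Matrix (Fin 4) (Fin 4) ℝ}
    (hA : Good c ![g0, g1, g2, 1] (Pd c) A) (hZ : ZD A) : False := by
  obtain ⟨f, e⟩ := hb c g1 g2 g0 A h0 h1 h2 hA hZ
  obtain ⟨s, hs⟩ := sign f.vol
  cases s
  exacts [h.2 _ f hs (e _) (ctx _ _ _), h.1 _ f hs (e _) (ctx _ _ _)]

theorem perm (hp : GoodPerm) {c : ℤ} {A : Matrix (Fin 4) (Fin 4) ℝ} (π : Equiv.Perm (Fin 4))
    (hA : Good c ![1, 1, 1, 1] (Pd c) A) (hZ : ZD A) :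
    Good c ![1, 1, 1, 1] (Pd c) (A.submatrix π π) ∧ ZD (A.submatrix π π) := by
  have h : ∀ i : Fin 4, (![1, 1, 1, 1] : Fin 4 → ℤ) i = 1 := fun i => by fin_cases i <;> rfl
  have e : (![1, 1, 1, 1] : Fin 4 → ℤ) ∘ π = ![1, 1, 1, 1] := funext fun i => by
    rw [Function.comp_apply, h, h]
  exact ⟨e ▸ hp c _ A π hA, fun i => hZ.1 _, fun i j hij => hZ.2 _ _ (π.injective.ne hij)⟩

end CheckT

open CheckT

theorem checkTet_of (hp : GoodPerm) (hc : Cover) (hb : BridgeD) (hl : Local) (rt : RunT)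
    (r2 : Run2) (ra : RunAll) : CheckTet := by
  intro r hr A hA hZ
  obtain ⟨a3, a4, a5, a5', a7, a8, a10, a13⟩ := ra
  simp only [reps, List.mem_cons, List.not_mem_nil, or_false] at hr
  rcases hr with rfl | rfl | rfl | rfl | rfl | rfl | rfl | rfl | rfl | rfl
  · obtain ⟨π, x, hx, e⟩ := hc A hZ
    obtain ⟨hA', hZ'⟩ := perm hp π hA hZ
    obtain ⟨f, -⟩ := hb 1 1 1 1 _ (by norm_num) (by norm_num) (by norm_num) hA' hZ'
    obtain ⟨i, j, hij, h⟩ := hl _ hA' hZ'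
    have f' : Fx cT (rowsOf (A.submatrix π π)) :=
      ⟨f.s0, f.s1, f.s2, f.s3, f.p0, f.p1, f.p2, f.p3, f.hol, f.wid, f.cho, f.vol,
        fun _ => ⟨i, i.2, j, j.2, fun h => hij (Fin.ext h), by rw [ent]; exact h⟩, f.top⟩
    obtain ⟨s, hs⟩ := sign f'.vol
    exact allO rt hx s _ f' hs (e s) (ctx _ _ _)
  · obtain ⟨π, x, hx, e⟩ := hc A hZ
    obtain ⟨hA', hZ'⟩ := perm hp π hA hZ
    obtain ⟨f, -⟩ := hb 2 1 1 1 _ (by norm_num) (by norm_num) (by norm_num) hA' hZ'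
    obtain ⟨s, hs⟩ := sign f.vol
    exact allO r2 hx s _ f hs (e s) (ctx _ _ _)
  · exact runD hb (g0 := 1) a3 (by norm_num) (by norm_num) (by norm_num) hA hZ
  · exact runD hb (g0 := 1) a4 (by norm_num) (by norm_num) (by norm_num) hA hZ
  · exact runD hb (g0 := 1) a5 (by norm_num) (by norm_num) (by norm_num) hA hZ
  · exact runD hb (g0 := 2) a5' (by norm_num) (by norm_num) (by norm_num) hA hZ
  · exact runD hb (g0 := 2) a7 (by norm_num) (by norm_num) (by norm_num) hA hZ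
  · exact runD hb (g0 := 3) a8 (by norm_num) (by norm_num) (by norm_num) hA hZ
  · exact runD hb (g0 := 3) a10 (by norm_num) (by norm_num) (by norm_num) hA hZ
  · exact runD hb (g0 := 5) a13 (by norm_num) (by norm_num) (by norm_num) hA hZ

end Pool.Agent.P.MP_65d7bf_co
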