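import Pool.Agent.P.MP_65d7bf_co.St

namespace Pool.Agent.P.MP_65d7bf_co

open Finset Matrix

namespace Chord0

theorem inv (T : Tet) : (∀ l k, ∑ i, T.v i l * T.a i k = if l = k then 1 else 0) ∧
    ∀ l, ∑ i, T.v i l * T.b i = 0 := by
  have h1 : T.mat * (Matrix.of fun k j => ![T.v j 0, T.v j 1, T.v j 2, 1] k) = 1 := by
    ext i j
    have := T.dual i j
    rw [Fin.sum_univ_three] at this
    simpa [Matrix.mul_apply, Fin.sum_univ_four, Tet.mat, Matrix.one_apply] using this
  have h2 := mul_eq_one_comm.1 h1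
  refine ⟨fun l k => ?_, fun l => ?_⟩
  · have := congrFun (congrFun h2 l.castSucc) k.castSucc
    fin_cases l <;> fin_cases k <;> simpa [Matrix.mul_apply, Tet.mat, Matrix.one_apply] using this
  · have := congrFun (congrFun h2 l.castSucc) 3
    fin_cases l <;> simpa [Matrix.mul_apply, Tet.mat, Matrix.one_apply] using this

/-- barycentric coordinate of a point given by three numbers -/
def ev (T : Tet) (i : Fin 4) (r x y : ℝ) : ℝ := T.a i 0 * r + T.a i 1 * x + T.a i 2 * y + T.b i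

theorem ev_sum (T : Tet) (r x y : ℝ) : ∑ i, ev T i r x y = 1 := by
  simp only [ev, sum_add_distrib, ← sum_mul, T.sa, T.sb]
  ring

theorem ev_comb (T : Tet) (r x y : ℝ) (l : Fin 3) :
    ∑ i, T.v i l * ev T i r x y = ![r, x, y] l := by
  obtain ⟨h1, h2⟩ := inv T
  have : ∀ i, T.v i l * ev T i r x y = T.v i l * T.a i 0 * r + T.v i l * T.a i 1 * x +
      T.v i l * T.a i 2 * y + T.v i l * T.b i := fun i => by unfold ev; ring
  simp only [this, sum_add_distrib, ← sum_mul, h1, h2]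
  fin_cases l <;> simp

theorem ev_pt (T : Tet) (w : Fin 4 → ℝ) (hw : ∑ k, w k = 1) (i : Fin 4) :
    ev T i (∑ k, w k * T.v k 0) (∑ k, w k * T.v k 1) (∑ k, w k * T.v k 2) = w i := by
  have h1 : ∑ k, w k * (∑ l, T.a i l * T.v k l + T.b i) = w i := by simp [T.dual]
  rw [← h1]
  have h2 : T.b i = (∑ k, w k) * T.b i := by rw [hw, one_mul]
  unfold ev
  conv_lhs => rw [h2]
  simp only [Fin.sum_univ_four, Fin.sum_univ_three]
  ring

theorem bound (T : Tet) {r x y : ℝ} (h : ∀ i, 0 < ev T i r x y) (l : Fin 3) :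
    |![r, x, y] l| ≤ ∑ i, |T.v i l| := by
  rw [← ev_comb T]
  refine (abs_sum_le_sum_abs _ _).trans (sum_le_sum fun i _ => ?_)
  have h1 : ev T i r x y ≤ 1 := by
    rw [← ev_sum T r x y]
    exact single_le_sum (fun j _ => (h j).le) (mem_univ i)
  rw [abs_mul, abs_of_pos (h i)]
  exact mul_le_of_le_one_right (abs_nonneg _) h1

theorem comb_pos {α β p q : ℝ} (ha : 0 ≤ α) (hb : 0 ≤ β) (hab : α + β = 1) (hp : 0 < p)
    (hq : 0 < q) : 0 < α * p + β * q := by
  rcases ha.eq_or_lt with h | h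
  · have : β = 1 := by linarith
    rw [← h, this]; linarith
  · exact add_pos_of_pos_of_nonneg (mul_pos h hp) (mul_nonneg hb hq.le)

end Chord0

open Chord0 in
theorem chord0 (h : Flat2) : Chord0 := by
  intro T hH hW
  by_contra hs
  rw [not_lt] at hs
  have s0 : 0 < ∑ i, |T.a i 0| := by
    refine (sum_nonneg fun i _ => abs_nonneg _).lt_of_ne fun h0 => ?_
    have h1 := (sum_eq_zero_iff_of_nonneg fun i _ => abs_nonneg _).1 h0.symm
    have h2 := (inv T).1 0 0
    rw [sum_eq_zero fun i hi => by rw [abs_eq_zero.1 (h1 i hi), mul_zero]] at h2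
    simp at h2
  have sm : ∑ k, 2 * max (-T.a k 0) 0 = ∑ i, |T.a i 0| := by
    have : ∀ k, 2 * max (-T.a k 0) 0 = |T.a k 0| - T.a k 0 := fun k => by
      rcases le_total (T.a k 0) 0 with h | h
      · rw [max_eq_left (by linarith), abs_of_nonpos h]; ring
      · rw [max_eq_right (by linarith), abs_of_nonneg h]; ring
    simp only [this, sum_sub_distrib, T.sa, sub_zero]
  generalize ∑ i, |T.a i 0| = s at *
  refine h {ξ | ∃ r : ℝ, ∀ i, 0 < ev T i r ξ.1 ξ.2 ∧ 0 < ev T i (r + 1) ξ.1 ξ.2} ?_ ?_ ?_ ?_ ?_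
  · rintro ξ ⟨r, hr⟩ η ⟨r', hr'⟩ α β ha hb hab
    refine ⟨α * r + β * r', fun i => ⟨?_, ?_⟩⟩
    · refine (comb_pos ha hb hab (hr i).1 (hr' i).1).trans_eq ?_
      simp only [ev, Prod.fst_add, Prod.snd_add, Prod.smul_fst, Prod.smul_snd, smul_eq_mul]
      linear_combination (T.b i) * hab
    · refine (comb_pos ha hb hab (hr i).2 (hr' i).2).trans_eq ?_
      simp only [ev, Prod.fst_add, Prod.snd_add, Prod.smul_fst, Prod.smul_snd, smul_eq_mul]
      linear_combination (T.b i + T.a i 0) * hab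
  · rw [Set.ofPred_exists]
    refine isOpen_iUnion fun r => ?_
    rw [Set.ofPred_forall]
    refine isOpen_iInter_of_finite fun i => ?_
    have hc : ∀ r : ℝ, IsOpen {ξ : ℝ × ℝ | 0 < ev T i r ξ.1 ξ.2} := fun r =>
      isOpen_lt continuous_const (by unfold ev; fun_prop)
    exact (hc r).inter (hc (r + 1))
  · refine isBounded_iff_forall_norm_le.2 ⟨max (∑ i, |T.v i 1|) (∑ i, |T.v i 2|), ?_⟩
    rintro ξ ⟨r, hr⟩
    exact max_le_max (bound T (fun i => (hr i).1) 1) (bound T (fun i => (hr i).1) 2)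
  · rintro m n ⟨r, hr⟩
    obtain ⟨i, hi⟩ := hH ![⌈r⌉, m, n]
    have h1 := Int.le_ceil r
    have h2 := (Int.ceil_lt_add_one r).le
    refine absurd hi (not_le.2 ((comb_pos (α := r + 1 - ⌈r⌉) (β := ⌈r⌉ - r) (by linarith)
      (by linarith) (by ring) (hr i).1 (hr i).2).trans_eq ?_))
    simp [ev, Tet.ev, Fin.sum_univ_three]
    ring
  · intro m n hmn
    obtain ⟨i, j, hij⟩ := hW ![0, m, n] fun h0 => by
      rcases hmn with h1 | h1
      · exact h1 (congrFun h0 1)
      · exact h1 (congrFun h0 2)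
    set W : Fin 4 → Fin 4 → ℝ := fun i k => 7 / 19 * (2 * max (-T.a k 0) 0 / s) +
      12 / 19 * (9999 / 10000 * (if i = k then 1 else 0) + 1 / 40000) with hWd
    have w1 : ∀ i, ∑ k, W i k = 1 := fun i => by
      simp only [hWd, sum_add_distrib, ← mul_sum, ← sum_div, sum_ite_eq, mem_univ, if_true]
      rw [mul_sum, sm, div_self s0.ne']
      norm_num
    have w2 : ∀ i, (∑ k, W i k * T.v k 1, ∑ k, W i k * T.v k 2) ∈
        {ξ : ℝ × ℝ | ∃ r : ℝ, ∀ i, 0 < ev T i r ξ.1 ξ.2 ∧ 0 < ev T i (r + 1) ξ.1 ξ.2} := by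
      intro i
      refine ⟨∑ k, W i k * T.v k 0, fun k => ?_⟩
      have e1 := ev_pt T (W i) (w1 i) k
      have e2 : ev T k (∑ k, W i k * T.v k 0 + 1) (∑ k, W i k * T.v k 1) (∑ k, W i k * T.v k 2) =
          W i k + T.a k 0 := by rw [← e1]; unfold ev; ring
      have e3 : max (-T.a k 0) 0 ≤ 7 / 19 * (2 * max (-T.a k 0) 0 / s) := by
        rw [← mul_div_assoc, le_div_iff₀ s0]
        nlinarith [le_max_right (-T.a k 0) 0]
      have e4 : (0 : ℝ) ≤ if i = k then 1 else 0 := by split_ifs <;> norm_num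
      have e5 : max (-T.a k 0) 0 < W i k := by
        simp only [hWd]
        linarith
      rw [e1, e2]
      exact ⟨(le_max_right _ _).trans_lt e5, by linarith [le_max_left (-T.a k 0) 0]⟩
    have w3 : ∀ l, ∑ k, W i k * T.v k l - ∑ k, W j k * T.v k l =
        12 / 19 * (9999 / 10000) * (T.v i l - T.v j l) := fun l => by
      have : ∀ k, W i k * T.v k l - W j k * T.v k l = 12 / 19 * (9999 / 10000) *
          ((if i = k then T.v k l else 0) - if j = k then T.v k l else 0) := fun k => by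
        simp only [hWd]
        split_ifs <;> ring
      rw [← sum_sub_distrib]
      simp only [this, ← mul_sum, sum_sub_distrib, sum_ite_eq, mem_univ, if_true]
    refine ⟨_, w2 i, _, w2 j, ?_⟩
    have r2 : (1.41421 : ℝ) < √2 := Real.lt_sqrt_of_sq_lt (by norm_num)
    simp only [w3]
    simp [Fin.sum_univ_three] at hij
    linarith

end Pool.Agent.P.MP_65d7bf_co
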