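import Pool.Agent.P.MP_65d7bf_co.St

namespace Pool.Agent.P.MP_65d7bf_co

namespace Chord2

theorem comb {Q : Set (ℝ × ℝ)} (hQ : Convex ℝ Q) {a b x y : ℝ × ℝ} (ha : a ∈ Q) (hb : b ∈ Q)
    (hx : x ∈ Q) (hy : y ∈ Q) {t s : ℝ} (t0 : 0 ≤ t) (t1 : t ≤ 1) (s0 : 0 ≤ s) (s1 : s ≤ 1) :
    (7 / 15 * (t * a.1 + (1 - t) * b.1) + 8 / 15 * (s * y.1 + (1 - s) * x.1),
      7 / 15 * (t * a.2 + (1 - t) * b.2) + 8 / 15 * (s * y.2 + (1 - s) * x.2)) ∈ Q :=
  hQ (hQ ha hb t0 (sub_nonneg.2 t1) (by ring)) (hQ hy hx s0 (sub_nonneg.2 s1) (by ring))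
    (by norm_num) (by norm_num) (by norm_num)

theorem core {Q : Set (ℝ × ℝ)} (hQ : Convex ℝ Q) (hF : Free2 Q) (hW : Wide2 Q) {x : ℝ × ℝ}
    (hx : x ∈ Q) (m n α β : ℤ) (hb : m * α + n * β = 1) {g : ℝ} (hg : 1 ≤ g) :
    (x.1 + 15 / 8 * (g * m), x.2 + 15 / 8 * (g * n)) ∉ Q := by
  intro hy
  have hne : -n ≠ 0 ∨ m ≠ 0 := by
    by_contra hc
    push Not at hc
    have hn : n = 0 := by omega
    rw [hc.2, hn] at hb
    simp at hb
  obtain ⟨a, ha, b, hb', hw⟩ := hW (-n) m hne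
  have hbR : (m : ℝ) * α + n * β = 1 := by exact_mod_cast hb
  push_cast at hw
  set W : ℝ := -n * (a.1 - b.1) + m * (a.2 - b.2) with hWd
  set p : ℝ := -n * (7 / 15 * b.1 + 8 / 15 * x.1) + m * (7 / 15 * b.2 + 8 / 15 * x.2) with hp
  have hW0 : 0 < 7 / 15 * W := by linarith
  have c1 := Int.le_ceil p
  have c2 := Int.ceil_lt_add_one p
  set N : ℤ := ⌈p⌉
  set t : ℝ := (N - p) / (7 / 15 * W) with ht
  have t0 : 0 ≤ t := div_nonneg (by linarith) hW0.le
  have t1 : t ≤ 1 := (div_le_one hW0).2 (by linarith)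
  have htW : t * (7 / 15 * W) = N - p := div_mul_cancel₀ _ hW0.ne'
  set P1 : ℝ := 7 / 15 * (t * a.1 + (1 - t) * b.1) + 8 / 15 * x.1 with hP1
  set P2 : ℝ := 7 / 15 * (t * a.2 + (1 - t) * b.2) + 8 / 15 * x.2 with hP2
  have hu : -n * P1 + m * P2 = N := by
    rw [hP1, hP2]
    linear_combination htW - hp - 7 / 15 * t * hWd
  set s : ℝ := α * (P1 + N * β) + β * (P2 - N * α) with hs
  have d1 := Int.le_ceil s
  have d2 := Int.ceil_lt_add_one s
  set M : ℤ := ⌈s⌉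
  have g0 : 0 < g := by linarith
  have hr : (M - s) / g * g = M - s := div_mul_cancel₀ _ g0.ne'
  have hmem := comb hQ ha hb' hx hy t0 t1 (s := (M - s) / g) (div_nonneg (by linarith) g0.le)
    ((div_le_one g0).2 (by linarith))
  apply hF (-N * β + M * m) (N * α + M * n)
  convert hmem using 2
  · push_cast
    have e : (m : ℝ) * s = P1 + N * β := by
      rw [hs]
      linear_combination (P1 + N * β) * hbR + β * hu - β * N * hbR
    linear_combination hP1 + e - m * hr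
  · push_cast
    have e : (n : ℝ) * s = P2 - N * α := by
      rw [hs]
      linear_combination (P2 - N * α) * hbR - α * hu + α * N * hbR
    linear_combination hP2 + e - n * hr

end Chord2

theorem chord2 : Chord2 := by
  intro Q hQ hF hW x hx m n hmn
  have hg : 0 < Int.gcd m n := Int.gcd_pos_iff.2 hmn
  obtain ⟨m0, n0, hc, hm, hn⟩ := Int.exists_gcd_one hg
  have hb := Int.gcd_eq_gcd_ab m0 n0
  rw [hc] at hb
  have := Chord2.core hQ hF hW hx m0 n0 _ _ hb.symm (g := (Int.gcd m n : ℝ))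
    (by exact_mod_cast hg)
  have e1 : (m : ℝ) = (Int.gcd m n : ℝ) * m0 := by
    rw [mul_comm]
    exact_mod_cast hm
  have e2 : (n : ℝ) = (Int.gcd m n : ℝ) * n0 := by
    rw [mul_comm]
    exact_mod_cast hn
  rwa [← e1, ← e2] at this

end Pool.Agent.P.MP_65d7bf_co
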