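import Pool.Agent.P.MP_65d7bf_co.St

namespace Pool.Agent.P.MP_65d7bf_co

open Finset Matrix

namespace ChordAll

theorem bez (a b : ℤ) : ∃ g p q x y : ℤ, 0 ≤ g ∧ a = g * p ∧ b = g * q ∧ p * x + q * y = 1 := by
  by_cases h : a = 0 ∧ b = 0
  · exact ⟨0, 1, 0, 1, 0, le_rfl, by simp [h.1], by simp [h.2], by simp⟩
  · have hg : 0 < Int.gcd a b := Int.gcd_pos_iff.2 (by tauto)
    obtain ⟨p, hp⟩ := Int.gcd_dvd_left a b
    obtain ⟨q, hq⟩ := Int.gcd_dvd_right a b
    refine ⟨Int.gcd a b, p, q, Int.gcdA a b, Int.gcdB a b, by positivity, hp, hq, ?_⟩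
    have h1 := Int.gcd_eq_gcd_ab a b
    have h2 : ((Int.gcd a b : ℕ) : ℤ) ≠ 0 := by positivity
    apply mul_left_cancel₀ h2
    linear_combination -h1 - Int.gcdA a b * hp - Int.gcdB a b * hq

end ChordAll

theorem primBasis : PrimBasis := by
  intro y hy
  obtain ⟨g, p, q, s, t, -, h0, h1, h2⟩ := ChordAll.bez (y 0) (y 1)
  obtain ⟨k, p', q', s', t', hk, h3, h4, h5⟩ := ChordAll.bez g (y 2)
  refine ⟨!![p * p', -t, -p * t'; q * p', s, -q * t'; q', 0, s'],
    !![s' * s, s' * t, t'; -q, p, 0; -q' * s, -q' * t, p'], k, ?_, ?_, ?_⟩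
  · ext i j
    fin_cases i <;> fin_cases j <;> simp [Matrix.mul_apply, Fin.sum_univ_three]
    · linear_combination h2 + p * s * h5
    · linear_combination p * t * h5
    · ring
    · linear_combination q * s * h5
    · linear_combination h2 + q * t * h5
    · ring
    · ring
    · ring
    · linear_combination h5
  · by_contra hc
    have hk0 : k = 0 := by omega
    apply hy
    funext i
    fin_cases i <;> simp [h0, h1, h3, h4, hk0]
  · funext i
    fin_cases i <;> simp [Matrix.mulVec, dotProduct, Fin.sum_univ_three, h0, h1, h3, h4] <;> ring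

theorem chordAll (h0 : Chord0) (ht : Transport) : ChordAll := by
  intro T hH hW y hy
  obtain ⟨U, U', k, hU, hk, rfl⟩ := primBasis y hy
  obtain ⟨T', -, hl, -, h1, h2, -⟩ := ht T U U' 0 1 hU
  have h3 := h0 T' (h1 hH) (h2 hW)
  refine h3.trans_le (sum_le_sum fun i _ => ?_)
  have h4 := hl i ![k, 0, 0]
  rw [Equiv.Perm.one_apply] at h4
  rw [← h4]
  have hk' : (1 : ℝ) ≤ k := by exact_mod_cast hk
  simp only [Tet.lin, Fin.sum_univ_three, cons_val_zero, cons_val_one, cons_val_two, Int.cast_zero,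
    mul_zero, add_zero, abs_mul, Nat.succ_eq_add_one, Nat.reduceAdd, tail_cons, head_cons]
  rw [abs_of_nonneg (a := (k : ℝ)) (by linarith)]
  nlinarith [abs_nonneg (T'.a i 0)]

end Pool.Agent.P.MP_65d7bf_co
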