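import Pool.Agent.P.MP_65d7bf_co.St

namespace Pool.Agent.P.MP_65d7bf_co

open Finset Matrix

theorem goodPerm : GoodPerm := by
  intro c g A π h
  refine ⟨fun j => ?_, fun z hz ⟨k, hk⟩ hP => ?_, fun u hu ⟨i, j, hij⟩ => ?_,
    fun y hy ⟨k, hk⟩ h0 => ?_, ?_⟩
  · simpa using (Equiv.sum_comp π fun i => A i (π j)).trans (h.sum (π j))
  · obtain ⟨i, hi⟩ := h.hol (z ∘ π.symm) ((Equiv.sum_comp π.symm z).trans hz)
      ⟨k, fun j => by simpa using hk (π.symm j)⟩ (fun i e => hP (π.symm i) (by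
        funext j
        have := congrFun e (π j)
        simp only [Function.comp, Equiv.symm_apply_apply, Pd] at this
        simp only [this, Pd, Equiv.symm_apply_eq]))
    refine ⟨π.symm i, ?_⟩
    rw [← Equiv.sum_comp π] at hi
    simpa using hi
  · obtain ⟨a, b, hab⟩ := h.wid (u ∘ π.symm) (by
      rw [← Equiv.sum_comp π]; simpa using hu) ⟨π i, π j, by simpa using hij⟩
    refine ⟨π.symm a, π.symm b, ?_⟩
    rw [updateRow_submatrix_equiv, updateRow_submatrix_equiv, det_submatrix_equiv_self,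
      det_submatrix_equiv_self, det_submatrix_equiv_self]
    simpa [Function.comp] using hab
  · have := h.cho (y ∘ π.symm) ((Equiv.sum_comp π.symm y).trans hy)
      ⟨k, fun j => by simpa using hk (π.symm j)⟩ (fun e => h0 (by
        funext j
        simpa using congrFun e (π j)))
    rw [← Equiv.sum_comp π] at this
    refine this.trans_eq (Finset.sum_congr rfl fun i _ => ?_)
    rw [← Equiv.sum_comp π]
    simp
  · rw [det_submatrix_equiv_self]; exact h.vol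

namespace ClassifyAux

theorem good_congr {c k k' : ℤ} {g g' : Fin 4 → ℤ} {P : Fin 4 → Fin 4 → ℤ}
    {A : Matrix (Fin 4) (Fin 4) ℝ} (h : Good c g P A) (h1 : ∀ j, c ∣ g j - k * g' j)
    (h2 : ∀ j, c ∣ g' j - k' * g j) : Good c g' P A := by
  have key : ∀ z : Fin 4 → ℤ, (∃ m : ℤ, ∀ j, c ∣ z j - m * g' j) →
      ∃ m : ℤ, ∀ j, c ∣ z j - m * g j := fun z ⟨m, hm⟩ => ⟨m * k', fun j => by
    have e : z j - m * k' * g j = (z j - m * g' j) + m * (g' j - k' * g j) := by ring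
    rw [e]
    exact (hm j).add ((h2 j).mul_left m)⟩
  refine ⟨h.sum, fun z hz hk hP => h.hol z hz (key z hk) hP, fun u hu hij => h.wid u ?_ hij,
    fun y hy hk h0 => h.cho y hy (key y hk) h0, h.vol⟩
  have e : ∑ j, u j * g j = k * ∑ j, u j * g' j + ∑ j, u j * (g j - k * g' j) := by
    rw [Finset.mul_sum, ← Finset.sum_add_distrib]
    exact Finset.sum_congr rfl fun j _ => by ring
  rw [e]
  exact (hu.mul_left k).add (Finset.dvd_sum fun j _ => (h1 j).mul_left _)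

theorem nonneg {A : Matrix (Fin 4) (Fin 4) ℝ} (h : ZD A) (i j : Fin 4) : 0 ≤ A i j := by
  by_cases e : i = j
  · subst e; exact (h.1 i).ge
  · exact (h.2 i j e).le

theorem det_le {A : Matrix (Fin 4) (Fin 4) ℝ} (h0 : ∀ i j, 0 ≤ A i j)
    (h1 : ∀ j, ∑ i, A i j = 1) : |A.det| ≤ 1 := by
  have e : ∑ f : Fin 4 → Fin 4, ∏ j, A (f j) j = 1 := by
    have := Finset.prod_univ_sum (fun _ : Fin 4 => (univ : Finset (Fin 4))) fun j i => A i j
    rw [Fintype.piFinset_univ] at this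
    rw [← this]
    simp [h1]
  rw [det_apply', ← e]
  refine (Finset.abs_sum_le_sum_abs _ _).trans ?_
  have e2 : ∑ σ : Equiv.Perm (Fin 4), |((Equiv.Perm.sign σ : ℤ) : ℝ) * ∏ i, A (σ i) i| =
      ∑ f ∈ univ.image (fun σ : Equiv.Perm (Fin 4) => (σ : Fin 4 → Fin 4)), ∏ j, A (f j) j := by
    rw [Finset.sum_image fun σ _ τ _ e => DFunLike.coe_injective e]
    refine Finset.sum_congr rfl fun σ _ => ?_
    rw [abs_mul, abs_of_nonneg (Finset.prod_nonneg fun i _ => h0 _ _)]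
    rcases Int.units_eq_one_or (Equiv.Perm.sign σ) with e | e <;> simp [e]
  rw [e2]
  exact Finset.sum_le_sum_of_subset_of_nonneg (subset_univ _)
    fun f _ _ => Finset.prod_nonneg fun i _ => h0 _ _

theorem l1_le {A : Matrix (Fin 4) (Fin 4) ℝ} (h0 : ∀ i j, 0 ≤ A i j)
    (h1 : ∀ j, ∑ i, A i j = 1) (y : Fin 4 → ℤ) :
    ∑ i, |∑ j, A i j * y j| ≤ ((∑ j, |y j| : ℤ) : ℝ) := by
  calc ∑ i, |∑ j, A i j * y j| ≤ ∑ i, ∑ j, A i j * |(y j : ℝ)| :=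
        Finset.sum_le_sum fun i _ => (Finset.abs_sum_le_sum_abs _ _).trans_eq
          (Finset.sum_congr rfl fun j _ => by rw [abs_mul, abs_of_nonneg (h0 i j)])
    _ = ∑ j, |(y j : ℝ)| := by
        rw [Finset.sum_comm]
        exact Finset.sum_congr rfl fun j _ => by rw [← Finset.sum_mul, h1, one_mul]
    _ = _ := by push_cast; rfl

variable {a b c : ℤ} {A : Matrix (Fin 4) (Fin 4) ℝ}

theorem cong {h s t1 t2 : ℤ} (hs : c ∣ s) (h1 : c ∣ t1 + a * h) (h2 : c ∣ t2 + b * h) :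
    ∃ k : ℤ, ∀ j, c ∣ ![s - (t1 + t2 + h), t1, t2, h] j - k * ![a + b - 1, -a, -b, 1] j := by
  refine ⟨h, fun j => ?_⟩
  fin_cases j
  · have e : s - (t1 + t2 + h) - h * (a + b - 1) = s - (t1 + a * h) - (t2 + b * h) := by ring
    change c ∣ s - (t1 + t2 + h) - h * (a + b - 1)
    rw [e]
    exact (hs.sub h1).sub h2
  · have e : t1 - h * -a = t1 + a * h := by ring
    change c ∣ t1 - h * -a
    rwa [e]
  · have e : t2 - h * -b = t2 + b * h := by ring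
    change c ∣ t2 - h * -b
    rwa [e]
  · change c ∣ h - h * 1
    simp

theorem kill1 (hG : Good c ![a + b - 1, -a, -b, 1] (Pd c) A) (hZ : ZD A) {h t1 t2 : ℤ}
    (h0 : 0 < h) (hc : h < c) (h1 : c ∣ t1 + a * h) (h2 : c ∣ t2 + b * h) (p1 : 0 ≤ t1)
    (p2 : 0 ≤ t2) : c < t1 + t2 + h := by
  by_contra hn
  obtain ⟨i, hi⟩ := hG.hol ![c - (t1 + t2 + h), t1, t2, h] (by simp [Fin.sum_univ_four]; ring)
    (cong dvd_rfl h1 h2) (fun i e => by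
      have : h = if i = 3 then c else 0 := congrFun e 3
      split_ifs at this <;> omega)
  refine absurd hi (not_lt.2 (Finset.sum_nonneg fun j _ => mul_nonneg (nonneg hZ i j) ?_))
  have : 0 ≤ ![c - (t1 + t2 + h), t1, t2, h] j := by
    fin_cases j
    · change 0 ≤ c - (t1 + t2 + h)
      omega
    · exact p1
    · exact p2
    · exact h0.le
  exact_mod_cast this

theorem kill2 (hG : Good c ![a + b - 1, -a, -b, 1] (Pd c) A) (hZ : ZD A) {h t1 t2 : ℤ}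
    (h0 : 0 < h) (h1 : c ∣ t1 + a * h) (h2 : c ∣ t2 + b * h) :
    14 * c < 19 * (|t1 + t2 + h| + |t1| + |t2| + h) := by
  have h3 := (hG.cho ![0 - (t1 + t2 + h), t1, t2, h] (by simp [Fin.sum_univ_four]; ring)
    (cong (dvd_zero c) h1 h2) (fun e => by
      have : h = 0 := congrFun e 3
      omega)).trans_le (l1_le (nonneg hZ) hG.sum _)
  have e : ∑ j, |![0 - (t1 + t2 + h), t1, t2, h] j| = |t1 + t2 + h| + |t1| + |t2| + h := by
    rw [Fin.sum_univ_four]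
    change |0 - (t1 + t2 + h)| + |t1| + |t2| + |h| = _
    rw [zero_sub, abs_neg, abs_of_pos h0]
  rw [e] at h3
  have : ((14 * c : ℤ) : ℝ) < ((19 * (|t1 + t2 + h| + |t1| + |t2| + h) : ℤ) : ℝ) := by
    rw [Int.cast_mul, Int.cast_mul]
    generalize ((|t1 + t2 + h| + |t1| + |t2| + h : ℤ) : ℝ) = s at h3
    push_cast
    linarith
  exact_mod_cast this

/-- Disjunction written with the recursor, cheap for the kernel. -/
noncomputable def bor (x y : Bool) : Bool := Bool.rec (motive := fun _ => Bool) y true x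
/-- Conjunction written with the recursor. -/
noncomputable def band (x y : Bool) : Bool := Bool.rec (motive := fun _ => Bool) false y x

theorem bor_eq (x y : Bool) : bor x y = (x || y) := by cases x <;> rfl
theorem band_eq (x y : Bool) : band x y = (x && y) := by cases x <;> rfl

/-- The four ways a pair of residues gives a contradiction. -/
noncomputable def kr (c h r1 r2 : ℕ) : Bool :=
  bor (Nat.ble (Nat.add (Nat.add r1 r2) h) c)
    (bor (Nat.ble (Nat.mul 19 (Nat.add r1 h)) (Nat.mul 7 c))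
      (bor (Nat.ble (Nat.mul 19 (Nat.add r2 h)) (Nat.mul 7 c))
        (band (Nat.ble (Nat.mul 19 (Nat.sub (Nat.sub (Nat.mul 2 c) r1) r2)) (Nat.mul 7 c))
          (Nat.ble (Nat.mul 19 h) (Nat.mul 7 c)))))

noncomputable def kill (a b c h : ℕ) : Bool :=
  band (Nat.ble (Nat.add h 1) c)
    (kr c h (Nat.mod (Nat.mul (Nat.sub c a) h) c) (Nat.mod (Nat.mul (Nat.sub c b) h) c))

theorem mod_eq (x y : ℕ) : Nat.mod x y = x % y := rfl

theorem res {a c h : ℕ} (ha : a < c) :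
    (c : ℤ) ∣ (((c - a) * h % c : ℕ) : ℤ) + (a : ℤ) * h := by
  refine ⟨h - (((c - a) * h / c : ℕ) : ℤ), ?_⟩
  have e : (((c - a) * h % c : ℕ) : ℤ) + (c : ℤ) * (((c - a) * h / c : ℕ) : ℤ) =
      ((c : ℤ) - a) * h := by
    rw [← Nat.cast_sub ha.le]
    exact_mod_cast Nat.mod_add_div _ _
  linear_combination e

theorem kill_false {a b c h : ℕ} (ha : a < c) (hb : b < c) (h0 : 0 < h)
    (hG : Good c ![(a : ℤ) + b - 1, -a, -b, 1] (Pd c) A) (hZ : ZD A) :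
    kill a b c h = false := by
  by_contra hk
  have h1 := res (h := h) ha
  have h2 := res (h := h) hb
  have l1 := Nat.mod_lt ((c - a) * h) (by omega : 0 < c)
  have l2 := Nat.mod_lt ((c - b) * h) (by omega : 0 < c)
  simp only [Bool.not_eq_false, kill, kr, Bool.and_eq_true, Bool.or_eq_true, Nat.ble_eq,
    Nat.add_eq, Nat.mul_eq, Nat.sub_eq, mod_eq, bor_eq, band_eq] at hk
  generalize (c - a) * h % c = r1 at *
  generalize (c - b) * h % c = r2 at *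
  have h1' : (c : ℤ) ∣ (r1 - c) + (a : ℤ) * h := by
    have e : ((r1 : ℤ) - c) + (a : ℤ) * h = (r1 + a * h) - c := by ring
    rw [e]; exact h1.sub dvd_rfl
  have h2' : (c : ℤ) ∣ (r2 - c) + (b : ℤ) * h := by
    have e : ((r2 : ℤ) - c) + (b : ℤ) * h = (r2 + b * h) - c := by ring
    rw [e]; exact h2.sub dvd_rfl
  have p0 : (0 : ℤ) < h := by omega
  have k1 := kill1 hG hZ p0 (by omega) h1 h2 (by omega) (by omega)
  have k2 := kill2 hG hZ p0 h1 h2'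
  have k3 := kill2 hG hZ p0 h1' h2
  have k4 := kill2 hG hZ p0 h1' h2'
  simp only [abs_eq_max_neg] at k2 k3 k4
  omega

/-- A surviving triple with its representative, permutation and multipliers. -/
structure Ent where
  a : ℕ
  b : ℕ
  c : ℕ
  r : Fin 4 → ℤ
  l : Fin 4 → Fin 4
  k : ℤ
  k' : ℤ

def tab : List Ent :=
  [⟨0, 0, 1, ![1, 1, 1, 1], ![0, 1, 2, 3], 0, 0⟩, ⟨1, 1, 2, ![1, 1, 1, 1], ![0, 1, 2, 3], 1, 1⟩,
   ⟨1, 1, 3, ![1, 2, 2, 1], ![0, 1, 2, 3], 1, 1⟩, ⟨1, 2, 3, ![1, 2, 2, 1], ![0, 2, 3, 1], 2, 2⟩,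
   ⟨2, 1, 3, ![1, 2, 2, 1], ![0, 1, 3, 2], 2, 2⟩, ⟨1, 1, 4, ![1, 3, 3, 1], ![0, 1, 2, 3], 1, 1⟩,
   ⟨1, 3, 4, ![1, 3, 3, 1], ![0, 2, 3, 1], 3, 3⟩, ⟨3, 1, 4, ![1, 3, 3, 1], ![0, 1, 3, 2], 3, 3⟩,
   ⟨1, 1, 5, ![1, 4, 4, 1], ![0, 1, 2, 3], 1, 1⟩, ⟨1, 2, 5, ![2, 4, 3, 1], ![0, 1, 2, 3], 1, 1⟩,
   ⟨1, 3, 5, ![2, 4, 3, 1], ![0, 3, 2, 1], 4, 4⟩, ⟨1, 4, 5, ![1, 4, 4, 1], ![0, 2, 3, 1], 4, 4⟩,
   ⟨2, 1, 5, ![2, 4, 3, 1], ![0, 2, 1, 3], 1, 1⟩, ⟨2, 3, 5, ![2, 4, 3, 1], ![0, 1, 3, 2], 2, 3⟩,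
   ⟨3, 1, 5, ![2, 4, 3, 1], ![0, 3, 1, 2], 4, 4⟩, ⟨3, 2, 5, ![2, 4, 3, 1], ![0, 2, 3, 1], 2, 3⟩,
   ⟨4, 1, 5, ![1, 4, 4, 1], ![0, 1, 3, 2], 4, 4⟩, ⟨1, 2, 7, ![2, 6, 5, 1], ![0, 1, 2, 3], 1, 1⟩,
   ⟨1, 3, 7, ![2, 6, 5, 1], ![1, 2, 3, 0], 3, 5⟩, ⟨1, 4, 7, ![2, 6, 5, 1], ![1, 0, 3, 2], 3, 5⟩,
   ⟨1, 5, 7, ![2, 6, 5, 1], ![0, 3, 2, 1], 6, 6⟩, ⟨2, 1, 7, ![2, 6, 5, 1], ![0, 2, 1, 3], 1, 1⟩,
   ⟨2, 5, 7, ![2, 6, 5, 1], ![1, 3, 2, 0], 6, 6⟩, ⟨3, 1, 7, ![2, 6, 5, 1], ![2, 1, 3, 0], 3, 5⟩,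
   ⟨3, 4, 7, ![2, 6, 5, 1], ![0, 1, 3, 2], 3, 5⟩, ⟨4, 1, 7, ![2, 6, 5, 1], ![2, 0, 3, 1], 3, 5⟩,
   ⟨4, 3, 7, ![2, 6, 5, 1], ![0, 2, 3, 1], 3, 5⟩, ⟨5, 1, 7, ![2, 6, 5, 1], ![0, 3, 1, 2], 6, 6⟩,
   ⟨5, 2, 7, ![2, 6, 5, 1], ![1, 0, 2, 3], 1, 1⟩, ⟨1, 3, 8, ![3, 7, 5, 1], ![0, 1, 2, 3], 1, 1⟩,
   ⟨1, 5, 8, ![3, 7, 5, 1], ![0, 3, 2, 1], 7, 7⟩, ⟨3, 1, 8, ![3, 7, 5, 1], ![0, 2, 1, 3], 1, 1⟩,
   ⟨3, 5, 8, ![3, 7, 5, 1], ![0, 2, 3, 1], 5, 5⟩, ⟨5, 1, 8, ![3, 7, 5, 1], ![0, 3, 1, 2], 7, 7⟩,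
   ⟨5, 3, 8, ![3, 7, 5, 1], ![0, 1, 3, 2], 5, 5⟩, ⟨1, 3, 10, ![3, 9, 7, 1], ![0, 1, 2, 3], 1, 1⟩,
   ⟨1, 7, 10, ![3, 9, 7, 1], ![0, 3, 2, 1], 9, 9⟩,
   ⟨3, 1, 10, ![3, 9, 7, 1], ![0, 2, 1, 3], 1, 1⟩,
   ⟨3, 7, 10, ![3, 9, 7, 1], ![0, 1, 3, 2], 3, 7⟩,
   ⟨7, 1, 10, ![3, 9, 7, 1], ![0, 3, 1, 2], 9, 9⟩,
   ⟨7, 3, 10, ![3, 9, 7, 1], ![0, 2, 3, 1], 3, 7⟩,
   ⟨1, 5, 13, ![5, 12, 8, 1], ![0, 1, 2, 3], 1, 1⟩,
   ⟨1, 8, 13, ![5, 12, 8, 1], ![0, 3, 2, 1], 12, 12⟩,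
   ⟨5, 1, 13, ![5, 12, 8, 1], ![0, 2, 1, 3], 1, 1⟩,
   ⟨5, 8, 13, ![5, 12, 8, 1], ![0, 1, 3, 2], 5, 8⟩,
   ⟨8, 1, 13, ![5, 12, 8, 1], ![0, 3, 1, 2], 12, 12⟩,
   ⟨8, 5, 13, ![5, 12, 8, 1], ![0, 2, 3, 1], 5, 8⟩]

theorem tab_ok : ∀ e ∈ tab, ((e.c : ℤ), e.r) ∈ reps ∧ (∀ i j, e.l i = e.l j → i = j) ∧
    (∀ j, (e.c : ℤ) ∣ ![(e.a : ℤ) + e.b - 1, -e.a, -e.b, 1] (e.l j) - e.k * e.r j) ∧
    ∀ j, (e.c : ℤ) ∣ e.r j - e.k' * ![(e.a : ℤ) + e.b - 1, -e.a, -e.b, 1] (e.l j) := by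
  decide +kernel

noncomputable def ok (a b c : ℕ) : Bool :=
  bor (kill a b c 1) (bor (kill a b c 2) (bor (kill a b c 3) (bor (kill a b c 4)
    (bor (kill a b c 5) (tab.any fun e => Nat.beq e.a a && Nat.beq e.b b && Nat.beq e.c c)))))

noncomputable def allN (f : ℕ → Bool) (n : ℕ) : Bool :=
  Nat.rec (motive := fun _ => Bool) true (fun k r => band (f k) r) n

theorem allN_spec {f : ℕ → Bool} : ∀ n, allN f n = true → ∀ k < n, f k = true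
  | 0, _, k, hk => absurd hk (Nat.not_lt_zero k)
  | n + 1, h, k, hk => by
    have h' : band (f n) (allN f n) = true := h
    rw [band_eq, Bool.and_eq_true] at h'
    rcases Nat.lt_succ_iff_lt_or_eq.1 hk with e | e
    · exact allN_spec n h'.2 k e
    · exact e ▸ h'.1

/-- A kill that does not depend on the second coordinate. -/
noncomputable def row (a c h : ℕ) : Bool :=
  band (Nat.ble (Nat.add h 1) c)
    (Nat.ble (Nat.mul 19 (Nat.add (Nat.mod (Nat.mul (Nat.sub c a) h) c) h)) (Nat.mul 7 c))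

theorem row_kill {a c h : ℕ} (b : ℕ) (e : row a c h = true) : kill a b c h = true := by
  simp only [row, band_eq, Bool.and_eq_true] at e
  simp only [kill, kr, band_eq, bor_eq, e.1, e.2, Bool.true_or, Bool.or_true, Bool.and_self]

theorem check : allN (fun c => allN (fun a => bor (row a c 1) (bor (row a c 2) (bor (row a c 3)
    (bor (row a c 4) (bor (row a c 5) (allN (fun b => ok a b c) c)))))) c) 80 = true := by
  decide +kernel

theorem ok_all {a b c : ℕ} (hc : c < 80) (ha : a < c) (hb : b < c) : ok a b c = true := by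
  have h := allN_spec _ (allN_spec _ check c hc) a ha
  simp only [bor_eq, Bool.or_eq_true] at h
  rcases h with h | h | h | h | h | h
  iterate 5 simp only [ok, bor_eq, row_kill b h, Bool.true_or, Bool.or_true]
  exact allN_spec _ h b hb

end ClassifyAux

open ClassifyAux in
theorem classify : Classify := by
  intro a b c A a0 ac b0 bc hG hZ
  have hc : c < 80 := by
    have := hG.vol.trans_le (det_le (nonneg hZ) hG.sum)
    have : (c : ℝ) < 80 := by linarith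
    exact_mod_cast this
  lift a to ℕ using a0
  lift b to ℕ using b0
  lift c to ℕ using (by omega)
  have ac' : a < c := by exact_mod_cast ac
  have bc' : b < c := by exact_mod_cast bc
  have h := ok_all (by exact_mod_cast hc) ac' bc'
  simp only [ok, bor_eq, kill_false ac' bc' one_pos hG hZ, kill_false ac' bc' two_pos hG hZ,
    kill_false ac' bc' three_pos hG hZ, kill_false ac' bc' four_pos hG hZ,
    kill_false ac' bc' (by norm_num : 0 < 5) hG hZ, Bool.false_or, List.any_eq_true,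
    Bool.and_eq_true, Nat.beq_eq] at h
  obtain ⟨e, he, ⟨rfl, rfl⟩, rfl⟩ := h
  obtain ⟨h1, h2, h3, h4⟩ := tab_ok e he
  let π : Equiv.Perm (Fin 4) := Equiv.ofBijective e.l (Finite.injective_iff_bijective.1 h2)
  refine ⟨_, h1, A.submatrix π π, good_congr (goodPerm _ _ _ π hG) h3 h4, fun i => hZ.1 _,
    fun i j hij => hZ.2 _ _ fun h => hij (π.injective h)⟩

end Pool.Agent.P.MP_65d7bf_co
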