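import Pool.Agent.P.MP_65d7bf_co.Spec

namespace Pool.Agent.P.MP_65d7bf_co

namespace ColCH

theorem band {X c : Bool} (h : (Bool.rec false X c : Bool) = true) : c = true ∧ X = true := by
  cases c
  · exact absurd h Bool.false_ne_true
  · exact ⟨rfl, h⟩

theorem bnot {X c : Bool} (h : (Bool.rec X false c : Bool) = true) : c = false ∧ X = true := by
  cases c
  · exact ⟨rfl, h⟩
  · exact absurd h Bool.false_ne_true

noncomputable def lin (c : C8) (x : X4) : ℝ :=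
  ((c.p0 : ℝ) - c.n0) * x.x0 + ((c.p1 : ℝ) - c.n1) * x.x1 + ((c.p2 : ℝ) - c.n2) * x.x2 +
    ((c.p3 : ℝ) - c.n3) * x.x3

theorem lin_mk (ka h : ℕ) (u : U) (x : X4) :
    lin (mkC8 ka h u) x = x.ev ka h u.re.a u.re.b u.re.c := by
  obtain ⟨xp, xn, yp, yn, zp, zn⟩ := u
  change (((h + xn + yn + (3 * ka + 1) * zn : ℕ) : ℝ) - ((xp + yp + (3 * ka + 1) * zp : ℕ) : ℝ)) *
    x.x0 + ((xp : ℝ) - xn) * x.x1 + ((yp : ℝ) - yn) * x.x2 + ((zp : ℝ) - zn) * x.x3 = _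
  simp only [X4.ev, U.re]
  push_cast
  ring

theorem ev_spec (c : C8) (r : Row) : ∃ ap an bp bn cp cn : ℕ,
    (∀ (α : Type) (f : ℕ → ℕ → ℕ → ℕ → ℕ → ℕ → α), evR c r f = f ap an bp bn cp cn) ∧
      ∀ x t, InT r x t →
        lin c x = t.p * ((ap : ℝ) - an) + t.q * ((bp : ℝ) - bn) + t.r * ((cp : ℝ) - cn) := by
  obtain ⟨p0, n0, p1, n1, p2, n2, p3, n3⟩ := c
  obtain ⟨a0, a1, a2, a3, b0, b1, b2, b3, c0, c1, c2, c3⟩ := r
  refine ⟨p0 * a0 + p1 * a1 + p2 * a2 + p3 * a3, n0 * a0 + n1 * a1 + n2 * a2 + n3 * a3,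
    p0 * b0 + p1 * b1 + p2 * b2 + p3 * b3, n0 * b0 + n1 * b1 + n2 * b2 + n3 * b3,
    p0 * c0 + p1 * c1 + p2 * c2 + p3 * c3, n0 * c0 + n1 * c1 + n2 * c2 + n3 * c3,
    fun _ _ => rfl, ?_⟩
  rintro x t ⟨h0, h1, h2, h3⟩
  simp only [lin, h0, h1, h2, h3]
  push_cast
  ring

theorem sub_ge (a b : ℕ) : (a : ℝ) - b ≤ (Nat.sub a b : ℕ) := by
  have h : (a : ℤ) - b ≤ ((a - b : ℕ) : ℤ) := by omega
  exact_mod_cast h

theorem pos_ok {e : Env} {d0 d1 d2 d3 k : ℕ} {t : T3} (hc : Cmb e d0 d1 d2 d3 k t) (ht : t.nn)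
    (c : C8) {r : Row} {x : X4} (hi : InT r x t) :
    ∃ P : ℝ, |lin c x| ≤ 2 * P - lin c x ∧
      RN e d0 d1 d2 d3 (evR c r (posL k)) (evR c r posM) P := by
  obtain ⟨ap, an, bp, bn, cp, cn, h1, h2⟩ := ev_spec c r
  rw [h1, h1, h2 x t hi]
  refine ⟨_, ?_, hc.rn (Nat.sub ap an) (Nat.sub bp bn) (Nat.sub cp cn)⟩
  obtain ⟨tp, tq, tr⟩ := ht
  have a1 := mul_le_mul_of_nonneg_left (sub_ge ap an) tp
  have a2 := mul_le_mul_of_nonneg_left (sub_ge bp bn) tq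
  have a3 := mul_le_mul_of_nonneg_left (sub_ge cp cn) tr
  have b1 := mul_nonneg tp (Nat.cast_nonneg (α := ℝ) (Nat.sub ap an))
  have b2 := mul_nonneg tq (Nat.cast_nonneg (α := ℝ) (Nat.sub bp bn))
  have b3 := mul_nonneg tr (Nat.cast_nonneg (α := ℝ) (Nat.sub cp cn))
  rw [abs_le]
  constructor <;> linarith

theorem neg_ok' {e : Env} {d0 d1 d2 d3 k : ℕ} {t : T3} (hc : Cmb e d0 d1 d2 d3 k t) (ht : t.nn)
    (c : C8) {r : Row} {x : X4} (hi : InT r x t) (hx : lin c x < 0) :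
    evR c r allPos = false ∧ RQ e d0 d1 d2 d3 (evR c r (negL k)) (-lin c x) := by
  obtain ⟨ap, an, bp, bn, cp, cn, h1, h2⟩ := ev_spec c r
  rw [h2 x t hi] at hx
  rw [h1, h1, h2 x t hi]
  constructor
  · cases h : allPos ap an bp bn cp cn
    · rfl
    exfalso
    obtain ⟨a1, h⟩ := band h
    obtain ⟨a2, a3⟩ := band h
    have b1 : (an : ℝ) ≤ ap := Nat.cast_le.2 (Nat.le_of_ble_eq_true a1)
    have b2 : (bn : ℝ) ≤ bp := Nat.cast_le.2 (Nat.le_of_ble_eq_true a2)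
    have b3 : (cn : ℝ) ≤ cp := Nat.cast_le.2 (Nat.le_of_ble_eq_true a3)
    obtain ⟨tp, tq, tr⟩ := ht
    have c1 := mul_nonneg tp (sub_nonneg.2 b1)
    have c2 := mul_nonneg tq (sub_nonneg.2 b2)
    have c3 := mul_nonneg tr (sub_nonneg.2 b3)
    linarith
  · have h := (hc.rp ap an bp bn cp cn
      (p := Nat.add (Nat.add ap (Nat.shiftLeft bp k)) (Nat.shiftLeft cp (Nat.mul 3 k)))
      (n := Nat.add (Nat.add an (Nat.shiftLeft bn k)) (Nat.shiftLeft cn (Nat.mul 3 k)))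
      (by rw [pk_cast, pk_cast]; ring)).neg.nrm
    exact h

theorem cg_dvd {c x y : ℕ} (h : cg c x y = true) : (c : ℤ) ∣ (x : ℤ) - y := by
  have h1 : x % c = y % c := Nat.eq_of_beq_eq_true h
  exact (Nat.modEq_iff_dvd.1 (show y ≡ x [MOD c] from h1.symm))

theorem okL_ok {cf : Cfg} {u : U} (h : okL cf u = true) :
    (cf.c : ℤ) ∣ ((u.xp : ℤ) - u.xn) - ((u.zp : ℤ) - u.zn) * cf.g1 ∧
      (cf.c : ℤ) ∣ ((u.yp : ℤ) - u.yn) - ((u.zp : ℤ) - u.zn) * cf.g2 := by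
  obtain ⟨xp, xn, yp, yn, zp, zn⟩ := u
  obtain ⟨h1, h2⟩ := band h
  have a1 : (cf.c : ℤ) ∣ ((xp + zn * cf.g1 : ℕ) : ℤ) - ((xn + zp * cf.g1 : ℕ) : ℤ) := cg_dvd h1
  have a2 : (cf.c : ℤ) ∣ ((yp + zn * cf.g2 : ℕ) : ℤ) - ((yn + zp * cf.g2 : ℕ) : ℤ) := cg_dvd h2
  constructor
  · convert a1 using 1
    push_cast
    ring
  · convert a2 using 1
    push_cast
    ring

theorem nz_ok {u : U} (h : nz u = true) :
    (u.xp : ℤ) - u.xn ≠ 0 ∨ (u.yp : ℤ) - u.yn ≠ 0 ∨ (u.zp : ℤ) - u.zn ≠ 0 := by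
  obtain ⟨xp, xn, yp, yn, zp, zn⟩ := u
  by_contra hc
  push Not at hc
  obtain ⟨a, b, c⟩ := hc
  have a' : xp = xn := by simp only at a; omega
  have b' : yp = yn := by simp only at b; omega
  have c' : zp = zn := by simp only at c; omega
  subst a' b' c'
  change (Bool.rec true (Bool.rec true (Bool.rec true false (Nat.beq zp zp))
    (Nat.beq yp yp)) (Nat.beq xp xp) : Bool) = true at h
  rw [Nat.beq_refl, Nat.beq_refl, Nat.beq_refl] at h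
  exact Bool.false_ne_true h

theorem ev_cast (x : X4) (ka : ℕ) (h : ℝ) (u : U) :
    x.ev ka h (((u.xp : ℤ) - u.xn : ℤ) : ℝ) (((u.yp : ℤ) - u.yn : ℤ) : ℝ)
      (((u.zp : ℤ) - u.zn : ℤ) : ℝ) = x.ev ka h u.re.a u.re.b u.re.c := by
  simp only [U.re]
  push_cast
  rfl

theorem sub128 (a : ℕ) : ((Nat.sub a 128 : ℕ) : ℤ) - (Nat.sub 128 a : ℕ) = (a : ℤ) - 128 :=
  sub_sub_cast a 128

theorem dec1_val (a b c : ℕ) :
    ((dec1 a b c).xp : ℤ) - (dec1 a b c).xn = (a : ℤ) - 128 ∧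
      ((dec1 a b c).yp : ℤ) - (dec1 a b c).yn = (b : ℤ) - 128 ∧
      ((dec1 a b c).zp : ℤ) - (dec1 a b c).zn = (c : ℤ) - 128 := by
  unfold dec1
  dsimp only
  exact ⟨sub128 a, sub128 b, sub128 c⟩

theorem same_ok {x p : ℕ} (h : same x p = false) :
    NeP (((dec3 x).xp : ℤ) - (dec3 x).xn) (((dec3 x).yp : ℤ) - (dec3 x).yn)
      (((dec3 x).zp : ℤ) - (dec3 x).zn) p := by
  by_contra hc
  unfold NeP at hc
  push Not at hc
  obtain ⟨a1, b1, c1⟩ := hc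
  unfold dec3 at a1 b1 c1
  rw [(dec1_val _ _ _).1] at a1
  rw [(dec1_val _ _ _).2.1] at b1
  rw [(dec1_val _ _ _).2.2] at c1
  have a2 : Nat.land x 255 = Nat.land p 255 := by
    have : ((Nat.land x 255 : ℕ) : ℤ) - 128 = ((Nat.land p 255 : ℕ) : ℤ) - 128 := a1
    omega
  have b2 : Nat.land (Nat.shiftRight x 8) 255 = Nat.land (Nat.shiftRight p 8) 255 := by
    have : ((Nat.land (Nat.shiftRight x 8) 255 : ℕ) : ℤ) - 128 =
      ((Nat.land (Nat.shiftRight p 8) 255 : ℕ) : ℤ) - 128 := b1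
    omega
  have c2 : Nat.land (Nat.shiftRight x 16) 255 = Nat.land (Nat.shiftRight p 16) 255 := by
    have : ((Nat.land (Nat.shiftRight x 16) 255 : ℕ) : ℤ) - 128 =
      ((Nat.land (Nat.shiftRight p 16) 255 : ℕ) : ℤ) - 128 := c1
    omega
  unfold same at h
  rw [a2, b2, c2, Nat.beq_refl, Nat.beq_refl, Nat.beq_refl] at h
  exact Bool.false_ne_true h.symm

theorem optH_ok {e : Env} {d0 d1 d2 d3 c0 c1 c2 c3 k lam : ℕ} {t : T3} {l : Lf} {z : C8} {r : Row}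
    {x : X4} {q1 q2 q3 : RK} {f : Q → Bool} {w v : ℝ} (hc : Cmb e d0 d1 d2 d3 k t) (ht : t.nn)
    (hi : InT r x t) (hx : lin z x < 0) (hw : 0 < w) (hv : 0 < v) (hl : 0 < lam)
    (hq : RN e c0 c1 c2 c3 (Nat.mul (Nat.mul q1.s q2.s) q3.s)
      (Nat.mul (Nat.mul q1.sm q2.sm) q3.sm) w) (hp : RN e 1 1 1 1 l.pi l.pm v)
    (h : optH l z r k q1 q2 q3 lam f = true) :
    ∃ o w, 0 < w ∧ RQ e (d0 + c0 + 1) (d1 + c1 + 1) (d2 + c2 + 1) (d3 + c3 + 1) o w ∧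
      f o = true := by
  obtain ⟨h1, h2⟩ := neg_ok' hc ht z hi hx
  unfold optH at h
  rw [h1] at h
  refine ⟨_, _, ?_, ((h2.muln hq).mulc lam).muln hp, h⟩
  have : (0 : ℝ) < lam := Nat.cast_pos.2 hl
  have : 0 < -lin z x := neg_pos.2 hx
  positivity

end ColCH

open ColCH

theorem colC_ok : ColC := by
  intro cf st R e l n lam a h hl
  generalize dec3 n = u
  intro k hk
  unfold colC at hk
  obtain ⟨h1, hk⟩ := band hk
  obtain ⟨h2, hk⟩ := band hk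
  obtain ⟨d1, d2⟩ := okL_ok h2
  have hc := a.fx.cho _ _ _ (nz_ok h1) d1 d2
  rw [ev_cast, ev_cast, ev_cast, ev_cast] at hc
  rw [h.p.hB] at hk
  obtain ⟨P0, a0, b0⟩ := pos_ok (cmbs0 e) a.n0 (mkC8 cf.ka 0 u) a.i0
  obtain ⟨P1, a1, b1⟩ := pos_ok (cmbs1 e) a.n1 (mkC8 cf.ka 0 u) a.i1
  obtain ⟨P2, a2, b2⟩ := pos_ok (cmbs2 e) a.n2 (mkC8 cf.ka 0 u) a.i2
  obtain ⟨P3, a3, b3⟩ := pos_ok (cmbs3 e) a.n3 (mkC8 cf.ka 0 u) a.i3
  rw [lin_mk, Nat.cast_zero] at a0 a1 a2 a3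
  have hs : R.r0.ev cf.ka 0 u.re.a u.re.b u.re.c +
      R.r1.ev cf.ka 0 u.re.a u.re.b u.re.c +
      R.r2.ev cf.ka 0 u.re.a u.re.b u.re.c +
      R.r3.ev cf.ka 0 u.re.a u.re.b u.re.c = 0 := by
    simp only [X4.ev]
    linear_combination (0 - u.re.a - u.re.b - (3 * cf.ka + 1) * u.re.c) *
      a.fx.s0 + u.re.a * a.fx.s1 + u.re.b * a.fx.s2 + u.re.c * a.fx.s3
  have hP : 0 < 19 * (P0 + P1 + P2 + P3) - 7 * (cf.c : ℝ) := by linarith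
  have hS : RQ e 1 1 1 1 _ _ := rq_sum4 (h.d0.muln b0) (h.d1.muln b1) (h.d2.muln b2) (h.d3.muln b3)
  refine ⟨_, _, ?_, rq_difF (Nat.mul 19 lam) (Nat.mul (Nat.mul 7 cf.c) lam) hS h.S h.pi, hk⟩
  have e1 : ((Nat.mul 19 lam : ℕ) : ℝ) = 19 * lam := by
    change ((19 * lam : ℕ) : ℝ) = _
    push_cast
    rfl
  have e2 : ((Nat.mul (Nat.mul 7 cf.c) lam : ℕ) : ℝ) = 7 * cf.c * lam := by
    change ((7 * cf.c * lam : ℕ) : ℝ) = _
    push_cast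
    rfl
  rw [e1, e2]
  have hlam : (0 : ℝ) < lam := Nat.cast_pos.2 hl
  have hD := a.dt
  have hpi := mul_pos (mul_pos (mul_pos a.fx.p0 a.fx.p1) a.fx.p2) a.fx.p3
  refine mul_pos ?_ hpi
  have := mul_pos (mul_pos hD hlam) hP
  linarith

theorem colH_ok : ColH := by
  intro cf st R e l n lam a h hl k hk
  obtain ⟨h1, hk⟩ := band hk
  obtain ⟨s0, h1⟩ := bnot h1
  obtain ⟨s1, h1⟩ := bnot h1
  obtain ⟨s2, h1⟩ := bnot h1
  obtain ⟨s3, h1⟩ := bnot h1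
  obtain ⟨d1, d2⟩ := okL_ok h1
  have hc := a.fx.hol _ _ _ d1 d2 (same_ok s0) (same_ok s1) (same_ok s2) (same_ok s3)
  rw [ev_cast, ev_cast, ev_cast, ev_cast, ← lin_mk, ← lin_mk, ← lin_mk, ← lin_mk] at hc
  rw [h.p.hB] at hk
  obtain ⟨k0, hk⟩ := band hk
  obtain ⟨k1, hk⟩ := band hk
  obtain ⟨k2, k3⟩ := band hk
  have hpi := mul_pos (mul_pos (mul_pos a.fx.p0 a.fx.p1) a.fx.p2) a.fx.p3
  have q0 := h.p.q0.2.2
  have q1 := h.p.q1.2.2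
  have q2 := h.p.q2.2.2
  have q3 := h.p.q3.2.2
  rcases hc with hc | hc | hc | hc
  · exact optH_ok (cmbs0 e) a.n0 a.i0 hc (mul_pos (mul_pos a.fx.p1 a.fx.p2) a.fx.p3) hpi hl
      ((q1.mul q2).mul q3) h.pi k0
  · exact optH_ok (cmbs1 e) a.n1 a.i1 hc (mul_pos (mul_pos a.fx.p0 a.fx.p2) a.fx.p3) hpi hl
      ((q0.mul q2).mul q3) h.pi k1
  · exact optH_ok (cmbs2 e) a.n2 a.i2 hc (mul_pos (mul_pos a.fx.p0 a.fx.p1) a.fx.p3) hpi hl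
      ((q0.mul q1).mul q3) h.pi k2
  · exact optH_ok (cmbs3 e) a.n3 a.i3 hc (mul_pos (mul_pos a.fx.p0 a.fx.p1) a.fx.p2) hpi hl
      ((q0.mul q1).mul q2) h.pi k3

end Pool.Agent.P.MP_65d7bf_co
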