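import Pool.Agent.P.MP_65d7bf_co.Spec

namespace Pool.Agent.P.MP_65d7bf_co

namespace ColLT

theorem band {c X : Bool} (h : Bool.rec false X c = true) : c = true ∧ X = true := by
  cases c
  · exact absurd h Bool.false_ne_true
  · exact ⟨rfl, h⟩

theorem all4_ok {f : ℕ → Bool} (h : all4 f = true) {i : ℕ} (hi : i < 4) : f i = true := by
  obtain ⟨h0, h⟩ := band h
  obtain ⟨h1, h⟩ := band h
  obtain ⟨h2, h3⟩ := band h
  interval_cases i <;> assumption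

theorem ent_ok {e : Env} {d0 d1 d2 d3 k : ℕ} {t : T3} (h : Cmb e d0 d1 d2 d3 k t) {r : Row} {x : X4}
    (hx : InT r x t) {j : ℕ} (hj : j < 4) :
    RN e d0 d1 d2 d3 (entL k j r) (entM j r) (x.ent j) := by
  obtain ⟨a0, a1, a2, a3, b0, b1, b2, b3, c0, c1, c2, c3⟩ := r
  obtain ⟨h0, h1, h2, h3⟩ := hx
  interval_cases j
  · exact (h.rn a0 b0 c0).of_eq h0.symm
  · exact (h.rn a1 b1 c1).of_eq h1.symm
  · exact (h.rn a2 b2 c2).of_eq h2.symm
  · exact (h.rn a3 b3 c3).of_eq h3.symm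

theorem sgn_sq (s : Bool) : sgn s * sgn s = 1 := by
  cases s <;> simp [sgn]

theorem phi_sg (R : Rows) (k : ℕ) (s : Bool) {a : ℕ} (ha : a < 4) :
    R.phi k (U.sg s ⟨0, 0, 0, 0, 1, 0⟩).re a = sgn s * R.phi k ⟨0, 0, 1⟩ a := by
  cases s <;> interval_cases a <;> simp [Rows.phi, sel, U.sg, U.re, sgn, R3.dot, Nat.beq, Nat.ble]

theorem re_sg (s : Bool) :
    (U.sg s ⟨0, 0, 0, 0, 0, 1⟩).re = (U.sg s ⟨0, 0, 0, 0, 1, 0⟩).re.neg := by
  cases s <;> simp [U.sg, U.re, R3.neg]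

end ColLT

open ColLT in
theorem colL_ok : ColL := by
  intro cf st R e l lam a h hl k hk
  obtain ⟨hloc, hk⟩ := band hk
  obtain ⟨i, hi, j, hj, hij, hx⟩ := a.fx.loc hloc
  have h1 := all4_ok (all4_ok hk hi) hj
  have hb : Nat.beq i j = false := by
    cases hb : Nat.beq i j
    · rfl
    · exact absurd (Nat.eq_of_beq_eq_true hb) hij
  rw [hb, h.p.hB] at h1
  have hs : RQ e 1 1 1 1 (sel i (l.d0.muln (entL (Nat.mul e.B 1) j st.r0) (entM j st.r0))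
      (l.d1.muln (entL (Nat.mul e.B 7) j st.r1) (entM j st.r1))
      (l.d2.muln (entL (Nat.mul e.B 49) j st.r2) (entM j st.r2))
      (l.d3.muln (entL (Nat.mul e.B 343) j st.r3) (entM j st.r3)))
      (sgn st.s * R.det cf.ka * (R.row i).ent j) := by
    interval_cases i
    · exact h.d0.muln (ent_ok (cmbs0 e) a.i0 hj)
    · exact h.d1.muln (ent_ok (cmbs1 e) a.i1 hj)
    · exact h.d2.muln (ent_ok (cmbs2 e) a.i2 hj)
    · exact h.d3.muln (ent_ok (cmbs3 e) a.i3 hj)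
  refine ⟨_, _, ?_, rq_difF (Nat.mul (lo i j) lam) (Nat.mul 1000 lam) h.S hs h.pi, h1⟩
  have hp := mul_pos (mul_pos (mul_pos a.fx.p0 a.fx.p1) a.fx.p2) a.fx.p3
  refine mul_pos ?_ hp
  have hl' : (0 : ℝ) < lam := by exact_mod_cast hl
  have := mul_pos (mul_pos a.dt hl') (sub_pos.2 hx)
  change 0 < _ * ((lo i j * lam : ℕ) : ℝ) - _ * ((1000 * lam : ℕ) : ℝ)
  push_cast
  linarith

open ColLT in
theorem colT_ok : ColT := by
  intro cf st R e l lam a h hl k hk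
  obtain ⟨hka, hk⟩ := band hk
  have ht := a.fx.top (Nat.eq_of_beq_eq_true hka)
  have e0 := (h.p.ee _ _ 1 0 (by norm_num) (by norm_num) (re_sg st.s)).muln h.p.q0.2.1
  have e2 := (h.p.ee _ _ 1 2 (by norm_num) (by norm_num) (re_sg st.s)).muln h.p.q2.2.1
  have e3 := (h.p.ee _ _ 1 3 (by norm_num) (by norm_num) (re_sg st.s)).muln h.p.q3.2.1
  have e1 : RQ e 1 0 1 1 (Q.muln ⟨0, 0, 0⟩ 0 0) 0 := rp_zero e 1 0 1 1
  have hs := rq_sum4 (d0 := 1) (d1 := 0) (d2 := 1) (d3 := 1) e0 e1 e2 e3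
  refine ⟨_, _, ?_, rq_difF (Nat.mul 11482 lam) (Nat.mul 19601 lam) hs h.d1
    (h.p.q1.2.2.mul h.pi), hk⟩
  have hp := mul_pos (mul_pos (mul_pos a.fx.p0 a.fx.p1) a.fx.p2) a.fx.p3
  refine mul_pos ?_ (mul_pos a.fx.p1 hp)
  have hl' : (0 : ℝ) < lam := by exact_mod_cast hl
  rw [phi_sg R _ _ (by norm_num : 0 < 4), phi_sg R _ _ (by norm_num : 1 < 4),
    phi_sg R _ _ (by norm_num : 2 < 4), phi_sg R _ _ (by norm_num : 3 < 4)]
  change 0 < _ * ((11482 * lam : ℕ) : ℝ) - _ * ((19601 * lam : ℕ) : ℝ)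
  push_cast
  have hd := a.dt
  have hq := sgn_sq st.s
  generalize sgn st.s = s at *
  generalize R.det cf.ka = D at *
  set Y := R.r0.x0 * (R.phi cf.ka ⟨0, 0, 1⟩ 1 - R.phi cf.ka ⟨0, 0, 1⟩ 0) +
      R.r2.x0 * (R.phi cf.ka ⟨0, 0, 1⟩ 1 - R.phi cf.ka ⟨0, 0, 1⟩ 2) +
      R.r3.x0 * (R.phi cf.ka ⟨0, 0, 1⟩ 1 - R.phi cf.ka ⟨0, 0, 1⟩ 3) with hY
  have h1 : 0 < s * D * (11482 * (s * Y) - 19601 * (s * D)) := by
    have : s * D * (11482 * (s * Y) - 19601 * (s * D))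
        = (s * s) * (11482 * (D * Y) - 19601 * D ^ 2) := by ring
    rw [this, hq]; linarith
  have h2 := mul_pos ((mul_pos_iff_of_pos_left hd).1 h1) hl'
  rw [hY] at h2
  linarith

end Pool.Agent.P.MP_65d7bf_co
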