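import Pool.Agent.P.MP_65d7bf_co.Spec

namespace Pool.Agent.P.MP_65d7bf_co

namespace ColV

theorem am3 {a b c d H : ℝ} (ha : 0 < a) (hb : 0 < b) (hc : 0 < c) (hd : 0 < d)
    (h : a + b + c + d = H) : 27 * (b * c * d) ≤ H ^ 3 := by
  have h1 : 27 * (b * c * d) ≤ (b + c + d) ^ 3 := by
    have e : (b + c + d) ^ 3 - 27 * (b * c * d) =
        (b + c + d) / 2 * ((b - c) ^ 2 + (c - d) ^ 2 + (d - b) ^ 2) +
          3 * (b * (c - d) ^ 2 + c * (d - b) ^ 2 + d * (b - c) ^ 2) := by ring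
    have : 0 ≤ (b + c + d) ^ 3 - 27 * (b * c * d) := by
      rw [e]
      positivity
    linarith
  exact h1.trans (pow_le_pow_left₀ (by positivity) (by linarith) 3)

theorem am4 {a b c d H : ℝ} (ha : 0 < a) (hb : 0 < b) (hc : 0 < c) (hd : 0 < d)
    (h : a + b + c + d = H) : 256 * (a * b * c * d) ≤ H ^ 4 := by
  have h1 : 4 * (a * b) ≤ (a + b) ^ 2 := by nlinarith [sq_nonneg (a - b)]
  have h2 : 4 * (c * d) ≤ (c + d) ^ 2 := by nlinarith [sq_nonneg (c - d)]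
  have h3 : 4 * ((a + b) * (c + d)) ≤ H ^ 2 := by
    rw [← h]
    nlinarith [sq_nonneg (a + b - c - d)]
  have h4 := mul_le_mul h1 h2 (by positivity) (by positivity)
  have h5 := pow_le_pow_left₀ (by positivity) h3 2
  nlinarith

theorem fin {D c H P y lam π : ℝ} {n : ℕ} (k : ℝ) (hc : 0 ≤ c) (hD : c < 80 * D) (hH : 0 < H)
    (hy : 0 < y) (hl : 0 < lam) (hp : 0 < π) (e : π = y * P) (h : k * P ≤ H ^ n) :
    0 < (D * y * (80 * H ^ n * lam) - π * (k * c * lam)) * π := by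
  refine mul_pos ?_ hp
  have h1 := mul_le_mul_of_nonneg_right h hc
  have h2 := mul_lt_mul_of_pos_left hD (pow_pos hH n)
  have h3 := mul_pos (mul_pos hy hl) (sub_pos.2 (h1.trans_lt h2))
  rw [e]
  linarith

end ColV

open ColV in
theorem colV_ok : ColV := by
  intro cf st R e l lam a hl hlam
  have f := a.fx
  have p0 := f.p0
  have p1 := f.p1
  have p2 := f.p2
  have p3 := f.p3
  have hl' : (0 : ℝ) < lam := Nat.cast_pos.2 hlam
  have hH : R.r0.sig + R.r1.sig + R.r2.sig + R.r3.sig = (hh cf : ℕ) := by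
    simp only [X4.sig, hh, Nat.add_eq, Nat.mul_eq]
    push_cast
    linear_combination f.s0 + f.s1 + f.s2 + f.s3
  have hH0 : (0 : ℝ) < (hh cf : ℕ) := by
    rw [← hH]
    positivity
  have hD : (cf.c : ℝ) < 80 * (sgn st.s * R.det cf.ka) := by
    have h1 := f.vol
    have h2 : |R.det cf.ka| = sgn st.s * R.det cf.ka := by
      rw [← abs_of_pos a.dt, abs_mul]
      cases st.s
      · change _ = |(-1 : ℝ)| * _
        rw [abs_neg, abs_one, one_mul]
      · change _ = |(1 : ℝ)| * _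
        rw [abs_one, one_mul]
    rwa [h2] at h1
  have hp : 0 < R.r0.sig * R.r1.sig * R.r2.sig * R.r3.sig := by positivity
  have hc : (0 : ℝ) ≤ cf.c := Nat.cast_nonneg _
  have k1 : ∀ n : ℕ, ((Nat.mul (Nat.mul 80 (Nat.pow (hh cf) n)) lam : ℕ) : ℝ) =
      80 * ((hh cf : ℕ) : ℝ) ^ n * lam := by
    intro n
    simp only [Nat.mul_eq, Nat.pow_eq]
    push_cast
    rfl
  have k2 : ∀ n : ℕ, ((Nat.mul (Nat.mul n cf.c) lam : ℕ) : ℝ) = n * cf.c * lam := by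
    intro n
    simp only [Nat.mul_eq]
    push_cast
    rfl
  have main : ∀ (x : Q) (y P : ℝ), RQ e 1 1 1 1 x (sgn st.s * R.det cf.ka * y) → 0 < y →
      R.r0.sig * R.r1.sig * R.r2.sig * R.r3.sig = y * P → ∀ n k : ℕ,
      k * P ≤ ((hh cf : ℕ) : ℝ) ^ n → ∃ w, 0 < w ∧ RQ e 2 2 2 2 (difF x ⟨l.pi, 0, l.pm⟩
        (Nat.mul (Nat.mul 80 (Nat.pow (hh cf) n)) lam) (Nat.mul (Nat.mul k cf.c) lam) l.pi l.pm)
        w := by
    intro x y P hx hy hP n k hk
    refine ⟨_, ?_, rq_difF _ _ hx hl.pi.rq hl.pi⟩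
    rw [k1, k2]
    exact fin _ hc hD hH0 hy hl' hp hP hk
  refine ⟨main _ 1 _ (hl.S.of_eq (mul_one _).symm) one_pos (one_mul _).symm 4 256
    (by exact_mod_cast am4 p0 p1 p2 p3 hH), fun i hi => ?_⟩
  interval_cases i
  · exact main _ _ (R.r1.sig * R.r2.sig * R.r3.sig) (hl.d0.muln hl.p.q0.2.2) p0 (by ring) 3 27
      (by exact_mod_cast am3 p0 p1 p2 p3 hH)
  · exact main _ _ (R.r0.sig * R.r2.sig * R.r3.sig) (hl.d1.muln hl.p.q1.2.2) p1 (by ring) 3 27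
      (by exact_mod_cast am3 p1 p0 p2 p3 (H := (hh cf : ℕ)) (by linarith))
  · exact main _ _ (R.r0.sig * R.r1.sig * R.r3.sig) (hl.d2.muln hl.p.q2.2.2) p2 (by ring) 3 27
      (by exact_mod_cast am3 p2 p0 p1 p3 (H := (hh cf : ℕ)) (by linarith))
  · exact main _ _ (R.r0.sig * R.r1.sig * R.r2.sig) (hl.d3.muln hl.p.q3.2.2) p3 (by ring) 3 27
      (by exact_mod_cast am3 p3 p0 p1 p2 (H := (hh cf : ℕ)) (by linarith))

end Pool.Agent.P.MP_65d7bf_co
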