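import Pool.Agent.P.MP_65d7bf_co.St2

namespace Pool.Agent.P.MP_65d7bf_co

namespace CoverAux

def dg (x k : ℕ) : ℕ := Nat.mod (Nat.shiftRight x (Nat.mul 2 k)) 4

def mp (t y : ℕ) : ℕ := dg t (y % 4) + 4 * dg t (y / 4 % 4) + 16 * dg t (y / 16 % 4)

def tr (s t y0 y1 y2 y3 : ℕ) : ℕ :=
  mp t (sel (dg s 0) y0 y1 y2 y3) + 64 * mp t (sel (dg s 1) y0 y1 y2 y3) +
    4096 * mp t (sel (dg s 2) y0 y1 y2 y3) + 262144 * mp t (sel (dg s 3) y0 y1 y2 y3)

def plist : List (ℕ × ℕ) :=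
  [(228, 228), (180, 180), (216, 216), (120, 156), (156, 120), (108, 108), (225, 225), (177, 177),
   (201, 210), (57, 147), (141, 114), (45, 99), (210, 201), (114, 141), (198, 198), (54, 135),
   (78, 78), (30, 75), (147, 57), (99, 45), (135, 54), (39, 39), (75, 30), (27, 27)]

def ords (i : ℕ) : List ℕ :=
  sel i [57, 45, 54, 30, 39, 27] [56, 44, 50, 14, 35, 11] [52, 28, 49, 13, 19, 7]
    [36, 24, 33, 9, 18, 6]

noncomputable def chk (n : ℕ) : Bool :=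
  Nat.rec false (fun m _ => ocodes.any fun x => Nat.beq x m.succ) n

theorem chk_mem {n : ℕ} (h : chk n = true) : n ∈ ocodes := by
  cases n with
  | zero => exact absurd h (by simp [chk])
  | succ m =>
    obtain ⟨x, hx, e⟩ := List.any_eq_true.1 h
    have e' : x = m + 1 := Nat.eq_of_beq_eq_true e
    exact e' ▸ hx

theorem key0 : ((ords 0).all fun y0 => (ords 1).all fun y1 => (ords 2).all fun y2 =>
    (ords 3).all fun y3 => plist.any fun p => chk (tr p.1 p.2 y0 y1 y2 y3)) = true := by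
  decide +kernel

theorem key {y0 y1 y2 y3 : ℕ} (h0 : y0 ∈ ords 0) (h1 : y1 ∈ ords 1) (h2 : y2 ∈ ords 2)
    (h3 : y3 ∈ ords 3) : ∃ p ∈ plist, tr p.1 p.2 y0 y1 y2 y3 ∈ ocodes := by
  have h := key0
  simp only [List.all_eq_true, List.any_eq_true] at h
  obtain ⟨p, hp, e⟩ := h y0 h0 y1 h1 y2 h2 y3 h3
  exact ⟨p, hp, chk_mem e⟩

def F (s : ℕ) (i : Fin 4) : Fin 4 := ⟨dg s i, Nat.mod_lt _ (by norm_num)⟩

theorem pinv : ∀ p ∈ plist, (∀ i, F p.2 (F p.1 i) = i) ∧ ∀ i, F p.1 (F p.2 i) = i := by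
  decide +kernel

/-- `a, b, c` are the three indices other than `i`. -/
def Dis (i a b c : Fin 4) : Prop := i ≠ a ∧ i ≠ b ∧ i ≠ c ∧ a ≠ b ∧ a ≠ c ∧ b ≠ c

instance (i a b c : Fin 4) : Decidable (Dis i a b c) := by unfold Dis; infer_instance

theorem mem_ords : ∀ i a b c : Fin 4, Dis i a b c →
    a.val + 4 * b.val + 16 * c.val ∈ ords i := by
  decide +kernel

theorem ex3 : ∀ i : Fin 4, ∃ a b c, Dis i a b c := by decide +kernel

theorem four : ∀ i a b c j : Fin 4, Dis i a b c → j = i ∨ j = a ∨ j = b ∨ j = c := by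
  decide +kernel

theorem exists_ord (f : Fin 4 → ℝ) (i : Fin 4) :
    ∃ a b c, Dis i a b c ∧ f b ≤ f a ∧ f c ≤ f b := by
  obtain ⟨a, b, c, h1, h2, h3, h4, h5, h6⟩ := ex3 i
  rcases le_total (f a) (f b) with p | p <;> rcases le_total (f b) (f c) with q | q <;>
    rcases le_total (f a) (f c) with r | r
  · exact ⟨c, b, a, ⟨h3, h2, h1, h6.symm, h5.symm, h4.symm⟩, q, p⟩
  · exact ⟨c, b, a, ⟨h3, h2, h1, h6.symm, h5.symm, h4.symm⟩, q, p⟩
  · exact ⟨b, c, a, ⟨h2, h3, h1, h6, h4.symm, h5.symm⟩, q, r⟩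
  · exact ⟨b, a, c, ⟨h2, h1, h3, h4.symm, h6, h5⟩, p, r⟩
  · exact ⟨c, a, b, ⟨h3, h1, h2, h5.symm, h6.symm, h4⟩, r, p⟩
  · exact ⟨a, c, b, ⟨h1, h3, h2, h5, h4, h6.symm⟩, r, q⟩
  · exact ⟨a, b, c, ⟨h1, h2, h3, h4, h5, h6⟩, p, q⟩
  · exact ⟨a, b, c, ⟨h1, h2, h3, h4, h5, h6⟩, p, q⟩

theorem ind_eq (a j : Fin 4) : (ind a j : ℝ) = if j = a then 1 else 0 := by
  have : ∀ a j : Fin 4, ind a j = if j = a then 1 else 0 := by decide +kernel
  rw [this]
  split_ifs <;> simp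

theorem row_in (f : Fin 4 → ℝ) (i a b c : Fin 4) (h : Dis i a b c) (h0 : f i = 0)
    (hc : 0 ≤ f c) (h1 : f b ≤ f a) (h2 : f c ≤ f b) :
    InR (ordRow a b c) ⟨f 0, f 1, f 2, f 3⟩ := by
  have e : ∀ j : Fin 4, f j = (f a - f b) * (ind a j : ℕ) + (f b - f c) * (ind a j + ind b j : ℕ) +
      f c * (ind a j + ind b j + ind c j : ℕ) := by
    intro j
    have h' := four i a b c j h
    obtain ⟨h1, h2, h3, h4, h5, h6⟩ := h
    push_cast
    rw [ind_eq, ind_eq, ind_eq]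
    rcases h' with rfl | rfl | rfl | rfl
    · simp [h1, h2, h3, h0]
    · simp [h4, h5]
    · simp [h4.symm, h6]
    · simp [h5.symm, h6.symm]
  exact ⟨⟨f a - f b, f b - f c, f c⟩, ⟨sub_nonneg.2 h1, sub_nonneg.2 h2, hc⟩, e 0, e 1, e 2, e 3⟩

theorem mp_eq (t : ℕ) (a b c : Fin 4) : mp t (a.val + 4 * b.val + 16 * c.val) =
    (F t a).val + 4 * (F t b).val + 16 * (F t c).val := by
  have h1 : (a.val + 4 * b.val + 16 * c.val) % 4 = a := by omega
  have h2 : (a.val + 4 * b.val + 16 * c.val) / 4 % 4 = b := by omega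
  have h3 : (a.val + 4 * b.val + 16 * c.val) / 16 % 4 = c := by omega
  unfold mp
  rw [h1, h2, h3]
  rfl

theorem sel_eq (y : Fin 4 → ℕ) (j : Fin 4) : sel j (y 0) (y 1) (y 2) (y 3) = y j := by
  fin_cases j <;> rfl

theorem ord_eq {x : ℕ} {a b c : Fin 4} (h : x % 64 = a.val + 4 * b.val + 16 * c.val) :
    ordRow' x = ordRow a b c := by
  have h1 : x % 4 = a := by omega
  have h2 : x / 4 % 4 = b := by omega
  have h3 : x / 16 % 4 = c := by omega
  unfold ordRow'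
  rw [h1, h2, h3]

theorem inr_of {x : ℕ} {a b c : Fin 4} {v} (hv : InR (ordRow a b c) v)
    (h : x % 64 = a.val + 4 * b.val + 16 * c.val) : InR (ordRow' x) v :=
  (ord_eq h).symm ▸ hv

end CoverAux

open CoverAux in
theorem cover : Cover := by
  intro A hA
  choose a b c hD h1 h2 using fun i => exists_ord (A i) i
  obtain ⟨⟨s, t⟩, hp, hx⟩ := key (mem_ords 0 _ _ _ (hD 0)) (mem_ords 1 _ _ _ (hD 1))
    (mem_ords 2 _ _ _ (hD 2)) (mem_ords 3 _ _ _ (hD 3))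
  obtain ⟨i1, i2⟩ := pinv _ hp
  dsimp only at i1 i2 hx
  have hinj : ∀ {u v}, u ≠ v → F t u ≠ F t v := fun {u v} h e => h ((i2 u).symm.trans ((congrArg (F s) e).trans (i2 v)))
  have hm : ∀ i : Fin 4, mp t (sel (dg s i) ((a 0).val + 4 * (b 0).val + 16 * (c 0).val)
      ((a 1).val + 4 * (b 1).val + 16 * (c 1).val) ((a 2).val + 4 * (b 2).val + 16 * (c 2).val)
      ((a 3).val + 4 * (b 3).val + 16 * (c 3).val)) =
      (F t (a (F s i))).val + 4 * (F t (b (F s i))).val + 16 * (F t (c (F s i))).val := fun i => by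
    rw [← mp_eq]
    exact congrArg _ (sel_eq (fun j => (a j).val + 4 * (b j).val + 16 * (c j).val) (F s i))
  have hr : ∀ i : Fin 4, InR (ordRow (F t (a (F s i))) (F t (b (F s i))) (F t (c (F s i))))
      ⟨A (F s i) (F s 0), A (F s i) (F s 1), A (F s i) (F s 2), A (F s i) (F s 3)⟩ := fun i => by
    obtain ⟨d1, d2, d3, d4, d5, d6⟩ := hD (F s i)
    refine row_in (fun j => A (F s i) (F s j)) i _ _ _ ⟨?_, ?_, ?_, hinj d4, hinj d5, hinj d6⟩
      (hA.1 _) ?_ ?_ ?_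
    · simpa only [i1] using hinj d1
    · simpa only [i1] using hinj d2
    · simpa only [i1] using hinj d3
    · simpa only [i2] using (hA.2 _ _ d3).le
    · simpa only [i2] using h1 _
    · simpa only [i2] using h2 _
  refine ⟨⟨F s, F t, i1, i2⟩, _, hx, fun _ => ?_⟩
  have m0 := hm 0
  have m1 := hm 1
  have m2 := hm 2
  have m3 := hm 3
  unfold tr
  simp only [Fin.val_zero, Fin.val_one, Fin.val_two] at m0 m1 m2
  change mp t (sel (dg s 3) _ _ _ _) = _ at m3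
  rw [m0, m1, m2, m3]
  refine ⟨?_, ?_, ?_, ?_⟩
  · exact inr_of (hr 0) (by omega)
  · exact inr_of (hr 1) (by omega)
  · exact inr_of (hr 2) (by omega)
  · exact inr_of (hr 3) (by omega)

end Pool.Agent.P.MP_65d7bf_co
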