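import Pool.Agent.P.MP_65d7bf_co.Kron

namespace Pool.Agent.P.MP_65d7bf_co

noncomputable section

/-- Three generators of a cone of affine functionals, given by four values each. -/
structure Row where
  (a0 a1 a2 a3 b0 b1 b2 b3 c0 c1 c2 c3 : ℕ)

structure St where
  s : Bool
  (r0 r1 r2 r3 : Row)
  ctx : List ℕ

/-- Lattice index, lattice generator, height flag, excluded points, flag for the local fact. -/
structure Cfg where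
  (c g1 g2 ka p0 p1 p2 p3 : ℕ)
  loc : Bool

/-- A packed signed polynomial `p - n` with coefficient bound `m`. -/
structure Q where
  (p n m : ℕ)

structure Q3 where
  (xp xn xm yp yn ym zp zn zm : ℕ)

structure RK where
  v : Q3
  (k km s sm : ℕ)

structure U where
  (xp xn yp yn zp zn : ℕ)

structure C8 where
  (p0 n0 p1 n1 p2 n2 p3 n3 : ℕ)

def sel {α : Type} (i : ℕ) (x0 x1 x2 x3 : α) : α :=
  @Bool.rec (fun _ => α) (@Bool.rec (fun _ => α) x3 x2 (Nat.beq i 2))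
    (@Bool.rec (fun _ => α) x1 x0 (Nat.beq i 0)) (Nat.ble i 1)

def all4 (f : ℕ → Bool) : Bool :=
  Bool.rec false (Bool.rec false (Bool.rec false (f 3) (f 2)) (f 1)) (f 0)

def nq (p n m : ℕ) : Q := ⟨Nat.sub p n, Nat.sub n p, m⟩
def nq3 (xp xn xm yp yn ym zp zn zm : ℕ) : Q3 :=
  ⟨Nat.sub xp xn, Nat.sub xn xp, xm, Nat.sub yp yn, Nat.sub yn yp, ym, Nat.sub zp zn,
    Nat.sub zn zp, zm⟩

def mkRK1 (l0 l1 l2 l3 h xm ym zm km sm : ℕ) : RK :=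
  ⟨nq3 l1 l0 xm l2 l0 ym l3 h zm, l0, km, (Nat.add (Nat.add (Nat.add l0 l1) l2) l3), sm⟩
def mkRK0 (ka l0 l1 l2 l3 xm ym zm km sm : ℕ) : RK :=
  mkRK1 l0 l1 l2 l3 (Nat.add l0 (Nat.mul ka (Nat.add (Nat.add l0 l1) l2))) xm ym zm km sm
def mkRK (ka k : ℕ) (r : Row) : RK :=
  Row.rec (fun a0 a1 a2 a3 b0 b1 b2 b3 c0 c1 c2 c3 =>
    mkRK0 ka (Nat.add (Nat.add a0 (Nat.shiftLeft b0 k)) (Nat.shiftLeft c0 (Nat.mul 3 k)))
    (Nat.add (Nat.add a1 (Nat.shiftLeft b1 k)) (Nat.shiftLeft c1 (Nat.mul 3 k))) (Nat.add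
    (Nat.add a2 (Nat.shiftLeft b2 k)) (Nat.shiftLeft c2 (Nat.mul 3 k))) (Nat.add (Nat.add a3
    (Nat.shiftLeft b3 k)) (Nat.shiftLeft c3 (Nat.mul 3 k))) (Nat.add (Nat.add (Nat.add (Nat.sub
    a1 a0) (Nat.sub a0 a1)) (Nat.add (Nat.sub b1 b0) (Nat.sub b0 b1))) (Nat.add (Nat.sub c1 c0)
    (Nat.sub c0 c1))) (Nat.add (Nat.add (Nat.add (Nat.sub a2 a0) (Nat.sub a0 a2)) (Nat.add
    (Nat.sub b2 b0) (Nat.sub b0 b2))) (Nat.add (Nat.sub c2 c0) (Nat.sub c0 c2))) (Nat.add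
    (Nat.add (Nat.add (Nat.sub a3 (Nat.add a0 (Nat.mul ka (Nat.add (Nat.add a0 a1) a2))))
    (Nat.sub (Nat.add a0 (Nat.mul ka (Nat.add (Nat.add a0 a1) a2))) a3)) (Nat.add (Nat.sub b3
    (Nat.add b0 (Nat.mul ka (Nat.add (Nat.add b0 b1) b2)))) (Nat.sub (Nat.add b0 (Nat.mul ka
    (Nat.add (Nat.add b0 b1) b2))) b3))) (Nat.add (Nat.sub c3 (Nat.add c0 (Nat.mul ka (Nat.add
    (Nat.add c0 c1) c2)))) (Nat.sub (Nat.add c0 (Nat.mul ka (Nat.add (Nat.add c0 c1) c2))) c3)))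
    (Nat.add (Nat.add a0 b0) c0) (Nat.add (Nat.add (Nat.add (Nat.add (Nat.add a0 a1) a2) a3)
    (Nat.add (Nat.add (Nat.add b0 b1) b2) b3)) (Nat.add (Nat.add (Nat.add c0 c1) c2) c3))) r
def crs (r t : Q3) : Q3 :=
  Q3.rec (fun xp xn xm yp yn ym zp zn zm => Q3.rec (fun up un um vp vn vm wp wn wm =>
    nq3 (Nat.add (Nat.add (Nat.mul yp wp) (Nat.mul yn wn)) (Nat.add (Nat.mul zp vn) (Nat.mul zn
    vp))) (Nat.add (Nat.add (Nat.mul yp wn) (Nat.mul yn wp)) (Nat.add (Nat.mul zp vp) (Nat.mul zn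
    vn))) (Nat.add (Nat.mul ym wm) (Nat.mul zm vm)) (Nat.add (Nat.add (Nat.mul zp up) (Nat.mul zn
    un)) (Nat.add (Nat.mul xp wn) (Nat.mul xn wp))) (Nat.add (Nat.add (Nat.mul zp un) (Nat.mul zn
    up)) (Nat.add (Nat.mul xp wp) (Nat.mul xn wn))) (Nat.add (Nat.mul zm um) (Nat.mul xm wm))
    (Nat.add (Nat.add (Nat.mul xp vp) (Nat.mul xn vn)) (Nat.add (Nat.mul yp un) (Nat.mul yn up)))
    (Nat.add (Nat.add (Nat.mul xp vn) (Nat.mul xn vp)) (Nat.add (Nat.mul yp up) (Nat.mul yn un)))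
    (Nat.add (Nat.mul xm vm) (Nat.mul ym um))) t) r
def dot (r t : Q3) : Q :=
  Q3.rec (fun xp xn xm yp yn ym zp zn zm => Q3.rec (fun up un um vp vn vm wp wn wm =>
    nq (Nat.add (Nat.add (Nat.add (Nat.mul xp up) (Nat.mul xn un)) (Nat.add (Nat.mul yp vp)
    (Nat.mul yn vn))) (Nat.add (Nat.mul zp wp) (Nat.mul zn wn))) (Nat.add (Nat.add (Nat.add
    (Nat.mul xp un) (Nat.mul xn up)) (Nat.add (Nat.mul yp vn) (Nat.mul yn vp))) (Nat.add (Nat.mul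
    zp wn) (Nat.mul zn wp))) (Nat.add (Nat.add (Nat.mul xm um) (Nat.mul ym vm)) (Nat.mul zm wm)))
    t) r
def dotU (r : Q3) (t : U) : Q :=
  Q3.rec (fun xp xn xm yp yn ym zp zn zm => U.rec (fun up un vp vn wp wn =>
    nq (Nat.add (Nat.add (Nat.add (Nat.mul xp up) (Nat.mul xn un)) (Nat.add (Nat.mul yp vp)
    (Nat.mul yn vn))) (Nat.add (Nat.mul zp wp) (Nat.mul zn wn))) (Nat.add (Nat.add (Nat.add
    (Nat.mul xp un) (Nat.mul xn up)) (Nat.add (Nat.mul yp vn) (Nat.mul yn vp))) (Nat.add (Nat.mul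
    zp wn) (Nat.mul zn wp))) (Nat.add (Nat.add (Nat.mul xm (Nat.add up un)) (Nat.mul ym (Nat.add
    vp vn))) (Nat.mul zm (Nat.add wp wn)))) t) r
def Q.sg (s : Bool) (x : Q) : Q := Bool.rec (Q.rec (fun p n m => ⟨n, p, m⟩) x) x s
def Q.add (x y : Q) : Q :=
  Q.rec (fun xp xn xm => Q.rec (fun yp yn ym =>
    ⟨(Nat.add xp yp), (Nat.add xn yn), (Nat.add xm ym)⟩) y) x
def Q.muln (x : Q) (n m : ℕ) : Q :=
  Q.rec (fun xp xn xm => ⟨(Nat.mul xp n), (Nat.mul xn n), (Nat.mul xm m)⟩) x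
def sum4 (x y z w : Q) (n0 m0 n1 m1 n2 m2 n3 m3 : ℕ) : Q :=
  Q.rec (fun xp xn xm => Q.rec (fun yp yn ym => Q.rec (fun zp zn zm => Q.rec (fun wp wn wm =>
    nq (Nat.add (Nat.add (Nat.mul xp n0) (Nat.mul yp n1)) (Nat.add (Nat.mul zp n2) (Nat.mul wp
    n3))) (Nat.add (Nat.add (Nat.mul xn n0) (Nat.mul yn n1)) (Nat.add (Nat.mul zn n2) (Nat.mul wn
    n3))) (Nat.add (Nat.add (Nat.mul xm m0) (Nat.mul ym m1)) (Nat.add (Nat.mul zm m2) (Nat.mul wm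
    m3)))) w) z) y) x
def optF (x y z w : Q) (c d : ℕ) : Q :=
  Q.rec (fun xp xn xm => Q.rec (fun yp yn ym => Q.rec (fun zp zn zm => Q.rec (fun wp wn wm =>
    ⟨(Nat.add (Nat.mul (Nat.add (Nat.mul xp yp) (Nat.mul xn yn)) c) (Nat.mul (Nat.add (Nat.mul zp
    wn) (Nat.mul zn wp)) d)), (Nat.add (Nat.mul (Nat.add (Nat.mul xp yn) (Nat.mul xn yp)) c)
    (Nat.mul (Nat.add (Nat.mul zp wp) (Nat.mul zn wn)) d)), (Nat.add (Nat.mul (Nat.mul xm ym) c)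
    (Nat.mul (Nat.mul zm wm) d))⟩) w) z) y) x
def difF1 (p n m a b : ℕ) : Q := ⟨(Nat.mul (Nat.sub p n) a), (Nat.mul (Nat.sub n p) a), (Nat.mul m b)⟩
def difF (x y : Q) (c d a b : ℕ) : Q :=
  Q.rec (fun xp xn xm => Q.rec (fun yp yn ym =>
    difF1 (Nat.add (Nat.mul xp c) (Nat.mul yn d)) (Nat.add (Nat.mul xn c) (Nat.mul yp d))
    (Nat.add (Nat.mul xm c) (Nat.mul ym d)) a b) y) x
def negQ (h k : ℕ) (x : Q) : Bool :=
  Q.rec (fun p n m => Bool.rec false (Bool.rec false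
    (Nat.beq (Nat.land (Nat.sub n p) k) 0) (Nat.ble p n)) (Nat.ble (Nat.succ m) h)) x

def dec1 (x y z : ℕ) : U :=
  ⟨Nat.sub x 128, Nat.sub 128 x, Nat.sub y 128, Nat.sub 128 y, Nat.sub z 128, Nat.sub 128 z⟩
def dec3 (x : ℕ) : U :=
  dec1 (Nat.land x 255) (Nat.land (Nat.shiftRight x 8) 255) (Nat.land (Nat.shiftRight x 16) 255)
def U.sg (s : Bool) (u : U) : U :=
  Bool.rec (U.rec (fun xp xn yp yn zp zn => ⟨xn, xp, yn, yp, zn, zp⟩) u) u s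
def dirU (key : ℕ) : U := (dec3 (Nat.shiftRight key 1)).sg (Nat.beq (Nat.land key 1) 0)

def mkC8 (ka h : ℕ) (u : U) : C8 :=
  U.rec (fun xp xn yp yn zp zn =>
    ⟨(Nat.add (Nat.add (Nat.add h xn) yn) (Nat.mul (Nat.succ (Nat.mul 3 ka)) zn)), (Nat.add
    (Nat.add xp yp) (Nat.mul (Nat.succ (Nat.mul 3 ka)) zp)), xp, xn, yp, yn, zp, zn⟩) u
def evR {α : Type} (c : C8) (r : Row) (f : ℕ → ℕ → ℕ → ℕ → ℕ → ℕ → α) : α :=
  C8.rec (fun p0 n0 p1 n1 p2 n2 p3 n3 => Row.rec (fun a0 a1 a2 a3 b0 b1 b2 b3 c0 c1 c2 c3 =>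
    f (Nat.add (Nat.add (Nat.add (Nat.mul p0 a0) (Nat.mul p1 a1)) (Nat.mul p2 a2)) (Nat.mul p3
    a3)) (Nat.add (Nat.add (Nat.add (Nat.mul n0 a0) (Nat.mul n1 a1)) (Nat.mul n2 a2)) (Nat.mul n3
    a3)) (Nat.add (Nat.add (Nat.add (Nat.mul p0 b0) (Nat.mul p1 b1)) (Nat.mul p2 b2)) (Nat.mul p3
    b3)) (Nat.add (Nat.add (Nat.add (Nat.mul n0 b0) (Nat.mul n1 b1)) (Nat.mul n2 b2)) (Nat.mul n3
    b3)) (Nat.add (Nat.add (Nat.add (Nat.mul p0 c0) (Nat.mul p1 c1)) (Nat.mul p2 c2)) (Nat.mul p3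
    c3)) (Nat.add (Nat.add (Nat.add (Nat.mul n0 c0) (Nat.mul n1 c1)) (Nat.mul n2 c2)) (Nat.mul n3
    c3))) r) c
def posL (k ap an bp bn cp cn : ℕ) : ℕ :=
  (Nat.add (Nat.add (Nat.sub ap an) (Nat.shiftLeft (Nat.sub bp bn) k)) (Nat.shiftLeft (Nat.sub cp
  cn) (Nat.mul 3 k)))
def posM (ap an bp bn cp cn : ℕ) : ℕ := (Nat.add (Nat.add (Nat.sub ap an) (Nat.sub bp bn)) (Nat.sub cp cn))
def negL (k ap an bp bn cp cn : ℕ) : Q :=
  nq (Nat.add (Nat.add an (Nat.shiftLeft bn k)) (Nat.shiftLeft cn (Nat.mul 3 k))) (Nat.add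
  (Nat.add ap (Nat.shiftLeft bp k)) (Nat.shiftLeft cp (Nat.mul 3 k))) (Nat.add (Nat.add (Nat.add
  (Nat.sub ap an) (Nat.sub an ap)) (Nat.add (Nat.sub bp bn) (Nat.sub bn bp))) (Nat.add (Nat.sub
  cp cn) (Nat.sub cn cp)))
def allPos (ap an bp bn cp cn : ℕ) : Bool :=
  Bool.rec false (Bool.rec false (Nat.ble cn cp) (Nat.ble bn bp)) (Nat.ble an ap)
def entL (k j : ℕ) (r : Row) : ℕ :=
  Row.rec (fun a0 a1 a2 a3 b0 b1 b2 b3 c0 c1 c2 c3 =>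
    sel j (Nat.add (Nat.add a0 (Nat.shiftLeft b0 k)) (Nat.shiftLeft c0 (Nat.mul 3 k))) (Nat.add
    (Nat.add a1 (Nat.shiftLeft b1 k)) (Nat.shiftLeft c1 (Nat.mul 3 k))) (Nat.add (Nat.add a2
    (Nat.shiftLeft b2 k)) (Nat.shiftLeft c2 (Nat.mul 3 k))) (Nat.add (Nat.add a3 (Nat.shiftLeft
    b3 k)) (Nat.shiftLeft c3 (Nat.mul 3 k)))) r
def entM (j : ℕ) (r : Row) : ℕ :=
  Row.rec (fun a0 a1 a2 a3 b0 b1 b2 b3 c0 c1 c2 c3 =>
    sel j (Nat.add (Nat.add a0 b0) c0) (Nat.add (Nat.add a1 b1) c1) (Nat.add (Nat.add a2 b2) c2)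
    (Nat.add (Nat.add a3 b3) c3)) r

structure Pre where
  (B h mask : ℕ)
  (q0 q1 q2 q3 : RK)
  (x01 x02 x03 x12 x13 x23 : Q3)

def mkPre1 (b : ℕ) (q0 q1 q2 q3 : RK) : Pre :=
  ⟨Nat.succ b, Nat.shiftLeft 1 b, msk b 12, q0, q1, q2, q3, crs q0.1 q1.1, crs q0.1 q2.1,
    crs q0.1 q3.1, crs q1.1 q2.1, crs q1.1 q3.1, crs q2.1 q3.1⟩
def mkPre (ka b : ℕ) (r0 r1 r2 r3 : Row) : Pre :=
  mkPre1 b (mkRK ka (Nat.mul (Nat.succ b) 1) r0) (mkRK ka (Nat.mul (Nat.succ b) 7) r1)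
    (mkRK ka (Nat.mul (Nat.succ b) 49) r2) (mkRK ka (Nat.mul (Nat.succ b) 343) r3)

def Pre.e (p : Pre) (u v : U) (a b : ℕ) : Q :=
  sel a (sel b ⟨0, 0, 0⟩ (dotU p.x23 v) (dotU p.x13 u) (dotU p.x12 v))
    (sel b (dotU p.x23 u) ⟨0, 0, 0⟩ (dotU p.x03 v) (dotU p.x02 u))
    (sel b (dotU p.x13 v) (dotU p.x03 u) ⟨0, 0, 0⟩ (dotU p.x01 v))
    (sel b (dotU p.x12 u) (dotU p.x02 v) (dotU p.x01 u) ⟨0, 0, 0⟩)

/-- Data shared by the columns of a leaf. -/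
structure Lf where
  p : Pre
  (d0 d1 d2 d3 S e0 e1 e2 e3 : Q)
  (w0 m0 w1 m1 w2 m2 w3 m3 pi pm : ℕ)

def mkLf2 (p : Pre) (d0 d1 d2 d3 : Q) (w0 m0 w1 m1 w2 m2 w3 m3 : ℕ) : Lf :=
  ⟨p, d0, d1, d2, d3, sum4 d0 d1 d2 d3 p.q0.k p.q0.km p.q1.k p.q1.km p.q2.k p.q2.km p.q3.k p.q3.km,
    d0.muln w0 m0, d1.muln w1 m1, d2.muln w2 m2, d3.muln w3 m3, w0, m0, w1, m1, w2, m2, w3, m3,
    Nat.mul (Nat.mul (Nat.mul p.q0.s p.q1.s) p.q2.s) p.q3.s,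
    Nat.mul (Nat.mul (Nat.mul p.q0.sm p.q1.sm) p.q2.sm) p.q3.sm⟩
def mkLf1 (s : Bool) (p : Pre) (o0 o1 o2 o3 : ℕ) : Lf :=
  mkLf2 p ((dot p.x12 p.q3.v).sg s) ((dot p.x02 p.q3.v).sg (Bool.rec true false s))
    ((dot p.x01 p.q3.v).sg s) ((dot p.x01 p.q2.v).sg (Bool.rec true false s))
    (Nat.mul o0 p.q0.s) (Nat.mul o0 p.q0.sm) (Nat.mul o1 p.q1.s) (Nat.mul o1 p.q1.sm)
    (Nat.mul o2 p.q2.s) (Nat.mul o2 p.q2.sm) (Nat.mul o3 p.q3.s) (Nat.mul o3 p.q3.sm)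
def mkLf (s : Bool) (p : Pre) (x : ℕ) : Lf :=
  mkLf1 s p (Nat.succ (Nat.land (Nat.shiftRight x 0) 255))
    (Nat.succ (Nat.land (Nat.shiftRight x 8) 255)) (Nat.succ (Nat.land (Nat.shiftRight x 16) 255))
    (Nat.succ (Nat.land (Nat.shiftRight x 24) 255))

def look (ctx : List ℕ) (key : ℕ) : ℕ :=
  List.rec 4 (fun h _ ih => Bool.rec ih (Nat.land h 3) (Nat.beq (Nat.shiftRight h 2) key)) ctx
def dom1 (p : Pre) (u v : U) (j a d : ℕ) : Bool :=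
  Bool.rec (Bool.rec false (negQ p.h p.mask (p.e u v a d))
    (Nat.beq (Nat.land (Nat.shiftRight j (Nat.mul 2 d)) 3) d)) true (Nat.beq d a)
/-- `u` is the direction times the orientation sign, `v` its negative. -/
def candOk (p : Pre) (ctx : List ℕ) (u v : U) (key j : ℕ) : Bool :=
  Bool.rec (all4 fun a => dom1 p u v j a (Nat.land (Nat.shiftRight j (Nat.mul 2 a)) 3))
    (Nat.ble (look ctx key) 3) (Nat.ble 256 j)
def candAl (ctx : List ℕ) (key j a : ℕ) : Bool :=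
  Bool.rec (Nat.beq (Nat.land (Nat.shiftRight j (Nat.mul 2 a)) 3) a) (Nat.beq (look ctx key) a)
    (Nat.ble 256 j)

def cg (c x y : ℕ) : Bool := Nat.beq (Nat.mod x c) (Nat.mod y c)
def nz (u : U) : Bool :=
  U.rec (fun xp xn yp yn zp zn => Bool.rec true (Bool.rec true (Bool.rec true false (Nat.beq zp zn))
    (Nat.beq yp yn)) (Nat.beq xp xn)) u
def okL (cf : Cfg) (u : U) : Bool :=
  U.rec (fun xp xn yp yn zp zn => Bool.rec false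
    (cg cf.c (Nat.add yp (Nat.mul zn cf.g2)) (Nat.add yn (Nat.mul zp cf.g2)))
    (cg cf.c (Nat.add xp (Nat.mul zn cf.g1)) (Nat.add xn (Nat.mul zp cf.g1)))) u
def okD (cf : Cfg) (u : U) : Bool :=
  U.rec (fun xp xn yp yn zp zn => cg cf.c (Nat.add (Nat.add (Nat.mul xp cf.g1) (Nat.mul yp cf.g2)) zp)
    (Nat.add (Nat.add (Nat.mul xn cf.g1) (Nat.mul yn cf.g2)) zn)) u
def same (x p : ℕ) : Bool :=
  Bool.rec false (Bool.rec false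
    (Nat.beq (Nat.land (Nat.shiftRight x 16) 255) (Nat.land (Nat.shiftRight p 16) 255))
    (Nat.beq (Nat.land (Nat.shiftRight x 8) 255) (Nat.land (Nat.shiftRight p 8) 255)))
    (Nat.beq (Nat.land x 255) (Nat.land p 255))
def okH (cf : Cfg) (x : ℕ) : Bool :=
  Bool.rec (Bool.rec (Bool.rec (Bool.rec (okL cf (dec3 x)) false (same x cf.p3)) false
    (same x cf.p2)) false (same x cf.p1)) false (same x cf.p0)

def optW (l : Lf) (u v : U) (lam a b : ℕ) : Q :=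
  optF l.S ((l.p.e u v a b).muln
      (Nat.mul (sel a l.w0 l.w1 l.w2 l.w3) (sel b l.w0 l.w1 l.w2 l.w3))
      (Nat.mul (sel a l.m0 l.m1 l.m2 l.m3) (sel b l.m0 l.m1 l.m2 l.m3)))
    (sel a l.e0 l.e1 l.e2 l.e3) (sel b l.e0 l.e1 l.e2 l.e3) (Nat.mul 5741 lam) (Nat.mul 19601 lam)

def colW1 (ctx : List ℕ) (l : Lf) (u v : U) (k1 k2 j1 j2 lam : ℕ) (k : Q → Bool) : Bool :=
  Bool.rec false (Bool.rec false
    (all4 fun a => Bool.rec true (all4 fun b => Bool.rec true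
      (Bool.rec (k (optW l u v lam a b)) true (Nat.beq a b)) (candAl ctx k2 j2 b))
      (candAl ctx k1 j1 a)) (candOk l.p ctx v u k2 j2)) (candOk l.p ctx u v k1 j1)
def colW (cf : Cfg) (st : St) (l : Lf) (n j1 j2 lam : ℕ) (k : Q → Bool) : Bool :=
  Bool.rec false (Bool.rec false
    (colW1 st.ctx l ((dirU (Nat.mul 2 n)).sg st.s) ((dirU (Nat.succ (Nat.mul 2 n))).sg st.s)
      (Nat.mul 2 n) (Nat.succ (Nat.mul 2 n)) j1 j2 lam k) (okD cf (dec3 n))) (nz (dec3 n))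

def colC1 (c : ℕ) (st : St) (l : Lf) (y : C8) (B lam : ℕ) : Q :=
  difF (sum4 l.d0 l.d1 l.d2 l.d3 (evR y st.r0 (posL (Nat.mul B 1))) (evR y st.r0 posM)
      (evR y st.r1 (posL (Nat.mul B 7))) (evR y st.r1 posM) (evR y st.r2 (posL (Nat.mul B 49)))
      (evR y st.r2 posM) (evR y st.r3 (posL (Nat.mul B 343))) (evR y st.r3 posM)) l.S
    (Nat.mul 19 lam) (Nat.mul (Nat.mul 7 c) lam) l.pi l.pm
def colC (cf : Cfg) (st : St) (l : Lf) (y : U) (lam : ℕ) (k : Q → Bool) : Bool :=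
  Bool.rec false (Bool.rec false (k (colC1 cf.c st l (mkC8 cf.ka 0 y) l.p.B lam))
    (okL cf y)) (nz y)

def optH (l : Lf) (z : C8) (r : Row) (k : ℕ) (q1 q2 q3 : RK) (lam : ℕ) (f : Q → Bool) : Bool :=
  Bool.rec (f ((((evR z r (negL k)).muln (Nat.mul (Nat.mul q1.s q2.s) q3.s)
    (Nat.mul (Nat.mul q1.sm q2.sm) q3.sm)).muln lam lam).muln l.pi l.pm)) true (evR z r allPos)
def colH1 (st : St) (l : Lf) (z : C8) (B lam : ℕ) (k : Q → Bool) : Bool :=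
  Bool.rec false (Bool.rec false (Bool.rec false
    (optH l z st.r3 (Nat.mul B 343) l.p.q0 l.p.q1 l.p.q2 lam k)
    (optH l z st.r2 (Nat.mul B 49) l.p.q0 l.p.q1 l.p.q3 lam k))
    (optH l z st.r1 (Nat.mul B 7) l.p.q0 l.p.q2 l.p.q3 lam k))
    (optH l z st.r0 (Nat.mul B 1) l.p.q1 l.p.q2 l.p.q3 lam k)
def colH (cf : Cfg) (st : St) (l : Lf) (x lam : ℕ) (k : Q → Bool) : Bool :=
  Bool.rec false (colH1 st l (mkC8 cf.ka cf.c (dec3 x)) l.p.B lam k) (okH cf x)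

def hh (cf : Cfg) : ℕ := Nat.add 4 (Nat.mul 3 cf.ka)
def optV0 (cf : Cfg) (l : Lf) (lam : ℕ) : Q :=
  difF l.S ⟨l.pi, 0, l.pm⟩ (Nat.mul (Nat.mul 80 (Nat.pow (hh cf) 4)) lam)
    (Nat.mul (Nat.mul 256 cf.c) lam) l.pi l.pm
def optV1 (cf : Cfg) (l : Lf) (a lam : ℕ) : Q :=
  difF (sel a (l.d0.muln l.p.q0.s l.p.q0.sm) (l.d1.muln l.p.q1.s l.p.q1.sm)
      (l.d2.muln l.p.q2.s l.p.q2.sm) (l.d3.muln l.p.q3.s l.p.q3.sm)) ⟨l.pi, 0, l.pm⟩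
    (Nat.mul (Nat.mul 80 (Nat.pow (hh cf) 3)) lam) (Nat.mul (Nat.mul 27 cf.c) lam) l.pi l.pm

def lo (i j : ℕ) : ℕ := sel (Nat.land (Nat.sub (Nat.add j 4) i) 3) 0 384 342 238
def optL (st : St) (l : Lf) (B lam i j : ℕ) : Q :=
  difF l.S (sel i (l.d0.muln (entL (Nat.mul B 1) j st.r0) (entM j st.r0))
      (l.d1.muln (entL (Nat.mul B 7) j st.r1) (entM j st.r1))
      (l.d2.muln (entL (Nat.mul B 49) j st.r2) (entM j st.r2))
      (l.d3.muln (entL (Nat.mul B 343) j st.r3) (entM j st.r3)))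
    (Nat.mul (lo i j) lam) (Nat.mul 1000 lam) l.pi l.pm
def colL (cf : Cfg) (st : St) (l : Lf) (lam : ℕ) (k : Q → Bool) : Bool :=
  Bool.rec false (all4 fun i => all4 fun j =>
    Bool.rec (k (optL st l l.p.B lam i j)) true (Nat.beq i j)) cf.loc

def optT (l : Lf) (u v : U) (lam : ℕ) : Q :=
  difF (sum4 (l.p.e u v 1 0) ⟨0, 0, 0⟩ (l.p.e u v 1 2) (l.p.e u v 1 3) l.p.q0.k l.p.q0.km 0 0
      l.p.q2.k l.p.q2.km l.p.q3.k l.p.q3.km) l.d1 (Nat.mul 11482 lam) (Nat.mul 19601 lam)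
    (Nat.mul l.p.q1.s l.pi) (Nat.mul l.p.q1.sm l.pm)
def colT (cf : Cfg) (st : St) (l : Lf) (lam : ℕ) (k : Q → Bool) : Bool :=
  Bool.rec false (k (optT l (U.sg st.s ⟨0, 0, 0, 0, 1, 0⟩) (U.sg st.s ⟨0, 0, 0, 0, 0, 1⟩) lam))
    (Nat.beq cf.ka 1)

def col2 (cf : Cfg) (st : St) (l : Lf) (t n x lam : ℕ) (k : Q → Bool) : Bool :=
  Bool.rec (Bool.rec (Bool.rec (Bool.rec (Bool.rec
    (Bool.rec (colT cf st l lam k) (colL cf st l lam k) (Nat.beq t 5))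
    (k (optV1 cf l (Nat.land n 3) lam)) (Nat.beq t 4)) (k (optV0 cf l lam)) (Nat.beq t 3))
    (colH cf st l n lam k) (Nat.beq t 2)) (colC cf st l (dec3 n) lam k) (Nat.beq t 1))
    (colW cf st l n (Nat.land (Nat.shiftRight x 27) 511) (Nat.land (Nat.shiftRight x 36) 511) lam k)
    (Nat.beq t 0)
def col (cf : Cfg) (st : St) (l : Lf) (x : ℕ) (k : Q → Bool) : Bool :=
  col2 cf st l (Nat.land x 7) (Nat.land (Nat.shiftRight x 3) 16777215) x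
    (Nat.succ (Nat.shiftRight x 45)) k

def go (cf : Cfg) (st : St) (l : Lf) (cs : List ℕ) : Q → Bool :=
  List.rec (negQ l.p.h l.p.mask) (fun c _ ih acc => col cf st l c fun o => ih (Q.add acc o)) cs
def leaf1 (cf : Cfg) (st : St) (l : Lf) (c : ℕ) (cs : List ℕ) : Bool :=
  col cf st l c (go cf st l cs)
def leaf (cf : Cfg) (st : St) (b w c : ℕ) (cs : List ℕ) : Bool :=
  St.rec (fun s r0 r1 r2 r3 _ => leaf1 cf st (mkLf s (mkPre cf.ka b r0 r1 r2 r3) w) c cs) st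

def red1 {α : Type} (x0 x1 x2 x3 g : ℕ) (f : ℕ → ℕ → ℕ → ℕ → α) : α :=
  f (Nat.div x0 g) (Nat.div x1 g) (Nat.div x2 g) (Nat.div x3 g)
def red {α : Type} (x0 x1 x2 x3 : ℕ) (f : ℕ → ℕ → ℕ → ℕ → α) : α :=
  red1 x0 x1 x2 x3 (Nat.gcd (Nat.gcd x0 x1) (Nat.gcd x2 x3)) f
def splitR (r : Row) (e m n : ℕ) (f g : Row → Bool) : Bool :=
  Row.rec (fun a0 a1 a2 a3 b0 b1 b2 b3 c0 c1 c2 c3 =>
    Bool.rec (Bool.rec (red (Nat.add (Nat.mul m b0) (Nat.mul n c0)) (Nat.add (Nat.mul m b1)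
    (Nat.mul n c1)) (Nat.add (Nat.mul m b2) (Nat.mul n c2)) (Nat.add (Nat.mul m b3) (Nat.mul n
    c3)) fun q0 q1 q2 q3 => Bool.rec false (g ⟨a0, a1, a2, a3, q0, q1, q2, q3, c0, c1, c2, c3⟩)
    (f ⟨a0, a1, a2, a3, b0, b1, b2, b3, q0, q1, q2, q3⟩)) (red (Nat.add (Nat.mul m a0) (Nat.mul n
    c0)) (Nat.add (Nat.mul m a1) (Nat.mul n c1)) (Nat.add (Nat.mul m a2) (Nat.mul n c2)) (Nat.add
    (Nat.mul m a3) (Nat.mul n c3)) fun q0 q1 q2 q3 => Bool.rec false (g ⟨q0, q1, q2, q3, b0, b1,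
    b2, b3, c0, c1, c2, c3⟩) (f ⟨a0, a1, a2, a3, b0, b1, b2, b3, q0, q1, q2, q3⟩)) (Nat.beq e 1))
    (red (Nat.add (Nat.mul m a0) (Nat.mul n b0)) (Nat.add (Nat.mul m a1) (Nat.mul n b1)) (Nat.add
    (Nat.mul m a2) (Nat.mul n b2)) (Nat.add (Nat.mul m a3) (Nat.mul n b3)) fun q0 q1 q2 q3 =>
    Bool.rec false (g ⟨q0, q1, q2, q3, b0, b1, b2, b3, c0, c1, c2, c3⟩) (f ⟨a0, a1, a2, a3, q0,
    q1, q2, q3, c0, c1, c2, c3⟩)) (Nat.beq e 0)) r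
def split1 (st : St) (i e m n : ℕ) (f g : St → Bool) : Bool :=
  St.rec (fun s r0 r1 r2 r3 ctx => sel i
    (splitR r0 e m n (fun r => f ⟨s, r, r1, r2, r3, ctx⟩) fun r => g ⟨s, r, r1, r2, r3, ctx⟩)
    (splitR r1 e m n (fun r => f ⟨s, r0, r, r2, r3, ctx⟩) fun r => g ⟨s, r0, r, r2, r3, ctx⟩)
    (splitR r2 e m n (fun r => f ⟨s, r0, r1, r, r3, ctx⟩) fun r => g ⟨s, r0, r1, r, r3, ctx⟩)
    (splitR r3 e m n (fun r => f ⟨s, r0, r1, r2, r, ctx⟩) fun r => g ⟨s, r0, r1, r2, r, ctx⟩)) st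
def split (st : St) (x : ℕ) (f g : St → Bool) : Bool :=
  split1 st (Nat.land x 3) (Nat.land (Nat.shiftRight x 2) 3)
    (Nat.succ (Nat.land (Nat.shiftRight x 4) 1073741823)) (Nat.succ (Nat.shiftRight x 34)) f g

def wbr1 (cf : Cfg) (st : St) (b key j : ℕ) (f0 f1 f2 f3 : St → Bool) : Bool :=
  St.rec (fun s r0 r1 r2 r3 ctx => Bool.rec false
    (all4 fun a => Bool.rec true
      (sel a f0 f1 f2 f3 ⟨s, r0, r1, r2, r3, Nat.add (Nat.mul 4 key) a :: ctx⟩) (candAl ctx key j a))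
    (candOk (mkPre cf.ka b r0 r1 r2 r3) ctx ((dirU key).sg s)
      ((dirU key).sg (Bool.rec true false s)) key j)) st
def wbr (cf : Cfg) (st : St) (b x : ℕ) (f0 f1 f2 f3 : St → Bool) : Bool :=
  wbr1 cf st b (Nat.shiftRight x 9) (Nat.land x 511) f0 f1 f2 f3

def Row.eq (x y : Row) : Bool :=
  (Bool.rec false (Bool.rec false (Bool.rec false (Bool.rec false (Bool.rec false (Bool.rec false
  (Bool.rec false (Bool.rec false (Bool.rec false (Bool.rec false (Bool.rec false (Bool.rec false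
  true (Nat.beq x.c3 y.c3)) (Nat.beq x.c2 y.c2)) (Nat.beq x.c1 y.c1)) (Nat.beq x.c0 y.c0))
  (Nat.beq x.b3 y.b3)) (Nat.beq x.b2 y.b2)) (Nat.beq x.b1 y.b1)) (Nat.beq x.b0 y.b0)) (Nat.beq
  x.a3 y.a3)) (Nat.beq x.a2 y.a2)) (Nat.beq x.a1 y.a1)) (Nat.beq x.a0 y.a0))
def eqL (x : List ℕ) : List ℕ → Bool :=
  List.rec (fun y => List.rec true (fun _ _ _ => false) y)
    (fun a _ ih y => List.rec false (fun b t _ => Bool.rec false (ih t) (Nat.beq a b)) y) x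
def St.eq (x y : St) : Bool :=
  Bool.rec false (Bool.rec false (Bool.rec false (Bool.rec false (Bool.rec false
    (Bool.rec (Bool.rec true false y.s) y.s x.s) (eqL x.ctx y.ctx)) (x.r3.eq y.r3)) (x.r2.eq y.r2))
    (x.r1.eq y.r1)) (x.r0.eq y.r0)
def nth (kn : List St) (st : St) : ℕ → Bool :=
  List.rec (fun _ => false) (fun h _ ih k => Bool.rec (ih (Nat.pred k)) (h.eq st) (Nat.beq k 0)) kn

inductive Tr where
  | sp (x : ℕ) (l r : Tr) : Tr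
  | wb (b x : ℕ) (t0 t1 t2 t3 : Tr) : Tr
  | lf (b w c : ℕ) (cs : List ℕ) : Tr
  | rf (k : ℕ) : Tr

def chk (cf : Cfg) (kn : List St) (t : Tr) : St → Bool :=
  Tr.rec (fun x _ _ f g st => split st x f g)
    (fun b x _ _ _ _ f0 f1 f2 f3 st => wbr cf st b x f0 f1 f2 f3)
    (fun b w c cs st => leaf cf st b w c cs) (fun k st => nth kn st k) t

end

end Pool.Agent.P.MP_65d7bf_co
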