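import Pool.Agent.P.MP_65d7bf_co.St

/-! A wide hollow tetrahedron can be perturbed to a generic one. -/

namespace Pool.Agent.P.MP_65d7bf_co

open Finset Matrix Filter Topology

namespace Generic

theorem key (T : Tet) (k l : Fin 3) : ∑ i, T.a i k * T.v i l = if k = l then 1 else 0 := by
  let V : Matrix (Fin 4) (Fin 4) ℝ := Matrix.of fun r j => ![T.v j 0, T.v j 1, T.v j 2, 1] r
  have h : T.mat * V = 1 := by
    ext i j
    have := T.dual i j
    rw [Fin.sum_univ_three] at this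
    rw [Matrix.one_apply, ← this]
    simp [Matrix.mul_apply, Tet.mat, V, Fin.sum_univ_four]
  have h' : V * T.mat = 1 := mul_eq_one_comm.mp h
  have := congrFun (congrFun h' l.castSucc) k.castSucc
  fin_cases k <;> fin_cases l <;>
    simpa [Matrix.mul_apply, Tet.mat, V, Matrix.one_apply, mul_comm] using this

theorem fin_small (T : Tet) : {u : Fin 3 → ℤ | ∀ i j,
    ∑ k, (u k : ℝ) * T.v i k - ∑ k, (u k : ℝ) * T.v j k ≤ 4}.Finite := by
  refine (Set.Finite.pi' fun k =>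
    Set.finite_Icc (-⌈∑ i, |T.a i k| * 4⌉) ⌈∑ i, |T.a i k| * 4⌉).subset fun u hu k => ?_
  have h1 : (u k : ℝ) =
      ∑ i, T.a i k * (∑ l, (u l : ℝ) * T.v i l - ∑ l, (u l : ℝ) * T.v 0 l) := by
    simp only [mul_sub, sum_sub_distrib]
    rw [← sum_mul, T.sa, zero_mul, sub_zero]
    simp only [mul_sum]
    rw [sum_comm]
    simp only [mul_left_comm (T.a _ k), ← mul_sum, key]
    simp
  have h2 : |(u k : ℝ)| ≤ ∑ i, |T.a i k| * 4 := by
    rw [h1]
    refine (abs_sum_le_sum_abs _ _).trans (sum_le_sum fun i _ => ?_)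
    rw [abs_mul]
    exact mul_le_mul_of_nonneg_left (abs_le.mpr ⟨by linarith [hu 0 i], hu i 0⟩) (abs_nonneg _)
  have h3 := h2.trans (Int.le_ceil _)
  rw [Set.mem_Icc, ← abs_le]
  exact_mod_cast h3

theorem margin {T : Tet} (hW : Wide T) : ∀ᶠ t : ℝ in 𝓝 0, ∀ u : Fin 3 → ℤ, u ≠ 0 → ∃ i j,
    (1 + 2 * (t + t ^ 2 + t ^ 3)) * (2 + √2) <
      ∑ k, (u k : ℝ) * T.v i k - ∑ k, (u k : ℝ) * T.v j k := by
  have hφ : Tendsto (fun t : ℝ => (1 + 2 * (t + t ^ 2 + t ^ 3)) * (2 + √2)) (𝓝 0)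
      (𝓝 (2 + √2)) := Continuous.tendsto' (by fun_prop) _ _ (by simp)
  have h2 : √2 < 2 := by rw [Real.sqrt_lt' (by norm_num)]; norm_num
  have h3 := (eventually_all_finite (fin_small T) (l := 𝓝 (0 : ℝ))
    (p := fun u t => u ≠ 0 → ∃ i j, (1 + 2 * (t + t ^ 2 + t ^ 3)) * (2 + √2) <
      ∑ k, (u k : ℝ) * T.v i k - ∑ k, (u k : ℝ) * T.v j k)).mpr fun u _ => by
    by_cases hu : u = 0
    · exact Eventually.of_forall fun _ h => absurd hu h
    obtain ⟨i, j, h⟩ := hW u hu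
    filter_upwards [hφ.eventually_lt_const h] with t ht _ using ⟨i, j, ht⟩
  filter_upwards [h3, hφ.eventually_lt_const (show 2 + √2 < 4 by linarith)] with t h3 h4 u hu
  by_contra hc
  push Not at hc
  obtain ⟨i, j, h⟩ := h3 u (fun i j => (hc i j).trans h4.le) hu
  exact absurd h (not_lt.mpr (hc i j))

/-- the perturbation -/
def M (t : ℝ) : Matrix (Fin 4) (Fin 4) ℝ :=
  !![1 + (t + t ^ 2 + t ^ 3), -t, -t ^ 2, -t ^ 3; -t ^ 3, 1 + (t + t ^ 2 + t ^ 3), -t, -t ^ 2;
    -t ^ 2, -t ^ 3, 1 + (t + t ^ 2 + t ^ 3), -t; -t, -t ^ 2, -t ^ 3, 1 + (t + t ^ 2 + t ^ 3)]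

theorem M_row (t : ℝ) (x : Fin 4 → ℝ) (i : Fin 4) : ∑ j, M t i j * x j =
    (x i - x (i + 3)) * t ^ 3 + (x i - x (i + 2)) * t ^ 2 + (x i - x (i + 1)) * t + x i := by
  fin_cases i <;> simp [M, Fin.sum_univ_four] <;> ring

theorem M_col (t : ℝ) (x : Fin 4 → ℝ) (j : Fin 4) : ∑ i, M t i j * x i =
    (x j - x (j + 1)) * t ^ 3 + (x j - x (j + 2)) * t ^ 2 + (x j - x (j + 3)) * t + x j := by
  fin_cases j <;> simp [M, Fin.sum_univ_four] <;> ring

theorem M_one (t : ℝ) (j : Fin 4) : ∑ i, M t i j = 1 := by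
  simpa using M_col t (fun _ => 1) j

theorem M_min {t : ℝ} (ht : 0 < t) (x : Fin 4 → ℝ) :
    ∃ i, ∀ j, ∑ j, M t i j * x j ≤ x j := by
  obtain ⟨i, hi⟩ := Finite.exists_min x
  refine ⟨i, fun j => ?_⟩
  rw [M_row]
  have h1 := mul_nonneg (sub_nonneg.mpr (hi (i + 1))) ht.le
  have h2 := mul_nonneg (sub_nonneg.mpr (hi (i + 2))) (pow_pos ht 2).le
  have h3 := mul_nonneg (sub_nonneg.mpr (hi (i + 3))) (pow_pos ht 3).le
  linarith [hi j]

theorem M_unit {t : ℝ} (ht : 0 < t) : ∃ N, M t * N = 1 ∧ N * M t = 1 := by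
  have h0 : ∀ x y : Fin 4 → ℝ, M t *ᵥ x = M t *ᵥ y → ∀ j, y j ≤ x j := fun x y h j => by
    obtain ⟨i, hi⟩ := M_min ht (x - y)
    have h1 : (M t *ᵥ (x - y)) i = 0 := by rw [mulVec_sub, h, sub_self]; rfl
    exact sub_nonneg.mp (h1.symm.trans_le (hi j))
  obtain ⟨N, hN⟩ := (mulVec_injective_iff_isUnit.mp fun x y h =>
    funext fun j => le_antisymm (h0 y x h.symm j) (h0 x y h j)).exists_right_inv
  exact ⟨N, hN, mul_eq_one_comm.mp hN⟩

theorem bad (T : Tet) :
    {t : ℝ | ∃ y : Fin 3 → ℤ, ∃ i, y ≠ 0 ∧ ∑ j, M t i j * T.lin j y = 0}.Countable := by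
  simp only [Set.ofPred_exists]
  refine Set.countable_iUnion fun y => Set.countable_iUnion fun i => ?_
  by_cases hy : y = 0
  · simp [hy]
  let P : Cubic ℝ := ⟨T.lin i y - T.lin (i + 3) y, T.lin i y - T.lin (i + 2) y,
    T.lin i y - T.lin (i + 1) y, T.lin i y⟩
  have hP : P.toPoly ≠ 0 := fun h => hy <| funext fun l => by
    have h0 := P.toPoly_eq_zero_iff.mp h
    have a3 : T.lin i y - T.lin (i + 3) y = 0 := congrArg Cubic.a h0
    have a2 : T.lin i y - T.lin (i + 2) y = 0 := congrArg Cubic.b h0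
    have a1 : T.lin i y - T.lin (i + 1) y = 0 := congrArg Cubic.c h0
    have a0 : T.lin i y = 0 := congrArg Cubic.d h0
    have hz : ∀ j, T.lin j y = 0 := fun j => by
      obtain ⟨m, rfl⟩ : ∃ m, j = i + m := ⟨j - i, by simp⟩
      fin_cases m
      · simpa using a0
      · simpa [a0] using a1
      · simpa [a0] using a2
      · simpa [a0] using a3
    have h1 : ∑ j, T.lin j y * T.v j l = y l := by
      simp only [Tet.lin, sum_mul]
      rw [sum_comm]
      simp only [mul_right_comm _ (y _ : ℝ), ← sum_mul, key]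
      simp
    simpa [hz, eq_comm] using h1
  refine ((Polynomial.finite_setOfPred_isRoot hP).subset fun t ht => ?_).countable
  have := ht.2
  rw [M_row] at this
  simpa [Cubic.toPoly, P] using this

end Generic

open Generic

theorem generic : Generic := by
  intro T hH hW
  obtain ⟨δ, hδ, hm⟩ := Metric.eventually_nhds_iff.mp (margin hW)
  obtain ⟨t, hb, ht, htδ⟩ := ((bad T).dense_compl ℝ).exists_between hδ
  replace hm := @hm t (by rwa [Real.dist_eq, sub_zero, abs_of_pos ht])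
  obtain ⟨N, hMN, hNM⟩ := M_unit ht
  have hN : ∀ j, ∑ i, N i j = 1 := fun j => by
    calc ∑ i, N i j = ∑ i, (∑ m, M t m i) * N i j := by simp [M_one]
      _ = ∑ m, (M t * N) m j := by simp only [sum_mul, mul_apply]; exact sum_comm
      _ = 1 := by simp [hMN, one_apply]
  have hlin : ∀ i (x : Fin 3 → ℝ), ∑ k, (∑ m, M t i m * T.a m k) * x k =
      ∑ m, M t i m * ∑ k, T.a m k * x k := fun i x => by
    simp only [sum_mul, mul_sum, mul_assoc]
    exact sum_comm
  have hv : ∀ j (x : Fin 3 → ℝ), ∑ k, x k * ∑ n, N n j * T.v n k =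
      ∑ n, N n j * ∑ k, x k * T.v n k := fun j x => by
    simp only [mul_sum, mul_left_comm (x _)]
    exact sum_comm
  let T' : Tet :=
    { a := fun i k => ∑ m, M t i m * T.a m k
      b := fun i => ∑ m, M t i m * T.b m
      v := fun j l => ∑ n, N n j * T.v n l
      sa := fun k => by
        rw [sum_comm]
        simp only [← sum_mul, M_one, one_mul, T.sa]
      sb := by
        rw [sum_comm]
        simp only [← sum_mul, M_one, one_mul, T.sb]
      dual := fun i j => by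
        rw [hlin, ← sum_add_distrib, ← one_apply, ← hMN, mul_apply]
        refine sum_congr rfl fun m _ => ?_
        rw [← mul_add, hv, ← one_mul (T.b m), ← hN j, sum_mul, ← sum_add_distrib]
        simp only [← mul_add, T.dual]
        simp }
  refine ⟨T', fun z => ?_, fun u hu => ?_, fun y hy i h => hb ⟨y, i, hy, ?_⟩⟩
  · obtain ⟨j, hj⟩ := hH z
    obtain ⟨i, hi⟩ := M_min ht fun m => T.ev m z
    refine ⟨i, le_trans (le_of_eq ?_) ((hi j).trans hj)⟩
    simp only [Tet.ev, T', hlin, mul_add, sum_add_distrib]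
  · obtain ⟨i, j, h⟩ := hm u hu
    by_contra hc
    push Not at hc
    set f : Fin 4 → ℝ := fun i => ∑ k, (u k : ℝ) * T'.v i k with hf
    have h0 : ∀ j (g : Fin 4 → ℝ), g j = ∑ i, M t i j * ∑ n, N n i * g n := fun j g => by
      have : ∀ n, ∑ i, M t i j * N n i = if n = j then 1 else 0 := fun n => by
        rw [← one_apply, ← hNM, mul_apply]
        exact sum_congr rfl fun _ _ => mul_comm _ _
      simp only [mul_sum, ← mul_assoc]
      rw [sum_comm]
      simp only [← sum_mul, this]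
      simp
    have h1 : ∀ j, ∑ k, (u k : ℝ) * T.v j k = ∑ i, M t i j * f i := fun j => by
      simp only [hf, T', hv]
      exact h0 j fun n => ∑ k, (u k : ℝ) * T.v n k
    have h2 : ∀ i j (s : ℝ), 0 < s → (f i - f j) * s ≤ (2 + √2) * s := fun i j s hs =>
      mul_le_mul_of_nonneg_right (hc i j) hs.le
    rw [h1, h1, M_col, M_col] at h
    linarith [h2 i (i + 1) _ (pow_pos ht 3), h2 i (i + 2) _ (pow_pos ht 2), h2 i (i + 3) _ ht,
      h2 (j + 1) j _ (pow_pos ht 3), h2 (j + 2) j _ (pow_pos ht 2), h2 (j + 3) j _ ht,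
      h2 i j _ one_pos]
  · exact (hlin i _).symm.trans h

end Pool.Agent.P.MP_65d7bf_co
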