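import Pool.Agent.P.MP_65d7bf_co.St

namespace Pool.Agent.P.MP_65d7bf_co

open Finset Matrix

namespace GoodSq

/-- The barycentric coordinates of the origin and the three unit points. -/
def mA (T : Tet) : Matrix (Fin 4) (Fin 4) ℝ :=
  Matrix.of fun i => ![T.b i, T.a i 0 + T.b i, T.a i 1 + T.b i, T.a i 2 + T.b i]

def mV (T : Tet) : Matrix (Fin 4) (Fin 4) ℝ :=
  Matrix.of fun k j => ![T.v j 0, T.v j 1, T.v j 2, 1] k

lemma mul_one' (T : Tet) : mV T * T.mat = 1 := by
  rw [mul_eq_one_comm]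
  ext i j
  have := T.dual i j
  rw [Fin.sum_univ_three] at this
  rw [Matrix.mul_apply, Fin.sum_univ_four, Matrix.one_apply, ← this]
  simp [mV, Tet.mat]

lemma va (T : Tet) (l k : Fin 3) : ∑ i, T.v i l * T.a i k = if l = k then 1 else 0 := by
  have := congrFun (congrFun (mul_one' T) l.castSucc) k.castSucc
  rw [Matrix.mul_apply, Matrix.one_apply] at this
  fin_cases l <;> fin_cases k <;> simpa [mV, Tet.mat] using this

lemma vb (T : Tet) (l : Fin 3) : ∑ i, T.v i l * T.b i = 0 := by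
  have := congrFun (congrFun (mul_one' T) l.castSucc) 3
  rw [Matrix.mul_apply, Matrix.one_apply] at this
  fin_cases l <;> simpa [mV, Tet.mat] using this

lemma rowz (T : Tet) (i : Fin 4) (z : Fin 4 → ℤ) : ∑ j, mA T i j * z j =
    T.lin i ![z 1, z 2, z 3] + T.b i * ((∑ j, z j : ℤ) : ℝ) := by
  simp [mA, Tet.lin, Fin.sum_univ_four, Fin.sum_univ_three]
  ring

lemma det_mA (T : Tet) : |(mA T).det| = |T.mat.det| := by
  have e : mA T = T.mat * !![0, 1, 0, 0; 0, 0, 1, 0; 0, 0, 0, 1; 1, 1, 1, 1] := by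
    ext i j
    rw [Matrix.mul_apply, Fin.sum_univ_four]
    fin_cases j <;> simp [mA, Tet.mat]
  have d : (!![0, 1, 0, 0; 0, 0, 1, 0; 0, 0, 0, 1; 1, 1, 1, 1] : Matrix (Fin 4) (Fin 4) ℝ).det
      = -1 := by
    simp [Matrix.det_succ_row_zero, Fin.sum_univ_succ, Fin.succAbove]
  rw [e, det_mul, d, mul_neg_one, abs_neg]

lemma comb (T : Tet) (u : Fin 4 → ℤ) : (fun j => (u j : ℝ)) =
    ∑ a, ((u 0 : ℝ) + ∑ k, ((![u 1 - u 0, u 2 - u 0, u 3 - u 0] k : ℤ) : ℝ) * T.v a k) • mA T a := by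
  have s0 := T.sa 0
  have s1 := T.sa 1
  have s2 := T.sa 2
  have sb := T.sb
  have a00 := va T 0 0
  have a01 := va T 0 1
  have a02 := va T 0 2
  have a10 := va T 1 0
  have a11 := va T 1 1
  have a12 := va T 1 2
  have a20 := va T 2 0
  have a21 := va T 2 1
  have a22 := va T 2 2
  have b0 := vb T 0
  have b1 := vb T 1
  have b2 := vb T 2
  simp only [Fin.sum_univ_four] at s0 s1 s2 sb a00 a01 a02 a10 a11 a12 a20 a21 a22 b0 b1 b2
  simp at a00 a01 a02 a10 a11 a12 a20 a21 a22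
  ext j
  rw [Finset.sum_apply, Fin.sum_univ_four]
  fin_cases j <;> simp [mA, Fin.sum_univ_three]
  · linear_combination -(u 0 : ℝ) * sb - ((u 1 : ℝ) - u 0) * b0 - ((u 2 : ℝ) - u 0) * b1
      - ((u 3 : ℝ) - u 0) * b2
  · linear_combination -(u 0 : ℝ) * (sb + s0) - ((u 1 : ℝ) - u 0) * (b0 + a00)
      - ((u 2 : ℝ) - u 0) * (b1 + a10) - ((u 3 : ℝ) - u 0) * (b2 + a20)
  · linear_combination -(u 0 : ℝ) * (sb + s1) - ((u 1 : ℝ) - u 0) * (b0 + a01)
      - ((u 2 : ℝ) - u 0) * (b1 + a11) - ((u 3 : ℝ) - u 0) * (b2 + a21)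
  · linear_combination -(u 0 : ℝ) * (sb + s2) - ((u 1 : ℝ) - u 0) * (b0 + a02)
      - ((u 2 : ℝ) - u 0) * (b1 + a12) - ((u 3 : ℝ) - u 0) * (b2 + a22)

lemma ev_sub (T : Tet) (i : Fin 4) (x p : Fin 3 → ℤ) : T.lin i (x - p) = T.ev i x - T.ev i p := by
  simp [Tet.lin, Tet.ev, Fin.sum_univ_three]
  ring

end GoodSq

open GoodSq in
theorem goodSq : GoodSq := by
  intro T x y hH hW hG hC hV hB x0 x1 y0 y1 hE
  have hv : 1 / 80 < |(mA T).det| := by rw [det_mA]; exact hV
  have hd : (mA T).det ≠ 0 := fun e => by rw [e, abs_zero] at hv; norm_num at hv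
  refine ⟨mA T, ⟨fun j => ?_, fun z hz _ hP => ?_, fun u _ hu => ?_, fun z hz _ h0 => ?_, ?_⟩, ?_⟩
  · have s0 := T.sa 0
    have s1 := T.sa 1
    have s2 := T.sa 2
    have sb := T.sb
    fin_cases j <;> simp [mA, Finset.sum_add_distrib, s0, s1, s2, sb]
  · obtain ⟨i, hi⟩ := hH ![z 1, z 2, z 3]
    refine ⟨i, ?_⟩
    rw [rowz, hz, Int.cast_one, mul_one]
    refine lt_of_le_of_ne hi fun e => hP i ?_
    have e2 : (![z 1, z 2, z 3] : Fin 3 → ℤ) -
        (![![0, 0, 0], ![1, 0, 0], ![1, 1, 0], ![0, 1, 0]] : Fin 4 → Fin 3 → ℤ) i = 0 := by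
      by_contra hne
      apply hG _ hne i
      rw [ev_sub, hB.1 i, sub_zero]
      exact e
    have c0 := congrFun e2 0
    have c1 := congrFun e2 1
    have c2 := congrFun e2 2
    rw [Fin.sum_univ_four] at hz
    ext j
    fin_cases i <;> fin_cases j <;> simp [Psq] at c0 c1 c2 ⊢ <;> omega
  · have hne : (![u 1 - u 0, u 2 - u 0, u 3 - u 0] : Fin 3 → ℤ) ≠ 0 := by
      intro e
      have c0 := congrFun e 0
      have c1 := congrFun e 1
      have c2 := congrFun e 2
      simp at c0 c1 c2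
      obtain ⟨i, j, hij⟩ := hu
      have : ∀ i, u i = u 0 := fun i => by fin_cases i <;> simp <;> omega
      exact hij ((this i).trans (this j).symm)
    obtain ⟨a, b, hab⟩ := hW _ hne
    refine ⟨a, b, ?_⟩
    rw [comb T u, det_updateRow_sum, det_updateRow_sum, smul_eq_mul, smul_eq_mul, ← sub_mul,
      mul_div_cancel_right₀ _ hd, add_sub_add_left_eq_sub]
    exact hab
  · have hne : (![z 1, z 2, z 3] : Fin 3 → ℤ) ≠ 0 := by
      intro e
      have c0 := congrFun e 0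
      have c1 := congrFun e 1
      have c2 := congrFun e 2
      simp at c0 c1 c2
      rw [Fin.sum_univ_four] at hz
      apply h0
      ext j
      fin_cases j <;> simp <;> omega
    have := hC _ hne
    simpa only [rowz, hz, Int.cast_zero, mul_zero, add_zero, Int.cast_one, mul_one] using this
  · simpa using hv
  · have z0 := hB.1 0
    have z1 := hB.1 1
    have z2 := hB.1 2
    have z3 := hB.1 3
    have p01 := hB.2 0 1 (by decide)
    have p03 := hB.2 0 3 (by decide)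
    have p10 := hB.2 1 0 (by decide)
    have p12 := hB.2 1 2 (by decide)
    have p21 := hB.2 2 1 (by decide)
    have p23 := hB.2 2 3 (by decide)
    have p30 := hB.2 3 0 (by decide)
    have p32 := hB.2 3 2 (by decide)
    have e0 := hE 0
    have e1 := hE 1
    have e2 := hE 2
    have e3 := hE 3
    simp [Tet.ev, Fin.sum_univ_three] at z0 z1 z2 z3 p01 p03 p10 p12 p21 p23 p30 p32
    simp [Tet.evR, Fin.sum_univ_three] at e0 e1 e2 e3
    simp only [SqCone, mA, Matrix.of_apply, Matrix.cons_val_zero, Matrix.cons_val_one,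
      Matrix.cons_val]
    refine ⟨⟨z0, by linarith, by linarith, by nlinarith⟩, ⟨z1, p10, by linarith, by nlinarith⟩,
      ⟨by linarith, p21, p23, by nlinarith⟩, ⟨z3, p30, by linarith, by nlinarith⟩⟩

end Pool.Agent.P.MP_65d7bf_co
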