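import Pool.Agent.P.MP_65d7bf_co.St2
import Pool.Agent.P.MP_65d7bf_co.GoodSq

namespace Pool.Agent.P.MP_65d7bf_co

open Finset Matrix

namespace GoodSq2

open GoodSq in
lemma hgt_eq (T : Tet) (hd : (mA T).det ≠ 0) (a : Fin 4) : hgt (mA T) a = T.v a 2 := by
  have e : (![0, 0, 0, 1] : Fin 4 → ℝ) = fun j => (((![0, 0, 0, 1] : Fin 4 → ℤ) j : ℤ) : ℝ) := by
    ext j
    fin_cases j <;> simp
  rw [hgt, e, comb T, det_updateRow_sum, smul_eq_mul, mul_div_cancel_right₀ _ hd]
  simp [Fin.sum_univ_three]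

end GoodSq2

open GoodSq in
theorem goodSq2 : GoodSq2 := by
  intro T x y hH hW hG hC hV hB x0 x1 y0 y1 hE q0 q3 hle htop hbig
  have hv : 1 / 80 < |(mA T).det| := by rw [det_mA]; exact hV
  have hd : (mA T).det ≠ 0 := fun e => by rw [e, abs_zero] at hv; norm_num at hv
  refine ⟨mA T, ⟨fun j => ?_, fun z hz _ hP => ?_, fun u _ hu => ?_, fun z hz _ h0 => ?_, ?_⟩, ?_, ?_⟩
  · have s0 := T.sa 0
    have s1 := T.sa 1
    have s2 := T.sa 2
    have sb := T.sb
    fin_cases j <;> simp [mA, Finset.sum_add_distrib, s0, s1, s2, sb]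
  · obtain ⟨i, hi⟩ := hH ![z 1, z 2, z 3]
    refine ⟨i, ?_⟩
    rw [rowz, hz, Int.cast_one, mul_one]
    refine lt_of_le_of_ne hi fun e => hP i ?_
    have e2 : (![z 1, z 2, z 3] : Fin 3 → ℤ) -
        (![![0, 0, 0], ![1, 0, 0], ![1, 1, 0], ![0, 1, 0]] : Fin 4 → Fin 3 → ℤ) i = 0 := by
      by_contra hne
      apply hG _ hne i
      rw [ev_sub, hB.1 i, sub_zero]
      exact e
    have c0 := congrFun e2 0
    have c1 := congrFun e2 1
    have c2 := congrFun e2 2
    rw [Fin.sum_univ_four] at hz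
    ext j
    fin_cases i <;> fin_cases j <;> simp [Psq] at c0 c1 c2 ⊢ <;> omega
  · have hne : (![u 1 - u 0, u 2 - u 0, u 3 - u 0] : Fin 3 → ℤ) ≠ 0 := by
      intro e
      have c0 := congrFun e 0
      have c1 := congrFun e 1
      have c2 := congrFun e 2
      simp at c0 c1 c2
      obtain ⟨i, j, hij⟩ := hu
      have : ∀ i, u i = u 0 := fun i => by fin_cases i <;> simp <;> omega
      exact hij ((this i).trans (this j).symm)
    obtain ⟨a, b, hab⟩ := hW _ hne
    refine ⟨a, b, ?_⟩
    rw [comb T u, det_updateRow_sum, det_updateRow_sum, smul_eq_mul, smul_eq_mul, ← sub_mul,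
      mul_div_cancel_right₀ _ hd, add_sub_add_left_eq_sub]
    exact hab
  · have hne : (![z 1, z 2, z 3] : Fin 3 → ℤ) ≠ 0 := by
      intro e
      have c0 := congrFun e 0
      have c1 := congrFun e 1
      have c2 := congrFun e 2
      simp at c0 c1 c2
      rw [Fin.sum_univ_four] at hz
      apply h0
      ext j
      fin_cases j <;> simp <;> omega
    have := hC _ hne
    simpa only [rowz, hz, Int.cast_zero, mul_zero, add_zero, Int.cast_one, mul_one] using this
  · simpa using hv
  · have z0 := hB.1 0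
    have z1 := hB.1 1
    have z2 := hB.1 2
    have z3 := hB.1 3
    have p01 := hB.2 0 1 (by decide)
    have p03 := hB.2 0 3 (by decide)
    have p10 := hB.2 1 0 (by decide)
    have p12 := hB.2 1 2 (by decide)
    have p21 := hB.2 2 1 (by decide)
    have p23 := hB.2 2 3 (by decide)
    have p30 := hB.2 3 0 (by decide)
    have p32 := hB.2 3 2 (by decide)
    have e0 := hE 0
    have e1 := hE 1
    have e2 := hE 2
    have e3 := hE 3
    simp [Tet.ev, Fin.sum_univ_three] at z0 z1 z2 z3 p01 p03 p10 p12 p21 p23 p30 p32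
    simp [Tet.evR, Fin.sum_univ_three] at e0 e1 e2 e3
    simp only [SqCone, mA, Matrix.of_apply, Matrix.cons_val_zero, Matrix.cons_val_one,
      Matrix.cons_val]
    refine ⟨⟨z0, by linarith, by linarith, by nlinarith⟩, ⟨z1, p10, by linarith, by nlinarith⟩,
      ⟨by linarith, p21, p23, by nlinarith⟩, ⟨z3, p30, by linarith, by nlinarith⟩⟩
  · have z0 := hB.1 0
    have z1 := hB.1 1
    have z3 := hB.1 3
    have p01 := hB.2 0 1 (by decide)
    have p03 := hB.2 0 3 (by decide)
    have p30 := hB.2 3 0 (by decide)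
    have p32 := hB.2 3 2 (by decide)
    simp [Tet.ev, Fin.sum_univ_three] at z0 z1 z3 p01 p03 p30 p32 hle
    simp [Tet.evR, Fin.sum_univ_three] at q0 q3
    refine ⟨?_, ?_, ?_, fun a => ?_, ?_⟩
    · simp only [mA, Matrix.of_apply, Matrix.cons_val]
      nlinarith
    · simp only [mA, Matrix.of_apply, Matrix.cons_val, Matrix.cons_val_zero]
      nlinarith
    · simp only [mA, Matrix.of_apply, Matrix.cons_val, Matrix.cons_val_zero]
      linarith
    · rw [GoodSq2.hgt_eq T hd, GoodSq2.hgt_eq T hd]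
      exact htop a
    · rw [GoodSq2.hgt_eq T hd]
      exact hbig

end Pool.Agent.P.MP_65d7bf_co
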