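import Pool.Agent.P.MP_65d7bf_co.St

namespace Pool.Agent.P.MP_65d7bf_co

open Finset Matrix

namespace GoodTet

/-- vertex matrix: columns are the vertices with a last coordinate one -/
def vm (T : Tet) : Matrix (Fin 4) (Fin 4) ℝ :=
  Matrix.of ![fun j => T.v j 0, fun j => T.v j 1, fun j => T.v j 2, fun _ => 1]

lemma mat_vm (T : Tet) : T.mat * vm T = 1 := by
  ext i j
  have h := T.dual i j
  rw [Fin.sum_univ_three] at h
  rw [Matrix.mul_apply, Fin.sum_univ_four, Matrix.one_apply, ← h]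
  simp [Tet.mat, vm]

lemma vm_mat (T : Tet) : vm T * T.mat = 1 := mul_eq_one_comm.mp (mat_vm T)

lemma bary (T : Tet) (x : Fin 3 → ℤ) (l : Fin 3) :
    ∑ i, T.v i l * T.ev i x = x l := by
  have h := fun k k' => congrFun (congrFun (vm_mat T) k) k'
  simp only [Matrix.mul_apply, Fin.sum_univ_four] at h
  simp only [Tet.ev, Fin.sum_univ_three, Fin.sum_univ_four]
  fin_cases l
  · have h0 := h 0 0
    have h1 := h 0 1
    have h2 := h 0 2
    have h3 := h 0 3
    simp [Tet.mat, vm] at h0 h1 h2 h3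
    simp only [Fin.zero_eta]
    linear_combination (x 0 : ℝ) * h0 + (x 1 : ℝ) * h1 + (x 2 : ℝ) * h2 + h3
  · have h0 := h 1 0
    have h1 := h 1 1
    have h2 := h 1 2
    have h3 := h 1 3
    simp [Tet.mat, vm] at h0 h1 h2 h3
    simp only [Fin.mk_one]
    linear_combination (x 0 : ℝ) * h0 + (x 1 : ℝ) * h1 + (x 2 : ℝ) * h2 + h3
  · have h0 := h 2 0
    have h1 := h 2 1
    have h2 := h 2 2
    have h3 := h 2 3
    simp [Tet.mat, vm] at h0 h1 h2 h3
    simp only [Fin.reduceFinMk]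
    linear_combination (x 0 : ℝ) * h0 + (x 1 : ℝ) * h1 + (x 2 : ℝ) * h2 + h3

lemma sum_ev (T : Tet) (x : Fin 3 → ℤ) : ∑ i, T.ev i x = 1 := by
  have h0 := T.sa 0
  have h1 := T.sa 1
  have h2 := T.sa 2
  have h3 := T.sb
  simp only [Fin.sum_univ_four] at h0 h1 h2 h3
  simp only [Tet.ev, Fin.sum_univ_three, Fin.sum_univ_four]
  linear_combination (x 0 : ℝ) * h0 + (x 1 : ℝ) * h1 + (x 2 : ℝ) * h2 + h3

/-- the four blocking points -/
def pp (a b c : ℤ) : Fin 4 → Fin 3 → ℤ := ![![0, 0, 0], ![1, 0, 0], ![0, 1, 0], ![a, b, c]]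

/-- the matrix of barycentric coordinates of the blocking points -/
def AA (T : Tet) (a b c : ℤ) : Matrix (Fin 4) (Fin 4) ℝ :=
  Matrix.of fun i j => T.ev i (pp a b c j)

lemma pt (a b c : ℤ) (z : Fin 4 → ℤ)
    (h : ∃ k : ℤ, ∀ j, c ∣ z j - k * (![a + b - 1, -a, -b, 1] : Fin 4 → ℤ) j) :
    ∃ x : Fin 3 → ℤ, c * x 0 = z 1 + a * z 3 ∧ c * x 1 = z 2 + b * z 3 ∧ x 2 = z 3 := by
  obtain ⟨k, hk⟩ := h
  obtain ⟨m1, h1⟩ := hk 1
  obtain ⟨m2, h2⟩ := hk 2
  obtain ⟨m3, h3⟩ := hk 3
  simp at h1 h2 h3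
  refine ⟨![m1 + a * m3, m2 + b * m3, z 3], ?_, ?_, ?_⟩
  · simp only [Matrix.cons_val_zero]
    linear_combination -h1 - a * h3
  · simp only [Matrix.cons_val_one, Matrix.cons_val_zero]
    linear_combination -h2 - b * h3
  · simp

lemma comb (T : Tet) (a b c : ℤ) (z : Fin 4 → ℤ) (x : Fin 3 → ℤ)
    (h0 : c * x 0 = z 1 + a * z 3) (h1 : c * x 1 = z 2 + b * z 3) (h2 : x 2 = z 3) (i : Fin 4) :
    ∑ j, AA T a b c i j * z j = (c : ℝ) * T.lin i x + ((∑ j, z j : ℤ) : ℝ) * T.b i := by
  have e0 : (c : ℝ) * x 0 = z 1 + a * z 3 := by exact_mod_cast h0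
  have e1 : (c : ℝ) * x 1 = z 2 + b * z 3 := by exact_mod_cast h1
  have e2 : (x 2 : ℝ) = z 3 := by exact_mod_cast h2
  simp only [AA, pp, Tet.ev, Tet.lin, Fin.sum_univ_three, Fin.sum_univ_four, Matrix.of_apply]
  simp
  linear_combination -T.a i 0 * e0 - T.a i 1 * e1 - T.a i 2 * c * e2

/-- columns are the blocking points with last coordinate one -/
def WW (a b c : ℤ) : Matrix (Fin 4) (Fin 4) ℝ :=
  !![0, 1, 0, a; 0, 0, 1, b; 0, 0, 0, c; 1, 1, 1, 1]

lemma AA_eq (T : Tet) (a b c : ℤ) : AA T a b c = T.mat * WW a b c := by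
  ext i j
  rw [Matrix.mul_apply, Fin.sum_univ_four]
  simp only [AA, pp, Tet.ev, Fin.sum_univ_three, Matrix.of_apply, Tet.mat, WW]
  fin_cases j <;> simp

lemma det_WW (a b c : ℤ) : (WW a b c).det = -(c : ℝ) := by
  rw [Matrix.det_succ_row_zero]
  simp [WW, Fin.sum_univ_succ, Matrix.det_fin_three, Fin.succAbove, Matrix.submatrix]

lemma ev_eq (T : Tet) (i : Fin 4) (x : Fin 3 → ℤ) : T.ev i x = T.lin i x + T.b i := rfl

lemma lin_sub (T : Tet) (i : Fin 4) (x y : Fin 3 → ℤ) :
    T.lin i (x - y) = T.ev i x - T.ev i y := by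
  simp only [Tet.lin, Tet.ev, Fin.sum_univ_three, Pi.sub_apply]
  push_cast
  ring

end GoodTet

open GoodTet in
theorem goodTet : GoodTet := by
  intro T a b c hH hW hG hC hV hB hc
  have hB' : Blocked T (pp a b c) := hB
  have hcR : (0 : ℝ) < c := by exact_mod_cast hc
  have hvol : (c : ℝ) / 80 < |(AA T a b c).det| := by
    rw [AA_eq, Matrix.det_mul, det_WW, abs_mul, abs_neg, abs_of_pos hcR]
    unfold Vol at hV
    nlinarith
  refine ⟨AA T a b c, ⟨fun j => sum_ev T _, ?_, ?_, ?_, hvol⟩, fun i => hB'.1 i,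
    fun i j hij => hB'.2 i j hij⟩
  · intro z hz hk hne
    obtain ⟨x, h0, h1, h2⟩ := pt a b c z hk
    obtain ⟨i, hi⟩ := hH x
    have hcomb := comb T a b c z x h0 h1 h2 i
    rw [hz, ← mul_add, ← ev_eq] at hcomb
    rcases hi.lt_or_eq with hi | hi
    · exact ⟨i, by rw [hcomb]; exact mul_neg_of_pos_of_neg hcR hi⟩
    · exfalso
      have hx : x - pp a b c i = 0 := by
        by_contra hne'
        apply hG _ hne' i
        rw [lin_sub, hi, hB'.1 i, sub_zero]
      have hx' : x = pp a b c i := sub_eq_zero.mp hx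
      apply hne i
      rw [Fin.sum_univ_four] at hz
      subst hx'
      fin_cases i
      · simp [pp] at h0 h1 h2
        rw [← h2] at h0 h1 hz
        funext j
        fin_cases j <;> simp [Pd] <;> linarith
      · simp [pp] at h0 h1 h2
        rw [← h2] at h0 h1 hz
        funext j
        fin_cases j <;> simp [Pd] <;> linarith
      · simp [pp] at h0 h1 h2
        rw [← h2] at h0 h1 hz
        funext j
        fin_cases j <;> simp [Pd] <;> linarith
      · simp [pp] at h0 h1 h2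
        rw [← h2] at h0 h1 hz
        funext j
        fin_cases j <;> simp [Pd] <;> linarith
  · intro u hu hne
    obtain ⟨m, hm⟩ := hu
    rw [Fin.sum_univ_four] at hm
    simp at hm
    have hu' : (![u 1 - u 0, u 2 - u 0, m] : Fin 3 → ℤ) ≠ 0 := by
      intro h
      have e0 := congrFun h 0
      have e1 := congrFun h 1
      have e2 := congrFun h 2
      simp at e0 e1 e2
      obtain ⟨i, j, hij⟩ := hne
      have e10 : u 1 = u 0 := by linarith
      have e20 : u 2 = u 0 := by linarith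
      have e30 : u 3 = u 0 := by
        rw [e10, e20, e2] at hm
        linarith
      have all : ∀ k, u k = u 0 := by
        intro k
        fin_cases k
        exacts [rfl, e10, e20, e30]
      exact hij ((all i).trans (all j).symm)
    obtain ⟨i, j, hij⟩ := hW _ hu'
    set φ : Fin 4 → ℝ := fun i =>
      (u 0 : ℝ) + ∑ k, (((![u 1 - u 0, u 2 - u 0, m] : Fin 3 → ℤ) k : ℤ) : ℝ) * T.v i k with hφ
    have hrow : (fun j => (u j : ℝ)) = ∑ k, φ k • (AA T a b c) k := by
      funext j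
      rw [Finset.sum_apply]
      have s := sum_ev T (pp a b c j)
      have b0 := bary T (pp a b c j) 0
      have b1 := bary T (pp a b c j) 1
      have b2 := bary T (pp a b c j) 2
      have hmR : (u 0 : ℝ) * (a + b - 1) + -(u 1 * a) + -(u 2 * b) + u 3 = c * m := by
        exact_mod_cast hm
      have key : (u j : ℝ) = u 0 + (u 1 - u 0) * (pp a b c j 0 : ℝ) +
          (u 2 - u 0) * (pp a b c j 1 : ℝ) + m * (pp a b c j 2 : ℝ) := by
        fin_cases j
        · simp [pp]
        · simp [pp]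
        · simp [pp]
        · simp [pp]
          linear_combination hmR
      simp only [Fin.sum_univ_four] at s b0 b1 b2
      simp only [hφ, Fin.sum_univ_four, Fin.sum_univ_three, Pi.smul_apply, smul_eq_mul, AA,
        Matrix.of_apply]
      simp
      rw [key]
      linear_combination -(u 0 : ℝ) * s - ((u 1 : ℝ) - u 0) * b0 - ((u 2 : ℝ) - u 0) * b1 -
        (m : ℝ) * b2
    have hdet : (AA T a b c).det ≠ 0 := by
      intro h
      rw [h, abs_zero] at hvol
      linarith
    refine ⟨i, j, ?_⟩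
    rw [hrow, Matrix.det_updateRow_sum, Matrix.det_updateRow_sum, smul_eq_mul, smul_eq_mul,
      ← sub_mul, mul_div_assoc, div_self hdet, mul_one]
    simp only [hφ]
    linarith
  · intro y hy hk hne
    obtain ⟨x, h0, h1, h2⟩ := pt a b c y hk
    have hx : x ≠ 0 := by
      rintro rfl
      apply hne
      rw [Fin.sum_univ_four] at hy
      simp at h0 h1 h2
      rw [← h2] at h0 h1 hy
      funext j
      fin_cases j <;> simp <;> linarith
    have h := hC x hx
    have e : ∀ i, |∑ j, AA T a b c i j * y j| = (c : ℝ) * |T.lin i x| := by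
      intro i
      rw [comb T a b c y x h0 h1 h2 i, hy]
      simp [abs_mul, abs_of_pos hcR]
    simp only [e, ← Finset.mul_sum]
    nlinarith

end Pool.Agent.P.MP_65d7bf_co
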