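import Pool.Agent.P.MP_65d7bf_co.LocD
import Pool.Agent.P.MP_65d7bf_co.BridgeD

namespace Pool.Agent.P.MP_65d7bf_co

open Finset Matrix

namespace Loc

theorem sel0 {α : Type} (a b c d : α) : sel 0 a b c d = a := rfl
theorem sel1 {α : Type} (a b c d : α) : sel 1 a b c d = b := rfl
theorem sel2 {α : Type} (a b c d : α) : sel 2 a b c d = c := rfl
theorem sel3 {α : Type} (a b c d : α) : sel 3 a b c d = d := rfl

theorem tri (y : R3) (hs : y.a + y.b + y.c = 1000) (h0 : 384 ≤ y.a) (h1 : 342 ≤ y.b)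
    (h2 : 238 ≤ y.c) :
    (∃ t, t.nn ∧ InG (tg 3) y t) ∧ ∃ o < 3, ∃ t, t.nn ∧ InG (tg o) y t := by
  obtain ⟨a, b, c⟩ := y
  dsimp only at hs h0 h1 h2
  have s1 : (1.41 : ℝ) < √2 := Real.lt_sqrt_of_sq_lt (by norm_num)
  have s2 : √2 < (1.42 : ℝ) := (Real.sqrt_lt' (by norm_num)).2 (by norm_num)
  have g0 : 0 < 366 - 250 * √2 := by linarith
  have g1 : 0 < 250 * √2 - 342 := by linarith
  refine ⟨⟨⟨(a - 384) / 36, (b - 342) / 36, (c - 238) / 36⟩,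
    ⟨by dsimp only; linarith, by dsimp only; linarith, by dsimp only; linarith⟩, ?_⟩, ?_⟩
  · simp only [InG, tg, sel3]
    norm_num
    refine ⟨?_, ?_, ?_, ?_⟩ <;> linarith
  obtain ⟨x, rfl⟩ : ∃ x, a = 384 + (366 - 250 * √2) * x :=
    ⟨(a - 384) / (366 - 250 * √2), by field_simp; ring⟩
  obtain ⟨y, rfl⟩ : ∃ y, b = 342 + (250 * √2 - 342) * y :=
    ⟨(b - 342) / (250 * √2 - 342), by field_simp; ring⟩
  obtain ⟨z, rfl⟩ : ∃ z, c = 238 + 12 * z := ⟨(c - 238) / 12, by ring⟩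
  have x0 : 0 ≤ x := by nlinarith
  have y0 : 0 ≤ y := by nlinarith
  have z0 : 0 ≤ z := by linarith
  have key : (x ≤ y ∧ x ≤ z) ∨ (y ≤ x ∧ y ≤ z) ∨ (z ≤ x ∧ z ≤ y) := by
    rcases le_total x y with h | h <;> rcases le_total x z with h' | h' <;>
      rcases le_total y z with h'' | h'' <;> simp [*] <;> first | linarith | (left; linarith)
  rcases key with ⟨u, v⟩ | ⟨u, v⟩ | ⟨u, v⟩
  · refine ⟨0, by norm_num, ⟨x, (250 * √2 - 342) * (y - x) / 36, 12 * (z - x) / 36⟩,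
      ⟨x0, by have := sub_nonneg.2 u; positivity, by have := sub_nonneg.2 v; positivity⟩, ?_⟩
    simp only [InG, tg, sel0]
    norm_num
    refine ⟨?_, ?_, ?_, ?_⟩
    · linear_combination hs / 36
    · linear_combination -(384 / 36) * hs
    · linear_combination -(342 / 36) * hs
    · linear_combination -(238 / 36) * hs
  · refine ⟨1, by norm_num, ⟨y, 12 * (z - y) / 36, (366 - 250 * √2) * (x - y) / 36⟩,
      ⟨y0, by have := sub_nonneg.2 v; positivity, by have := sub_nonneg.2 u; positivity⟩, ?_⟩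
    simp only [InG, tg, sel1]
    norm_num
    refine ⟨?_, ?_, ?_, ?_⟩
    · linear_combination hs / 36
    · linear_combination -(384 / 36) * hs
    · linear_combination -(342 / 36) * hs
    · linear_combination -(238 / 36) * hs
  · refine ⟨2, by norm_num, ⟨z, (366 - 250 * √2) * (x - z) / 36, (250 * √2 - 342) * (y - z) / 36⟩,
      ⟨z0, by have := sub_nonneg.2 u; positivity, by have := sub_nonneg.2 v; positivity⟩, ?_⟩
    simp only [InG, tg, sel2]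
    norm_num
    refine ⟨?_, ?_, ?_, ?_⟩
    · linear_combination hs / 36
    · linear_combination -(384 / 36) * hs
    · linear_combination -(342 / 36) * hs
    · linear_combination -(238 / 36) * hs

def cl (M : Matrix (Fin 4) (Fin 4) ℝ) (j : Fin 4) : X4 :=
  ⟨1000 * M 0 j, 1000 * M 1 j, 1000 * M 2 j, 1000 * M 3 j⟩

theorem rdet_cl (M : Matrix (Fin 4) (Fin 4) ℝ) :
    rdet (cl M 0) (cl M 1) (cl M 2) (cl M 3) = 10 ^ 12 * M.det := by
  rw [BridgeD.det4]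
  simp only [rdet, cl]
  ring

theorem xset_cl (M : Matrix (Fin 4) (Fin 4) ℝ) (a j : Fin 4) (u : Fin 4 → ℝ) :
    xset (cl M j) a (1000 * u j) = cl (M.updateRow a u) j := by
  fin_cases a <;> simp [xset, sel0, sel1, sel2, sel3, cl, Matrix.updateRow_apply]

theorem rN_cl (M : Matrix (Fin 4) (Fin 4) ℝ) (a : Fin 4) (u : Fin 4 → ℤ) (t b : ℕ) (al be : ℤ) :
    rN ⟨cl M 0, cl M 1, cl M 2, cl M 3⟩ ⟨1000 * u 0, 1000 * u 1, 1000 * u 2, 1000 * u 3, t, b, al, be⟩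
      a = 10 ^ 12 * (M.updateRow a fun j => (u j : ℝ)).det := by
  rw [← rdet_cl, ← xset_cl, ← xset_cl, ← xset_cl, ← xset_cl]
  simp [rN]

theorem pos {A : Matrix (Fin 4) (Fin 4) ℝ} (G : Good 1 ![1, 1, 1, 1] (Pd 1) A) (hd : A.det < 0)
    (u : Fin 4 → ℤ) (hu : ∃ i j, u i ≠ u j) (t b : ℕ) (al be : ℤ) (d : Dr)
    (e : d = ⟨1000 * u 0, 1000 * u 1, 1000 * u 2, 1000 * u 3, t, b, al, be⟩)
    (h : ∀ a < 4, rN ⟨cl A 0, cl A 1, cl A 2, cl A 3⟩ d d.t ≤ rN ⟨cl A 0, cl A 1, cl A 2, cl A 3⟩ d a ∧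
      rN ⟨cl A 0, cl A 1, cl A 2, cl A 3⟩ d a ≤ rN ⟨cl A 0, cl A 1, cl A 2, cl A 3⟩ d d.b) :
    0 < rP ⟨cl A 0, cl A 1, cl A 2, cl A 3⟩ d := by
  obtain ⟨i, j, hij⟩ := G.wid u (one_dvd _) hu
  have h1 := (h i i.2).1
  have h2 := (h j j.2).2
  rw [lt_div_iff_of_neg hd] at hij
  unfold rP
  dsimp only
  rw [rdet_cl]
  have e1 := rN_cl A i u t b al be
  have e2 := rN_cl A j u t b al be
  rw [← e] at e1 e2
  rw [e1] at h1
  rw [e2] at h2
  linarith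

end Loc

open Loc in
theorem local_ok : Local := by
  intro A G Z
  by_contra hc
  have hl : ∀ i j : Fin 4, i ≠ j → (lo i j : ℝ) ≤ 1000 * A i j := fun i j h =>
    not_lt.1 fun h' => hc ⟨i, j, h, h'⟩
  have z0 := Z.1 0
  have z1 := Z.1 1
  have z2' := Z.1 2
  have z3 := Z.1 3
  have s0 := G.sum 0
  have s1 := G.sum 1
  have s2 := G.sum 2
  have s3 := G.sum 3
  rw [Fin.sum_univ_four] at s0 s1 s2 s3
  obtain ⟨⟨a0, b0, c0⟩, o0, l0, t0, n0, i0⟩ := tri ⟨1000 * A 3 0, 1000 * A 2 0, 1000 * A 1 0⟩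
    (by dsimp only; linarith) (by exact_mod_cast hl 3 0 (by decide))
    (by exact_mod_cast hl 2 0 (by decide)) (by exact_mod_cast hl 1 0 (by decide))
  obtain ⟨⟨a1, b1, c1⟩, o1, l1, t1, n1, i1⟩ := tri ⟨1000 * A 0 1, 1000 * A 3 1, 1000 * A 2 1⟩
    (by dsimp only; linarith) (by exact_mod_cast hl 0 1 (by decide))
    (by exact_mod_cast hl 3 1 (by decide)) (by exact_mod_cast hl 2 1 (by decide))
  obtain ⟨⟨a2, b2, c2⟩, o2, l2, t2, n2, i2⟩ := tri ⟨1000 * A 1 2, 1000 * A 0 2, 1000 * A 3 2⟩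
    (by dsimp only; linarith) (by exact_mod_cast hl 1 2 (by decide))
    (by exact_mod_cast hl 0 2 (by decide)) (by exact_mod_cast hl 3 2 (by decide))
  obtain ⟨⟨a3, b3, c3⟩, o3, l3, t3, n3, i3⟩ := tri ⟨1000 * A 2 3, 1000 * A 1 3, 1000 * A 0 3⟩
    (by dsimp only; linarith) (by exact_mod_cast hl 2 3 (by decide))
    (by exact_mod_cast hl 1 3 (by decide)) (by exact_mod_cast hl 0 3 (by decide))
  have eX : cols ⟨1000 * A 3 0, 1000 * A 2 0, 1000 * A 1 0⟩ ⟨1000 * A 0 1, 1000 * A 3 1, 1000 * A 2 1⟩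
      ⟨1000 * A 1 2, 1000 * A 0 2, 1000 * A 3 2⟩ ⟨1000 * A 2 3, 1000 * A 1 3, 1000 * A 0 3⟩ =
      ⟨cl A 0, cl A 1, cl A 2, cl A 3⟩ := by
    simp [cols, cl, z0, z1, z2', z3]
  have k1 : Ok ⟨96, a0, a1, a2, a3⟩ 95 := ⟨rfl, b0, b1, b2, b3⟩
  have k2 : Ok ⟨128, t0, t1, t2, t3⟩ 127 := ⟨rfl, n0, n1, n2, n3⟩
  have m1 := mkCs_ok k1 c0 c1 c2 c3
  have m2 := mkCs_ok k2 i0 i1 i2 i3
  rw [eX] at m1 m2
  obtain ⟨d1, d2⟩ := dm_ok k1 m1 dirs dom
  have hd : A.det < 0 := by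
    have := G.vol
    rw [rdet_cl] at d1
    refine lt_of_le_of_ne (by linarith) fun h => ?_
    rw [h] at this
    norm_num at this
  obtain ⟨x, hx⟩ := clA (o0 + 3 * o1 + 9 * o2 + 27 * o3) (by omega)
  unfold cell at hx
  rw [show Nat.mod (o0 + 3 * o1 + 9 * o2 + 27 * o3) 3 = o0 by change _ % 3 = _; omega,
    show Nat.mod (Nat.div (o0 + 3 * o1 + 9 * o2 + 27 * o3) 3) 3 = o1 by change _ / 3 % 3 = _; omega,
    show Nat.mod (Nat.div (o0 + 3 * o1 + 9 * o2 + 27 * o3) 9) 3 = o2 by change _ / 9 % 3 = _; omega,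
    show Nat.div (o0 + 3 * o1 + 9 * o2 + 27 * o3) 27 = o3 by change _ / 27 = _; omega] at hx
  refine lt_irrefl _ ((gm_ok k2 m2 dirs x _ 0 (fun d h => ?_) (rp0 ..) hx).2 (by simp [dirs]))
  have h' := d2 d h
  simp only [dirs, List.mem_cons, List.not_mem_nil, or_false] at h
  rcases h with h | h | h | h | h | h
  · exact pos G hd ![0, 0, 1, 1] ⟨0, 2, by decide⟩ _ _ _ _ d h h'
  · exact pos G hd ![0, 0, 1, 0] ⟨0, 2, by decide⟩ _ _ _ _ d h h'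
  · exact pos G hd ![0, 1, 0, 0] ⟨0, 1, by decide⟩ _ _ _ _ d h h'
  · exact pos G hd ![0, 1, 1, 1] ⟨0, 1, by decide⟩ _ _ _ _ d h h'
  · exact pos G hd ![0, 1, 1, 0] ⟨0, 1, by decide⟩ _ _ _ _ d h h'
  · exact pos G hd ![0, 0, 0, 1] ⟨0, 3, by decide⟩ _ _ _ _ d h h'

end Pool.Agent.P.MP_65d7bf_co
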