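import Pool.Agent.P.MP_65d7bf_co.St

/-! A volume bound from the theorem of Minkowski. -/

namespace Pool.Agent.P.MP_65d7bf_co

open Finset Matrix MeasureTheory

namespace Mink

/-- the lattice point theorem for a parallelepiped -/
theorem box (L : Matrix (Fin 3) (Fin 3) ℝ) {r : ℝ} (hr : 0 ≤ r) (h0 : L.det ≠ 0)
    (h : |L.det| < r ^ 3) : ∃ y : Fin 3 → ℤ, y ≠ 0 ∧ ∀ i, |∑ k, L i k * y k| ≤ r := by
  let b := Pi.basisFun ℝ (Fin 3)
  have hd : LinearMap.det (Matrix.toLin' L) = L.det := LinearMap.det_toLin' L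
  have hc : Countable (Submodule.span ℤ (Set.range b)).toAddSubgroup :=
    inferInstanceAs (Countable (Submodule.span ℤ (Set.range b)))
  have hpos : 0 < |L.det| := abs_pos.mpr h0
  obtain ⟨x, hx0, hx⟩ := exists_ne_zero_mem_lattice_of_measure_mul_two_pow_lt_measure
    (ZSpan.isAddFundamentalDomain' b volume) (s := Matrix.toLin' L ⁻¹' Metric.closedBall 0 r)
    (fun x hx => by simpa [map_neg] using hx)
    ((convex_closedBall 0 r).linear_preimage _) (by
      have hb : Matrix.of b = 1 := by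
        ext i j
        simp [b, Pi.single_apply, Matrix.one_apply, eq_comm]
      rw [ZSpan.volume_fundamentalDomain, hb, Measure.addHaar_preimage_linearMap _ (hd ▸ h0),
        Real.volume_pi_closedBall _ hr, hd, ← ENNReal.ofReal_mul (abs_nonneg _), det_one, abs_one,
        ENNReal.ofReal_one, one_mul, Module.finrank_fin_fun, Fintype.card_fin,
        ← ENNReal.ofReal_ofNat, ← ENNReal.ofReal_pow (by norm_num),
        ENNReal.ofReal_lt_ofReal_iff_of_nonneg (by norm_num), abs_inv, lt_inv_mul_iff₀ hpos]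
      nlinarith)
  choose y hy using (b.mem_span_iff_repr_mem ℤ x.1).mp x.2
  have hy' : ∀ k, x.1 k = y k := fun k => by simpa [b] using (hy k).symm
  refine ⟨y, fun h' => hx0 (Subtype.ext (funext fun k => by simp [hy', h'])), fun i => ?_⟩
  have h1 := (pi_norm_le_iff_of_nonneg hr).mp (mem_closedBall_zero_iff.mp hx) i
  simpa [Matrix.toLin'_apply, Matrix.mulVec, dotProduct, hy'] using h1

end Mink

theorem mink : Mink := by
  intro T hT
  by_contra hv
  have hv' : |T.mat.det| ≤ 1 / 80 := not_lt.mp hv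
  have hmul : T.mat * (Matrix.of fun k j => ![T.v j 0, T.v j 1, T.v j 2, 1] k) = 1 := by
    ext i j
    have := T.dual i j
    rw [Fin.sum_univ_three] at this
    simp [Tet.mat, Matrix.mul_apply, Fin.sum_univ_four, Matrix.one_apply, this]
  have h0 : T.mat.det ≠ 0 := fun h => by
    have := congrArg det hmul
    rw [det_mul, h, zero_mul, det_one] at this
    exact zero_ne_one this
  have ha : ∀ k, T.a 3 k = -(T.a 0 k + T.a 1 k + T.a 2 k) := fun k => by
    have := T.sa k
    rw [Fin.sum_univ_four] at this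
    linarith
  have hb : T.b 3 = 1 - (T.b 0 + T.b 1 + T.b 2) := by
    have := T.sb
    rw [Fin.sum_univ_four] at this
    linarith
  let L : Matrix (Fin 3) (Fin 3) ℝ :=
    Matrix.of fun i k => ![T.a 0 k + T.a 1 k, T.a 0 k - T.a 1 k, T.a 2 k - T.a 3 k] i
  have hL : L.det = -4 * T.mat.det := by
    rw [det_fin_three, det_succ_row T.mat 3]
    simp [L, Tet.mat, Fin.sum_univ_four, det_fin_three, Fin.succAbove, ha, hb]
    ring
  obtain ⟨y, hy, h⟩ := Mink.box L (r := 7 / 19) (by norm_num) (by rw [hL]; simpa using h0)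
    (by rw [hL, abs_mul]; norm_num; linarith)
  have hc := hT y hy
  have e0 := h 0
  have e1 := h 1
  have e2 := h 2
  have e3 : T.lin 3 y = -(T.lin 0 y + T.lin 1 y + T.lin 2 y) := by
    simp only [Tet.lin, ha, Fin.sum_univ_three]
    ring
  have f0 : ∑ k, L 0 k * y k = T.lin 0 y + T.lin 1 y := by
    simp [L, Tet.lin, add_mul, sum_add_distrib]
  have f1 : ∑ k, L 1 k * y k = T.lin 0 y - T.lin 1 y := by
    simp [L, Tet.lin, sub_mul]
  have f2 : ∑ k, L 2 k * y k = T.lin 2 y - T.lin 3 y := by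
    simp [L, Tet.lin, sub_mul]
  rw [f0, abs_le] at e0
  rw [f1, abs_le] at e1
  rw [f2, abs_le] at e2
  rw [Fin.sum_univ_four] at hc
  have g1 : |T.lin 0 y| + |T.lin 1 y| ≤ 7 / 19 := by
    rcases abs_cases (T.lin 0 y) with h | h <;> rcases abs_cases (T.lin 1 y) with h' | h' <;>
      linarith [h.1, h'.1, e0.1, e0.2, e1.1, e1.2]
  have g2 : |T.lin 2 y| + |T.lin 3 y| ≤ 7 / 19 := by
    rcases abs_cases (T.lin 2 y) with h | h <;> rcases abs_cases (T.lin 3 y) with h' | h' <;>
      linarith [h.1, h'.1, e0.1, e0.2, e2.1, e2.2]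
  linarith

end Pool.Agent.P.MP_65d7bf_co
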