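import Pool.Agent.P.MP_65d7bf_co.St

/-! A wide lattice-free open convex set contains no ray. -/

namespace Pool.Agent.P.MP_65d7bf_co

namespace NoRay

theorem approx (a b e : ℝ) (ha : a ≠ 0) (he : 0 < e) :
    ∃ (m n : ℤ) (r : ℝ), 0 ≤ r ∧ m ≠ 0 ∧ (m : ℝ) = r * a ∧ |(n : ℝ) - r * b| < e := by
  obtain ⟨N, hN⟩ := exists_nat_one_div_lt he
  obtain ⟨j, k, hk, -, hjk⟩ := Real.exists_int_int_abs_mul_sub_le (b / a) (n := N + 1) N.succ_pos
  have h1 : |(k : ℝ) * (b / a) - j| < e := by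
    refine hjk.trans_lt (lt_of_le_of_lt ?_ hN)
    push_cast
    gcongr
    linarith
  have hk' : (0 : ℝ) < k := by exact_mod_cast hk
  rcases lt_or_gt_of_ne ha with h | h
  · refine ⟨-k, -j, k / (-a), div_nonneg hk'.le (by linarith), by omega, ?_, ?_⟩
    · push_cast
      field_simp
    · have : ((-j : ℤ) : ℝ) - k / (-a) * b = k * (b / a) - j := by
        push_cast
        field_simp
        ring
      rwa [this]
  · refine ⟨k, j, k / a, div_nonneg hk'.le h.le, by omega, ?_, ?_⟩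
    · field_simp
    · have : (j : ℝ) - k / a * b = -(k * (b / a) - j) := by
        field_simp
        ring
      rwa [this, abs_neg]

theorem approx2 (d : ℝ × ℝ) (e : ℝ) (hd : d ≠ 0) (he : 0 < e) :
    ∃ (m n : ℤ) (r : ℝ), 0 ≤ r ∧ (m ≠ 0 ∨ n ≠ 0) ∧ |(m : ℝ) - r * d.1| < e ∧
      |(n : ℝ) - r * d.2| < e := by
  by_cases h : d.1 = 0
  · have h2 : d.2 ≠ 0 := fun h2 => hd (Prod.ext h h2)
    obtain ⟨m, n, r, h0, h1, h3, h4⟩ := approx d.2 d.1 e h2 he
    exact ⟨n, m, r, h0, Or.inr h1, h4, by simpa [h3] using he⟩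
  · obtain ⟨m, n, r, h0, h1, h3, h4⟩ := approx d.1 d.2 e h he
    exact ⟨m, n, r, h0, Or.inl h1, by simpa [h3] using he, h4⟩

end NoRay

theorem noRay (h : Chord2) : NoRay := by
  intro Q hc ho hf hw x hx d hd
  by_contra hn
  push Not at hn
  obtain ⟨e, he, hb⟩ := Metric.isOpen_iff.1 ho x hx
  obtain ⟨m, n, r, hr, hmn, h1, h2⟩ := NoRay.approx2 d (e / 4) hd (by positivity)
  refine h Q hc hf hw x hx m n hmn ?_
  have p1 : (x.1 + 15 / 4 * (m - r * d.1), x.2 + 15 / 4 * (n - r * d.2)) ∈ Q := by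
    refine hb ?_
    rw [Metric.mem_ball, Prod.dist_eq, max_lt_iff, Real.dist_eq, Real.dist_eq]
    rw [abs_lt] at h1 h2
    refine ⟨abs_lt.2 ⟨?_, ?_⟩, abs_lt.2 ⟨?_, ?_⟩⟩ <;> simp only <;> linarith
  have p2 := hn (15 / 4 * r) (by positivity)
  have p3 := hc p1 p2 (a := 1 / 2) (b := 1 / 2) (by norm_num) (by norm_num) (by norm_num)
  convert p3 using 1
  ext
  · simp only [Prod.fst_add, Prod.smul_fst, smul_eq_mul]
    ring
  · simp only [Prod.snd_add, Prod.smul_snd, smul_eq_mul]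
    ring

end Pool.Agent.P.MP_65d7bf_co
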