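import Pool.Agent.P.MP_65d7bf_co.St

namespace Pool.Agent.P.MP_65d7bf_co

open Finset Matrix

namespace Normal

theorem move (ht : Transport) (T : Tet) (p p' : Fin 4 → Fin 3 → ℤ)
    (U U' : Matrix (Fin 3) (Fin 3) ℤ) (t : Fin 3 → ℤ) (hU : U * U' = 1)
    (hp : ∀ j, U *ᵥ p' j + t = p j) (h1 : Hollow T) (h2 : Wide T) (h3 : Gen T)
    (h4 : Blocked T p) : ∃ T' : Tet, Hollow T' ∧ Wide T' ∧ Gen T' ∧ Blocked T' p' := by
  obtain ⟨T', e, -, -, a1, a2, a3⟩ := ht T U U' t 1 hU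
  refine ⟨T', a1 h1, a2 h2, a3 h3, fun i => ?_, fun i j hij => ?_⟩
  · rw [e, hp]; exact h4.1 i
  · rw [e, hp]; exact h4.2 i j hij

theorem pos3 {g a b x y z : ℝ} (hg : 0 ≤ g) (ha : 0 ≤ a) (hb : 0 ≤ b) (h1 : 0 < g + a)
    (hx : 0 < x) (hy : 0 < y) (hz : 0 ≤ z) : 0 < g * x + a * y + b * z := by
  have := mul_nonneg hg hx.le
  have := mul_nonneg ha hy.le
  have := mul_nonneg hb hz
  rcases hg.lt_or_eq with h | h
  · have := mul_pos h hx; linarith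
  · have := mul_pos (show 0 < a by linarith) hy; linarith

theorem hyp (T : Tet) (p : Fin 4 → Fin 3 → ℤ) (h1 : Hollow T) (h4 : Blocked T p) (α β l : ℤ)
    (ha : 0 ≤ α) (hb : 0 ≤ β) (hs : α + β ≤ l) (hal : α < l) (hbl : β < l)
    (hd : ∀ k, l ∣ α * (p 1 - p 0) k + β * (p 2 - p 0) k) : α = 0 ∧ β = 0 := by
  by_contra hne
  have hab : 0 < α + β := by omega
  choose m hm using hd
  obtain ⟨i, hi⟩ := h1 (p 0 + m)
  have hl : (0 : ℝ) < l := by exact_mod_cast (show 0 < l by omega)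
  have hm' : ∀ k, (α : ℝ) * (p 1 k - p 0 k) + β * (p 2 k - p 0 k) = l * m k := fun k => by
    have := hm k
    simp only [Pi.sub_apply] at this
    exact_mod_cast this
  have key : (l : ℝ) * T.ev i (p 0 + m) =
      ((l : ℝ) - α - β) * T.ev i (p 0) + α * T.ev i (p 1) + β * T.ev i (p 2) := by
    simp only [Tet.ev, Fin.sum_univ_three, Pi.add_apply, Int.cast_add]
    linear_combination (-T.a i 0) * hm' 0 - T.a i 1 * hm' 1 - T.a i 2 * hm' 2
  have ha' : (0 : ℝ) ≤ α := by exact_mod_cast ha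
  have hb' : (0 : ℝ) ≤ β := by exact_mod_cast hb
  have hs' : (α : ℝ) + β ≤ l := by exact_mod_cast hs
  have hal' : (α : ℝ) < l := by exact_mod_cast hal
  have hbl' : (β : ℝ) < l := by exact_mod_cast hbl
  have hab' : (0 : ℝ) < α + β := by exact_mod_cast hab
  have hg : (0 : ℝ) ≤ l - α - β := by linarith
  have nn : ∀ j, 0 ≤ T.ev i (p j) := fun j => by
    by_cases e : i = j
    · rw [← e]; exact (h4.1 i).ge
    · exact (h4.2 i j e).le
  have hpos : 0 < ((l : ℝ) - α - β) * T.ev i (p 0) + α * T.ev i (p 1) + β * T.ev i (p 2) := by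
    by_cases e0 : i = 0
    · have := pos3 ha' hb' hg hab' (h4.2 i 1 (by rw [e0]; decide)) (h4.2 i 2 (by rw [e0]; decide))
        (nn 0)
      linarith
    · by_cases e1 : i = 1
      · have := pos3 hg hb' ha' (by linarith) (h4.2 i 0 e0) (h4.2 i 2 (by rw [e1]; decide)) (nn 1)
        linarith
      · exact pos3 hg ha' hb' (by linarith) (h4.2 i 0 e0) (h4.2 i 1 e1) (nn 2)
  have := mul_nonpos_of_nonneg_of_nonpos hl.le hi
  linarith

theorem first (ht : Transport) (h3 : Tri) (T : Tet) (p : Fin 4 → Fin 3 → ℤ) (a1 : Hollow T)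
    (a2 : Wide T) (a3 : Gen T) (a4 : Blocked T p) : ∃ (T' : Tet) (a b c : ℤ), Hollow T' ∧ Wide T' ∧
      Gen T' ∧ Blocked T' ![![0, 0, 0], ![1, 0, 0], ![0, 1, 0], ![a, b, c]] := by
  obtain ⟨x, hx⟩ := h3 (p 1 - p 0) (p 2 - p 0) (hyp T p a1 a4)
  obtain ⟨U, hU⟩ : ∃ U : Matrix (Fin 3) (Fin 3) ℤ, U =
      !![(p 1 - p 0) 0, (p 2 - p 0) 0, x 0; (p 1 - p 0) 1, (p 2 - p 0) 1, x 1;
        (p 1 - p 0) 2, (p 2 - p 0) 2, x 2] := ⟨_, rfl⟩
  have hdet : U.det = 1 := by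
    rw [hU, det_fin_three, ← hx]
    simp
    ring
  have hinv : U * U.adjugate = 1 := by rw [mul_adjugate, hdet, one_smul]
  obtain ⟨z, hz⟩ : ∃ z, z = U.adjugate *ᵥ (p 3 - p 0) := ⟨_, rfl⟩
  have hz1 : U *ᵥ z = p 3 - p 0 := by rw [hz, mulVec_mulVec, hinv, one_mulVec]
  have hz2 : ![z 0, z 1, z 2] = z := by
    funext k; fin_cases k <;> rfl
  have hp : ∀ j, U *ᵥ (![![0, 0, 0], ![1, 0, 0], ![0, 1, 0], ![z 0, z 1, z 2]] :
      Fin 4 → Fin 3 → ℤ) j + p 0 = p j := fun j => by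
    fin_cases j
    · funext k; fin_cases k <;> simp [hU]
    · funext k; fin_cases k <;> simp [hU]
    · funext k; fin_cases k <;> simp [hU]
    · show U *ᵥ ![z 0, z 1, z 2] + p 0 = p 3
      rw [hz2, hz1, sub_add_cancel]
  obtain ⟨T', h⟩ := move ht T p _ U U.adjugate (p 0) hinv hp a1 a2 a3 a4
  exact ⟨T', z 0, z 1, z 2, h⟩

end Normal

theorem normal (ht : Transport) (h3 : Tri) : Normal := by
  intro T p a1 a2 a3 a4
  obtain ⟨T, a, b, c, a1, a2, a3, a4⟩ := Normal.first ht h3 T p a1 a2 a3 a4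
  by_cases hc : c = 0
  · exact ⟨T, a, b, c, a1, a2, a3, a4, Or.inl hc⟩
  obtain ⟨s, n, hn, hs, hsn⟩ : ∃ s n : ℤ, 0 < n ∧ s * s = 1 ∧ n * s = c := by
    rcases lt_or_gt_of_ne hc with h | h
    · exact ⟨-1, -c, by omega, by norm_num, by ring⟩
    · exact ⟨1, c, h, by norm_num, by ring⟩
  have ea : a % n + n * (a / n) = a := Int.emod_add_mul_ediv a n
  have eb : b % n + n * (b / n) = b := Int.emod_add_mul_ediv b n
  have hU : (!![1, 0, a / n; 0, 1, b / n; 0, 0, s] : Matrix (Fin 3) (Fin 3) ℤ) *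
      !![1, 0, -(a / n * s); 0, 1, -(b / n * s); 0, 0, s] = 1 := by
    ext i j
    fin_cases i <;> fin_cases j <;> simp [Matrix.mul_apply, Fin.sum_univ_three, hs]
  have hp : ∀ j, (!![1, 0, a / n; 0, 1, b / n; 0, 0, s] : Matrix (Fin 3) (Fin 3) ℤ) *ᵥ
      (![![0, 0, 0], ![1, 0, 0], ![0, 1, 0], ![a % n, b % n, n]] : Fin 4 → Fin 3 → ℤ) j + 0 =
      (![![0, 0, 0], ![1, 0, 0], ![0, 1, 0], ![a, b, c]] : Fin 4 → Fin 3 → ℤ) j := fun j => by
    fin_cases j <;> funext k <;> fin_cases k <;>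
      simp [ea, eb, hsn]
  obtain ⟨T', b1, b2, b3, b4⟩ := Normal.move ht T _ _ _ _ 0 hU hp a1 a2 a3 a4
  exact ⟨T', a % n, b % n, n, b1, b2, b3, b4, Or.inr ⟨Int.emod_nonneg _ hn.ne',
    Int.emod_lt_of_pos _ hn, Int.emod_nonneg _ hn.ne', Int.emod_lt_of_pos _ hn⟩⟩

end Pool.Agent.P.MP_65d7bf_co
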