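import Pool.Agent.P.MP_65d7bf_co.Spec

namespace Pool.Agent.P.MP_65d7bf_co

namespace PreS

theorem mkRK_ok {e : Env} {d0 d1 d2 d3 k : ℕ} {t : T3} (h : Cmb e d0 d1 d2 d3 k t) (ka : ℕ)
    {r : Row} {x : X4} (hi : InT r x t) : RKok e d0 d1 d2 d3 ka (mkRK ka k r) x := by
  obtain ⟨a0, a1, a2, a3, b0, b1, b2, b3, c0, c1, c2, c3⟩ := r
  obtain ⟨x0, x1, x2, x3⟩ := x
  obtain ⟨e0, e1, e2, e3⟩ := hi
  dsimp only at e0 e1 e2 e3
  subst e0 e1 e2 e3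
  refine ⟨⟨?_, ?_, ?_⟩, h.rn a0 b0 c0, ?_⟩
  · refine (RP.nrm (h.rp a1 a0 b1 b0 c1 c0 ?_)).of_eq ?_
    · rw [pk_cast, pk_cast]; ring
    · simp only [X4.nv]; ring
  · refine (RP.nrm (h.rp a2 a0 b2 b0 c2 c0 ?_)).of_eq ?_
    · rw [pk_cast, pk_cast]; ring
    · simp only [X4.nv]; ring
  · refine (RP.nrm (h.rp a3 (Nat.add a0 (Nat.mul ka (Nat.add (Nat.add a0 a1) a2))) b3
      (Nat.add b0 (Nat.mul ka (Nat.add (Nat.add b0 b1) b2))) c3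
      (Nat.add c0 (Nat.mul ka (Nat.add (Nat.add c0 c1) c2))) ?_)).of_eq ?_
    · simp only [Nat.add_eq, Nat.mul_eq, Nat.shiftLeft_eq', Nat.shiftLeft_eq]
      push_cast
      ring
    · simp only [X4.nv, Nat.add_eq, Nat.mul_eq]
      push_cast
      ring
  · refine RN.of_eq (Rep.cast (h.rn (Nat.add (Nat.add (Nat.add a0 a1) a2) a3)
      (Nat.add (Nat.add (Nat.add b0 b1) b2) b3) (Nat.add (Nat.add (Nat.add c0 c1) c2) c3)) ?_
      le_rfl) ?_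
    · change ((_ : ℕ) : ℤ) = ((Nat.add (Nat.add (Nat.add _ _) _) _ : ℕ) : ℤ)
      simp only [Nat.add_eq, Nat.mul_eq, Nat.shiftLeft_eq', Nat.shiftLeft_eq]
      push_cast
      ring
    · simp only [X4.sig, Nat.add_eq]
      push_cast
      ring

theorem nv0 {cf : Cfg} {R : Rows} (f : Fx cf R) : R.r0.nv cf.ka =
    ⟨-((R.r1.nv cf.ka).a + (R.r2.nv cf.ka).a + (R.r3.nv cf.ka).a),
      -((R.r1.nv cf.ka).b + (R.r2.nv cf.ka).b + (R.r3.nv cf.ka).b),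
      -((R.r1.nv cf.ka).c + (R.r2.nv cf.ka).c + (R.r3.nv cf.ka).c)⟩ := by
  simp only [X4.nv, R3.mk.injEq]
  refine ⟨?_, ?_, ?_⟩
  · linear_combination f.s1 - f.s0
  · linear_combination f.s2 - f.s0
  · linear_combination f.s3 - f.s0 - cf.ka * (f.s0 + f.s1 + f.s2)

theorem sgn_not (s : Bool) : sgn (Bool.rec true false s) = -sgn s := by
  cases s
  · exact (neg_neg (1 : ℝ)).symm
  · rfl

end PreS

open PreS in
theorem preSpec : PreSpec := by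
  intro cf st R e b a hB
  have hB' : Nat.succ b = e.B := hB.symm
  have q0 := mkRK_ok (cmbs0 e) cf.ka a.i0
  have q1 := mkRK_ok (cmbs1 e) cf.ka a.i1
  have q2 := mkRK_ok (cmbs2 e) cf.ka a.i2
  have q3 := mkRK_ok (cmbs3 e) cf.ka a.i3
  rw [← hB'] at q0 q1 q2 q3
  have x01 := rq3_crs q0.1 q1.1
  have x02 := rq3_crs q0.1 q2.1
  have x03 := rq3_crs q0.1 q3.1
  have x12 := rq3_crs q1.1 q2.1
  have x13 := rq3_crs q1.1 q3.1
  have x23 := rq3_crs q2.1 q3.1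
  refine ⟨hB', fun d0 d1 d2 d3 x v h0 h1 h2 h3 h hn =>
    negQ_ok hB a.n0 a.n1 a.n2 a.n3 h0 h1 h2 h3 h hn, q0, q1, q2, q3, x01, x02, x12, ?_⟩
  intro u v i j hi hj hv
  have n0 := nv0 a.fx
  have z : ∀ {d0 d1 d2 d3 : ℕ} (w : ℝ), RQ e d0 d1 d2 d3 ⟨0, 0, 0⟩ (w - w) :=
    fun w => RP.of_eq (rp_zero e _ _ _ _) (sub_self w).symm
  have p0 : R.phi cf.ka u.re 0 = 0 := rfl
  have p1 : R.phi cf.ka u.re 1 = ((R.r2.nv cf.ka).crs (R.r3.nv cf.ka)).dot u.re := rfl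
  have p2 : R.phi cf.ka u.re 2 = -((R.r1.nv cf.ka).crs (R.r3.nv cf.ka)).dot u.re := rfl
  have p3 : R.phi cf.ka u.re 3 = ((R.r1.nv cf.ka).crs (R.r2.nv cf.ka)).dot u.re := rfl
  interval_cases i <;> interval_cases j
  · exact z _
  · refine RQ.of_eq (rq_dotU v x23) ?_
    rw [p0, p1, hv]; simp only [R3.crs, R3.dot, R3.neg]; ring
  · refine RQ.of_eq (rq_dotU u x13) ?_
    rw [p0, p2]; ring
  · refine RQ.of_eq (rq_dotU v x12) ?_
    rw [p0, p3, hv]; simp only [R3.crs, R3.dot, R3.neg]; ring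
  · refine RQ.of_eq (rq_dotU u x23) ?_
    rw [p0, p1]; ring
  · exact z _
  · refine RQ.of_eq (rq_dotU v x03) ?_
    rw [p1, p2, hv, n0]; simp only [R3.crs, R3.dot, R3.neg]; ring
  · refine RQ.of_eq (rq_dotU u x02) ?_
    rw [p1, p3, n0]; simp only [R3.crs, R3.dot]; ring
  · refine RQ.of_eq (rq_dotU v x13) ?_
    rw [p0, p2, hv]; simp only [R3.crs, R3.dot, R3.neg]; ring
  · refine RQ.of_eq (rq_dotU u x03) ?_
    rw [p1, p2, n0]; simp only [R3.crs, R3.dot]; ring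
  · exact z _
  · refine RQ.of_eq (rq_dotU v x01) ?_
    rw [p2, p3, hv, n0]; simp only [R3.crs, R3.dot, R3.neg]; ring
  · refine RQ.of_eq (rq_dotU u x12) ?_
    rw [p0, p3]; ring
  · refine RQ.of_eq (rq_dotU v x02) ?_
    rw [p1, p3, hv, n0]; simp only [R3.crs, R3.dot, R3.neg]; ring
  · refine RQ.of_eq (rq_dotU u x01) ?_
    rw [p2, p3, n0]; simp only [R3.crs, R3.dot]; ring
  · exact z _

open PreS in
theorem lfSpec : LfSpec := by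
  intro cf st R e p x a h
  have n0 := nv0 a.fx
  have d0 : RQ e 0 1 1 1 ((dot p.x12 p.q3.v).sg st.s) (sgn st.s * R.det cf.ka) :=
    (rq_dot h.x12 h.q3.1).sg st.s
  have d1 : RQ e 1 0 1 1 ((dot p.x02 p.q3.v).sg (Bool.rec true false st.s))
      (sgn st.s * R.det cf.ka) := by
    refine RQ.of_eq ((rq_dot h.x02 h.q3.1).sg _) ?_
    rw [sgn_not, n0]; simp only [Rows.det, R3.crs, R3.dot]; ring
  have d2 : RQ e 1 1 0 1 ((dot p.x01 p.q3.v).sg st.s) (sgn st.s * R.det cf.ka) := by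
    refine RQ.of_eq ((rq_dot h.x01 h.q3.1).sg _) ?_
    rw [n0]; simp only [Rows.det, R3.crs, R3.dot]; ring
  have d3 : RQ e 1 1 1 0 ((dot p.x01 p.q2.v).sg (Bool.rec true false st.s))
      (sgn st.s * R.det cf.ka) := by
    refine RQ.of_eq ((rq_dot h.x01 h.q2.1).sg _) ?_
    rw [sgn_not, n0]; simp only [Rows.det, R3.crs, R3.dot]; ring
  have pos : ∀ (n : ℕ) {w : ℝ}, 0 < w → 0 < ((Nat.succ n : ℕ) : ℝ) * w :=
    fun n _ hw => mul_pos (Nat.cast_pos.2 n.succ_pos) hw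
  have w0 := h.q0.2.2.cmul (Nat.succ (Nat.land (Nat.shiftRight x 0) 255))
  have w1 := h.q1.2.2.cmul (Nat.succ (Nat.land (Nat.shiftRight x 8) 255))
  have w2 := h.q2.2.2.cmul (Nat.succ (Nat.land (Nat.shiftRight x 16) 255))
  have w3 := h.q3.2.2.cmul (Nat.succ (Nat.land (Nat.shiftRight x 24) 255))
  refine ⟨h, d0, d1, d2, d3, ?_, ⟨_, _, _, _, pos _ a.fx.p0, pos _ a.fx.p1, pos _ a.fx.p2,
    pos _ a.fx.p3, w0, w1, w2, w3, d0.muln w0, d1.muln w1, d2.muln w2, d3.muln w3⟩,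
    ((h.q0.2.2.mul h.q1.2.2).mul h.q2.2.2).mul h.q3.2.2⟩
  refine RQ.of_eq (rq_sum4 (d0 := 1) (d1 := 1) (d2 := 1) (d3 := 1) (d0.muln h.q0.2.1)
    (d1.muln h.q1.2.1) (d2.muln h.q2.2.1) (d3.muln h.q3.2.1)) ?_
  linear_combination (sgn st.s * R.det cf.ka) * a.fx.s0

end Pool.Agent.P.MP_65d7bf_co
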