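import Pool.Agent.P.MP_65d7bf_co.St

/-! Pushing the facets outwards until each of them is blocked. -/

namespace Pool.Agent.P.MP_65d7bf_co

namespace Push

theorem step {X : Type} {n : ℕ} {f : Fin n → X → ℝ}
    (hfin : ∀ t : ℝ, {x | ∀ j, -t < f j x}.Finite) (hne : ∀ i, ∃ x, ∀ j, j ≠ i → 0 < f j x)
    {c : Fin n → ℝ} (hc : ∀ j, 0 ≤ c j) (i : Fin n) :
    ∃ p, (∀ j, j ≠ i → 0 < f j p + c j) ∧
      ∀ x, (∀ j, j ≠ i → 0 < f j x + c j) → f i x ≤ f i p := by
  obtain ⟨x0, h0⟩ := hne i
  have hS : {x | (∀ j, j ≠ i → 0 < f j x + c j) ∧ f i x0 ≤ f i x}.Finite := by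
    refine (hfin (∑ j, c j + |f i x0| + 1)).subset fun x hx j => ?_
    have h1 : c j ≤ ∑ j, c j := Finset.single_le_sum (fun k _ => hc k) (Finset.mem_univ j)
    have h2 := neg_abs_le (f i x0)
    have h3 := abs_nonneg (f i x0)
    have h4 := hc j
    by_cases h : j = i
    · rw [h] at h1 h4 ⊢
      linarith [hx.2]
    · linarith [hx.1 j h]
  obtain ⟨p, hp, hm⟩ := Set.exists_max_image _ (f i) hS
    ⟨x0, fun j hj => add_pos_of_pos_of_nonneg (h0 j hj) (hc j), le_rfl⟩
  refine ⟨p, hp.1, fun x hx => ?_⟩
  by_cases h : f i x0 ≤ f i x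
  · exact hm x ⟨hx, h⟩
  · exact (not_le.mp h).le.trans hp.2

end Push

theorem push : Push := by
  intro X n f hfin hhol hne
  have key : ∀ s : Finset (Fin n), ∃ c : Fin n → ℝ, (∀ j, 0 ≤ c j) ∧ (∀ x, ∃ j, f j x + c j ≤ 0) ∧
      ∀ i ∈ s, ∃ p, f i p + c i = 0 ∧ ∀ j, j ≠ i → 0 < f j p + c j := by
    intro s
    induction s using Finset.induction_on with
    | empty => exact ⟨0, fun _ => le_rfl, fun x => by simpa using hhol x, by simp⟩
    | insert i s _ ih =>
      obtain ⟨c, hc, hh, hs⟩ := ih
      obtain ⟨p, hp, hm⟩ := Push.step hfin hne hc i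
      have h1 : c i ≤ -f i p := by
        obtain ⟨j, hj⟩ := hh p
        by_cases h : j = i
        · rw [h] at hj
          linarith
        · linarith [hp j h]
      have h2 : ∀ j, c j ≤ Function.update c i (-f i p) j := fun j => by
        by_cases h : j = i
        · rw [h, Function.update_self]
          exact h1
        · rw [Function.update_of_ne h]
      refine ⟨Function.update c i (-f i p), fun j => (hc j).trans (h2 j), fun x => ?_, fun m hm' => ?_⟩
      · by_contra h
        simp only [not_exists, not_le] at h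
        have h3 := hm x fun j hj => by simpa [Function.update_of_ne hj] using h j
        have h4 := h i
        rw [Function.update_self] at h4
        linarith
      · by_cases h : m = i
        · refine ⟨p, by rw [h, Function.update_self, add_neg_cancel], fun j hj => ?_⟩
          rw [h] at hj
          rw [Function.update_of_ne hj]
          exact hp j hj
        · obtain ⟨q, hq, hq'⟩ := hs m ((Finset.mem_insert.mp hm').resolve_left h)
          exact ⟨q, by rw [Function.update_of_ne h, hq], fun j hj => by linarith [hq' j hj, h2 j]⟩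
  obtain ⟨c, hc, hh, hs⟩ := key Finset.univ
  choose p hp hp' using fun i => hs i (Finset.mem_univ i)
  exact ⟨c, p, hc, hh, hp, fun i j h => hp' j i h⟩

end Pool.Agent.P.MP_65d7bf_co
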