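import Pool.Agent.P.MP_65d7bf_co.St

namespace Pool.Agent.P.MP_65d7bf_co

open Finset

namespace Reduce2

theorem wide_mono {Q Q' : Set (ℝ × ℝ)} (h : Wide2 Q) (hs : Q ⊆ Q') : Wide2 Q' := by
  intro m n hmn
  obtain ⟨x, hx, y, hy, h1⟩ := h m n hmn
  exact ⟨x, hs hx, y, hs hy, h1⟩

theorem pol_convex {n : ℕ} (a b c : Fin n → ℝ) : Convex ℝ (Pol a b c) := by
  intro x hx y hy s t hs ht hst i
  have h1 := hx i
  have h2 := hy i
  have e : a i * (s • x + t • y).1 + b i * (s • x + t • y).2 + c i =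
      s * (a i * x.1 + b i * x.2 + c i) + t * (a i * y.1 + b i * y.2 + c i) := by
    have : c i = (s + t) * c i := by rw [hst, one_mul]
    simp only [Prod.fst_add, Prod.snd_add, Prod.smul_fst, Prod.smul_snd, smul_eq_mul]
    linear_combination this
  rw [e]
  rcases hs.eq_or_lt with rfl | hs
  · rw [zero_add] at hst
    rw [hst]
    linarith
  · have := mul_pos hs h1
    have := mul_nonneg ht h2.le
    linarith

theorem pol_open {n : ℕ} (a b c : Fin n → ℝ) : IsOpen (Pol a b c) := by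
  have : Pol a b c = ⋂ i, {x : ℝ × ℝ | 0 < a i * x.1 + b i * x.2 + c i} := by
    ext x; simp [Pol]
  rw [this]
  exact isOpen_iInter_of_finite fun i => isOpen_lt continuous_const (by fun_prop)

theorem family {K : Set (ℝ × ℝ)} (hc : Convex ℝ K) (ho : IsOpen K) (hb : Bornology.IsBounded K)
    (hf : Free2 K) : ∃ (n : ℕ) (a b c : Fin n → ℝ), K ⊆ Pol a b c ∧ Free2 (Pol a b c) := by
  obtain ⟨R0, hR0⟩ := hb.exists_norm_le
  obtain ⟨R, hR⟩ := exists_nat_gt R0
  have hsep : ∀ z : ℤ × ℤ, ∃ u : ℝ × ℝ × ℝ, (∀ x ∈ K, 0 < u.1 * x.1 + u.2.1 * x.2 + u.2.2) ∧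
      u.1 * z.1 + u.2.1 * z.2 + u.2.2 = 0 := by
    intro z
    obtain ⟨f, hf⟩ := geometric_hahn_banach_open_point hc ho (hf z.1 z.2)
    have e : ∀ x : ℝ × ℝ, f x = f (1, 0) * x.1 + f (0, 1) * x.2 := by
      intro x
      have : x = x.1 • ((1 : ℝ), (0 : ℝ)) + x.2 • ((0 : ℝ), (1 : ℝ)) := by ext <;> simp
      conv_lhs => rw [this]
      rw [map_add, map_smul, map_smul, smul_eq_mul, smul_eq_mul]
      ring
    refine ⟨(-f (1, 0), -f (0, 1), f ((z.1 : ℝ), (z.2 : ℝ))), fun x hx => ?_, ?_⟩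
    · have := hf x hx
      rw [e x] at this
      simp only
      linarith
    · have := e ((z.1 : ℝ), (z.2 : ℝ))
      simp only at this ⊢
      linarith
  choose u hu1 hu2 using hsep
  let s : Finset (ℝ × ℝ × ℝ) :=
    ((Icc (-(R : ℤ)) R ×ˢ Icc (-(R : ℤ)) R).image u) ∪
      {(1, 0, (R : ℝ)), (-1, 0, (R : ℝ)), (0, 1, (R : ℝ)), (0, -1, (R : ℝ))}
  let e := s.equivFin
  refine ⟨s.card, fun i => (e.symm i).1.1, fun i => (e.symm i).1.2.1, fun i => (e.symm i).1.2.2,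
    fun x hx i => ?_, fun m n h => ?_⟩
  · have h1 := abs_lt.1 (((norm_fst_le x).trans (hR0 x hx)).trans_lt hR)
    have h2 := abs_lt.1 (((norm_snd_le x).trans (hR0 x hx)).trans_lt hR)
    beta_reduce
    generalize e.symm i = w0
    obtain ⟨w, hw⟩ := w0
    simp only [s, mem_union, mem_image, mem_insert, mem_singleton] at hw
    rcases hw with ⟨z, -, rfl⟩ | rfl | rfl | rfl | rfl
    · exact hu1 z x hx
    all_goals simp only; linarith [h1.1, h1.2, h2.1, h2.2]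
  · have h1 : ∀ w ∈ s, 0 < w.1 * m + w.2.1 * n + w.2.2 := fun w hw => by
      simpa using h (e ⟨w, hw⟩)
    have a1 := h1 (1, 0, (R : ℝ)) (by simp [s])
    have a2 := h1 (-1, 0, (R : ℝ)) (by simp [s])
    have a3 := h1 (0, 1, (R : ℝ)) (by simp [s])
    have a4 := h1 (0, -1, (R : ℝ)) (by simp [s])
    simp only at a1 a2 a3 a4
    have b1 : -(R : ℤ) ≤ m := by exact_mod_cast (by linarith : -(R : ℝ) ≤ m)
    have b2 : m ≤ (R : ℤ) := by exact_mod_cast (by linarith : (m : ℝ) ≤ R)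
    have b3 : -(R : ℤ) ≤ n := by exact_mod_cast (by linarith : -(R : ℝ) ≤ n)
    have b4 : n ≤ (R : ℤ) := by exact_mod_cast (by linarith : (n : ℝ) ≤ R)
    have := h1 (u (m, n)) (mem_union_left _ (mem_image_of_mem _ (by simp [b1, b2, b3, b4])))
    exact this.ne' (hu2 (m, n))

theorem neg_dir (hr : NoRay) {n : ℕ} {a b c : Fin n → ℝ} (hf : Free2 (Pol a b c))
    (hw : Wide2 (Pol a b c)) (d : ℝ × ℝ) (hd : d ≠ 0) : ∃ j, a j * d.1 + b j * d.2 < 0 := by
  obtain ⟨x, hx, -⟩ := hw 1 0 (Or.inl one_ne_zero)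
  obtain ⟨t, ht, h⟩ := hr _ (pol_convex a b c) (pol_open a b c) hf hw x hx d hd
  by_contra h1
  push Not at h1
  refine h fun i => ?_
  have h2 := hx i
  have h3 := mul_nonneg ht (h1 i)
  simp only [Prod.fst_add, Prod.snd_add, Prod.smul_fst, Prod.smul_snd, smul_eq_mul]
  linarith

theorem finite_of {n : ℕ} {a b : Fin n → ℝ} (c : Fin n → ℝ)
    (h : ∀ d : ℝ × ℝ, d ≠ 0 → ∃ j, a j * d.1 + b j * d.2 < 0) (t : ℝ) :
    {z : ℤ × ℤ | ∀ j, -t < a j * z.1 + b j * z.2 + c j}.Finite := by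
  let g : ℝ × ℝ → ℝ := fun d => ∑ j, max 0 (-(a j * d.1 + b j * d.2))
  have hg : Continuous g := by fun_prop
  obtain ⟨d0, hd0, hmin⟩ := (isCompact_sphere (0 : ℝ × ℝ) 1).exists_isMinOn
    ⟨(1, 0), by simp⟩ hg.continuousOn
  have hpos : 0 < g d0 := by
    obtain ⟨j, hj⟩ := h d0 (by rintro rfl; simp at hd0)
    exact sum_pos' (fun _ _ => le_max_left _ _) ⟨j, mem_univ _, lt_max_of_lt_right (by linarith)⟩
  have hhom : ∀ d : ℝ × ℝ, g d0 * ‖d‖ ≤ g d := by
    intro d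
    rcases eq_or_ne d 0 with rfl | hd
    · simp [g]
    have hn : 0 < ‖d‖ := norm_pos_iff.2 hd
    have h1 : g d0 ≤ g (‖d‖⁻¹ • d) := hmin (by simp [norm_smul, hn.ne'])
    have h2 : g (‖d‖⁻¹ • d) * ‖d‖ = g d := by
      simp only [g, sum_mul]
      refine sum_congr rfl fun j _ => ?_
      rw [max_mul_of_nonneg _ _ hn.le, zero_mul]
      congr 1
      simp only [Prod.smul_fst, Prod.smul_snd, smul_eq_mul]
      field_simp
    rw [← h2]
    exact mul_le_mul_of_nonneg_right h1 hn.le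
  obtain ⟨R, hR⟩ := exists_nat_gt ((∑ j, |t + c j|) / g d0)
  refine (Set.Finite.prod (Set.finite_Icc (-(R : ℤ)) R) (Set.finite_Icc (-(R : ℤ)) R)).subset
    fun z hz => ?_
  have h1 : g ((z.1 : ℝ), (z.2 : ℝ)) ≤ ∑ j, |t + c j| := sum_le_sum fun j _ =>
    max_le (abs_nonneg _) (by have := hz j; have := le_abs_self (t + c j); simp only; linarith)
  have h2 : ‖((z.1 : ℝ), (z.2 : ℝ))‖ < R := by
    refine lt_of_le_of_lt ?_ hR
    rw [le_div_iff₀ hpos, mul_comm]
    exact (hhom _).trans h1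
  have h3 := abs_lt.1 ((norm_fst_le ((z.1 : ℝ), (z.2 : ℝ))).trans_lt h2)
  have h4 := abs_lt.1 ((norm_snd_le ((z.1 : ℝ), (z.2 : ℝ))).trans_lt h2)
  simp only at h3 h4
  exact ⟨⟨by exact_mod_cast h3.1.le, by exact_mod_cast h3.2.le⟩,
    ⟨by exact_mod_cast h4.1.le, by exact_mod_cast h4.2.le⟩⟩

theorem two_dir (a b a' b' : ℝ) :
    ∃ d : ℝ × ℝ, d ≠ 0 ∧ 0 ≤ a * d.1 + b * d.2 ∧ 0 ≤ a' * d.1 + b' * d.2 := by
  by_cases h : a = 0 ∧ b = 0
  · obtain ⟨rfl, rfl⟩ := h
    rcases le_total 0 a' with h | h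
    · exact ⟨(1, 0), by simp, by simp, by simpa using h⟩
    · exact ⟨(-1, 0), by simp, by simp, by simpa using h⟩
  · rcases le_total 0 (a' * (-b) + b' * a) with h1 | h1
    · refine ⟨(-b, a), fun h0 => h ?_, by simp only; linarith, h1⟩
      simpa [and_comm] using h0
    · refine ⟨(b, -a), fun h0 => h ?_, by simp only; linarith, by simp only; linarith⟩
      simpa [and_comm] using h0

theorem three_le {n : ℕ} {a b : Fin n → ℝ}
    (h : ∀ d : ℝ × ℝ, d ≠ 0 → ∃ j, a j * d.1 + b j * d.2 < 0) : 3 ≤ n := by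
  by_contra hn
  obtain rfl | rfl | rfl : n = 0 ∨ n = 1 ∨ n = 2 := by omega
  · obtain ⟨j, -⟩ := h (1, 0) (by simp)
    exact j.elim0
  · obtain ⟨d, hd, h1, -⟩ := two_dir (a 0) (b 0) 0 0
    obtain ⟨j, hj⟩ := h d hd
    rw [Subsingleton.elim j 0] at hj
    linarith
  · obtain ⟨d, hd, h1, h2⟩ := two_dir (a 0) (b 0) (a 1) (b 1)
    obtain ⟨j, hj⟩ := h d hd
    fin_cases j
    · exact absurd hj (not_lt.2 h1)
    · exact absurd hj (not_lt.2 h2)

theorem le_four {n : ℕ} {a b c : Fin n → ℝ} {p q : Fin n → ℤ} (hf : Free2 (Pol a b c))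
    (hb : Blocked2 a b c p q) : n ≤ 4 := by
  by_contra hn
  obtain ⟨i, j, hij, h⟩ := Fintype.exists_ne_map_eq_of_card_lt
    (fun i => (((p i : ℤ) : ZMod 2), ((q i : ℤ) : ZMod 2))) (by simp; omega)
  obtain ⟨h1, h2⟩ := Prod.mk.inj h
  obtain ⟨u, hu⟩ := (ZMod.intCast_eq_intCast_iff_dvd_sub _ _ 2).1 h1
  obtain ⟨v, hv⟩ := (ZMod.intCast_eq_intCast_iff_dvd_sub _ _ 2).1 h2
  have hu' : (p j : ℝ) - p i = 2 * u := by exact_mod_cast hu
  have hv' : (q j : ℝ) - q i = 2 * v := by exact_mod_cast hv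
  refine hf (p i + u) (q i + v) fun k => ?_
  have e : a k * ((p i + u : ℤ) : ℝ) + b k * ((q i + v : ℤ) : ℝ) + c k =
      ((a k * p i + b k * q i + c k) + (a k * p j + b k * q j + c k)) / 2 := by
    push_cast
    linear_combination (-a k / 2) * hu' + (-b k / 2) * hv'
  simp only
  rw [e]
  rcases eq_or_ne k i with rfl | h3
  · have := hb.1 k
    have := hb.2 k j hij
    linarith
  · have := hb.2 k i h3
    rcases eq_or_ne k j with rfl | h4
    · have := hb.1 k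
      linarith
    · have := hb.2 k j h4
      linarith

end Reduce2

open Reduce2 in
theorem reduce2 (hp : Push) (hr : NoRay) : Reduce2 := by
  classical
  intro K hc ho hb hf hw
  have hex : ∃ n : ℕ, ∃ a b c : Fin n → ℝ, Free2 (Pol a b c) ∧ Wide2 (Pol a b c) := by
    obtain ⟨n, a, b, c, h1, h2⟩ := family hc ho hb hf
    exact ⟨n, a, b, c, h2, wide_mono hw h1⟩
  obtain ⟨a, b, c, hf', hw'⟩ := Nat.find_spec hex
  have hmin := fun m => Nat.find_min hex (m := m)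
  generalize Nat.find hex = n at a b c hf' hw' hmin
  have hneg := neg_dir hr hf' hw'
  have h3 := three_le hneg
  obtain ⟨c', p, h1, h2, h4, h5⟩ := hp (ℤ × ℤ) n (fun j z => a j * z.1 + b j * z.2 + c j)
    (finite_of c hneg) (fun z => by
      by_contra h
      push Not at h
      exact hf' z.1 z.2 h) (fun i => by
      obtain ⟨m, rfl⟩ : ∃ m, n = m + 1 := ⟨n - 1, by omega⟩
      by_contra h
      refine hmin m (Nat.lt_succ_self m) ⟨a ∘ i.succAbove, b ∘ i.succAbove, c ∘ i.succAbove,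
        fun x y hxy => h ⟨(x, y), fun j hj => ?_⟩, wide_mono hw' fun x hx j => hx _⟩
      obtain ⟨k, rfl⟩ := Fin.exists_succAbove_eq hj
      exact hxy k)
  have hf2 : Free2 (Pol a b fun j => c j + c' j) := by
    intro x y hxy
    obtain ⟨j, hj⟩ := h2 (x, y)
    have := hxy j
    simp only at hj this
    linarith
  have hb2 : Blocked2 a b (fun j => c j + c' j) (fun i => (p i).1) fun i => (p i).2 :=
    ⟨fun i => by have := h4 i; simp only at this ⊢; linarith,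
      fun i j hij => by have := h5 i j hij; simp only at this ⊢; linarith⟩
  have h6 := le_four hf2 hb2
  refine ⟨n, a, b, _, _, _, by omega, hf2, wide_mono hw' fun x hx j => ?_, hb2⟩
  have := hx j
  have := h1 j
  simp only
  linarith

end Pool.Agent.P.MP_65d7bf_co
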