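import Pool.Agent.P.MP_65d7bf_co.Spec

namespace Pool.Agent.P.MP_65d7bf_co

namespace SplitS

theorem band {X c : Bool} (h : (Bool.rec false X c : Bool) = true) : c = true ∧ X = true := by
  cases c
  · exact absurd h Bool.false_ne_true
  · exact ⟨rfl, h⟩

theorem wts {p q m n G : ℝ} (hp : 0 ≤ p) (hq : 0 ≤ q) (hm : 0 < m) (hn : 0 < n) (hG : 0 ≤ G) :
    (∃ p' q', 0 ≤ p' ∧ 0 ≤ q' ∧ ∀ a b Q, m * a + n * b = G * Q →
      p * a + q * b = p' * a + q' * Q) ∨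
    ∃ p' q', 0 ≤ p' ∧ 0 ≤ q' ∧ ∀ a b Q, m * a + n * b = G * Q →
      p * a + q * b = p' * Q + q' * b := by
  rcases le_total (q * m) (p * n) with h | h
  · refine Or.inl ⟨(p * n - q * m) / n, q * G / n, div_nonneg (sub_nonneg.2 h) hn.le,
      by positivity, fun a b Q e => ?_⟩
    field_simp
    linear_combination q * e
  · refine Or.inr ⟨p * G / m, (q * m - p * n) / m, by positivity,
      div_nonneg (sub_nonneg.2 h) hm.le, fun a b Q e => ?_⟩
    field_simp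
    linear_combination p * e

theorem cast_div {m a n b G : ℕ} (h : G ∣ Nat.add (Nat.mul m a) (Nat.mul n b)) :
    (m : ℝ) * a + n * b = G * (Nat.div (Nat.add (Nat.mul m a) (Nat.mul n b)) G : ℕ) := by
  have h1 : G * (Nat.div (Nat.add (Nat.mul m a) (Nat.mul n b)) G) = m * a + n * b :=
    Nat.mul_div_cancel' h
  exact_mod_cast h1.symm

theorem red_ok {m n a0 a1 a2 a3 b0 b1 b2 b3 : ℕ} {F : ℕ → ℕ → ℕ → ℕ → Bool}
    (h : red (Nat.add (Nat.mul m a0) (Nat.mul n b0)) (Nat.add (Nat.mul m a1) (Nat.mul n b1))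
      (Nat.add (Nat.mul m a2) (Nat.mul n b2)) (Nat.add (Nat.mul m a3) (Nat.mul n b3)) F = true) :
    ∃ G q0 q1 q2 q3 : ℕ, (m : ℝ) * a0 + n * b0 = G * q0 ∧ (m : ℝ) * a1 + n * b1 = G * q1 ∧
      (m : ℝ) * a2 + n * b2 = G * q2 ∧ (m : ℝ) * a3 + n * b3 = G * q3 ∧ F q0 q1 q2 q3 = true :=
  ⟨_, _, _, _, _, cast_div ((Nat.gcd_dvd_left _ _).trans (Nat.gcd_dvd_left _ _)),
    cast_div ((Nat.gcd_dvd_left _ _).trans (Nat.gcd_dvd_right _ _)),
    cast_div ((Nat.gcd_dvd_right _ _).trans (Nat.gcd_dvd_left _ _)),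
    cast_div ((Nat.gcd_dvd_right _ _).trans (Nat.gcd_dvd_right _ _)), h⟩

theorem splitR_ok {r : Row} {e m n : ℕ} {f g : Row → Bool} {x : X4} (hm : 0 < m) (hn : 0 < n)
    (h : splitR r e m n f g = true) (i : InR r x) :
    ∃ r', InR r' x ∧ (f r' = true ∨ g r' = true) := by
  obtain ⟨a0, a1, a2, a3, b0, b1, b2, b3, c0, c1, c2, c3⟩ := r
  obtain ⟨⟨p, q, r⟩, ⟨hp, hq, hr⟩, i0, i1, i2, i3⟩ := i
  have hm' : (0 : ℝ) < m := Nat.cast_pos.2 hm
  have hn' : (0 : ℝ) < n := Nat.cast_pos.2 hn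
  dsimp only at hp hq hr i0 i1 i2 i3
  unfold splitR at h
  cases h0 : Nat.beq e 0 <;> rw [h0] at h
  · cases h1 : Nat.beq e 1 <;> rw [h1] at h
    · obtain ⟨G, q0, q1, q2, q3, e0, e1, e2, e3, h⟩ := red_ok h
      obtain ⟨hf, hg⟩ := band h
      rcases wts hq hr hm' hn' (Nat.cast_nonneg G) with ⟨u, v, hu, hv, w⟩ | ⟨u, v, hu, hv, w⟩
      · exact ⟨_, ⟨⟨p, u, v⟩, ⟨hp, hu, hv⟩, by linear_combination i0 + w _ _ _ e0,
          by linear_combination i1 + w _ _ _ e1, by linear_combination i2 + w _ _ _ e2,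
          by linear_combination i3 + w _ _ _ e3⟩, Or.inl hf⟩
      · exact ⟨_, ⟨⟨p, u, v⟩, ⟨hp, hu, hv⟩, by linear_combination i0 + w _ _ _ e0,
          by linear_combination i1 + w _ _ _ e1, by linear_combination i2 + w _ _ _ e2,
          by linear_combination i3 + w _ _ _ e3⟩, Or.inr hg⟩
    · obtain ⟨G, q0, q1, q2, q3, e0, e1, e2, e3, h⟩ := red_ok h
      obtain ⟨hf, hg⟩ := band h
      rcases wts hp hr hm' hn' (Nat.cast_nonneg G) with ⟨u, v, hu, hv, w⟩ | ⟨u, v, hu, hv, w⟩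
      · exact ⟨_, ⟨⟨u, q, v⟩, ⟨hu, hq, hv⟩, by linear_combination i0 + w _ _ _ e0,
          by linear_combination i1 + w _ _ _ e1, by linear_combination i2 + w _ _ _ e2,
          by linear_combination i3 + w _ _ _ e3⟩, Or.inl hf⟩
      · exact ⟨_, ⟨⟨u, q, v⟩, ⟨hu, hq, hv⟩, by linear_combination i0 + w _ _ _ e0,
          by linear_combination i1 + w _ _ _ e1, by linear_combination i2 + w _ _ _ e2,
          by linear_combination i3 + w _ _ _ e3⟩, Or.inr hg⟩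
  · obtain ⟨G, q0, q1, q2, q3, e0, e1, e2, e3, h⟩ := red_ok h
    obtain ⟨hf, hg⟩ := band h
    rcases wts hp hq hm' hn' (Nat.cast_nonneg G) with ⟨u, v, hu, hv, w⟩ | ⟨u, v, hu, hv, w⟩
    · exact ⟨_, ⟨⟨u, v, r⟩, ⟨hu, hv, hr⟩, by linear_combination i0 + w _ _ _ e0,
        by linear_combination i1 + w _ _ _ e1, by linear_combination i2 + w _ _ _ e2,
        by linear_combination i3 + w _ _ _ e3⟩, Or.inl hf⟩
    · exact ⟨_, ⟨⟨u, v, r⟩, ⟨hu, hv, hr⟩, by linear_combination i0 + w _ _ _ e0,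
        by linear_combination i1 + w _ _ _ e1, by linear_combination i2 + w _ _ _ e2,
        by linear_combination i3 + w _ _ _ e3⟩, Or.inr hg⟩

theorem sel_true {i : ℕ} {a b c d : Bool} (h : sel i a b c d = true) :
    a = true ∨ b = true ∨ c = true ∨ d = true := by
  unfold sel at h
  cases h1 : Nat.ble i 1 <;> rw [h1] at h
  · cases h2 : Nat.beq i 2 <;> rw [h2] at h
    exacts [Or.inr (Or.inr (Or.inr h)), Or.inr (Or.inr (Or.inl h))]
  · cases h2 : Nat.beq i 0 <;> rw [h2] at h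
    exacts [Or.inr (Or.inl h), Or.inl h]

theorem row_eq {x y : Row} (h : x.eq y = true) : x = y := by
  obtain ⟨a0, h⟩ := band h
  obtain ⟨a1, h⟩ := band h
  obtain ⟨a2, h⟩ := band h
  obtain ⟨a3, h⟩ := band h
  obtain ⟨b0, h⟩ := band h
  obtain ⟨b1, h⟩ := band h
  obtain ⟨b2, h⟩ := band h
  obtain ⟨b3, h⟩ := band h
  obtain ⟨c0, h⟩ := band h
  obtain ⟨c1, h⟩ := band h
  obtain ⟨c2, h⟩ := band h
  obtain ⟨c3, -⟩ := band h
  cases x; cases y
  congr 1 <;> apply Nat.eq_of_beq_eq_true <;> assumption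

theorem eqL_ok (x : List ℕ) : ∀ y, eqL x y = true → x = y := by
  induction x with
  | nil =>
    intro y h
    cases y with
    | nil => rfl
    | cons b t => exact absurd h Bool.false_ne_true
  | cons a s ih =>
    intro y h
    cases y with
    | nil => exact absurd h Bool.false_ne_true
    | cons b t =>
      obtain ⟨h1, h2⟩ := band h
      rw [Nat.eq_of_beq_eq_true h1, ih t h2]

theorem st_eq {x y : St} (h : x.eq y = true) : x = y := by
  obtain ⟨s, r0, r1, r2, r3, c⟩ := x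
  obtain ⟨s', r0', r1', r2', r3', c'⟩ := y
  obtain ⟨a0, h⟩ := band h
  obtain ⟨a1, h⟩ := band h
  obtain ⟨a2, h⟩ := band h
  obtain ⟨a3, h⟩ := band h
  obtain ⟨a4, h⟩ := band h
  obtain rfl : r0 = r0' := row_eq a0
  obtain rfl : r1 = r1' := row_eq a1
  obtain rfl : r2 = r2' := row_eq a2
  obtain rfl : r3 = r3' := row_eq a3
  obtain rfl : c = c' := eqL_ok _ _ a4
  cases s <;> cases s'
  · rfl
  · exact absurd h Bool.false_ne_true
  · exact absurd h Bool.false_ne_true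
  · rfl

end SplitS

open SplitS in
theorem splitSpec : SplitSpec := by
  rintro ⟨s, r0, r1, r2, r3, ctx⟩ x f g R h ⟨i0, i1, i2, i3⟩
  rcases sel_true h with h | h | h | h
  · obtain ⟨r, a, b⟩ := splitR_ok (Nat.succ_pos _) (Nat.succ_pos _) h i0
    exact ⟨⟨s, r, r1, r2, r3, ctx⟩, rfl, rfl, ⟨a, i1, i2, i3⟩, b⟩
  · obtain ⟨r, a, b⟩ := splitR_ok (Nat.succ_pos _) (Nat.succ_pos _) h i1
    exact ⟨⟨s, r0, r, r2, r3, ctx⟩, rfl, rfl, ⟨i0, a, i2, i3⟩, b⟩
  · obtain ⟨r, a, b⟩ := splitR_ok (Nat.succ_pos _) (Nat.succ_pos _) h i2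
    exact ⟨⟨s, r0, r1, r, r3, ctx⟩, rfl, rfl, ⟨i0, i1, a, i3⟩, b⟩
  · obtain ⟨r, a, b⟩ := splitR_ok (Nat.succ_pos _) (Nat.succ_pos _) h i3
    exact ⟨⟨s, r0, r1, r2, r, ctx⟩, rfl, rfl, ⟨i0, i1, i2, a⟩, b⟩

open SplitS in
theorem nthSpec : NthSpec := by
  intro cf kn st
  induction kn with
  | nil => exact fun k _ h => absurd h Bool.false_ne_true
  | cons a kn ih =>
    intro k hA h
    change (Bool.rec (nth kn st (Nat.pred k)) (a.eq st) (Nat.beq k 0) : Bool) = true at h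
    cases h0 : Nat.beq k 0 <;> rw [h0] at h
    · exact ih _ hA.2 h
    · exact st_eq h ▸ hA.1

end Pool.Agent.P.MP_65d7bf_co
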