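import Pool.Agent.P.MP_65d7bf_co.St

namespace Pool.Agent.P.MP_65d7bf_co

open Finset Matrix

namespace Square

theorem nonneg {T : Tet} {p : Fin 4 → Fin 3 → ℤ} (hb : Blocked T p) (i j : Fin 4) :
    0 ≤ T.ev i (p j) := by
  by_cases h : i = j
  · rw [← h, hb.1]
  · exact (hb.2 i j h).le

theorem pos {T : Tet} {p : Fin 4 → Fin 3 → ℤ} (hb : Blocked T p) (i : Fin 4) {j k : Fin 4}
    (hjk : j ≠ k) {s t : ℝ} (hs : 0 < s) (ht : 0 < t) :
    0 < s * T.ev i (p j) + t * T.ev i (p k) := by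
  by_cases h : i = j
  · have := mul_pos ht (hb.2 i k (h ▸ hjk))
    have := mul_nonneg hs.le (nonneg hb i j)
    linarith
  · have := mul_pos hs (hb.2 i j h)
    have := mul_nonneg ht.le (nonneg hb i k)
    linarith

theorem unit (h3 : Tri) {T : Tet} {p : Fin 4 → Fin 3 → ℤ} (hh : Hollow T) (hb : Blocked T p)
    {i0 i1 i2 : Fin 4} (h01 : i0 ≠ i1) (h02 : i0 ≠ i2) (h12 : i1 ≠ i2) :
    ∃ x : Fin 3 → ℤ, ((p i1 - p i0) 1 * (p i2 - p i0) 2 - (p i1 - p i0) 2 * (p i2 - p i0) 1) * x 0 +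
      ((p i1 - p i0) 2 * (p i2 - p i0) 0 - (p i1 - p i0) 0 * (p i2 - p i0) 2) * x 1 +
      ((p i1 - p i0) 0 * (p i2 - p i0) 1 - (p i1 - p i0) 1 * (p i2 - p i0) 0) * x 2 = 1 := by
  refine h3 _ _ fun α β l ha hb' hl hal hbl hd => ?_
  by_contra hne
  choose c hc using hd
  obtain ⟨i, hi⟩ := hh (p i0 + c)
  have hc' : ∀ k, (α : ℝ) * (p i1 k - p i0 k) + β * (p i2 k - p i0 k) = l * c k := fun k => by
    exact_mod_cast hc k
  have e : (l : ℝ) * T.ev i (p i0 + c) = ((l - α - β : ℤ) : ℝ) * T.ev i (p i0) +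
      α * T.ev i (p i1) + β * T.ev i (p i2) := by
    simp only [Tet.ev, Fin.sum_univ_three, Pi.add_apply]
    push_cast
    linear_combination (-T.a i 0) * hc' 0 - T.a i 1 * hc' 1 - T.a i 2 * hc' 2
  have hl0 : (0 : ℝ) ≤ l := by exact_mod_cast (by omega : (0 : ℤ) ≤ l)
  have h0 := mul_nonneg hl0 (neg_nonneg.2 hi)
  have n0 := mul_nonneg (show (0 : ℝ) ≤ ((l - α - β : ℤ) : ℝ) by
    exact_mod_cast (by omega : (0 : ℤ) ≤ l - α - β)) (nonneg hb i i0)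
  have n1 := mul_nonneg (show (0 : ℝ) ≤ α by exact_mod_cast ha) (nonneg hb i i1)
  have n2 := mul_nonneg (show (0 : ℝ) ≤ β by exact_mod_cast hb') (nonneg hb i i2)
  have cases : (0 < α ∧ 0 < β) ∨ (0 < l - α - β ∧ 0 < α) ∨ (0 < l - α - β ∧ 0 < β) := by omega
  rcases cases with ⟨h1, h2⟩ | ⟨h1, h2⟩ | ⟨h1, h2⟩
  · have := pos hb i h12 (Int.cast_pos.2 h1) (Int.cast_pos.2 h2)
    linarith
  · have := pos hb i h01 (Int.cast_pos.2 h1) (Int.cast_pos.2 h2)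
    linarith
  · have := pos hb i h02 (Int.cast_pos.2 h1) (Int.cast_pos.2 h2)
    linarith

theorem move (ht : Transport) {T : Tet} {p : Fin 4 → Fin 3 → ℤ} (p' : Fin 4 → Fin 3 → ℤ)
    (U U' : Matrix (Fin 3) (Fin 3) ℤ) (π : Equiv.Perm (Fin 4)) (hU : U * U' = 1)
    (hp : ∀ j, U *ᵥ p' j = p (π j)) (hh : Hollow T) (hw : Wide T) (hg : Gen T)
    (hb : Blocked T p) : ∃ T' : Tet, Hollow T' ∧ Wide T' ∧ Gen T' ∧ Blocked T' p' ∧
      ∀ i x, T'.evR i x = T.evR (π i) fun k => ∑ l, (U k l : ℝ) * x l := by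
  obtain ⟨T', h1, -, h2, h4, h5, h6⟩ := ht T U U' 0 π hU
  refine ⟨T', h4 hh, h5 hw, h6 hg, ⟨fun i => ?_, fun i j hij => ?_⟩, fun i x => ?_⟩
  · rw [h1, add_zero, hp, hb.1]
  · rw [h1, add_zero, hp]
    exact hb.2 _ _ (π.injective.ne hij)
  · simpa using h2 i x

theorem lift (ht : Transport) {T : Tet} (hh : Hollow T) (hw : Wide T) (hg : Gen T)
    (hb : Blocked T ![![0, 0, 0], ![1, 0, 0], ![1, 1, 0], ![0, 1, 0]]) :
    ∃ (T' : Tet) (x y : ℝ), Hollow T' ∧ Wide T' ∧ Gen T' ∧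
      Blocked T' ![![0, 0, 0], ![1, 0, 0], ![1, 1, 0], ![0, 1, 0]] ∧
      0 ≤ x ∧ x ≤ 1 ∧ 0 ≤ y ∧ y ≤ 1 ∧ ∀ i, 0 ≤ T'.evR i ![x, y, 1] := by
  obtain ⟨k, s, hs, hk⟩ : ∃ (k : Fin 4) (s : ℤ), s * s = 1 ∧ 1 ≤ s * T.v k 2 := by
    obtain ⟨i, j, h⟩ := hw ![0, 0, 1] (by decide)
    have h2 := Real.sqrt_nonneg 2
    simp only [Fin.sum_univ_three, cons_val_zero, cons_val_one, cons_val_two, Int.cast_zero,
      zero_mul, zero_add, tail_cons, head_cons, Int.cast_one, one_mul, add_zero] at h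
    by_cases h1 : 1 ≤ T.v i 2
    · exact ⟨i, 1, rfl, by simpa using h1⟩
    · exact ⟨j, -1, rfl, by push_cast; linarith⟩
  obtain ⟨H, hH⟩ : ∃ H, H = s * T.v k 2 := ⟨_, rfl⟩
  rw [← hH] at hk
  have hs' : (s : ℝ) * s = 1 := by exact_mod_cast hs
  have H0 : 0 < H := by linarith
  obtain ⟨T', h1, h2, h3, h4, h5⟩ := move ht ![![0, 0, 0], ![1, 0, 0], ![1, 1, 0], ![0, 1, 0]]
    !![1, 0, ⌊T.v k 0 / H⌋; 0, 1, ⌊T.v k 1 / H⌋; 0, 0, s]
    !![1, 0, -⌊T.v k 0 / H⌋ * s; 0, 1, -⌊T.v k 1 / H⌋ * s; 0, 0, s] 1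
    (by
      ext i j
      fin_cases i <;> fin_cases j <;> simp [Matrix.mul_apply, Fin.sum_univ_three, hs])
    (fun j => by
      ext i
      fin_cases i <;> fin_cases j <;> simp [Matrix.mulVec, dotProduct, Fin.sum_univ_three])
    hh hw hg hb
  refine ⟨T', Int.fract (T.v k 0 / H), Int.fract (T.v k 1 / H), h1, h2, h3, h4, Int.fract_nonneg _,
    (Int.fract_lt_one _).le, Int.fract_nonneg _, (Int.fract_lt_one _).le, fun i => ?_⟩
  have e : T'.evR i ![Int.fract (T.v k 0 / H), Int.fract (T.v k 1 / H), 1] =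
      (∑ l, T.a i l * T.v k l + T.b i + T.b i * (H - 1)) / H := by
    have e2 : (s : ℝ) = T.v k 2 / H := by
      rw [eq_div_iff H0.ne', hH, ← mul_assoc, hs', one_mul]
    rw [h5]
    simp [Tet.evR, Fin.sum_univ_three]
    rw [e2]
    field_simp
    ring
  have b0 : 0 ≤ T.b i := by simpa [Tet.ev, Fin.sum_univ_three] using nonneg hb i 0
  rw [e, T.dual]
  refine div_nonneg (add_nonneg ?_ (mul_nonneg b0 (by linarith))) H0.le
  split_ifs <;> norm_num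

end Square

open Square

theorem square (ht : Transport) (h3 : Tri) : Square := by
  intro T a b hh hw hg hb
  obtain ⟨x, hx⟩ := unit h3 hh hb (i0 := 0) (i1 := 1) (i2 := 3) (by decide) (by decide) (by decide)
  obtain ⟨y, hy⟩ := unit h3 hh hb (i0 := 0) (i1 := 2) (i2 := 3) (by decide) (by decide) (by decide)
  obtain ⟨z, hz⟩ := unit h3 hh hb (i0 := 1) (i1 := 2) (i2 := 3) (by decide) (by decide) (by decide)
  have e1 : b * x 2 = 1 := by simpa using hx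
  have e2 : -a * y 2 = 1 := by simpa using hy
  have e3 : (-b - (a - 1)) * z 2 = 1 := by simpa using hz
  have u1 := Int.eq_one_or_neg_one_of_mul_eq_one e1
  have u2 := Int.eq_one_or_neg_one_of_mul_eq_one e2
  have u3 := Int.eq_one_or_neg_one_of_mul_eq_one e3
  have cases : (a = 1 ∧ b = 1) ∨ (a = -1 ∧ b = 1) ∨ (a = 1 ∧ b = -1) := by omega
  rcases cases with ⟨rfl, rfl⟩ | ⟨rfl, rfl⟩ | ⟨rfl, rfl⟩
  · obtain ⟨T', h1, h2, h4, h5, -⟩ := move ht ![![0, 0, 0], ![1, 0, 0], ![1, 1, 0], ![0, 1, 0]]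
      1 1 (Equiv.swap 2 3) (by decide) (by decide) hh hw hg hb
    exact lift ht h1 h2 h4 h5
  · obtain ⟨T', h1, h2, h4, h5, -⟩ := move ht ![![0, 0, 0], ![1, 0, 0], ![1, 1, 0], ![0, 1, 0]]
      !![1, -1, 0; 0, 1, 0; 0, 0, 1] !![1, 1, 0; 0, 1, 0; 0, 0, 1] 1 (by decide) (by decide)
      hh hw hg hb
    exact lift ht h1 h2 h4 h5
  · obtain ⟨T', h1, h2, h4, h5, -⟩ := move ht ![![0, 0, 0], ![1, 0, 0], ![1, 1, 0], ![0, 1, 0]]
      !![1, 0, 0; -1, 1, 0; 0, 0, 1] !![1, 0, 0; 1, 1, 0; 0, 0, 1]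
      (Equiv.swap 1 3 * Equiv.swap 2 3) (by decide) (by decide) hh hw hg hb
    exact lift ht h1 h2 h4 h5

end Pool.Agent.P.MP_65d7bf_co
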