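import Pool.Agent.P.MP_65d7bf_co.St2
import Pool.Agent.P.MP_65d7bf_co.GoodSq

namespace Pool.Agent.P.MP_65d7bf_co

open Finset Matrix

namespace Square2

theorem bary (T : Tet) (x : Fin 3 → ℝ) (l : Fin 3) : ∑ i, T.evR i x * T.v i l = x l := by
  have h1 : ∀ i, T.evR i x * T.v i l =
      ∑ k, x k * (T.v i l * T.a i k) + T.v i l * T.b i := fun i => by
    simp only [Tet.evR, Fin.sum_univ_three]
    ring
  simp only [h1]
  rw [sum_add_distrib, GoodSq.vb, add_zero, sum_comm]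
  simp only [← mul_sum, GoodSq.va]
  simp

/-- the four points of the square -/
abbrev PP : Fin 4 → Fin 3 → ℤ := ![![0, 0, 0], ![1, 0, 0], ![1, 1, 0], ![0, 1, 0]]

/-- the standing facts -/
def Ok (T : Tet) : Prop := Hollow T ∧ Wide T ∧ Gen T ∧ Blocked T PP

/-- vertex `k` is the top one -/
def Top (T : Tet) (k : Fin 4) : Prop := (∀ j, T.v j 2 ≤ T.v k 2) ∧ 2 + √2 < 2 * T.v k 2

theorem move2 (ht : Transport) {T : Tet} (U U' : Matrix (Fin 3) (Fin 3) ℤ) (t : Fin 3 → ℤ)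
    (π : Equiv.Perm (Fin 4)) (s : ℤ) (hU : U * U' = 1) (hp : ∀ j, U *ᵥ PP j + t = PP (π j))
    (hs : U 2 0 = 0 ∧ U 2 1 = 0 ∧ U 2 2 = s ∧ t 2 = 0) (h : Ok T) :
    ∃ T' : Tet, Ok T' ∧ (∀ i j, T'.ev i (PP j) = T.ev (π i) (PP (π j))) ∧
      (∀ i x, T'.evR i x = T.evR (π i) fun k => ∑ l, (U k l : ℝ) * x l + t k) ∧
      ∀ j, T.v (π j) 2 = s * T'.v j 2 := by
  obtain ⟨hh, hw, hg, hb⟩ := h
  obtain ⟨T', h1, -, h2, h4, h5, h6⟩ := ht T U U' t π hU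
  refine ⟨T', ⟨h4 hh, h5 hw, h6 hg, fun i => ?_, fun i j hij => ?_⟩, fun i j => ?_, h2,
    fun j => ?_⟩
  · rw [h1, hp, hb.1]
  · rw [h1, hp]
    exact hb.2 _ _ (π.injective.ne hij)
  · rw [h1, hp]
  · have h7 := bary T (fun k => ∑ l, (U k l : ℝ) * T'.v j l + t k) 2
    rw [← Equiv.sum_comp π] at h7
    have h8 : ∀ i, T'.evR i (T'.v j) = if i = j then 1 else 0 := fun i => T'.dual i j
    simp only [← h2, h8] at h7
    simpa [Fin.sum_univ_three, hs.1, hs.2.1, hs.2.2.1, hs.2.2.2] using h7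

theorem top (ht : Transport) {T : Tet} (h : Ok T) : ∃ T' k, Ok T' ∧ Top T' k := by
  obtain ⟨i, j, h1⟩ := h.2.1 ![0, 0, 1] (by decide)
  have h2 : 2 + √2 < T.v i 2 - T.v j 2 := by simpa [Fin.sum_univ_three] using h1
  obtain ⟨k, hk⟩ := Finite.exists_max fun j => T.v j 2
  obtain ⟨k', hk'⟩ := Finite.exists_min fun j => T.v j 2
  by_cases h3 : 2 + √2 < 2 * T.v k 2
  · exact ⟨T, k, h, hk, h3⟩
  · obtain ⟨T', a1, -, -, a2⟩ := move2 ht !![1, 0, 0; 0, 1, 0; 0, 0, -1]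
      !![1, 0, 0; 0, 1, 0; 0, 0, -1] 0 1 (-1) (by decide) (by decide) (by decide) h
    have a3 : ∀ j, T.v j 2 = - T'.v j 2 := fun j => by simpa using a2 j
    refine ⟨T', k', a1, fun l => ?_, ?_⟩
    · linarith [a3 l, a3 k', hk' l]
    · linarith [a3 k', hk' j, hk i]

theorem rot (ht : Transport) {T : Tet} {k : Fin 4} (h : Ok T) (h' : Top T (k + 1)) :
    ∃ T', Ok T' ∧ Top T' k := by
  obtain ⟨T', a1, -, -, a2⟩ := move2 ht !![0, -1, 0; 1, 0, 0; 0, 0, 1]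
    !![0, 1, 0; -1, 0, 0; 0, 0, 1] ![1, 0, 0] (Equiv.addRight 1) 1 (by decide) (by decide)
    (by decide) h
  have a3 : ∀ j, T'.v j 2 = T.v (j + 1) 2 := fun j => by simpa using (a2 j).symm
  exact ⟨T', a1, fun l => by rw [a3, a3]; exact h'.1 _, by rw [a3]; exact h'.2⟩

theorem top1 (ht : Transport) {T : Tet} (h : Ok T) : ∃ T', Ok T' ∧ Top T' 1 := by
  obtain ⟨T, k, h, h'⟩ := top ht h
  have h2 : ∀ T, Ok T → Top T 2 → ∃ T', Ok T' ∧ Top T' 1 := fun T a b => rot ht (k := 1) a b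
  have h3 : ∀ T, Ok T → Top T 3 → ∃ T', Ok T' ∧ Top T' 1 := fun T a b => by
    obtain ⟨T', c, d⟩ := rot ht (k := 2) a b
    exact h2 T' c d
  have h0 : ∀ T, Ok T → Top T 0 → ∃ T', Ok T' ∧ Top T' 1 := fun T a b => by
    obtain ⟨T', c, d⟩ := rot ht (k := 3) a b
    exact h3 T' c d
  fin_cases k
  exacts [h0 T h h', ⟨T, h, h'⟩, h2 T h h', h3 T h h']

theorem refl (ht : Transport) {T : Tet} (h : Ok T) (h' : Top T 1) :
    ∃ T', Ok T' ∧ Top T' 1 ∧ T'.ev 1 (PP 2) ≤ T'.ev 1 (PP 0) := by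
  rcases le_total (T.ev 1 (PP 2)) (T.ev 1 (PP 0)) with h1 | h1
  · exact ⟨T, h, h', h1⟩
  · obtain ⟨T', a1, a4, -, a2⟩ := move2 ht !![0, -1, 0; -1, 0, 0; 0, 0, 1]
      !![0, -1, 0; -1, 0, 0; 0, 0, 1] ![1, 1, 0] (Equiv.swap 0 2) 1 (by decide) (by decide)
      (by decide) h
    have a3 : ∀ j, T'.v j 2 = T.v (Equiv.swap 0 2 j) 2 := fun j => by simpa using (a2 j).symm
    have e1 : Equiv.swap (0 : Fin 4) 2 1 = 1 := by decide
    refine ⟨T', a1, ⟨fun l => ?_, ?_⟩, ?_⟩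
    · rw [a3, a3, e1]
      exact h'.1 _
    · rw [a3, e1]
      exact h'.2
    · rw [a4, a4, e1, Equiv.swap_apply_left, Equiv.swap_apply_right]
      exact h1

theorem neg2 {T : Tet} (hb : Blocked T PP) (h1 : 0 < T.v 1 2) : T.v 2 2 < 0 := by
  by_contra h2
  rw [not_lt] at h2
  have e : ∀ j, ∑ i, T.ev i (PP j) * T.v i 2 = 0 := fun j => by
    have := bary T (fun k => (PP j k : ℝ)) 2
    refine Eq.trans this ?_
    fin_cases j <;> simp
  have r : ∀ i, T.ev i (PP 0) + T.ev i (PP 2) = T.ev i (PP 1) + T.ev i (PP 3) := fun i => by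
    simp [Tet.ev, Fin.sum_univ_three]
    ring
  have e0 := e 0
  have e2 := e 2
  have e3 := e 3
  simp only [Fin.sum_univ_four, hb.1, zero_mul] at e0 e2 e3
  have r0 := r 0
  have r1 := r 1
  rw [hb.1] at r0 r1
  have p10 := mul_pos (hb.2 1 0 (by decide)) h1
  have p20 := mul_nonneg (hb.2 2 0 (by decide)).le h2
  have p13 := mul_pos (hb.2 1 3 (by decide)) h1
  have p23 := mul_nonneg (hb.2 2 3 (by decide)).le h2
  have h3 : T.v 3 2 < 0 := neg_of_mul_neg_right (by linarith) (hb.2 3 0 (by decide)).le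
  have h0 : T.v 0 2 < 0 := neg_of_mul_neg_right (by linarith) (hb.2 0 3 (by decide)).le
  have p01 := mul_neg_of_pos_of_neg (hb.2 0 1 (by decide)) h0
  have p32 := mul_neg_of_pos_of_neg (hb.2 3 2 (by decide)) h3
  have q0 : T.ev 0 (PP 2) * T.v 0 2 = T.ev 0 (PP 1) * T.v 0 2 + T.ev 0 (PP 3) * T.v 0 2 := by
    rw [← add_mul, ← r0, zero_add]
  have q1 : T.ev 1 (PP 3) * T.v 1 2 = T.ev 1 (PP 0) * T.v 1 2 + T.ev 1 (PP 2) * T.v 1 2 := by
    rw [← add_mul, r1, zero_add]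
  linarith

end Square2

open Square2

theorem square2 (ht : Transport) : Square2 := by
  intro T hh hw hg hb
  obtain ⟨T, h, h'⟩ := top1 ht (T := T) ⟨hh, hw, hg, hb⟩
  obtain ⟨T, h, h', h1⟩ := refl ht h h'
  have h2 : 1 < T.v 1 2 := by linarith [h'.2, Real.sqrt_nonneg 2]
  have h3 := neg2 h.2.2.2 (by linarith)
  obtain ⟨s, s0, s1, hs⟩ : ∃ s : ℝ, 0 ≤ s ∧ s ≤ 1 ∧ s * T.v 1 2 + (1 - s) * T.v 2 2 = 1 := by
    have h4 : 0 < T.v 1 2 - T.v 2 2 := by linarith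
    refine ⟨(1 - T.v 2 2) / (T.v 1 2 - T.v 2 2), div_nonneg (by linarith) h4.le,
      (div_le_one h4).2 (by linarith), ?_⟩
    field_simp
    ring
  obtain ⟨x, hx⟩ : ∃ x, x = s * T.v 1 0 + (1 - s) * T.v 2 0 := ⟨_, rfl⟩
  obtain ⟨y, hy⟩ : ∃ y, y = s * T.v 1 1 + (1 - s) * T.v 2 1 := ⟨_, rfl⟩
  obtain ⟨T', a1, a2, a3, a4⟩ := move2 ht !![1, 0, ⌊x⌋; 0, 1, ⌊y⌋; 0, 0, 1]
    !![1, 0, -⌊x⌋; 0, 1, -⌊y⌋; 0, 0, 1] 0 1 1
    (by
      ext i j
      fin_cases i <;> fin_cases j <;> simp [Matrix.mul_apply, Fin.sum_univ_three])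
    (fun j => by
      ext i
      fin_cases i <;> fin_cases j <;> simp)
    (by simp) h
  have a5 : ∀ j, T'.v j 2 = T.v j 2 := fun j => by simpa using (a4 j).symm
  have e : ∀ i, T'.evR i ![Int.fract x, Int.fract y, 1] =
      s * (if i = 1 then 1 else 0) + (1 - s) * (if i = 2 then 1 else 0) := fun i => by
    rw [a3, ← T.dual, ← T.dual]
    simp [Tet.evR, Fin.sum_univ_three]
    linear_combination T.a i 0 * hx + T.a i 1 * hy - T.a i 2 * hs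
  refine ⟨T', Int.fract x, Int.fract y, a1.1, a1.2.1, a1.2.2.1, a1.2.2.2, Int.fract_nonneg _,
    (Int.fract_lt_one _).le, Int.fract_nonneg _, (Int.fract_lt_one _).le, fun i => ?_, ?_, ?_, ?_,
    fun j => ?_, ?_⟩
  · rw [e]
    refine add_nonneg (mul_nonneg s0 ?_) (mul_nonneg (sub_nonneg.2 s1) ?_) <;> split_ifs <;>
      norm_num
  · rw [e]
    simp
  · rw [e]
    simp
  · exact (a2 1 2).trans_le (h1.trans_eq (a2 1 0).symm)
  · rw [a5, a5]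
    exact h'.1 j
  · rw [a5]
    exact h'.2

end Pool.Agent.P.MP_65d7bf_co
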