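import Pool.Agent.P.MP_65d7bf_co.St

/-! From four affinely independent points to barycentric coordinates. -/

namespace Pool.Agent.P.MP_65d7bf_co

open Finset Matrix

namespace ToTet

/-- Barycentric coordinates exist and reproduce every point. -/
theorem exists_tet (v : Fin 4 → Fin 3 → ℝ) (hv : AffineIndependent ℝ v) :
    ∃ T : Tet, T.v = v ∧ ∀ x : Fin 3 → ℝ, x = ∑ i, T.evR i x • v i := by
  let V : Matrix (Fin 4) (Fin 4) ℝ := Matrix.of fun r j => ![v j 0, v j 1, v j 2, 1] r
  have hinj : Function.Injective V.mulVec := by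
    have key : ∀ w : Fin 4 → ℝ, V *ᵥ w = 0 → w = 0 := fun w hw => by
      have h0 := congrFun hw 0
      have h1 := congrFun hw 1
      have h2 := congrFun hw 2
      have h3 := congrFun hw 3
      simp [V, Matrix.mulVec, dotProduct, Fin.sum_univ_four] at h0 h1 h2 h3
      funext e
      refine affineIndependent_iff.1 hv univ w ?_ ?_ e (mem_univ _)
      · rw [Fin.sum_univ_four]; exact h3
      · funext l
        fin_cases l <;> simp [Fin.sum_univ_four] <;> linarith
    intro w w' e
    exact sub_eq_zero.1 (key _ (by rw [Matrix.mulVec_sub, e, sub_self]))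
  have hU : IsUnit V.det := (Matrix.isUnit_iff_isUnit_det V).1
    (Matrix.mulVec_injective_iff_isUnit.1 hinj)
  have hBV : V⁻¹ * V = 1 := Matrix.nonsing_inv_mul V hU
  have hVB : V * V⁻¹ = 1 := Matrix.mul_nonsing_inv V hU
  generalize V⁻¹ = B at hBV hVB
  have e1 : ∀ r s, ∑ i, V r i * B i s = if r = s then 1 else 0 := fun r s => by
    rw [← Matrix.mul_apply, hVB, Matrix.one_apply]
  refine ⟨⟨fun i k => B i k.castSucc, fun i => B i 3, v, fun k => ?_, ?_, fun i j => ?_⟩, rfl,
    fun x => ?_⟩
  · have := e1 3 k.castSucc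
    have hk : (3 : Fin 4) ≠ k.castSucc := (Fin.castSucc_lt_last k).ne'
    rw [if_neg hk] at this
    simpa [V] using this
  · simpa [V] using e1 3 3
  · have := congrFun (congrFun hBV i) j
    rw [Matrix.mul_apply, Matrix.one_apply] at this
    rw [← this]
    simp [V, Fin.sum_univ_four, Fin.sum_univ_three]
  · funext l
    have a0 := e1 l.castSucc 0
    have a1 := e1 l.castSucc 1
    have a2 := e1 l.castSucc 2
    have a3 := e1 l.castSucc 3
    have c0 : (0 : Fin 3).castSucc = (0 : Fin 4) := rfl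
    have c1 : (1 : Fin 3).castSucc = (1 : Fin 4) := rfl
    have c2 : (2 : Fin 3).castSucc = (2 : Fin 4) := rfl
    simp only [Finset.sum_apply, Pi.smul_apply, smul_eq_mul, Tet.evR, Fin.sum_univ_four,
      Fin.sum_univ_three, c0, c1, c2]
    fin_cases l <;> simp [V, Fin.sum_univ_four] at a0 a1 a2 a3 ⊢ <;>
      linear_combination (-x 0) * a0 - x 1 * a1 - x 2 * a2 - a3

theorem sum_evR (T : Tet) (x : Fin 3 → ℝ) : ∑ i, T.evR i x = 1 := by
  simp only [Tet.evR, sum_add_distrib, T.sb]
  rw [sum_comm]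
  simp only [← sum_mul, T.sa, zero_mul, sum_const_zero, zero_add]

end ToTet

theorem toTet : ToTet := by
  intro h v hv hz
  obtain ⟨T, rfl, hx⟩ := ToTet.exists_tet v hv
  by_contra hc
  refine h T (fun z => ?_) fun u hu => ?_
  · by_contra h1
    push Not at h1
    refine hz z (interior_maximal (t := {x | ∀ i, 0 < T.evR i x}) ?_ ?_ h1)
    · intro x hx'
      rw [hx x]
      exact (convex_convexHull ℝ _).sum_mem (fun i _ => (hx' i).le) (ToTet.sum_evR T x)
        fun i _ => subset_convexHull ℝ _ ⟨i, rfl⟩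
    · rw [Set.ofPred_forall]
      refine isOpen_iInter_of_finite fun i => isOpen_lt continuous_const ?_
      unfold Tet.evR
      fun_prop
  · by_contra h1
    push Not at h1
    have hl : IsLinearMap ℝ fun x : Fin 3 → ℝ => ∑ k, (u k : ℝ) * x k :=
      ⟨fun x y => by simp [mul_add, sum_add_distrib], fun c x => by
        simp [mul_sum, mul_left_comm]⟩
    refine hc ⟨u, hu, fun x hx' y hy => ?_⟩
    have a : ∀ j, ∑ k, (u k : ℝ) * x k ≤ 2 + √2 + ∑ k, (u k : ℝ) * T.v j k := fun j =>
      convexHull_min (by rintro _ ⟨i, rfl⟩; have := h1 i j; simp only [Set.mem_ofPred_eq]; linarith)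
        (convex_halfSpace_le hl _) hx'
    have b : ∑ k, (u k : ℝ) * x k - (2 + √2) ≤ ∑ k, (u k : ℝ) * y k :=
      convexHull_min (by rintro _ ⟨i, rfl⟩; have := a i; simp only [Set.mem_ofPred_eq]; linarith)
        (convex_halfSpace_ge hl _) hy
    linarith

end Pool.Agent.P.MP_65d7bf_co
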