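import Pool.Agent.P.MP_65d7bf_co.St

namespace Pool.Agent.P.MP_65d7bf_co

theorem trans2 : Trans2 := by
  intro n a b c r s t u x y π hd
  obtain ⟨e, he⟩ : ∃ e : ℤ, e * (r * u - s * t) = 1 := by
    rcases hd with h | h
    · exact ⟨1, by rw [h]; norm_num⟩
    · exact ⟨-1, by rw [h]; norm_num⟩
  have heR : (e : ℝ) * (r * u - s * t) = 1 := by exact_mod_cast he
  have key : ∀ i (p q : ℝ), (a (π i) * r + b (π i) * t) * p + (a (π i) * s + b (π i) * u) * q +
      (a (π i) * x + b (π i) * y + c (π i)) =
      a (π i) * (r * p + s * q + x) + b (π i) * (t * p + u * q + y) + c (π i) := by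
    intro i p q; ring
  refine ⟨fun i => a (π i) * r + b (π i) * t, fun i => a (π i) * s + b (π i) * u,
    fun i => a (π i) * x + b (π i) * y + c (π i), key, ?_, ?_⟩
  · intro hf m k hm
    refine hf (r * m + s * k + x) (t * m + u * k + y) fun i => ?_
    have := hm (π.symm i)
    simp only [Equiv.apply_symm_apply] at this
    push_cast
    linarith
  · intro hw m k hmk
    have hne : e * (m * u - k * t) ≠ 0 ∨ e * (k * r - m * s) ≠ 0 := by
      by_contra h
      push Not at h
      obtain ⟨h1, h2⟩ := h
      rcases hmk with h | h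
      · exact h (by linear_combination (-m) * he + r * h1 + t * h2)
      · exact h (by linear_combination (-k) * he + s * h1 + u * h2)
    obtain ⟨P, hP, Q, hQ, hPQ⟩ := hw _ _ hne
    have inv : ∀ P ∈ Pol a b c, ((e * (u * (P.1 - x) - s * (P.2 - y)),
        e * (r * (P.2 - y) - t * (P.1 - x))) : ℝ × ℝ) ∈ Pol (fun i => a (π i) * r + b (π i) * t)
          (fun i => a (π i) * s + b (π i) * u) (fun i => a (π i) * x + b (π i) * y + c (π i)) := by
      intro P hP i
      have := hP (π i)
      simp only [key]
      convert this using 3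
      · congr 1
        linear_combination (P.1 - x) * heR
      · congr 1
        linear_combination (P.2 - y) * heR
    refine ⟨_, inv P hP, _, inv Q hQ, lt_of_lt_of_eq hPQ ?_⟩
    push_cast
    ring

end Pool.Agent.P.MP_65d7bf_co
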