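import Pool.Agent.P.MP_65d7bf_co.St

/-! Transport of a tetrahedron along a unimodular affine map and a relabelling. -/

namespace Pool.Agent.P.MP_65d7bf_co

open Finset Matrix

namespace Transport

theorem cancel {U U' : Matrix (Fin 3) (Fin 3) ℤ} (h : U * U' = 1) (x : Fin 3 → ℝ) (k : Fin 3) :
    ∑ l, (U k l : ℝ) * ∑ m, (U' l m : ℝ) * x m = x k := by
  have e : ∀ m, ∑ l, (U k l : ℝ) * (U' l m : ℝ) = if k = m then 1 else 0 := by
    intro m
    have := congrFun (congrFun h k) m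
    rw [mul_apply, one_apply] at this
    exact_mod_cast this
  simp only [mul_sum, ← mul_assoc]
  rw [sum_comm]
  simp only [← sum_mul, e]
  simp

/-- The transported tetrahedron. -/
noncomputable def tr (T : Tet) (U U' : Matrix (Fin 3) (Fin 3) ℤ) (t : Fin 3 → ℤ)
    (π : Equiv.Perm (Fin 4)) (h : U * U' = 1) : Tet where
  a i l := ∑ k, T.a (π i) k * U k l
  b i := ∑ k, T.a (π i) k * t k + T.b (π i)
  v j l := ∑ m, (U' l m : ℝ) * (T.v (π j) m - t m)
  sa l := by
    rw [sum_comm]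
    refine sum_eq_zero fun k _ => ?_
    rw [← sum_mul, Equiv.sum_comp π fun i => T.a i k, T.sa, zero_mul]
  sb := by
    rw [sum_add_distrib, Equiv.sum_comp π T.b, T.sb, sum_comm, sum_eq_zero, zero_add]
    intro k _
    rw [← sum_mul, Equiv.sum_comp π fun i => T.a i k, T.sa, zero_mul]
  dual i j := by
    have e := T.dual (π i) (π j)
    simp only [EmbeddingLike.apply_eq_iff_eq] at e
    rw [← e]
    simp only [sum_mul, mul_assoc]
    rw [sum_comm]
    simp only [← mul_sum, cancel h]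
    simp only [mul_sub, sum_sub_distrib]
    ring

theorem evR_tr (T : Tet) (U U' : Matrix (Fin 3) (Fin 3) ℤ) (t : Fin 3 → ℤ)
    (π : Equiv.Perm (Fin 4)) (h : U * U' = 1) (i : Fin 4) (x : Fin 3 → ℝ) :
    (tr T U U' t π h).evR i x = T.evR (π i) fun k => ∑ l, (U k l : ℝ) * x l + t k := by
  simp only [Tet.evR, tr, Fin.sum_univ_three]
  ring

theorem ev_tr (T : Tet) (U U' : Matrix (Fin 3) (Fin 3) ℤ) (t : Fin 3 → ℤ)
    (π : Equiv.Perm (Fin 4)) (h : U * U' = 1) (i : Fin 4) (z : Fin 3 → ℤ) :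
    (tr T U U' t π h).ev i z = T.ev (π i) (U *ᵥ z + t) := by
  simp only [Tet.ev, tr, Fin.sum_univ_three, Pi.add_apply, mulVec, dotProduct]
  push_cast
  ring

theorem lin_tr (T : Tet) (U U' : Matrix (Fin 3) (Fin 3) ℤ) (t : Fin 3 → ℤ)
    (π : Equiv.Perm (Fin 4)) (h : U * U' = 1) (i : Fin 4) (z : Fin 3 → ℤ) :
    (tr T U U' t π h).lin i z = T.lin (π i) (U *ᵥ z) := by
  simp only [Tet.lin, tr, Fin.sum_univ_three, mulVec, dotProduct]
  push_cast
  ring

end Transport

theorem transport : Transport := by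
  intro T U U' t π h
  have h' : U' * U = 1 := mul_eq_one_comm.1 h
  refine ⟨Transport.tr T U U' t π h, Transport.ev_tr T U U' t π h, Transport.lin_tr T U U' t π h,
    Transport.evR_tr T U U' t π h, fun hT z => ?_, fun hT u hu => ?_, fun hT y hy i => ?_⟩
  · obtain ⟨i, hi⟩ := hT (U *ᵥ z + t)
    exact ⟨π.symm i, by rwa [Transport.ev_tr, Equiv.apply_symm_apply]⟩
  · have hu' : u ᵥ* U' ≠ 0 := fun e => hu (by
      have : (u ᵥ* U') ᵥ* U = u := by rw [vecMul_vecMul, h', vecMul_one]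
      rw [← this, e, zero_vecMul])
    obtain ⟨i, j, hij⟩ := hT _ hu'
    refine ⟨π.symm i, π.symm j, hij.trans_eq ?_⟩
    simp only [Transport.tr, Equiv.apply_symm_apply, Fin.sum_univ_three, vecMul, dotProduct]
    push_cast
    ring
  · rw [Transport.lin_tr]
    refine hT _ (fun e => hy ?_) _
    have : U' *ᵥ (U *ᵥ y) = y := by rw [mulVec_mulVec, h', one_mulVec]
    rw [← this, e, mulVec_zero]

end Pool.Agent.P.MP_65d7bf_co
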