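import Pool.Agent.P.MP_65d7bf_co.St

/-! Empty lattice triangles are unimodular. -/

namespace Pool.Agent.P.MP_65d7bf_co

theorem tri : Tri := by
  intro v w h
  have h1 : ∀ l α β : ℤ, 0 < l → (∀ k, l ∣ α * v k + β * w k) → l ∣ α ∧ l ∣ β := by
    intro l α β hl hd
    have a0 := Int.emod_nonneg α hl.ne'
    have a1 := Int.emod_lt_of_pos α hl
    have b0 := Int.emod_nonneg β hl.ne'
    have b1 := Int.emod_lt_of_pos β hl
    have h2 : ∀ k, l ∣ α % l * v k + β % l * w k := fun k => by
      have := (hd k).sub (dvd_mul_right l (α / l * v k + β / l * w k))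
      rwa [show α * v k + β * w k - l * (α / l * v k + β / l * w k) =
        (α - l * (α / l)) * v k + (β - l * (β / l)) * w k by ring, ← Int.emod_def,
        ← Int.emod_def] at this
    rcases le_or_gt (α % l + β % l) l with h3 | h3
    · exact (h _ _ l a0 b0 h3 a1 b1 h2).imp Int.dvd_of_emod_eq_zero Int.dvd_of_emod_eq_zero
    · have := h (l - α % l) (l - β % l) l (by omega) (by omega) (by omega) (by omega) (by omega)
        fun k => by
          have := (dvd_mul_right l (v k + w k)).sub (h2 k)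
          rwa [show l * (v k + w k) - (α % l * v k + β % l * w k) =
            (l - α % l) * v k + (l - β % l) * w k by ring] at this
      omega
  have h2 : ∀ l : ℤ, 0 < l → l ∣ v 1 * w 2 - v 2 * w 1 → l ∣ v 2 * w 0 - v 0 * w 2 →
      l ∣ v 0 * w 1 - v 1 * w 0 → l ∣ 1 := by
    intro l hl d0 d1 d2
    have h3 : ∀ j k, l ∣ v j * w k - v k * w j := fun j k => by
      fin_cases j <;> fin_cases k
      exacts [by simp, d2, dvd_sub_comm.1 d1, dvd_sub_comm.1 d2, by simp, d0, d1,
        dvd_sub_comm.1 d0, by simp]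
    refine (h1 l 1 0 hl fun k => ?_).1
    have := (h1 l (w k) (-v k) hl fun j => (h3 j k).trans (dvd_of_eq (by ring))).2
    simpa using this
  set a := v 1 * w 2 - v 2 * w 1
  set b := v 2 * w 0 - v 0 * w 2
  set c := v 0 * w 1 - v 1 * w 0
  have da : (Int.gcd (Int.gcd a b) c : ℤ) ∣ a := (Int.gcd_dvd_left _ _).trans (Int.gcd_dvd_left _ _)
  have db : (Int.gcd (Int.gcd a b) c : ℤ) ∣ b := (Int.gcd_dvd_left _ _).trans (Int.gcd_dvd_right _ _)
  have dc : (Int.gcd (Int.gcd a b) c : ℤ) ∣ c := Int.gcd_dvd_right _ _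
  have h3 : (Int.gcd (Int.gcd a b) c : ℤ) = 1 := by
    rcases (Int.natCast_nonneg (Int.gcd (Int.gcd a b) c)).eq_or_lt with h3 | h3
    · rw [← h3] at da db dc
      have := h2 2 two_pos ((dvd_zero 2).trans da) ((dvd_zero 2).trans db) ((dvd_zero 2).trans dc)
      omega
    · exact Int.eq_one_of_dvd_one h3.le (h2 _ h3 da db dc)
  have e1 := Int.gcd_eq_gcd_ab a b
  have e2 := Int.gcd_eq_gcd_ab (Int.gcd a b) c
  refine ⟨![Int.gcdA a b * Int.gcdA (Int.gcd a b) c, Int.gcdB a b * Int.gcdA (Int.gcd a b) c,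
    Int.gcdB (Int.gcd a b) c], ?_⟩
  simp only [Matrix.cons_val_zero, Matrix.cons_val_one, Matrix.cons_val]
  linear_combination h3 - e2 - Int.gcdA (Int.gcd a b) c * e1

end Pool.Agent.P.MP_65d7bf_co
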