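import Pool.Agent.P.MP_65d7bf_co.St

/-! Package 18: a lattice free triangle blocked by a unimodular triangle is flat. -/

namespace Pool.Agent.P.MP_65d7bf_co

namespace TriNorm

def QQ (A B C D E F : ℝ) : Set (ℝ × ℝ) :=
  {p | 0 < A * p.1 + B * p.2 ∧ 0 < C * (1 - p.1 - p.2) + D * p.2 ∧
    0 < E * (1 - p.1 - p.2) + F * p.1}

lemma pol_convex {n : ℕ} (a b c : Fin n → ℝ) : Convex ℝ (Pol a b c) := by
  intro x hx y hy s t hs ht hst i
  have h1 := hx i
  have h2 := hy i
  have h3 : a i * (s • x + t • y).1 + b i * (s • x + t • y).2 + c i =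
      s * (a i * x.1 + b i * x.2 + c i) + t * (a i * y.1 + b i * y.2 + c i) := by
    have : c i = (s + t) * c i := by rw [hst, one_mul]
    simp only [Prod.fst_add, Prod.snd_add, Prod.smul_fst, Prod.smul_snd, smul_eq_mul]
    linear_combination this
  rw [h3]
  rcases hs.eq_or_lt with rfl | hs'
  · have : t = 1 := by linarith
    rw [this]; linarith
  · have := mul_pos hs' h1
    have := mul_nonneg ht h2.le
    linarith

lemma pol_open {n : ℕ} (a b c : Fin n → ℝ) : IsOpen (Pol a b c) := by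
  have : Pol a b c = ⋂ i, {x : ℝ × ℝ | 0 < a i * x.1 + b i * x.2 + c i} := by
    ext x; simp [Pol]
  rw [this]
  exact isOpen_iInter_of_finite fun i => isOpen_lt continuous_const (by fun_prop)

lemma num (r x z : ℝ) (hr : 8 / 15 ≤ r) (hx : r ≤ x) (hz : r ≤ z) :
    r ≤ 2156 / 1000 * (1 - (x + r + z) + (x * r + r * z + z * x)) := by
  have h1 : 0 ≤ (2 * r - 1) * ((x - r) + (z - r)) := mul_nonneg (by linarith) (by linarith)
  have h2 : 0 ≤ (x - r) * (z - r) := mul_nonneg (by linarith) (by linarith)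
  nlinarith [sq_nonneg (r - 5773 / 10000)]

lemma pick (α0 α1 α2 : ℝ) (h : α0 + α1 + α2 = 0) (hs : |α0| + |α1| + |α2| < 16 / 15) :
    ∃ l0 l1 l2 : ℝ, l0 + l1 + l2 = 1 ∧ 0 < l0 ∧ 0 < l1 ∧ 0 < l2 ∧ 0 < l0 + 15 / 8 * α0 ∧
      0 < l1 + 15 / 8 * α1 ∧ 0 < l2 + 15 / 8 * α2 := by
  have a0 := le_abs_self α0
  have a1 := le_abs_self α1
  have a2 := le_abs_self α2
  have b0 := neg_abs_le α0
  have b1 := neg_abs_le α1
  have b2 := neg_abs_le α2
  refine ⟨15 / 16 * (|α0| - α0) + (1 - 15 / 16 * (|α0| + |α1| + |α2|)) / 3,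
    15 / 16 * (|α1| - α1) + (1 - 15 / 16 * (|α0| + |α1| + |α2|)) / 3,
    15 / 16 * (|α2| - α2) + (1 - 15 / 16 * (|α0| + |α1| + |α2|)) / 3,
    ?_, ?_, ?_, ?_, ?_, ?_, ?_⟩ <;> linarith

lemma point (x y z l0 l1 l2 : ℝ) (hD : 0 < 1 - (x + y + z) + (x * y + y * z + z * x))
    (h : l0 + l1 + l2 = 1) : ∃ p1 p2 : ℝ, (1 - y) * p1 + z * p2 = l0 ∧
      x * (1 - p1 - p2) + (1 - z) * p2 = l1 ∧ (1 - x) * (1 - p1 - p2) + y * p1 = l2 := by
  have h2 : l2 = 1 - l0 - l1 := by linarith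
  subst h2
  obtain ⟨k, hk⟩ : ∃ k, k * (1 - (x + y + z) + (x * y + y * z + z * x)) = 1 :=
    ⟨_, inv_mul_cancel₀ hD.ne'⟩
  refine ⟨((1 - z) * (1 - x) * l0 - z * (1 - x) * l1 + x * z * (1 - l0 - l1)) * k,
    (x * y * l0 + (1 - x) * (1 - y) * l1 - x * (1 - y) * (1 - l0 - l1)) * k, ?_, ?_, ?_⟩
  · linear_combination l0 * hk
  · linear_combination (l1 - x) * hk
  · linear_combination (x - l0 - l1) * hk

/-- An affine function with vertex values `-u, v, w` has width at most `m`. -/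
lemma wid (u v w m l0 l1 l2 k0 k1 k2 : ℝ) (hv : u + v ≤ m) (hw : u + w ≤ m) (hu : 0 ≤ u)
    (hv0 : 0 ≤ v) (hw0 : 0 ≤ w) (hl : l0 + l1 + l2 = 1) (hk : k0 + k1 + k2 = 1)
    (_l0 : 0 < l0) (_l1 : 0 < l1) (_l2 : 0 < l2) (_k0 : 0 < k0) (_k1 : 0 < k1) (_k2 : 0 < k2) :
    (-u * l0 + v * l1 + w * l2) - (-u * k0 + v * k1 + w * k2) ≤ m := by
  have e0 : l0 = 1 - l1 - l2 := by linarith
  have e1 : k0 = 1 - k1 - k2 := by linarith
  subst e0 e1
  have h1 : (u + v) * l1 ≤ m * l1 := mul_le_mul_of_nonneg_right hv (by linarith)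
  have h2 : (u + w) * l2 ≤ m * l2 := mul_le_mul_of_nonneg_right hw (by linarith)
  have h3 : 0 ≤ (u + v) * k1 := mul_nonneg (by linarith) (by linarith)
  have h4 : 0 ≤ (u + w) * k2 := mul_nonneg (by linarith) (by linarith)
  have h5 : 0 ≤ m * (1 - l1 - l2) := mul_nonneg (by linarith) (by linarith)
  nlinarith

lemma core (x y z : ℝ) (x0 : 0 < x) (x1 : x < 1) (y0 : 0 < y) (y1 : y < 1) (z0 : 0 < z)
    (z1 : z < 1) (hW : Wide2 (QQ (1 - y) z x (1 - z) (1 - x) y))
    (hC : ∀ p ∈ QQ (1 - y) z x (1 - z) (1 - x) y, ∀ m n : ℤ, (m ≠ 0 ∨ n ≠ 0) →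
      (p.1 + 15 / 8 * m, p.2 + 15 / 8 * n) ∉ QQ (1 - y) z x (1 - z) (1 - x) y) : False := by
  have x2 : 0 < 1 - x := by linarith
  have y2 : 0 < 1 - y := by linarith
  have z2 : 0 < 1 - z := by linarith
  have hD : 0 < 1 - (x + y + z) + (x * y + y * z + z * x) := by
    have h1 : 0 < x * y * z := by positivity
    have h2 : 0 < (1 - x) * (1 - y) * (1 - z) := by positivity
    nlinarith
  have key : ∀ m n : ℤ, (m ≠ 0 ∨ n ≠ 0) → ∀ α0 α1 α2 : ℝ, α0 = (1 - y) * m + z * n →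
      α1 = x * (-m - n) + (1 - z) * n → α2 = (1 - x) * (-m - n) + y * m →
      16 / 15 ≤ |α0| + |α1| + |α2| := by
    intro m n hmn α0 α1 α2 h0 h1 h2
    by_contra hc
    obtain ⟨l0, l1, l2, hl, a0, a1, a2, b0, b1, b2⟩ :=
      pick α0 α1 α2 (by rw [h0, h1, h2]; ring) (not_le.mp hc)
    obtain ⟨p1, p2, e0, e1, e2⟩ := point x y z l0 l1 l2 hD hl
    refine hC (p1, p2) ⟨?_, ?_, ?_⟩ m n hmn ⟨?_, ?_, ?_⟩ <;> simp only <;> linarith
  have c1 : 8 / 15 ≤ x ∨ y ≤ 7 / 15 := by
    have := key 1 0 (by simp) (1 - y) (-x) (x + y - 1) (by push_cast; ring) (by push_cast; ring)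
      (by push_cast; ring)
    by_contra hc
    push Not at hc
    rw [abs_of_pos y2, abs_neg, abs_of_pos x0] at this
    rcases abs_cases (x + y - 1) with h | h <;> linarith [hc.1, hc.2, h.1]
  have c2 : 8 / 15 ≤ z ∨ x ≤ 7 / 15 := by
    have := key 0 1 (by simp) z (1 - x - z) (-(1 - x)) (by push_cast; ring) (by push_cast; ring)
      (by push_cast; ring)
    by_contra hc
    push Not at hc
    rw [abs_of_pos z0, abs_neg, abs_of_pos x2] at this
    rcases abs_cases (1 - x - z) with h | h <;> linarith [hc.1, hc.2, h.1]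
  have c3 : 8 / 15 ≤ y ∨ z ≤ 7 / 15 := by
    have := key (-1) 1 (by simp) (y + z - 1) (1 - z) (-y) (by push_cast; ring)
      (by push_cast; ring) (by push_cast; ring)
    by_contra hc
    push Not at hc
    rw [abs_of_pos z2, abs_neg, abs_of_pos y0] at this
    rcases abs_cases (y + z - 1) with h | h <;> linarith [hc.1, hc.2, h.1]
  have w0 : ∀ m : ℝ, y ≤ m → 1 - z ≤ m →
      2156 / 1000 * (1 - (x + y + z) + (x * y + y * z + z * x)) < m := by
    intro m h1 h2
    obtain ⟨p, ⟨a0, a1, a2⟩, q, ⟨b0, b1, b2⟩, h⟩ := hW 1 1 (by simp)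
    simp only [Int.cast_one] at h
    have := wid (y * (1 - z)) (y * z) ((1 - y) * (1 - z)) m _ _ _ _ _ _ (by linarith)
      (by linarith) (by positivity) (by positivity) (by positivity) (by ring) (by ring)
      b0 b1 b2 a0 a1 a2
    have h3 := mul_lt_mul_of_pos_right h hD
    refine h3.trans_le (le_of_eq_of_le ?_ this)
    ring
  have w1 : ∀ m : ℝ, z ≤ m → 1 - x ≤ m →
      2156 / 1000 * (1 - (x + y + z) + (x * y + y * z + z * x)) < m := by
    intro m h1 h2
    obtain ⟨p, ⟨a0, a1, a2⟩, q, ⟨b0, b1, b2⟩, h⟩ := hW 1 0 (by simp)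
    simp only [Int.cast_one, Int.cast_zero] at h
    have := wid (z * (1 - x)) (z * x) ((1 - z) * (1 - x)) m _ _ _ _ _ _ (by linarith)
      (by linarith) (by positivity) (by positivity) (by positivity) (by ring) (by ring)
      a1 a2 a0 b1 b2 b0
    have h3 := mul_lt_mul_of_pos_right h hD
    refine h3.trans_le (le_of_eq_of_le ?_ this)
    ring
  have w2 : ∀ m : ℝ, x ≤ m → 1 - y ≤ m →
      2156 / 1000 * (1 - (x + y + z) + (x * y + y * z + z * x)) < m := by
    intro m h1 h2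
    obtain ⟨p, ⟨a0, a1, a2⟩, q, ⟨b0, b1, b2⟩, h⟩ := hW 0 1 (by simp)
    simp only [Int.cast_one, Int.cast_zero] at h
    have := wid (x * (1 - y)) (x * y) ((1 - x) * (1 - y)) m _ _ _ _ _ _ (by linarith)
      (by linarith) (by positivity) (by positivity) (by positivity) (by ring) (by ring)
      a2 a0 a1 b2 b0 b1
    have h3 := mul_lt_mul_of_pos_right h hD
    refine h3.trans_le (le_of_eq_of_le ?_ this)
    ring
  by_cases hx : 8 / 15 ≤ x
  · have hz : 8 / 15 ≤ z := c2.resolve_right (by linarith)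
    have hy : 8 / 15 ≤ y := c3.resolve_right (by linarith)
    have v0 := w0 y le_rfl (by linarith)
    have v1 := w1 z le_rfl (by linarith)
    have v2 := w2 x le_rfl (by linarith)
    rcases le_total x y with h1 | h1
    · rcases le_total x z with h2 | h2
      · linarith [num x y z hx h1 h2]
      · linarith [num z x y hz h2 (h2.trans h1)]
    · rcases le_total y z with h2 | h2
      · linarith [num y x z hy h1 h2]
      · linarith [num z x y hz (h2.trans h1) h2]
  · have hy : y ≤ 7 / 15 := c1.resolve_left hx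
    have hz : z ≤ 7 / 15 := c3.resolve_left (by linarith)
    have hx' : x ≤ 7 / 15 := c2.resolve_left (by linarith)
    have v0 := w0 (1 - z) (by linarith) le_rfl
    have v1 := w1 (1 - x) (by linarith) le_rfl
    have v2 := w2 (1 - y) (by linarith) le_rfl
    rcases le_total x y with h1 | h1
    · rcases le_total y z with h2 | h2
      · linarith [num (1 - z) (1 - x) (1 - y) (by linarith) (by linarith) (by linarith)]
      · linarith [num (1 - y) (1 - x) (1 - z) (by linarith) (by linarith) (by linarith)]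
    · rcases le_total x z with h2 | h2
      · linarith [num (1 - z) (1 - x) (1 - y) (by linarith) (by linarith) (by linarith)]
      · linarith [num (1 - x) (1 - y) (1 - z) (by linarith) (by linarith) (by linarith)]

lemma scale (A B C D E F u v w : ℝ) (hu : 0 < u) (hv : 0 < v) (hw : 0 < w) :
    QQ (u * A) (u * B) (v * C) (v * D) (w * E) (w * F) = QQ A B C D E F := by
  ext p
  simp only [QQ, Set.mem_ofPred_eq, mul_assoc, ← mul_add, mul_pos_iff_of_pos_left hu,
    mul_pos_iff_of_pos_left hv, mul_pos_iff_of_pos_left hw]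

lemma main (A B C D E F : ℝ) (hA : 0 < A) (hB : 0 < B) (hC : 0 < C) (hD : 0 < D) (hE : 0 < E)
    (hF : 0 < F) (hW : Wide2 (QQ A B C D E F))
    (hch : ∀ p ∈ QQ A B C D E F, ∀ m n : ℤ, (m ≠ 0 ∨ n ≠ 0) →
      (p.1 + 15 / 8 * m, p.2 + 15 / 8 * n) ∉ QQ A B C D E F)
    (hr : ∀ x ∈ QQ A B C D E F, ∀ d : ℝ × ℝ, d ≠ 0 →
      ∃ t : ℝ, 0 ≤ t ∧ x + t • d ∉ QQ A B C D E F) : False := by
  have ray : ∀ s1 s2 : ℝ, (s1 ≠ 0 ∨ s2 ≠ 0) → 0 ≤ A * s1 + B * s2 →
      0 ≤ C * (-s1 - s2) + D * s2 → 0 ≤ E * (-s1 - s2) + F * s1 → False := by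
    intro s1 s2 hs h0 h1 h2
    obtain ⟨t, ht, h⟩ := hr (1 / 3, 1 / 3) ⟨by simp only; linarith, by simp only; linarith,
      by simp only; linarith⟩ (s1, s2) (by
        intro h
        rw [Prod.ext_iff] at h
        rcases hs with hs | hs
        exacts [hs h.1, hs h.2])
    have g0 := mul_nonneg ht h0
    have g1 := mul_nonneg ht h1
    have g2 := mul_nonneg ht h2
    refine h ⟨?_, ?_, ?_⟩ <;>
      simp only [Prod.fst_add, Prod.snd_add, Prod.smul_fst, Prod.smul_snd, smul_eq_mul] <;>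
      linarith
  have hdet : 0 < A * D * E + B * C * F := by positivity
  have d0 : 0 < D * E + C * F - D * F := by
    by_contra hc
    push Not at hc
    refine ray (D - C) C (Or.inr hC.ne') ?_ (by linarith) (by linarith)
    have h1 := mul_nonneg hA.le (neg_nonneg.mpr hc)
    have h2 : 0 < (A * (D - C) + B * C) * F := by linarith
    exact ((mul_pos_iff_of_pos_right hF).mp h2).le
  have d1 : 0 < B * F + A * E - B * E := by
    by_contra hc
    push Not at hc
    refine ray (-E) (E - F) (Or.inl (neg_ne_zero.mpr hE.ne')) (by linarith) (by linarith)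
      (by linarith)
  have d2 : 0 < A * D + B * C - A * C := by
    by_contra hc
    push Not at hc
    refine ray B (-A) (Or.inl hB.ne') (by linarith) (by linarith) (by linarith)
  obtain ⟨u, hu⟩ : ∃ u, u = (D * E + C * F - D * F) / (A * D * E + B * C * F) := ⟨_, rfl⟩
  obtain ⟨v, hv⟩ : ∃ v, v = (B * F + A * E - B * E) / (A * D * E + B * C * F) := ⟨_, rfl⟩
  obtain ⟨w, hw⟩ : ∃ w, w = (A * D + B * C - A * C) / (A * D * E + B * C * F) := ⟨_, rfl⟩
  have u0 : 0 < u := hu ▸ div_pos d0 hdet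
  have v0 : 0 < v := hv ▸ div_pos d1 hdet
  have w0 : 0 < w := hw ▸ div_pos d2 hdet
  have hne := hdet.ne'
  have e0 : u * A = 1 - w * F := by rw [hu, hw]; field_simp; ring
  have e1 : v * D = 1 - u * B := by rw [hu, hv]; field_simp; ring
  have e2 : w * E = 1 - v * C := by rw [hv, hw]; field_simp; ring
  rw [← scale A B C D E F u v w u0 v0 w0, e0, e1, e2] at hW hch
  have p0 := mul_pos u0 hA
  have p1 := mul_pos v0 hD
  have p2 := mul_pos w0 hE
  exact core (v * C) (w * F) (u * B) (mul_pos v0 hC) (by linarith) (mul_pos w0 hF) (by linarith)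
    (mul_pos u0 hB) (by linarith) hW hch

end TriNorm

theorem triNorm (h2 : Chord2) (hr : NoRay) : TriNorm := by
  intro a b c hF hW hB
  have z0 := hB.1 0
  have z1 := hB.1 1
  have z2 := hB.1 2
  have q01 := hB.2 0 1 (by decide)
  have q02 := hB.2 0 2 (by decide)
  have q10 := hB.2 1 0 (by decide)
  have q12 := hB.2 1 2 (by decide)
  have q20 := hB.2 2 0 (by decide)
  have q21 := hB.2 2 1 (by decide)
  simp at z0 z1 z2 q01 q02 q10 q12 q20 q21
  have hQ : Pol a b c = TriNorm.QQ (a 0) (b 0) (c 1) (b 1 + c 1) (c 2) (a 2 + c 2) := by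
    ext p
    have e0 : a 0 * p.1 + b 0 * p.2 + c 0 = a 0 * p.1 + b 0 * p.2 := by rw [z0, add_zero]
    have e1 : a 1 * p.1 + b 1 * p.2 + c 1 = c 1 * (1 - p.1 - p.2) + (b 1 + c 1) * p.2 := by
      linear_combination p.1 * z1
    have e2 : a 2 * p.1 + b 2 * p.2 + c 2 = c 2 * (1 - p.1 - p.2) + (a 2 + c 2) * p.1 := by
      linear_combination p.2 * z2
    simp only [Pol, TriNorm.QQ, Set.mem_ofPred_eq, Fin.forall_fin_succ, IsEmpty.forall_iff,
      and_true, Fin.succ_zero_eq_one, Fin.succ_one_eq_two, e0, e1, e2]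
  have c1 := h2 _ (TriNorm.pol_convex a b c) hF hW
  have c2 := hr _ (TriNorm.pol_convex a b c) (TriNorm.pol_open a b c) hF hW
  rw [hQ] at c1 c2 hW
  exact TriNorm.main _ _ _ _ _ _ (by linarith) (by linarith) q10 q12 q20 q21 hW c1 c2

end Pool.Agent.P.MP_65d7bf_co
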