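import Pool.Agent.P.MP_65d7bf_co.Runs
import Pool.Agent.P.MP_65d7bf_co.Local
import Pool.Agent.P.MP_65d7bf_co.Block
import Pool.Agent.P.MP_65d7bf_co.BridgeS
import Pool.Agent.P.MP_65d7bf_co.CandS
import Pool.Agent.P.MP_65d7bf_co.Cases
import Pool.Agent.P.MP_65d7bf_co.CheckT
import Pool.Agent.P.MP_65d7bf_co.Chord0
import Pool.Agent.P.MP_65d7bf_co.Chord2
import Pool.Agent.P.MP_65d7bf_co.ChordAll
import Pool.Agent.P.MP_65d7bf_co.Classify
import Pool.Agent.P.MP_65d7bf_co.ColCH
import Pool.Agent.P.MP_65d7bf_co.ColLT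
import Pool.Agent.P.MP_65d7bf_co.ColV
import Pool.Agent.P.MP_65d7bf_co.Cover
import Pool.Agent.P.MP_65d7bf_co.Generic
import Pool.Agent.P.MP_65d7bf_co.GoodSq2
import Pool.Agent.P.MP_65d7bf_co.GoodTet
import Pool.Agent.P.MP_65d7bf_co.Mink
import Pool.Agent.P.MP_65d7bf_co.NoRay
import Pool.Agent.P.MP_65d7bf_co.Normal
import Pool.Agent.P.MP_65d7bf_co.PreS
import Pool.Agent.P.MP_65d7bf_co.Push
import Pool.Agent.P.MP_65d7bf_co.Reduce2
import Pool.Agent.P.MP_65d7bf_co.SplitS
import Pool.Agent.P.MP_65d7bf_co.SqNorm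
import Pool.Agent.P.MP_65d7bf_co.Square
import Pool.Agent.P.MP_65d7bf_co.Square2
import Pool.Agent.P.MP_65d7bf_co.ToTet
import Pool.Agent.P.MP_65d7bf_co.Trans2
import Pool.Agent.P.MP_65d7bf_co.Transport
import Pool.Agent.P.MP_65d7bf_co.Tri
import Pool.Agent.P.MP_65d7bf_co.TriNorm

namespace Pool.Agent.P.MP_65d7bf_co

theorem sound : Sound :=
  sound_of preSpec lfSpec (colW_ok candSpec) colC_ok colH_ok colV_ok colL_ok colT_ok
    (wbrSpec preSpec candSpec) splitSpec nthSpec

theorem flat2 : Flat2 :=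
  flat2_of (reduce2 push (noRay chord2)) (case3 tri trans2 (triNorm chord2 (noRay chord2)))
    (case4 tri trans2 sqNorm)

theorem main : Main :=
  main_of2 toTet generic (block push) (chordAll (chord0 flat2) transport) mink
    (normal transport tri) (square transport tri) (square2 transport) goodTet goodSq2 classify
    (checkTet_of goodPerm cover bridgeD local_ok (Dat.runt sound) (Dat.runa sound)
      (Dat.runAll sound)) (checkSq2_of bridgeS (Dat.runS sound))

end Pool.Agent.P.MP_65d7bf_co
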