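import Mathlib

namespace Pool.Agent.P.MP_65d7bf_co

open Finset

/-- Three real weights. -/
structure T3 where
  p : ℝ
  q : ℝ
  r : ℝ

def T3.nn (t : T3) : Prop := 0 ≤ t.p ∧ 0 ≤ t.q ∧ 0 ≤ t.r

/-- A monomial of degree `d` in three weights, with its exponent code and value. -/
def V1 (t : T3) (d n : ℕ) (x : ℝ) : Prop :=
  ∃ p q r : ℕ, p + q + r = d ∧ n = q + 3 * r ∧ x = t.p ^ p * t.q ^ q * t.r ^ r

theorem V1.mul {t d n x d' n' x'} (h : V1 t d n x) (h' : V1 t d' n' x') :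
    V1 t (d + d') (n + n') (x * x') := by
  obtain ⟨p, q, r, rfl, rfl, rfl⟩ := h
  obtain ⟨p', q', r', rfl, rfl, rfl⟩ := h'
  exact ⟨p + p', q + q', r + r', by ring, by ring, by ring⟩

theorem V1.zero (t) : V1 t 0 0 1 := ⟨0, 0, 0, rfl, rfl, by simp⟩

theorem V1.uniq {t d n x x'} (hd : d ≤ 2) (h : V1 t d n x) (h' : V1 t d n x') : x = x' := by
  obtain ⟨p, q, r, a, b, rfl⟩ := h
  obtain ⟨p', q', r', a', b', rfl⟩ := h'
  obtain ⟨rfl, rfl, rfl⟩ : p = p' ∧ q = q' ∧ r = r' := by omega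
  rfl

theorem V1.le {t d n x} (hd : d ≤ 2) (h : V1 t d n x) : n ≤ 6 := by
  obtain ⟨p, q, r, a, b, _⟩ := h; omega

theorem V1.nonneg {t d n x} (ht : t.nn) (h : V1 t d n x) : 0 ≤ x := by
  obtain ⟨p, q, r, _, _, rfl⟩ := h
  have := ht.1; have := ht.2.1; have := ht.2.2; positivity

/-- The twelve weights and the slot width. -/
structure Env where
  B : ℕ
  t0 : T3
  t1 : T3
  t2 : T3
  t3 : T3

def Val (e : Env) (d0 d1 d2 d3 n : ℕ) (x : ℝ) : Prop :=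
  ∃ n0 x0 n1 x1 n2 x2 n3 x3, V1 e.t0 d0 n0 x0 ∧ V1 e.t1 d1 n1 x1 ∧ V1 e.t2 d2 n2 x2 ∧
    V1 e.t3 d3 n3 x3 ∧ n = n0 + 7 * n1 + 49 * n2 + 343 * n3 ∧ x = x0 * x1 * x2 * x3

theorem Val.mul {e d0 d1 d2 d3 n x c0 c1 c2 c3 n' x'} (h : Val e d0 d1 d2 d3 n x)
    (h' : Val e c0 c1 c2 c3 n' x') :
    Val e (d0 + c0) (d1 + c1) (d2 + c2) (d3 + c3) (n + n') (x * x') := by
  obtain ⟨n0, x0, n1, x1, n2, x2, n3, x3, a0, a1, a2, a3, rfl, rfl⟩ := h
  obtain ⟨m0, y0, m1, y1, m2, y2, m3, y3, b0, b1, b2, b3, rfl, rfl⟩ := h'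
  exact ⟨_, _, _, _, _, _, _, _, a0.mul b0, a1.mul b1, a2.mul b2, a3.mul b3, by ring, by ring⟩

/-- A packed polynomial together with a bound for the sum of its absolute coefficients. -/
structure K where
  n : ℤ
  m : ℕ

def Rep (e : Env) (d0 d1 d2 d3 : ℕ) (a : K) (v : ℝ) : Prop :=
  ∃ (ι : Type) (_ : Fintype ι) (c : ι → ℤ) (n : ι → ℕ) (x : ι → ℝ),
    (∀ i, Val e d0 d1 d2 d3 (n i) (x i)) ∧ a.n = ∑ i, c i * (2 ^ e.B) ^ n i ∧
      v = ∑ i, c i * x i ∧ ∑ i, |c i| ≤ a.m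

def K.add (a b : K) : K := ⟨Int.add a.n b.n, Nat.add a.m b.m⟩
def K.mul (a b : K) : K := ⟨Int.mul a.n b.n, Nat.mul a.m b.m⟩
def K.cst (c : ℤ) : K := ⟨c, Int.natAbs c⟩
def K.smul (c : ℤ) (a : K) : K := ⟨Int.mul c a.n, Nat.mul (Int.natAbs c) a.m⟩
def K.sub (a b : K) : K := ⟨Int.sub a.n b.n, Nat.add a.m b.m⟩
def K.cmb (k : ℕ) (a b c : K) : K :=
  ⟨Int.add (Int.add a.n (Int.shiftLeft b.n k)) (Int.shiftLeft c.n (Nat.mul 3 k)),
    Nat.add (Nat.add a.m b.m) c.m⟩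

theorem Rep.of_eq {e d0 d1 d2 d3 a v w} (h : Rep e d0 d1 d2 d3 a v) (hv : v = w) :
    Rep e d0 d1 d2 d3 a w := hv ▸ h

theorem Rep.cast {e d0 d1 d2 d3 a b v} (h : Rep e d0 d1 d2 d3 a v) (h1 : a.n = b.n)
    (h2 : a.m ≤ b.m) : Rep e d0 d1 d2 d3 b v := by
  obtain ⟨ι, _, c, n, x, a1, a2, a3, a4⟩ := h
  exact ⟨ι, _, c, n, x, a1, h1 ▸ a2, a3, a4.trans (by exact_mod_cast h2)⟩

theorem Rep.add {e d0 d1 d2 d3 a v b w} (h : Rep e d0 d1 d2 d3 a v)
    (h' : Rep e d0 d1 d2 d3 b w) : Rep e d0 d1 d2 d3 (a.add b) (v + w) := by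
  obtain ⟨ι, _, c, n, x, a1, a2, a3, a4⟩ := h
  obtain ⟨κ, _, c', n', x', b1, b2, b3, b4⟩ := h'
  refine ⟨ι ⊕ κ, inferInstance, Sum.elim c c', Sum.elim n n', Sum.elim x x', ?_, ?_, ?_, ?_⟩
  · rintro (i | i)
    exacts [a1 i, b1 i]
  · rw [Fintype.sum_sum_type]; exact congrArg₂ (· + ·) a2 b2
  · rw [Fintype.sum_sum_type]; exact congrArg₂ (· + ·) a3 b3
  · rw [Fintype.sum_sum_type]
    exact (add_le_add a4 b4).trans (le_of_eq (Nat.cast_add a.m b.m).symm)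

theorem Rep.mul {e d0 d1 d2 d3 a v c0 c1 c2 c3 b w} (h : Rep e d0 d1 d2 d3 a v)
    (h' : Rep e c0 c1 c2 c3 b w) :
    Rep e (d0 + c0) (d1 + c1) (d2 + c2) (d3 + c3) (a.mul b) (v * w) := by
  obtain ⟨ι, _, c, n, x, a1, a2, a3, a4⟩ := h
  obtain ⟨κ, _, c', n', x', b1, b2, b3, b4⟩ := h'
  refine ⟨ι × κ, inferInstance, fun i => c i.1 * c' i.2, fun i => n i.1 + n' i.2,
    fun i => x i.1 * x' i.2, fun i => (a1 i.1).mul (b1 i.2), ?_, ?_, ?_⟩
  · change a.n * b.n = _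
    rw [a2, b2, sum_mul_sum, Fintype.sum_prod_type]
    exact sum_congr rfl fun i _ => sum_congr rfl fun j _ => by rw [pow_add]; ring
  · rw [a3, b3, sum_mul_sum, Fintype.sum_prod_type]
    exact sum_congr rfl fun i _ => sum_congr rfl fun j _ => by push_cast; ring
  · have : ∑ i : ι × κ, |c i.1 * c' i.2| = (∑ i, |c i|) * ∑ j, |c' j| := by
      rw [sum_mul_sum, Fintype.sum_prod_type]
      exact sum_congr rfl fun i _ => sum_congr rfl fun j _ => abs_mul _ _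
    rw [this]
    exact (mul_le_mul a4 b4 (sum_nonneg fun _ _ => abs_nonneg _) (Nat.cast_nonneg _)).trans
      (le_of_eq (Nat.cast_mul a.m b.m).symm)

theorem rep_mon {e d0 d1 d2 d3 n x} (h : Val e d0 d1 d2 d3 n x) (c : ℤ) :
    Rep e d0 d1 d2 d3 ⟨c * (2 ^ e.B) ^ n, c.natAbs⟩ (c * x) :=
  ⟨Unit, inferInstance, fun _ => c, fun _ => n, fun _ => x, fun _ => h, by simp, by simp, by simp⟩

theorem rep_cst (e : Env) (c : ℤ) : Rep e 0 0 0 0 (K.cst c) c :=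
  ((rep_mon (e := e) ⟨0, 1, 0, 1, 0, 1, 0, 1, V1.zero _, V1.zero _, V1.zero _, V1.zero _, rfl,
    rfl⟩ c).cast (b := K.cst c) (by simp [K.cst]) le_rfl).of_eq (by simp)

theorem Rep.smul {e d0 d1 d2 d3 a v} (c : ℤ) (h : Rep e d0 d1 d2 d3 a v) :
    Rep e d0 d1 d2 d3 (K.smul c a) (c * v) := by
  have := (rep_cst e c).mul h
  simp only [zero_add] at this
  exact this

theorem Rep.sub {e d0 d1 d2 d3 a v b w} (h : Rep e d0 d1 d2 d3 a v)
    (h' : Rep e d0 d1 d2 d3 b w) : Rep e d0 d1 d2 d3 (a.sub b) (v - w) :=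
  ((h.add (h'.smul (-1))).cast (by
    change a.n + (-1) * b.n = a.n - b.n
    ring) (by
    change a.m + 1 * b.m ≤ a.m + b.m
    omega)).of_eq (by push_cast; ring)

theorem rep_cmb {e d0 d1 d2 d3 c0 c1 c2 c3 a b c u v w x y z} (j : ℕ)
    (hx : Val e c0 c1 c2 c3 0 x) (hy : Val e c0 c1 c2 c3 j y) (hz : Val e c0 c1 c2 c3 (3 * j) z)
    (ha : Rep e d0 d1 d2 d3 a u) (hb : Rep e d0 d1 d2 d3 b v) (hc : Rep e d0 d1 d2 d3 c w) :
    Rep e (d0 + c0) (d1 + c1) (d2 + c2) (d3 + c3) (K.cmb (Nat.mul e.B j) a b c)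
      (x * u + y * v + z * w) := by
  refine ((((ha.mul (rep_mon hx 1)).add (hb.mul (rep_mon hy 1))).add
    (hc.mul (rep_mon hz 1))).cast ?_ ?_).of_eq (by push_cast; ring)
  · change a.n * (1 * (2 ^ e.B) ^ 0) + b.n * (1 * (2 ^ e.B) ^ j) + c.n * (1 * (2 ^ e.B) ^ (3 * j)) =
      a.n + b.n <<< (e.B * j) + c.n <<< (3 * (e.B * j))
    rw [Int.shiftLeft_eq, Int.shiftLeft_eq, ← pow_mul, ← pow_mul, ← pow_mul,
      show e.B * (3 * j) = 3 * (e.B * j) by ring]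
    simp
  · change a.m * 1 + b.m * 1 + c.m * 1 ≤ a.m + b.m + c.m
    omega

theorem V1.p (t) : V1 t 1 0 t.p := ⟨1, 0, 0, rfl, rfl, by simp⟩
theorem V1.q (t) : V1 t 1 1 t.q := ⟨0, 1, 0, rfl, rfl, by simp⟩
theorem V1.r (t) : V1 t 1 3 t.r := ⟨0, 0, 1, rfl, rfl, by simp⟩

theorem cmb0 {e d0 d1 d2 d3 a b c u v w} (ha : Rep e d0 d1 d2 d3 a u)
    (hb : Rep e d0 d1 d2 d3 b v) (hc : Rep e d0 d1 d2 d3 c w) :
    Rep e (d0 + 1) d1 d2 d3 (K.cmb (Nat.mul e.B 1) a b c)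
      (e.t0.p * u + e.t0.q * v + e.t0.r * w) :=
  rep_cmb (c0 := 1) (c1 := 0) (c2 := 0) (c3 := 0) 1
    ⟨_, _, _, _, _, _, _, _, V1.p _, V1.zero _, V1.zero _, V1.zero _, rfl, by ring⟩
    ⟨_, _, _, _, _, _, _, _, V1.q _, V1.zero _, V1.zero _, V1.zero _, rfl, by ring⟩
    ⟨_, _, _, _, _, _, _, _, V1.r _, V1.zero _, V1.zero _, V1.zero _, rfl, by ring⟩ ha hb hc

theorem cmb1 {e d0 d1 d2 d3 a b c u v w} (ha : Rep e d0 d1 d2 d3 a u)
    (hb : Rep e d0 d1 d2 d3 b v) (hc : Rep e d0 d1 d2 d3 c w) :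
    Rep e d0 (d1 + 1) d2 d3 (K.cmb (Nat.mul e.B 7) a b c)
      (e.t1.p * u + e.t1.q * v + e.t1.r * w) :=
  rep_cmb (c0 := 0) (c1 := 1) (c2 := 0) (c3 := 0) 7
    ⟨_, _, _, _, _, _, _, _, V1.zero _, V1.p _, V1.zero _, V1.zero _, rfl, by ring⟩
    ⟨_, _, _, _, _, _, _, _, V1.zero _, V1.q _, V1.zero _, V1.zero _, rfl, by ring⟩
    ⟨_, _, _, _, _, _, _, _, V1.zero _, V1.r _, V1.zero _, V1.zero _, rfl, by ring⟩ ha hb hc

theorem cmb2 {e d0 d1 d2 d3 a b c u v w} (ha : Rep e d0 d1 d2 d3 a u)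
    (hb : Rep e d0 d1 d2 d3 b v) (hc : Rep e d0 d1 d2 d3 c w) :
    Rep e d0 d1 (d2 + 1) d3 (K.cmb (Nat.mul e.B 49) a b c)
      (e.t2.p * u + e.t2.q * v + e.t2.r * w) :=
  rep_cmb (c0 := 0) (c1 := 0) (c2 := 1) (c3 := 0) 49
    ⟨_, _, _, _, _, _, _, _, V1.zero _, V1.zero _, V1.p _, V1.zero _, rfl, by ring⟩
    ⟨_, _, _, _, _, _, _, _, V1.zero _, V1.zero _, V1.q _, V1.zero _, rfl, by ring⟩
    ⟨_, _, _, _, _, _, _, _, V1.zero _, V1.zero _, V1.r _, V1.zero _, rfl, by ring⟩ ha hb hc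

theorem cmb3 {e d0 d1 d2 d3 a b c u v w} (ha : Rep e d0 d1 d2 d3 a u)
    (hb : Rep e d0 d1 d2 d3 b v) (hc : Rep e d0 d1 d2 d3 c w) :
    Rep e d0 d1 d2 (d3 + 1) (K.cmb (Nat.mul e.B 343) a b c)
      (e.t3.p * u + e.t3.q * v + e.t3.r * w) :=
  rep_cmb (c0 := 0) (c1 := 0) (c2 := 0) (c3 := 1) 343
    ⟨_, _, _, _, _, _, _, _, V1.zero _, V1.zero _, V1.zero _, V1.p _, rfl, by ring⟩
    ⟨_, _, _, _, _, _, _, _, V1.zero _, V1.zero _, V1.zero _, V1.q _, rfl, by ring⟩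
    ⟨_, _, _, _, _, _, _, _, V1.zero _, V1.zero _, V1.zero _, V1.r _, rfl, by ring⟩ ha hb hc

/-- Top bit of each of the first `2 ^ k` slots of width `b + 1`. -/
noncomputable def msk (b k : ℕ) : ℕ :=
  Nat.rec (Nat.shiftLeft 1 b)
    (fun i m => Nat.lor m (Nat.shiftLeft m (Nat.shiftLeft (Nat.succ b) i))) k

theorem msk_bit (b k : ℕ) : ∀ n < 2 ^ k, (msk b k).testBit ((b + 1) * n + b) = true := by
  induction k with
  | zero =>
    intro n hn
    obtain rfl : n = 0 := by omega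
    change (1 <<< b).testBit _ = true
    simp [Nat.shiftLeft_eq]
  | succ k ih =>
    intro n hn
    change (msk b k ||| msk b k <<< ((b + 1) <<< k)).testBit _ = true
    rw [Nat.testBit_or, Nat.testBit_shiftLeft, Nat.shiftLeft_eq]
    by_cases h : n < 2 ^ k
    · rw [ih n h]; rfl
    · obtain ⟨r, rfl⟩ := Nat.exists_eq_add_of_le (not_lt.1 h)
      have e : (b + 1) * (2 ^ k + r) + b - (b + 1) * 2 ^ k = (b + 1) * r + b := by
        rw [mul_add]; omega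
      rw [e, ih r (by omega)]
      have : (b + 1) * (2 ^ k + r) + b ≥ (b + 1) * 2 ^ k := by rw [mul_add]; omega
      simp [this]

theorem digit_small (b k M : ℕ) (h : M &&& msk b k = 0) (n : ℕ) (hn : n < 2 ^ k) :
    M / (2 ^ (b + 1)) ^ n % 2 ^ (b + 1) < 2 ^ b := by
  have h1 : M.testBit ((b + 1) * n + b) = false := by
    have := congrArg (fun x => Nat.testBit x ((b + 1) * n + b)) h
    simpa [Nat.testBit_and, msk_bit b k n hn] using this
  rw [← pow_mul]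
  apply Nat.lt_pow_two_of_testBit
  intro i hi
  rw [Nat.testBit_mod_two_pow, Nat.testBit_div_two_pow]
  rcases hi.eq_or_lt with rfl | h2
  · rw [add_comm b ((b + 1) * n), h1]; simp
  · simp [show ¬ i < b + 1 by omega]

theorem digits_nonneg (H : ℕ) (k : ℕ) : ∀ (M : ℕ) (c : ℕ → ℤ), (∀ n, |c n| < H) →
    (M : ℤ) = ∑ n ∈ range k, c n * ((2 * H : ℕ) : ℤ) ^ n →
    (∀ n < k, M / (2 * H) ^ n % (2 * H) < H) → ∀ n < k, 0 ≤ c n := by
  induction k with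
  | zero => intro _ _ _ _ _ n hn; omega
  | succ k ih =>
    intro M c hc hM hd
    have hH : 0 < H := by have := hc 0; have := abs_nonneg (c 0); omega
    rw [sum_range_succ'] at hM
    set R := ∑ n ∈ range k, c (n + 1) * ((2 * H : ℕ) : ℤ) ^ n with hR
    have h1 : (M : ℤ) = c 0 + (2 * H : ℕ) * R := by
      rw [hM, hR, mul_sum, add_comm]
      congr 1
      · simp
      · exact sum_congr rfl fun n _ => by ring
    have h2 := hd 0 (by omega)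
    rw [pow_zero, Nat.div_one] at h2
    have h3 : (M : ℤ) = (M % (2 * H) : ℕ) + (2 * H : ℕ) * (M / (2 * H) : ℕ) := by
      exact_mod_cast (Nat.mod_add_div M (2 * H)).symm
    have h4 := abs_lt.1 (hc 0)
    have h5 : R = (M / (2 * H) : ℕ) := by
      have h6 : ((2 * H : ℕ) : ℤ) * (R - (M / (2 * H) : ℕ)) = (M % (2 * H) : ℕ) - c 0 := by
        linarith
      have h7 : ((M % (2 * H) : ℕ) : ℤ) < H := by exact_mod_cast h2
      have h8 : (0 : ℤ) ≤ (M % (2 * H) : ℕ) := Nat.cast_nonneg _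
      have h9 : ((2 * H : ℕ) : ℤ) = 2 * H := by push_cast; ring
      have hH' : (0 : ℤ) < H := by exact_mod_cast hH
      rw [h9] at h6
      by_contra hne
      rcases lt_or_gt_of_ne (sub_ne_zero.2 hne) with h | h <;> nlinarith
    intro n hn
    rcases n with _ | n
    · have h8 : (0 : ℤ) ≤ (M % (2 * H) : ℕ) := Nat.cast_nonneg _
      rw [h5] at h1; linarith
    · refine ih (M / (2 * H)) (fun n => c (n + 1)) (fun n => hc _) h5.symm (fun n hn => ?_) n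
        (by omega)
      have := hd (n + 1) (by omega)
      rwa [pow_succ', ← Nat.div_div_eq_div_mul] at this

/-- All packed coefficients are at most zero. -/
noncomputable def neg (b : ℕ) (a : K) : Bool :=
  cond (Nat.blt a.m (Nat.shiftLeft 1 b))
    (Int.rec (fun p => Nat.beq p 0) (fun q => Nat.beq (Nat.land (Nat.succ q) (msk b 12)) 0) a.n)
    false

theorem neg_ok {e : Env} {b d0 d1 d2 d3 a v} (hB : e.B = b + 1) (t0 : e.t0.nn) (t1 : e.t1.nn)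
    (t2 : e.t2.nn) (t3 : e.t3.nn) (h0 : d0 ≤ 2) (h1 : d1 ≤ 2) (h2 : d2 ≤ 2) (h3 : d3 ≤ 2)
    (h : Rep e d0 d1 d2 d3 a v) (hn : neg b a = true) : v ≤ 0 := by
  classical
  obtain ⟨ι, _, c, n, x, a1, a2, a3, a4⟩ := h
  have hm : a.m < 2 ^ b ∧ ∃ M : ℕ, (M : ℤ) = -a.n ∧ M &&& msk b 12 = 0 := by
    unfold neg at hn
    cases hb : Nat.blt a.m (Nat.shiftLeft 1 b)
    · rw [hb] at hn; exact absurd hn Bool.false_ne_true
    · rw [hb] at hn
      refine ⟨?_, ?_⟩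
      · have := Nat.blt_eq.mp hb
        change a.m < 1 <<< b at this
        rwa [Nat.shiftLeft_eq, one_mul] at this
      · rcases ha : a.n with p | q
        · rw [ha] at hn
          obtain rfl : p = 0 := Nat.eq_of_beq_eq_true hn
          exact ⟨0, rfl, by simp⟩
        · rw [ha] at hn
          exact ⟨q + 1, rfl, Nat.eq_of_beq_eq_true hn⟩
  obtain ⟨hm, M, hM, hz⟩ := hm
  have hlt : ∀ i, n i ∈ range 4096 := fun i => by
    obtain ⟨n0, x0, n1, x1, n2, x2, n3, x3, b0, b1, b2, b3, e1, _⟩ := a1 i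
    have := b0.le h0; have := b1.le h1; have := b2.le h2; have := b3.le h3
    rw [mem_range]; omega
  set C : ℕ → ℤ := fun s => -∑ i with n i = s, c i with hC
  have hC1 : ∀ s, |C s| < (2 ^ b : ℕ) := fun s => by
    rw [hC, abs_neg]
    calc _ ≤ ∑ i with n i = s, |c i| := abs_sum_le_sum_abs _ _
      _ ≤ ∑ i, |c i| := sum_le_sum_of_subset_of_nonneg (filter_subset _ _) fun _ _ _ => abs_nonneg _
      _ ≤ a.m := a4
      _ < _ := by exact_mod_cast hm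
  have hC2 : (M : ℤ) = ∑ s ∈ range 4096, C s * ((2 * 2 ^ b : ℕ) : ℤ) ^ s := by
    rw [hM, a2, ← sum_fiberwise_of_maps_to (g := n) (t := range 4096) fun i _ => hlt i,
      ← sum_neg_distrib]
    refine sum_congr rfl fun s _ => ?_
    rw [hC, neg_mul, sum_mul]
    congr 1
    refine sum_congr rfl fun i hi => ?_
    rw [(mem_filter.1 hi).2, hB]; push_cast; ring
  have hC3 := digits_nonneg (2 ^ b) 4096 M C hC1 hC2 fun s hs => by
    have := digit_small b 12 M hz s (by omega)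
    rwa [pow_succ' 2 b] at this
  rw [a3, ← sum_fiberwise_of_maps_to (g := n) (t := range 4096) fun i _ => hlt i]
  refine sum_nonpos fun s hs => ?_
  rcases (filter (fun i => n i = s) univ).eq_empty_or_nonempty with h | ⟨j, hj⟩
  · rw [h]; simp
  · have hj' := (mem_filter.1 hj).2
    obtain ⟨n0, x0, n1, x1, n2, x2, n3, x3, b0, b1, b2, b3, e1, e2⟩ := a1 j
    have : ∑ i with n i = s, (c i : ℝ) * x i = (∑ i with n i = s, c i : ℤ) * x j := by
      push_cast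
      rw [sum_mul]
      refine sum_congr rfl fun i hi => ?_
      have hi' := (mem_filter.1 hi).2
      obtain ⟨m0, y0, m1, y1, m2, y2, m3, y3, c0, c1, c2, c3, f1, f2⟩ := a1 i
      have := b0.le h0; have := b1.le h1; have := b2.le h2; have := b3.le h3
      have := c0.le h0; have := c1.le h1; have := c2.le h2; have := c3.le h3
      obtain ⟨rfl, rfl, rfl, rfl⟩ : m0 = n0 ∧ m1 = n1 ∧ m2 = n2 ∧ m3 = n3 := by omega
      rw [f2, e2, b0.uniq h0 c0, b1.uniq h1 c1, b2.uniq h2 c2, b3.uniq h3 c3]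
    rw [this]
    have h5 : (∑ i with n i = s, c i : ℤ) ≤ 0 := by
      have := hC3 s (mem_range.1 hs); simp only [hC] at this; linarith
    have h6 : 0 ≤ x j := by
      rw [e2]
      have := b0.nonneg t0; have := b1.nonneg t1; have := b2.nonneg t2; have := b3.nonneg t3
      positivity
    exact mul_nonpos_of_nonpos_of_nonneg (by exact_mod_cast h5) h6

end Pool.Agent.P.MP_65d7bf_co
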