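import Pool.Agent.P.MP_65d7bf_co.Sem

namespace Pool.Agent.P.MP_65d7bf_co.Loc

noncomputable section

/-- Packed polynomials with coefficients `a + b √2`. -/
structure K2 where
  (a b : K)

def Rp (e : Env) (d0 d1 d2 d3 : ℕ) (x : K2) (v : ℝ) : Prop :=
  ∃ va vb, Rep e d0 d1 d2 d3 x.a va ∧ Rep e d0 d1 d2 d3 x.b vb ∧ v = va + √2 * vb

def K2.add (x y : K2) : K2 := ⟨x.a.add y.a, x.b.add y.b⟩
def K2.sub (x y : K2) : K2 := ⟨x.a.sub y.a, x.b.sub y.b⟩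
def K2.mul (x y : K2) : K2 :=
  ⟨(x.a.mul y.a).add (K.smul 2 (x.b.mul y.b)), (x.a.mul y.b).add (x.b.mul y.a)⟩
def K2.smul (c : ℤ) (x : K2) : K2 := ⟨K.smul c x.a, K.smul c x.b⟩
def z2 : K2 := ⟨⟨0, 0⟩, ⟨0, 0⟩⟩
def lk (k : ℕ) (a b c : ℤ) : K := K.cmb k (K.cst a) (K.cst b) (K.cst c)
def ng (b : ℕ) (x : K2) : Bool :=
  Bool.rec false (neg b ((K.smul 195025 x.a).add (K.smul 275807 x.b)))
    (neg b ((K.smul 470832 x.a).add (K.smul 665857 x.b)))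

variable {e : Env} {d0 d1 d2 d3 c0 c1 c2 c3 : ℕ}

theorem Rp.of_eq {x v w} (h : Rp e d0 d1 d2 d3 x v) (hv : v = w) : Rp e d0 d1 d2 d3 x w := hv ▸ h

theorem Rp.add {x v y w} (h : Rp e d0 d1 d2 d3 x v) (h' : Rp e d0 d1 d2 d3 y w) :
    Rp e d0 d1 d2 d3 (x.add y) (v + w) := by
  obtain ⟨a, b, ha, hb, rfl⟩ := h
  obtain ⟨c, d, hc, hd, rfl⟩ := h'
  exact ⟨_, _, ha.add hc, hb.add hd, by ring⟩

theorem Rp.sub {x v y w} (h : Rp e d0 d1 d2 d3 x v) (h' : Rp e d0 d1 d2 d3 y w) :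
    Rp e d0 d1 d2 d3 (x.sub y) (v - w) := by
  obtain ⟨a, b, ha, hb, rfl⟩ := h
  obtain ⟨c, d, hc, hd, rfl⟩ := h'
  exact ⟨_, _, ha.sub hc, hb.sub hd, by ring⟩

theorem Rp.smul {x v} (c : ℤ) (h : Rp e d0 d1 d2 d3 x v) :
    Rp e d0 d1 d2 d3 (x.smul c) (c * v) := by
  obtain ⟨a, b, ha, hb, rfl⟩ := h
  exact ⟨_, _, ha.smul c, hb.smul c, by ring⟩

theorem Rp.mul {x v y w} (h : Rp e d0 d1 d2 d3 x v) (h' : Rp e c0 c1 c2 c3 y w) :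
    Rp e (d0 + c0) (d1 + c1) (d2 + c2) (d3 + c3) (x.mul y) (v * w) := by
  obtain ⟨a, b, ha, hb, rfl⟩ := h
  obtain ⟨c, d, hc, hd, rfl⟩ := h'
  refine ⟨_, _, (ha.mul hc).add ((hb.mul hd).smul 2), (ha.mul hd).add (hb.mul hc), ?_⟩
  have := Real.mul_self_sqrt (show (0 : ℝ) ≤ 2 by norm_num)
  push_cast
  linear_combination b * d * this

theorem rep0 (e : Env) (d0 d1 d2 d3 : ℕ) : Rep e d0 d1 d2 d3 ⟨0, 0⟩ 0 :=
  ⟨Empty, inferInstance, fun _ => 0, fun _ => 0, fun _ => 0, fun i => i.elim, by simp, by simp,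
    by simp⟩

theorem rp0 (e : Env) (d0 d1 d2 d3 : ℕ) : Rp e d0 d1 d2 d3 z2 0 :=
  ⟨0, 0, rep0 .., rep0 .., by simp⟩

/-- The environment has slot width `b + 1` and nonnegative weights. -/
def Ok (e : Env) (b : ℕ) : Prop := e.B = b + 1 ∧ e.t0.nn ∧ e.t1.nn ∧ e.t2.nn ∧ e.t3.nn

theorem ng_ok {b x v} (o : Ok e b) (h0 : d0 ≤ 2) (h1 : d1 ≤ 2) (h2 : d2 ≤ 2) (h3 : d3 ≤ 2)
    (h : Rp e d0 d1 d2 d3 x v) (hn : ng b x = true) : v ≤ 0 := by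
  obtain ⟨a, c, ha, hc, rfl⟩ := h
  unfold ng at hn
  cases h4 : neg b ((K.smul 470832 x.a).add (K.smul 665857 x.b)) <;> rw [h4] at hn
  · exact absurd hn Bool.false_ne_true
  have e1 := neg_ok o.1 o.2.1 o.2.2.1 o.2.2.2.1 o.2.2.2.2 h0 h1 h2 h3
    ((ha.smul 470832).add (hc.smul 665857)) h4
  have e2 := neg_ok o.1 o.2.1 o.2.2.1 o.2.2.2.1 o.2.2.2.2 h0 h1 h2 h3
    ((ha.smul 195025).add (hc.smul 275807)) hn
  have s1 : (275807 : ℝ) / 195025 ≤ √2 := Real.le_sqrt_of_sq_le (by norm_num)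
  have s2 : √2 ≤ (665857 : ℝ) / 470832 := Real.sqrt_le_iff.2 (by norm_num)
  push_cast at e1 e2
  rcases le_total 0 c with h | h <;> nlinarith

def Cm (e : Env) (d0 d1 d2 d3 k : ℕ) (t : T3) : Prop :=
  ∀ a b c : ℤ, Rep e d0 d1 d2 d3 (lk k a b c) (t.p * a + t.q * b + t.r * c)

theorem cm0 (e : Env) : Cm e 1 0 0 0 (Nat.mul e.B 1) e.t0 := fun a b c =>
  cmb0 (rep_cst e a) (rep_cst e b) (rep_cst e c)
theorem cm1 (e : Env) : Cm e 0 1 0 0 (Nat.mul e.B 7) e.t1 := fun a b c =>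
  cmb1 (rep_cst e a) (rep_cst e b) (rep_cst e c)
theorem cm2 (e : Env) : Cm e 0 0 1 0 (Nat.mul e.B 49) e.t2 := fun a b c =>
  cmb2 (rep_cst e a) (rep_cst e b) (rep_cst e c)
theorem cm3 (e : Env) : Cm e 0 0 0 1 (Nat.mul e.B 343) e.t3 := fun a b c =>
  cmb3 (rep_cst e a) (rep_cst e b) (rep_cst e c)

structure Y4 where
  (y0 y1 y2 y3 : K2)

def RY (e : Env) (d0 d1 d2 d3 : ℕ) (y : Y4) (x : X4) : Prop :=
  Rp e d0 d1 d2 d3 y.y0 x.x0 ∧ Rp e d0 d1 d2 d3 y.y1 x.x1 ∧ Rp e d0 d1 d2 d3 y.y2 x.x2 ∧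
    Rp e d0 d1 d2 d3 y.y3 x.x3

def mn (a b c d : K2) : K2 := (a.mul d).sub (b.mul c)
theorem rp_mn {a b c d x y z w} (ha : Rp e d0 d1 d2 d3 a x) (hb : Rp e d0 d1 d2 d3 b y)
    (hc : Rp e c0 c1 c2 c3 c z) (hd : Rp e c0 c1 c2 c3 d w) :
    Rp e (d0 + c0) (d1 + c1) (d2 + c2) (d3 + c3) (mn a b c d) (x * w - y * z) :=
  (ha.mul hd).sub (hb.mul hc)

def kdet (p q r s : Y4) : K2 :=
  ((((mn p.y0 p.y1 q.y0 q.y1).mul (mn r.y2 r.y3 s.y2 s.y3)).sub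
    ((mn p.y0 p.y2 q.y0 q.y2).mul (mn r.y1 r.y3 s.y1 s.y3))).add
    (((mn p.y0 p.y3 q.y0 q.y3).mul (mn r.y1 r.y2 s.y1 s.y2)).add
    ((mn p.y1 p.y2 q.y1 q.y2).mul (mn r.y0 r.y3 s.y0 s.y3)))).add
    (((mn p.y2 p.y3 q.y2 q.y3).mul (mn r.y0 r.y1 s.y0 s.y1)).sub
    ((mn p.y1 p.y3 q.y1 q.y3).mul (mn r.y0 r.y2 s.y0 s.y2)))

/-- The determinant of four columns. -/
def rdet (p q r s : X4) : ℝ :=
  (p.x0 * q.x1 - p.x1 * q.x0) * (r.x2 * s.x3 - r.x3 * s.x2) -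
    (p.x0 * q.x2 - p.x2 * q.x0) * (r.x1 * s.x3 - r.x3 * s.x1) +
    ((p.x0 * q.x3 - p.x3 * q.x0) * (r.x1 * s.x2 - r.x2 * s.x1) +
    (p.x1 * q.x2 - p.x2 * q.x1) * (r.x0 * s.x3 - r.x3 * s.x0)) +
    ((p.x2 * q.x3 - p.x3 * q.x2) * (r.x0 * s.x1 - r.x1 * s.x0) -
    (p.x1 * q.x3 - p.x3 * q.x1) * (r.x0 * s.x2 - r.x2 * s.x0))

theorem rp_det {p q r s x y z w} (hp : RY e 1 0 0 0 p x) (hq : RY e 0 1 0 0 q y)
    (hr : RY e 0 0 1 0 r z) (hs : RY e 0 0 0 1 s w) :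
    Rp e 1 1 1 1 (kdet p q r s) (rdet x y z w) := by
  obtain ⟨p0, p1, p2, p3⟩ := hp
  obtain ⟨q0, q1, q2, q3⟩ := hq
  obtain ⟨r0, r1, r2, r3⟩ := hr
  obtain ⟨s0, s1, s2, s3⟩ := hs
  exact ((((rp_mn p0 p1 q0 q1).mul (rp_mn r2 r3 s2 s3)).sub
    ((rp_mn p0 p2 q0 q2).mul (rp_mn r1 r3 s1 s3))).add
    (((rp_mn p0 p3 q0 q3).mul (rp_mn r1 r2 s1 s2)).add
    ((rp_mn p1 p2 q1 q2).mul (rp_mn r0 r3 s0 s3)))).add
    (((rp_mn p2 p3 q2 q3).mul (rp_mn r0 r1 s0 s1)).sub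
    ((rp_mn p1 p3 q1 q3).mul (rp_mn r0 r2 s0 s2)))

def Y4.set (y : Y4) (a : ℕ) (z : K2) : Y4 :=
  sel a ⟨z, y.y1, y.y2, y.y3⟩ ⟨y.y0, z, y.y2, y.y3⟩ ⟨y.y0, y.y1, z, y.y3⟩ ⟨y.y0, y.y1, y.y2, z⟩
def xset (y : X4) (a : ℕ) (z : ℝ) : X4 :=
  sel a ⟨z, y.x1, y.x2, y.x3⟩ ⟨y.x0, z, y.x2, y.x3⟩ ⟨y.x0, y.x1, z, y.x3⟩ ⟨y.x0, y.x1, y.x2, z⟩

theorem RY.set {y x z v} (h : RY e d0 d1 d2 d3 y x) (a : ℕ) (hz : Rp e d0 d1 d2 d3 z v) :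
    RY e d0 d1 d2 d3 (y.set a z) (xset x a v) := by
  unfold Y4.set xset sel
  cases Nat.ble a 1 <;> cases Nat.beq a 0 <;> cases Nat.beq a 2
  all_goals first
    | exact ⟨hz, h.2⟩
    | exact ⟨h.1, hz, h.2.2⟩
    | exact ⟨h.1, h.2.1, hz, h.2.2.2⟩
    | exact ⟨h.1, h.2.1, h.2.2.1, hz⟩

/-- A triangle with vertices `a + s √2`, `b`, `c`. -/
structure Tg where
  (a0 a1 a2 s0 s1 s2 b0 b1 b2 c0 c1 c2 : ℤ)

def tg (o : ℕ) : Tg :=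
  sel o ⟨750, 0, 250, -250, 250, 0, 384, 378, 238, 384, 342, 274⟩
    ⟨750, 0, 250, -250, 250, 0, 384, 342, 274, 420, 342, 238⟩
    ⟨750, 0, 250, -250, 250, 0, 420, 342, 238, 384, 378, 238⟩
    ⟨420, 342, 238, 0, 0, 0, 384, 378, 238, 384, 342, 274⟩

def InG (g : Tg) (y : R3) (t : T3) : Prop :=
  t.p + t.q + t.r = 1 ∧ y.a = t.p * (g.a0 + √2 * g.s0) + t.q * g.b0 + t.r * g.c0 ∧
    y.b = t.p * (g.a1 + √2 * g.s1) + t.q * g.b1 + t.r * g.c1 ∧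
    y.c = t.p * (g.a2 + √2 * g.s2) + t.q * g.b2 + t.r * g.c2

def en (k : ℕ) (a s b c : ℤ) : K2 := ⟨lk k a b c, lk k s 0 0⟩
theorem rp_en {k t} (h : Cm e d0 d1 d2 d3 k t) (a s b c : ℤ) :
    Rp e d0 d1 d2 d3 (en k a s b c) (t.p * (a + √2 * s) + t.q * b + t.r * c) :=
  ⟨_, _, h a b c, h s 0 0, by push_cast; ring⟩

structure Cs where
  (k0 k1 k2 k3 : ℕ)
  (c0 c1 c2 c3 : Y4)
  (s0 s1 s2 s3 s01 s23 D : K2)

def mkCs2 (k0 k1 k2 k3 : ℕ) (c0 c1 c2 c3 : Y4) (s0 s1 s2 s3 : K2) : Cs :=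
  ⟨k0, k1, k2, k3, c0, c1, c2, c3, s0, s1, s2, s3, s0.mul s1, s2.mul s3, kdet c0 c1 c2 c3⟩
def mkCs1 (k0 k1 k2 k3 : ℕ) (f g h i : Tg) : Cs :=
  mkCs2 k0 k1 k2 k3
    ⟨z2, en k0 f.a2 f.s2 f.b2 f.c2, en k0 f.a1 f.s1 f.b1 f.c1, en k0 f.a0 f.s0 f.b0 f.c0⟩
    ⟨en k1 g.a0 g.s0 g.b0 g.c0, z2, en k1 g.a2 g.s2 g.b2 g.c2, en k1 g.a1 g.s1 g.b1 g.c1⟩
    ⟨en k2 h.a1 h.s1 h.b1 h.c1, en k2 h.a0 h.s0 h.b0 h.c0, z2, en k2 h.a2 h.s2 h.b2 h.c2⟩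
    ⟨en k3 i.a2 i.s2 i.b2 i.c2, en k3 i.a1 i.s1 i.b1 i.c1, en k3 i.a0 i.s0 i.b0 i.c0, z2⟩
    (en k0 1 0 1 1) (en k1 1 0 1 1) (en k2 1 0 1 1) (en k3 1 0 1 1)
def mkCs (b o0 o1 o2 o3 : ℕ) : Cs :=
  mkCs1 (Nat.mul (Nat.succ b) 1) (Nat.mul (Nat.succ b) 7) (Nat.mul (Nat.succ b) 49)
    (Nat.mul (Nat.succ b) 343) (tg o0) (tg o1) (tg o2) (tg o3)

/-- The four columns. -/
def cols (p q r s : R3) : Rows :=
  ⟨⟨0, p.c, p.b, p.a⟩, ⟨q.a, 0, q.c, q.b⟩, ⟨r.b, r.a, 0, r.c⟩, ⟨s.c, s.b, s.a, 0⟩⟩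

structure CsOk (e : Env) (c : Cs) (X : Rows) : Prop where
  k0 : Cm e 1 0 0 0 c.k0 e.t0
  k1 : Cm e 0 1 0 0 c.k1 e.t1
  k2 : Cm e 0 0 1 0 c.k2 e.t2
  k3 : Cm e 0 0 0 1 c.k3 e.t3
  c0 : RY e 1 0 0 0 c.c0 X.r0
  c1 : RY e 0 1 0 0 c.c1 X.r1
  c2 : RY e 0 0 1 0 c.c2 X.r2
  c3 : RY e 0 0 0 1 c.c3 X.r3
  s0 : Rp e 1 0 0 0 c.s0 1
  s1 : Rp e 0 1 0 0 c.s1 1
  s2 : Rp e 0 0 1 0 c.s2 1
  s3 : Rp e 0 0 0 1 c.s3 1
  s01 : Rp e 1 1 0 0 c.s01 1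
  s23 : Rp e 0 0 1 1 c.s23 1
  D : Rp e 1 1 1 1 c.D (rdet X.r0 X.r1 X.r2 X.r3)

theorem mkCs_ok {b o0 o1 o2 o3 p q r s} (o : Ok e b) (h0 : InG (tg o0) p e.t0)
    (h1 : InG (tg o1) q e.t1) (h2 : InG (tg o2) r e.t2) (h3 : InG (tg o3) s e.t3) :
    CsOk e (mkCs b o0 o1 o2 o3) (cols p q r s) := by
  have k0 := cm0 e
  have k1 := cm1 e
  have k2 := cm2 e
  have k3 := cm3 e
  rw [o.1] at k0 k1 k2 k3
  have s0 := (rp_en k0 1 0 1 1).of_eq (w := 1) (by simpa using h0.1)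
  have s1 := (rp_en k1 1 0 1 1).of_eq (w := 1) (by simpa using h1.1)
  have s2 := (rp_en k2 1 0 1 1).of_eq (w := 1) (by simpa using h2.1)
  have s3 := (rp_en k3 1 0 1 1).of_eq (w := 1) (by simpa using h3.1)
  have c0 : RY e 1 0 0 0 (mkCs b o0 o1 o2 o3).c0 (cols p q r s).r0 :=
    ⟨rp0 .., (rp_en k0 ..).of_eq h0.2.2.2.symm, (rp_en k0 ..).of_eq h0.2.2.1.symm,
      (rp_en k0 ..).of_eq h0.2.1.symm⟩
  have c1 : RY e 0 1 0 0 (mkCs b o0 o1 o2 o3).c1 (cols p q r s).r1 :=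
    ⟨(rp_en k1 ..).of_eq h1.2.1.symm, rp0 .., (rp_en k1 ..).of_eq h1.2.2.2.symm,
      (rp_en k1 ..).of_eq h1.2.2.1.symm⟩
  have c2 : RY e 0 0 1 0 (mkCs b o0 o1 o2 o3).c2 (cols p q r s).r2 :=
    ⟨(rp_en k2 ..).of_eq h2.2.2.1.symm, (rp_en k2 ..).of_eq h2.2.1.symm, rp0 ..,
      (rp_en k2 ..).of_eq h2.2.2.2.symm⟩
  have c3 : RY e 0 0 0 1 (mkCs b o0 o1 o2 o3).c3 (cols p q r s).r3 :=
    ⟨(rp_en k3 ..).of_eq h3.2.2.2.symm, (rp_en k3 ..).of_eq h3.2.2.1.symm,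
      (rp_en k3 ..).of_eq h3.2.1.symm, rp0 ..⟩
  exact ⟨k0, k1, k2, k3, c0, c1, c2, c3, s0, s1, s2, s3, (s0.mul s1).of_eq (mul_one 1),
    (s2.mul s3).of_eq (mul_one 1), rp_det c0 c1 c2 c3⟩

structure Dr where
  (u0 u1 u2 u3 : ℤ)
  (t b : ℕ)
  (al be : ℤ)

def kN (c : Cs) (d : Dr) (a : ℕ) : K2 :=
  kdet (c.c0.set a (c.s0.smul d.u0)) (c.c1.set a (c.s1.smul d.u1)) (c.c2.set a (c.s2.smul d.u2))
    (c.c3.set a (c.s3.smul d.u3))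
def rN (X : Rows) (d : Dr) (a : ℕ) : ℝ :=
  rdet (xset X.r0 a d.u0) (xset X.r1 a d.u1) (xset X.r2 a d.u2) (xset X.r3 a d.u3)

theorem CsOk.N {c X} (h : CsOk e c X) (d : Dr) (a : ℕ) : Rp e 1 1 1 1 (kN c d a) (rN X d a) :=
  rp_det (h.c0.set a ((h.s0.smul _).of_eq (mul_one _))) (h.c1.set a ((h.s1.smul _).of_eq (mul_one _)))
    (h.c2.set a ((h.s2.smul _).of_eq (mul_one _))) (h.c3.set a ((h.s3.smul _).of_eq (mul_one _)))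

def kP (c : Cs) (d : Dr) : K2 :=
  (K2.mul ⟨K.cst 2, K.cst 1⟩ c.D).sub ((kN c d d.t).sub (kN c d d.b))
def rP (X : Rows) (d : Dr) : ℝ :=
  (2 + √2) * rdet X.r0 X.r1 X.r2 X.r3 - (rN X d d.t - rN X d d.b)

theorem CsOk.pp {c X} (h : CsOk e c X) (d : Dr) : Rp e 1 1 1 1 (kP c d) (rP X d) :=
  (Rp.mul (e := e) (x := ⟨K.cst 2, K.cst 1⟩) ⟨_, _, rep_cst e 2, rep_cst e 1, by simp⟩ h.D).sub
    ((h.N d d.t).sub (h.N d d.b))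

def dgt (x i : ℕ) : ℤ := Int.subNatNat (Nat.land (Nat.shiftRight x (Nat.mul 14 i)) 16383) 8192
def fm (c : Cs) (al be : ℤ) (x : ℕ) : K2 :=
  (((K2.mul ⟨lk c.k0 al (Int.add al (dgt x 0)) (Int.add al (dgt x 1)), lk c.k0 be be be⟩ c.s1).add
    (c.s0.mul (en c.k1 0 0 (dgt x 2) (dgt x 3)))).mul c.s23).add
    (c.s01.mul (((en c.k2 0 0 (dgt x 4) (dgt x 5)).mul c.s3).add
      (c.s2.mul (en c.k3 0 0 (dgt x 6) (dgt x 7)))))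

theorem CsOk.fm {c X} (h : CsOk e c X) (al be : ℤ) (x : ℕ) : ∃ v, Rp e 1 1 1 1 (fm c al be x) v :=
  ⟨_, (((Rp.mul (e := e) (x := ⟨_, _⟩) ⟨_, _, h.k0 .., h.k0 .., rfl⟩ h.s1).add
    (h.s0.mul (rp_en h.k1 ..))).mul h.s23).add
    (h.s01.mul (((rp_en h.k2 ..).mul h.s3).add (h.s2.mul (rp_en h.k3 ..))))⟩

def sq1 (x : K2) : K2 := (x.mul x).smul 16777216
def gq (b : ℕ) (c : Cs) (l : List ℕ) : K2 → Bool :=
  List.rec (ng b) (fun x _ ih acc => ih (acc.add (sq1 (fm c 0 0 x)))) l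
def gm1 (b : ℕ) (c : Cs) (d : Dr) (m acc : K2) (f : K2 → Bool) : Bool :=
  Bool.rec false (f (acc.add (m.mul (kP c d)))) (ng b ((c.s01.mul c.s23).sub m))
def gm (b : ℕ) (c : Cs) (ds : List Dr) : List ℕ → K2 → Bool :=
  List.rec (gq b c) (fun d _ ih l acc =>
    List.rec false (fun x t _ => gm1 b c d (fm c d.al d.be x) acc (ih t)) l) ds

theorem gq_ok {b c X} (o : Ok e b) (h : CsOk e c X) (l : List ℕ) :
    ∀ acc v, Rp e 2 2 2 2 acc v → gq b c l acc = true → v ≤ 0 := by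
  induction l with
  | nil => exact fun acc v a g => ng_ok o le_rfl le_rfl le_rfl le_rfl a g
  | cons x l ih =>
    intro acc v a g
    obtain ⟨w, hw⟩ := h.fm 0 0 x
    have := ih _ _ (a.add ((hw.mul hw).smul 16777216)) g
    push_cast at this
    nlinarith [mul_self_nonneg w]

theorem gm_ok {b c X} (o : Ok e b) (h : CsOk e c X) (ds : List Dr) :
    ∀ l acc v, (∀ d ∈ ds, 0 < rP X d) → Rp e 2 2 2 2 acc v → gm b c ds l acc = true →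
      v ≤ 0 ∧ (ds ≠ [] → v < 0) := by
  induction ds with
  | nil => exact fun l acc v _ a g => ⟨gq_ok o h l acc v a g, fun x => absurd rfl x⟩
  | cons d ds ih =>
    intro l acc v hp a g
    rcases l with _ | ⟨x, t⟩
    · exact absurd g Bool.false_ne_true
    obtain ⟨w, hw⟩ := h.fm d.al d.be x
    change gm1 b c d (fm c d.al d.be x) acc (gm b c ds t) = true at g
    unfold gm1 at g
    cases h4 : ng b ((c.s01.mul c.s23).sub (fm c d.al d.be x)) <;> rw [h4] at g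
    · exact absurd g Bool.false_ne_true
    have e1 := ng_ok o one_le_two one_le_two one_le_two one_le_two
      (Rp.sub (h.s01.mul h.s23) hw) h4
    have e2 := (ih t _ _ (fun y hy => hp y (List.mem_cons_of_mem _ hy)) (a.add (hw.mul (h.pp d))) g).1
    have e3 := mul_pos (show 0 < w by linarith) (hp d List.mem_cons_self)
    exact ⟨by linarith, fun _ => by linarith⟩

def dirs : List Dr :=
  [⟨0, 0, 1000, 1000, 1, 3, 0, 10000⟩, ⟨0, 0, 1000, 0, 1, 2, 10000, 0⟩,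
   ⟨0, 1000, 0, 0, 0, 1, 10000, 0⟩, ⟨0, 1000, 1000, 1000, 0, 3, 10000, 0⟩,
   ⟨0, 1000, 1000, 0, 0, 2, 0, 10000⟩, ⟨0, 0, 0, 1000, 2, 3, 10000, 0⟩]

def cell (b n : ℕ) (l : List ℕ) : Bool :=
  gm b (mkCs b (Nat.mod n 3) (Nat.mod (Nat.div n 3) 3) (Nat.mod (Nat.div n 9) 3) (Nat.div n 27))
    dirs l z2

def cells (b : ℕ) (l : List (List ℕ)) : ℕ → Bool :=
  List.rec (fun _ => true) (fun x _ ih n => Bool.rec false (ih (Nat.succ n)) (cell b n x)) l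

theorem cells_ok {b} (l : List (List ℕ)) : ∀ n, cells b l n = true → ∀ i, n ≤ i →
    i < n + l.length → ∃ x, cell b i x = true := by
  induction l with
  | nil => intro n _ i h1 h2; simp at h2; omega
  | cons x l ih =>
    intro n g i h1 h2
    change Bool.rec false (cells b l (n + 1)) (cell b n x) = true at g
    cases h4 : cell b n x <;> rw [h4] at g
    · exact absurd g Bool.false_ne_true
    rcases h1.eq_or_lt with rfl | h1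
    · exact ⟨x, h4⟩
    · exact ih _ g i h1 (by simp at h2; omega)

def dm1 (b : ℕ) (t u x : K2) : Bool := Bool.rec false (ng b (t.sub x)) (ng b (x.sub u))
def dm2 (b : ℕ) (c : Cs) (d : Dr) (t u : K2) : Bool := all4 fun a => dm1 b t u (kN c d a)
def dm (b : ℕ) (c : Cs) (ds : List Dr) : Bool :=
  List.rec (ng b c.D) (fun d _ ih => Bool.rec false ih (dm2 b c d (kN c d d.t) (kN c d d.b))) ds

theorem all4_ok {f : ℕ → Bool} (h : all4 f = true) (a : ℕ) (ha : a < 4) : f a = true := by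
  unfold all4 at h
  cases e0 : f 0 <;> cases e1 : f 1 <;> cases e2 : f 2 <;> rw [e0, e1, e2] at h <;>
    first | exact absurd h Bool.false_ne_true | (interval_cases a <;> assumption)

theorem dm_ok {b c X} (o : Ok e b) (h : CsOk e c X) (ds : List Dr) (g : dm b c ds = true) :
    rdet X.r0 X.r1 X.r2 X.r3 ≤ 0 ∧
      ∀ d ∈ ds, ∀ a < 4, rN X d d.t ≤ rN X d a ∧ rN X d a ≤ rN X d d.b := by
  induction ds with
  | nil => exact ⟨ng_ok o one_le_two one_le_two one_le_two one_le_two h.D g, by simp⟩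
  | cons d ds ih =>
    change Bool.rec false (dm b c ds) (dm2 b c d (kN c d d.t) (kN c d d.b)) = true at g
    cases h4 : dm2 b c d (kN c d d.t) (kN c d d.b) <;> rw [h4] at g
    · exact absurd g Bool.false_ne_true
    refine ⟨(ih g).1, fun y hy a ha => ?_⟩
    rcases List.mem_cons.1 hy with rfl | hy
    swap
    · exact (ih g).2 y hy a ha
    have h5 : dm1 b (kN c y y.t) (kN c y y.b) (kN c y a) = true := all4_ok h4 a ha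
    unfold dm1 at h5
    cases h6 : ng b ((kN c y a).sub (kN c y y.b)) <;> rw [h6] at h5
    · exact absurd h5 Bool.false_ne_true
    exact ⟨sub_nonpos.1 (ng_ok o one_le_two one_le_two one_le_two one_le_two
      ((h.N y _).sub (h.N y a)) h5), sub_nonpos.1 (ng_ok o one_le_two one_le_two one_le_two
      one_le_two ((h.N y a).sub (h.N y _)) h6)⟩

end

end Pool.Agent.P.MP_65d7bf_co.Loc
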