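import Pool.Agent.P.MP_65d7bf_co.Def

namespace Pool.Agent.P.MP_65d7bf_co

noncomputable section

/-- Four values of an affine functional. -/
structure X4 where
  (x0 x1 x2 x3 : ℝ)

structure R3 where
  (a b c : ℝ)

structure Rows where
  (r0 r1 r2 r3 : X4)

def X4.nv (x : X4) (k : ℕ) : R3 := ⟨x.x1 - x.x0, x.x2 - x.x0, x.x3 - (x.x0 + k * (x.x0 + x.x1 + x.x2))⟩
def X4.sig (x : X4) : ℝ := x.x0 + x.x1 + x.x2 + x.x3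
def X4.ev (x : X4) (k : ℕ) (h a b c : ℝ) : ℝ :=
  (h - a - b - (3 * k + 1) * c) * x.x0 + a * x.x1 + b * x.x2 + c * x.x3
def X4.ent (x : X4) (j : ℕ) : ℝ := sel j x.x0 x.x1 x.x2 x.x3
def R3.crs (x y : R3) : R3 := ⟨x.b * y.c - x.c * y.b, x.c * y.a - x.a * y.c, x.a * y.b - x.b * y.a⟩
def R3.dot (x y : R3) : ℝ := x.a * y.a + x.b * y.b + x.c * y.c
def U.re (u : U) : R3 := ⟨(u.xp : ℝ) - u.xn, (u.yp : ℝ) - u.yn, (u.zp : ℝ) - u.zn⟩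
def sgn (s : Bool) : ℝ := Bool.rec (-1) 1 s

def Rows.det (R : Rows) (k : ℕ) : ℝ := ((R.r1.nv k).crs (R.r2.nv k)).dot (R.r3.nv k)
/-- Value of the direction `u` at vertex `a`, minus its value at vertex zero, times the
determinant. -/
def Rows.phi (R : Rows) (k : ℕ) (u : R3) (a : ℕ) : ℝ :=
  sel a 0 (((R.r2.nv k).crs (R.r3.nv k)).dot u) (-((R.r1.nv k).crs (R.r3.nv k)).dot u)
    (((R.r1.nv k).crs (R.r2.nv k)).dot u)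
def Rows.row (R : Rows) (i : ℕ) : X4 := sel i R.r0 R.r1 R.r2 R.r3

def dz (x o : ℕ) : ℤ := ((x >>> o &&& 255 : ℕ) : ℤ) - 128
def NeP (a b c : ℤ) (p : ℕ) : Prop := a ≠ dz p 0 ∨ b ≠ dz p 8 ∨ c ≠ dz p 16

/-- The facts available to the checker. -/
structure Fx (cf : Cfg) (R : Rows) : Prop where
  s0 : R.r0.x0 + R.r1.x0 + R.r2.x0 + R.r3.x0 = 1
  s1 : R.r0.x1 + R.r1.x1 + R.r2.x1 + R.r3.x1 = 1
  s2 : R.r0.x2 + R.r1.x2 + R.r2.x2 + R.r3.x2 = 1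
  s3 : R.r0.x3 + R.r1.x3 + R.r2.x3 + R.r3.x3 = 3 * cf.ka + 1
  p0 : 0 < R.r0.sig
  p1 : 0 < R.r1.sig
  p2 : 0 < R.r2.sig
  p3 : 0 < R.r3.sig
  hol : ∀ a b c : ℤ, (cf.c : ℤ) ∣ a - c * cf.g1 → (cf.c : ℤ) ∣ b - c * cf.g2 → NeP a b c cf.p0 →
    NeP a b c cf.p1 → NeP a b c cf.p2 → NeP a b c cf.p3 →
    R.r0.ev cf.ka cf.c a b c < 0 ∨ R.r1.ev cf.ka cf.c a b c < 0 ∨ R.r2.ev cf.ka cf.c a b c < 0 ∨
      R.r3.ev cf.ka cf.c a b c < 0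
  wid : ∀ a b c : ℤ, (a ≠ 0 ∨ b ≠ 0 ∨ c ≠ 0) → (cf.c : ℤ) ∣ a * cf.g1 + b * cf.g2 + c →
    ∃ i < 4, ∃ j < 4, 19601 * R.det cf.ka ^ 2 <
      5741 * (R.det cf.ka * (R.phi cf.ka ⟨a, b, c⟩ i - R.phi cf.ka ⟨a, b, c⟩ j))
  cho : ∀ a b c : ℤ, (a ≠ 0 ∨ b ≠ 0 ∨ c ≠ 0) → (cf.c : ℤ) ∣ a - c * cf.g1 →
    (cf.c : ℤ) ∣ b - c * cf.g2 → 14 * (cf.c : ℝ) < 19 * (|R.r0.ev cf.ka 0 a b c| +
      |R.r1.ev cf.ka 0 a b c| + |R.r2.ev cf.ka 0 a b c| + |R.r3.ev cf.ka 0 a b c|)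
  vol : (cf.c : ℝ) < 80 * |R.det cf.ka|
  loc : cf.loc = true → ∃ i < 4, ∃ j < 4, i ≠ j ∧ 1000 * (R.row i).ent j < lo i j
  top : cf.ka = 1 → 19601 * R.det cf.ka ^ 2 < 11482 * (R.det cf.ka *
    (R.r0.x0 * (R.phi cf.ka ⟨0, 0, 1⟩ 1 - R.phi cf.ka ⟨0, 0, 1⟩ 0) +
      R.r2.x0 * (R.phi cf.ka ⟨0, 0, 1⟩ 1 - R.phi cf.ka ⟨0, 0, 1⟩ 2) +
      R.r3.x0 * (R.phi cf.ka ⟨0, 0, 1⟩ 1 - R.phi cf.ka ⟨0, 0, 1⟩ 3)))

def InT (r : Row) (x : X4) (t : T3) : Prop :=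
  x.x0 = t.p * r.a0 + t.q * r.b0 + t.r * r.c0 ∧ x.x1 = t.p * r.a1 + t.q * r.b1 + t.r * r.c1 ∧
    x.x2 = t.p * r.a2 + t.q * r.b2 + t.r * r.c2 ∧ x.x3 = t.p * r.a3 + t.q * r.b3 + t.r * r.c3
def InR (r : Row) (x : X4) : Prop := ∃ t : T3, t.nn ∧ InT r x t
def InS (st : St) (R : Rows) : Prop :=
  InR st.r0 R.r0 ∧ InR st.r1 R.r1 ∧ InR st.r2 R.r2 ∧ InR st.r3 R.r3
def IsTop (k : ℕ) (s : Bool) (R : Rows) (key c : ℕ) : Prop :=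
  ∀ a < 4, sgn s * R.phi k (dirU key).re a ≤ sgn s * R.phi k (dirU key).re c
def Ctx (k : ℕ) (s : Bool) (R : Rows) (ctx : List ℕ) : Prop :=
  ∀ h ∈ ctx, IsTop k s R (h >>> 2) (h &&& 3)
/-- No configuration lies in the cell. -/
def Emp (cf : Cfg) (st : St) : Prop :=
  ∀ R : Rows, Fx cf R → 0 < sgn st.s * R.det cf.ka → InS st R → Ctx cf.ka st.s R st.ctx → False

def AllE (cf : Cfg) (l : List St) : Prop := List.rec True (fun h _ ih => Emp cf h ∧ ih) l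

def cT : Cfg := ⟨1, 1, 1, 0, 8421504, 8421505, 8421760, 8487040, true⟩
def cD (c g1 g2 : ℕ) : Cfg :=
  ⟨c, g1, g2, 0, 8421504, 8421504 + c, 8421504 + 256 * c, 8421504 + 65536 * c, false⟩
def cS : Cfg := ⟨1, 1, 1, 1, 8421504, 8421505, 8421761, 8421760, false⟩

/-- The full cell of matrices with zero diagonal. -/
def root (s : Bool) : St :=
  ⟨s, ⟨0, 1, 0, 0, 0, 0, 1, 0, 0, 0, 0, 1⟩, ⟨1, 0, 0, 0, 0, 0, 1, 0, 0, 0, 0, 1⟩,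
    ⟨1, 0, 0, 0, 0, 1, 0, 0, 0, 0, 0, 1⟩, ⟨1, 0, 0, 0, 0, 1, 0, 0, 0, 0, 1, 0⟩, []⟩

def sqRoot (i j : Bool) : St :=
  ⟨true, Bool.rec ⟨0, 1, 0, 0, 0, 0, 1, 0, 0, 0, 1, 1⟩ ⟨0, 1, 0, 0, 0, 0, 1, 1, 0, 1, 0, 1⟩ i,
    ⟨1, 0, 1, 2, 1, 0, 2, 2, 0, 0, 0, 1⟩, ⟨1, 1, 0, 2, 1, 0, 1, 2, 0, 0, 0, 1⟩,
    Bool.rec ⟨1, 1, 0, 2, 0, 1, 0, 0, 0, 1, 0, 1⟩ ⟨1, 1, 0, 2, 0, 1, 0, 1, 1, 1, 0, 3⟩ j,
    [67896321]⟩

def ind (a j : ℕ) : ℕ := Bool.rec 0 1 (Nat.beq a j)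
/-- The cone of rows whose entries at `a`, `b`, `c` decrease and whose other entry is zero. -/
def ordRow (a b c : ℕ) : Row :=
  ⟨ind a 0, ind a 1, ind a 2, ind a 3, ind a 0 + ind b 0, ind a 1 + ind b 1, ind a 2 + ind b 2,
    ind a 3 + ind b 3, ind a 0 + ind b 0 + ind c 0, ind a 1 + ind b 1 + ind c 1,
    ind a 2 + ind b 2 + ind c 2, ind a 3 + ind b 3 + ind c 3⟩
def ordRow' (x : ℕ) : Row := ordRow (x % 4) (x / 4 % 4) (x / 16 % 4)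
def ordSt (s : Bool) (x : ℕ) : St :=
  ⟨s, ordRow' x, ordRow' (x / 64), ordRow' (x / 4096), ordRow' (x / 262144), []⟩
def ocodes : List ℕ :=
  [9653817, 6508089, 8867385, 2575929, 4935225, 1789497, 9555513, 6409785, 8769081, 2477625,
   4836921, 1691193, 9518649, 6372921, 8732217, 2440761, 4800057, 1654329, 9653049, 6507321,
   8866617, 2575161, 4934457, 1788729, 9554745, 6409017, 2476857, 4836153, 1690425, 9640761,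
   6495033, 4922169, 1776441, 6347577, 4774713, 1628985, 1653561, 4750137, 9653433, 6507705,
   9555129, 6409401, 8768697, 2477241, 4836537, 1690809, 9518265, 6372537, 8731833, 2440377,
   9469113, 6323385, 8682681, 9552825, 6407097, 8766393, 1688505, 9515961, 1689849, 4921593]
def AllO (cf : Cfg) (l : List ℕ) : Prop :=
  List.rec True (fun x _ ih => Emp cf (ordSt true x) ∧ Emp cf (ordSt false x) ∧ ih) l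

end

end Pool.Agent.P.MP_65d7bf_co
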