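import Pool.Agent.P.MP_65d7bf_co.St
import Pool.Agent.P.MP_65d7bf_co.Sem

namespace Pool.Agent.P.MP_65d7bf_co

open Finset Matrix

def rowsOf (A : Matrix (Fin 4) (Fin 4) ℝ) : Rows :=
  ⟨⟨A 0 0, A 0 1, A 0 2, A 0 3⟩, ⟨A 1 0, A 1 1, A 1 2, A 1 3⟩, ⟨A 2 0, A 2 1, A 2 2, A 2 3⟩,
    ⟨A 3 0, A 3 1, A 3 2, A 3 3⟩⟩

def rowsS (A : Matrix (Fin 4) (Fin 4) ℝ) : Rows :=
  ⟨⟨A 0 0, A 0 1, A 0 2, A 0 3 + A 0 0 + A 0 1 + A 0 2⟩,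
    ⟨A 1 0, A 1 1, A 1 2, A 1 3 + A 1 0 + A 1 1 + A 1 2⟩,
    ⟨A 2 0, A 2 1, A 2 2, A 2 3 + A 2 0 + A 2 1 + A 2 2⟩,
    ⟨A 3 0, A 3 1, A 3 2, A 3 3 + A 3 0 + A 3 1 + A 3 2⟩⟩

/-- Height of vertex `a`. -/
noncomputable def hgt (A : Matrix (Fin 4) (Fin 4) ℝ) (a : Fin 4) : ℝ :=
  (A.updateRow a ![0, 0, 0, 1]).det / A.det

def SqTop (A : Matrix (Fin 4) (Fin 4) ℝ) : Prop :=
  A 0 3 ≤ 0 ∧ A 3 3 ≤ A 3 0 ∧ A 1 2 ≤ 2 * A 1 0 ∧ (∀ a, hgt A a ≤ hgt A 1) ∧ 2 + √2 < 2 * hgt A 1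

def Square2 : Prop := ∀ T : Tet, Hollow T → Wide T → Gen T →
  Blocked T ![![0, 0, 0], ![1, 0, 0], ![1, 1, 0], ![0, 1, 0]] →
  ∃ (T' : Tet) (x y : ℝ), Hollow T' ∧ Wide T' ∧ Gen T' ∧
    Blocked T' ![![0, 0, 0], ![1, 0, 0], ![1, 1, 0], ![0, 1, 0]] ∧
    0 ≤ x ∧ x ≤ 1 ∧ 0 ≤ y ∧ y ≤ 1 ∧ (∀ i, 0 ≤ T'.evR i ![x, y, 1]) ∧
    T'.evR 0 ![x, y, 1] = 0 ∧ T'.evR 3 ![x, y, 1] = 0 ∧
    T'.ev 1 ![1, 1, 0] ≤ T'.ev 1 ![0, 0, 0] ∧ (∀ j, T'.v j 2 ≤ T'.v 1 2) ∧ 2 + √2 < 2 * T'.v 1 2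

def GoodSq2 : Prop := ∀ (T : Tet) (x y : ℝ), Hollow T → Wide T → Gen T → Chord T → Vol T →
  Blocked T ![![0, 0, 0], ![1, 0, 0], ![1, 1, 0], ![0, 1, 0]] →
  0 ≤ x → x ≤ 1 → 0 ≤ y → y ≤ 1 → (∀ i, 0 ≤ T.evR i ![x, y, 1]) →
  T.evR 0 ![x, y, 1] = 0 → T.evR 3 ![x, y, 1] = 0 →
  T.ev 1 ![1, 1, 0] ≤ T.ev 1 ![0, 0, 0] → (∀ j, T.v j 2 ≤ T.v 1 2) → 2 + √2 < 2 * T.v 1 2 →
  ∃ A, Good 1 ![1, 1, 1, 1] Psq A ∧ SqCone A ∧ SqTop A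

def Cover : Prop := ∀ A : Matrix (Fin 4) (Fin 4) ℝ, ZD A →
  ∃ (π : Equiv.Perm (Fin 4)), ∃ x ∈ ocodes, ∀ s, InS (ordSt s x) (rowsOf (A.submatrix π π))

def BridgeD : Prop := ∀ (c g1 g2 : ℕ) (g0 : ℤ) (A : Matrix (Fin 4) (Fin 4) ℝ), 0 < c → c < 128 →
  (c : ℤ) ∣ g0 + g1 + g2 + 1 → Good c ![g0, g1, g2, 1] (Pd c) A → ZD A →
  Fx (cD c g1 g2) (rowsOf A) ∧ ∀ s, InS (root s) (rowsOf A)

def BridgeS : Prop := ∀ A : Matrix (Fin 4) (Fin 4) ℝ, Good 1 ![1, 1, 1, 1] Psq A → SqCone A →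
  SqTop A → Fx cS (rowsS A) ∧ 0 < (rowsS A).det 1 ∧ (∃ i j, InS (sqRoot i j) (rowsS A)) ∧
    Ctx 1 true (rowsS A) [67896321]

def Local : Prop := ∀ A : Matrix (Fin 4) (Fin 4) ℝ, Good 1 ![1, 1, 1, 1] (Pd 1) A → ZD A →
  ∃ i j : Fin 4, i ≠ j ∧ 1000 * A i j < lo i j

def RunT : Prop := AllO cT ocodes
def Run2 : Prop := AllO (cD 2 1 1) ocodes
def RunD (c g1 g2 : ℕ) : Prop := Emp (cD c g1 g2) (root true) ∧ Emp (cD c g1 g2) (root false)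
def RunAll : Prop := RunD 3 2 2 ∧ RunD 4 3 3 ∧ RunD 5 4 4 ∧ RunD 5 4 3 ∧ RunD 7 6 5 ∧ RunD 8 7 5 ∧
  RunD 10 9 7 ∧ RunD 13 12 8
def RunS : Prop := Emp cS (sqRoot false false) ∧ Emp cS (sqRoot false true) ∧
  Emp cS (sqRoot true false) ∧ Emp cS (sqRoot true true)

def CheckSq2 : Prop := ∀ A, Good 1 ![1, 1, 1, 1] Psq A → SqCone A → SqTop A → False

theorem checkSq2_of (h : BridgeS) (r : RunS) : CheckSq2 := by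
  intro A a b c
  obtain ⟨f, d, ⟨i, j, e⟩, x⟩ := h A a b c
  have d' : 0 < sgn true * (rowsS A).det 1 := by
    change 0 < 1 * _
    rwa [one_mul]
  cases i <;> cases j
  exacts [r.1 _ f d' e x, r.2.1 _ f d' e x, r.2.2.1 _ f d' e x, r.2.2.2 _ f d' e x]

theorem main_of2 (h1 : ToTet) (h2 : Generic) (h3 : Block) (h4 : ChordAll) (h5 : Mink)
    (h6 : Normal) (h7 : Square) (h7' : Square2) (h8 : GoodTet) (h9 : GoodSq2) (h10 : Classify)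
    (c1 : CheckTet) (c2 : CheckSq2) : Main := by
  refine h1 fun T a b => ?_
  obtain ⟨T, a, b, g⟩ := h2 T a b
  obtain ⟨T, p, a, b, g, bl⟩ := h3 T a b g
  obtain ⟨T, x, y, z, a, b, g, bl, rfl | ⟨e1, e2, e3, e4⟩⟩ := h6 T p a b g bl
  · obtain ⟨T, -, -, a, b, g, bl, -⟩ := h7 T x y a b g bl
    obtain ⟨T, s, t, a, b, g, bl, e1, e2, e3, e4, e5, e6, e7, e8, e9, e10⟩ := h7' T a b g bl
    obtain ⟨A, hA, hS, hT⟩ := h9 T s t a b g (h4 T a b) (h5 T (h4 T a b)) bl e1 e2 e3 e4 e5 e6 e7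
      e8 e9 e10
    exact c2 A hA hS hT
  · obtain ⟨A, hA, hZ⟩ := h8 T x y z a b g (h4 T a b) (h5 T (h4 T a b)) bl (by omega)
    obtain ⟨r, hr, A, hA, hZ⟩ := h10 x y z A e1 e2 e3 e4 hA hZ
    exact c1 r hr A hA hZ

end Pool.Agent.P.MP_65d7bf_co
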