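import Pool.Agent.P.MP_65d7bf_co.Dat0
import Pool.Agent.P.MP_65d7bf_co.Dat1
import Pool.Agent.P.MP_65d7bf_co.Dat2
import Pool.Agent.P.MP_65d7bf_co.Dat3
import Pool.Agent.P.MP_65d7bf_co.Dat4
import Pool.Agent.P.MP_65d7bf_co.Dat5
import Pool.Agent.P.MP_65d7bf_co.Dat6
import Pool.Agent.P.MP_65d7bf_co.Dat7
import Pool.Agent.P.MP_65d7bf_co.Dat8
import Pool.Agent.P.MP_65d7bf_co.Dat9
import Pool.Agent.P.MP_65d7bf_co.Dat10
import Pool.Agent.P.MP_65d7bf_co.Dat11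
import Pool.Agent.P.MP_65d7bf_co.Dat12
import Pool.Agent.P.MP_65d7bf_co.Dat13
import Pool.Agent.P.MP_65d7bf_co.Dat14
import Pool.Agent.P.MP_65d7bf_co.Dat15
import Pool.Agent.P.MP_65d7bf_co.Dat16
import Pool.Agent.P.MP_65d7bf_co.Dat17
import Pool.Agent.P.MP_65d7bf_co.Dat18
import Pool.Agent.P.MP_65d7bf_co.Dat19
import Pool.Agent.P.MP_65d7bf_co.Dat20
import Pool.Agent.P.MP_65d7bf_co.Dat21
import Pool.Agent.P.MP_65d7bf_co.Dat22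
import Pool.Agent.P.MP_65d7bf_co.Dat23
import Pool.Agent.P.MP_65d7bf_co.St2

namespace Pool.Agent.P.MP_65d7bf_co.Dat

set_option maxRecDepth 100000

theorem rs349 (h : Sound) : Emp cS (sqRoot false false) :=
  s349 h ⟨s0 h, s23 h ⟨s22 h ⟨s21 h ⟨s2 h, s1 h, s7 h ⟨s3 h, s6 h ⟨s4 h, s5 h, trivial⟩, trivial⟩, s20 h ⟨s9 h ⟨s8 h, trivial⟩, s12 h ⟨s11 h ⟨s10 h, trivial⟩, trivial⟩, trivial⟩, s19 h ⟨s16 h ⟨s13 h, trivial⟩, s15 h ⟨s14 h, trivial⟩, s17 h, s18 h, trivial⟩, trivial⟩, trivial⟩, trivial⟩, s26 h ⟨s24 h, s25 h, trivial⟩, s348 h ⟨s76 h ⟨s37 h ⟨s29 h ⟨s28 h ⟨s27 h, trivial⟩, trivial⟩, trivial⟩, s32 h ⟨s30 h, s31 h, trivial⟩, s34 h ⟨s33 h, trivial⟩, s36 h ⟨s35 h, trivial⟩, trivial⟩, s75 h ⟨s42 h ⟨s40 h ⟨s38 h, s39 h, trivial⟩, s41 h, trivial⟩, trivial⟩, s65 h ⟨s44 h, s43 h, s46 h ⟨s45 h, trivial⟩, s50 h ⟨s48 h ⟨s47 h, trivial⟩, s49 h, trivial⟩,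 s55 h ⟨s51 h, s52 h, s54 h ⟨s53 h, trivial⟩, trivial⟩, s58 h ⟨s56 h, trivial⟩, s57 h, s64 h ⟨s59 h, s63 h ⟨s62 h ⟨s60 h, trivial⟩, s61 h, trivial⟩, trivial⟩, trivial⟩, s73 h ⟨s66 h, s72 h ⟨s69 h ⟨s67 h, s68 h, trivial⟩, trivial⟩, s71 h ⟨s70 h, trivial⟩, trivial⟩, s74 h, s149 h ⟨s90 h ⟨s80 h ⟨s79 h ⟨s77 h, trivial⟩, s78 h, trivial⟩, trivial⟩, s86 h ⟨s81 h, s85 h ⟨s82 h, s84 h ⟨s83 h, trivial⟩, trivial⟩, trivial⟩, s89 h ⟨s88 h, s87 h, trivial⟩, s148 h ⟨s147 h ⟨s125 h ⟨s97 h ⟨s92 h, s91 h, s96 h ⟨s93 h, s95 h, s94 h, trivial⟩, trivial⟩, s102 h, s98 h, s101 h ⟨s100 h ⟨s99 h, trivial⟩, trivial⟩, s103 h, s124 h ⟨s104 h, s106 h ⟨s105 h, trivial⟩, s107 h, s121 h ⟨s120 h ⟨s111 h ⟨s109 h ⟨s108 h, trivial⟩, trivial⟩, s110 h, s114 h ⟨s113 h ⟨s112 h, trivial⟩, trivial⟩, s118 h ⟨s116 h ⟨s115 h, trivial⟩, s117 h, trivial⟩, trivial⟩, s119 h, trivial⟩, s123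 h ⟨s122 h, trivial⟩, trivial⟩, trivial⟩, trivial⟩, s146 h ⟨s133 h ⟨s128 h ⟨s126 h, s127 h, trivial⟩, trivial⟩, s132 h, s129 h, s131 h ⟨s130 h, trivial⟩, s135 h ⟨s134 h, trivial⟩, trivial⟩, s139 h ⟨s136 h, s138 h ⟨s137 h, trivial⟩, trivial⟩, s145 h ⟨s144 h ⟨s143 h, s140 h, s142 h ⟨s141 h, trivial⟩, trivial⟩, trivial⟩, trivial⟩, trivial⟩, s347 h ⟨s160 h ⟨s151 h ⟨s150 h, trivial⟩, s152 h, trivial⟩, s159 h ⟨s154 h, s153 h, trivial⟩, s158 h ⟨s155 h, s156 h, trivial⟩, s157 h, trivial⟩, s173 h ⟨s161 h, trivial⟩, s171 h ⟨s165 h ⟨s162 h, s164 h ⟨s163 h, trivial⟩, trivial⟩, trivial⟩, s170 h ⟨s166 h, s169 h ⟨s168 h ⟨s167 h, trivial⟩, trivial⟩, trivial⟩, s172 h, s237 h ⟨s174 h, s175 h, s221 h ⟨s182 h ⟨s178 h ⟨s176 h, trivial⟩, s177 h, trivial⟩, s179 h, s181 h ⟨s180 h, trivial⟩, s184 h ⟨s183 h, trivial⟩, s195 h ⟨s189 h ⟨s185 h, trivial⟩, s188 h ⟨s186 h,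 s187 h, trivial⟩, s194 h ⟨s191 h, s190 h, s192 h, s193 h, trivial⟩, trivial⟩, s216 h ⟨s204 h, s203 h ⟨s197 h ⟨s196 h, trivial⟩, s198 h, s200 h ⟨s199 h, trivial⟩, s201 h, s202 h, trivial⟩, s215 h ⟨s208 h ⟨s206 h ⟨s205 h, trivial⟩, trivial⟩, s207 h, s214 h ⟨s210 h, s209 h, trivial⟩, s211 h, s213 h ⟨s212 h, trivial⟩, trivial⟩, trivial⟩, s220 h ⟨s217 h, trivial⟩, s219 h ⟨s218 h, trivial⟩, trivial⟩, s236 h ⟨s222 h, s232 h ⟨s229 h ⟨s223 h, s224 h, s225 h, trivial⟩, s226 h, s228 h ⟨s227 h, trivial⟩, trivial⟩, s230 h, s231 h, s234 h ⟨s233 h, trivial⟩, s235 h, trivial⟩, trivial⟩, s241 h ⟨s238 h, s239 h, s240 h, trivial⟩, s337 h ⟨s249 h, s248 h ⟨s247 h ⟨s244 h ⟨s242 h, trivial⟩, s243 h, trivial⟩, s246 h, s245 h, trivial⟩, s263 h ⟨s262 h ⟨s261 h ⟨s251 h ⟨s250 h, trivial⟩, s253 h ⟨s252 h, trivial⟩, s260 h ⟨s256 h ⟨s254 h, s255 h, trivial⟩, s257 h, trivial⟩,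 s259 h ⟨s258 h, trivial⟩, trivial⟩, trivial⟩, trivial⟩, s336 h ⟨s335 h ⟨s299 h ⟨s264 h, s266 h ⟨s265 h, trivial⟩, trivial⟩, s298 h ⟨s294 h, s269 h ⟨s267 h, trivial⟩, s268 h, s270 h, s272 h ⟨s271 h, trivial⟩, s291 h ⟨s290 h ⟨s275 h ⟨s274 h ⟨s273 h, trivial⟩, trivial⟩, s283 h ⟨s277 h ⟨s276 h, trivial⟩, trivial⟩, s281 h ⟨s278 h, trivial⟩, s280 h ⟨s279 h, trivial⟩, s282 h, trivial⟩, s288 h ⟨s285 h, s284 h, trivial⟩, s287 h ⟨s286 h, trivial⟩, s289 h, trivial⟩, s293 h ⟨s292 h, trivial⟩, trivial⟩, s296 h ⟨s295 h, trivial⟩, s297 h, s327 h, s326 h ⟨s310 h ⟨s308 h ⟨s300 h, trivial⟩, s307 h ⟨s301 h, trivial⟩, s306 h ⟨s304 h ⟨s302 h, s303 h, trivial⟩, trivial⟩, s305 h, trivial⟩, s309 h, s319 h ⟨s318 h ⟨s313 h ⟨s311 h, s312 h, trivial⟩, trivial⟩, s317 h ⟨s314 h, s315 h, trivial⟩, s316 h, trivial⟩, trivial⟩, s325 h ⟨s323 h, s322 h ⟨s321 h ⟨s320 h, trivial⟩,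 trivial⟩, trivial⟩, s324 h, trivial⟩, s331 h ⟨s328 h, s330 h ⟨s329 h, trivial⟩, trivial⟩, s332 h, s334 h ⟨s333 h, trivial⟩, trivial⟩, trivial⟩, s346 h ⟨s338 h, s343 h, s339 h, s342 h ⟨s341 h ⟨s340 h, trivial⟩, trivial⟩, s345 h ⟨s344 h, trivial⟩, trivial⟩, trivial⟩, trivial⟩

theorem rs510 (h : Sound) : Emp cS (sqRoot false true) :=
  s510 h ⟨s418 h ⟨s373 h ⟨s371 h ⟨s350 h, s370 h ⟨s369 h ⟨s352 h ⟨s351 h, trivial⟩, s353 h, s357 h ⟨s355 h ⟨s354 h, trivial⟩, s356 h, trivial⟩, s359 h ⟨s358 h, trivial⟩, trivial⟩, s368 h ⟨s362 h ⟨s360 h, trivial⟩, s361 h, trivial⟩, s363 h, s364 h, s365 h, s367 h ⟨s366 h, trivial⟩, trivial⟩, trivial⟩, trivial⟩, s372 h, trivial⟩, s391 h ⟨s375 h ⟨s374 h, trivial⟩, s379 h ⟨s376 h, s378 h ⟨s377 h, trivial⟩, trivial⟩, trivial⟩, s390 h ⟨s382 h, s381 h ⟨s380 h, trivial⟩, s385 h ⟨s384 h, s383 h, trivial⟩, trivial⟩, s386 h,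 s389 h ⟨s387 h, s388 h, trivial⟩, s394 h ⟨s393 h ⟨s392 h, trivial⟩, trivial⟩, s417 h ⟨s396 h ⟨s395 h, trivial⟩, s410 h ⟨s409 h, s400 h ⟨s397 h, trivial⟩, s399 h ⟨s398 h, trivial⟩, s408 h ⟨s405 h ⟨s404 h, s403 h ⟨s402 h, s401 h, trivial⟩, trivial⟩, s407 h ⟨s406 h, trivial⟩, trivial⟩, trivial⟩, s416 h ⟨s412 h, s411 h, s415 h ⟨s413 h, s414 h, trivial⟩, trivial⟩, trivial⟩, s509 h ⟨s457 h ⟨s439 h ⟨s432 h ⟨s420 h ⟨s419 h, trivial⟩, trivial⟩, s431 h ⟨s426 h, s425 h, s424 h ⟨s421 h, trivial⟩, s422 h, s423 h, trivial⟩, s430 h, s429 h ⟨s427 h, trivial⟩, s428 h, trivial⟩, s438 h ⟨s434 h ⟨s433 h, trivial⟩, trivial⟩, s435 h, s437 h ⟨s436 h, trivial⟩, s444 h ⟨s440 h, s443 h ⟨s442 h ⟨s441 h, trivial⟩, trivial⟩, trivial⟩, trivial⟩, s445 h, s449 h ⟨s448 h ⟨s447 h ⟨s446 h, trivial⟩, trivial⟩, trivial⟩, s456 h ⟨s454 h ⟨s451 h ⟨s450 h, trivial⟩, s452 h, trivial⟩,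 s453 h, s455 h, trivial⟩, s508 h ⟨s501 h ⟨s458 h, s460 h ⟨s459 h, trivial⟩, s479 h ⟨s467 h, s466 h ⟨s465 h ⟨s461 h, s463 h ⟨s462 h, trivial⟩, s464 h, trivial⟩, trivial⟩, s478 h ⟨s468 h, s471 h ⟨s470 h, s469 h, trivial⟩, s477 h ⟨s473 h ⟨s472 h, trivial⟩, s474 h, s476 h ⟨s475 h, trivial⟩, trivial⟩, trivial⟩, trivial⟩, trivial⟩, s495 h ⟨s485 h, s484 h ⟨s480 h, s481 h, trivial⟩, s483 h ⟨s482 h, trivial⟩, s489 h ⟨s488 h ⟨s487 h ⟨s486 h, trivial⟩, trivial⟩, trivial⟩, trivial⟩, s494 h ⟨s490 h, s493 h ⟨s491 h, s492 h, trivial⟩, trivial⟩, s500 h ⟨s499 h, s496 h, s497 h, s498 h, trivial⟩, s507 h ⟨s506 h ⟨s504 h, s503 h, s502 h, s505 h, trivial⟩, trivial⟩, trivial⟩, trivial⟩, trivial⟩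

theorem rs572 (h : Sound) : Emp cS (sqRoot true false) :=
  s572 h ⟨s571 h ⟨s511 h, s514 h, s512 h, s513 h, trivial⟩, s530 h ⟨s516 h, s515 h, s517 h, s518 h, trivial⟩, s526 h ⟨s520 h ⟨s519 h, trivial⟩, trivial⟩, s522 h, s521 h, s525 h ⟨s523 h, s524 h, trivial⟩, s529 h ⟨s527 h, s528 h, trivial⟩, s534 h, s533 h ⟨s532 h, s531 h, trivial⟩, s570 h ⟨s569 h ⟨s535 h, s540 h ⟨s536 h, s539 h ⟨s537 h, s538 h, trivial⟩, trivial⟩, trivial⟩, s568 h ⟨s543 h ⟨s542 h ⟨s541 h, trivial⟩, trivial⟩, trivial⟩, s544 h, s545 h, s567 h ⟨s547 h, s546 h, s566 h ⟨s548 h, trivial⟩, s549 h, s555 h ⟨s550 h, s553 h ⟨s552 h ⟨s551 h, trivial⟩, trivial⟩, s554 h, trivial⟩, s565 h ⟨s556 h, s564 h ⟨s557 h, s561 h ⟨s558 h, trivial⟩, s560 h ⟨s559 h, trivial⟩, s563 h ⟨s562 h, trivial⟩, trivial⟩, trivial⟩, trivial⟩, trivial⟩, trivial⟩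

theorem rs641 (h : Sound) : Emp cS (sqRoot true true) :=
  s641 h ⟨s640 h ⟨s582 h, s581 h ⟨s579 h ⟨s578 h ⟨s573 h, s575 h, s574 h, trivial⟩, s577 h, s576 h, trivial⟩, s580 h, trivial⟩, s628 h ⟨s627 h ⟨s591 h ⟨s584 h ⟨s583 h, trivial⟩, trivial⟩, s590 h, s589 h ⟨s586 h ⟨s585 h, trivial⟩, s587 h, trivial⟩, s588 h, trivial⟩, s592 h, s626 h ⟨s625 h ⟨s595 h ⟨s594 h, s593 h, trivial⟩, s613 h ⟨s601 h ⟨s596 h, trivial⟩, s598 h ⟨s597 h, trivial⟩, s600 h ⟨s599 h, trivial⟩, s612 h ⟨s604 h, s602 h, s603 h, s606 h ⟨s605 h, trivial⟩, s607 h, trivial⟩, s611 h ⟨s610 h ⟨s608 h, trivial⟩, s609 h, trivial⟩, trivial⟩, trivial⟩, s616 h ⟨s615 h ⟨s614 h, trivial⟩, trivial⟩, s624 h ⟨s617 h, trivial⟩, s621 h ⟨s620 h, s619 h ⟨s618 h, trivial⟩, trivial⟩, s623 h ⟨s622 h, trivial⟩, trivial⟩, trivial⟩, s638 h ⟨s634 h ⟨s630 h ⟨s629 h, trivial⟩, s632 h ⟨s631 h, trivial⟩,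 trivial⟩, s633 h, trivial⟩, s635 h, s637 h ⟨s636 h, trivial⟩, trivial⟩, s639 h, trivial⟩

theorem runS (h : Sound) : RunS := ⟨rs349 h, rs510 h, rs572 h, rs641 h⟩

theorem rt0 (h : Sound) : Emp cT (ordSt false 9653817) :=
  t0 h

theorem rt1 (h : Sound) : Emp cT (ordSt true 9653817) :=
  t1 h

theorem rt2 (h : Sound) : Emp cT (ordSt false 6508089) :=
  t2 h

theorem rt3 (h : Sound) : Emp cT (ordSt true 6508089) :=
  t3 h

theorem rt4 (h : Sound) : Emp cT (ordSt false 8867385) :=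
  t4 h

theorem rt5 (h : Sound) : Emp cT (ordSt true 8867385) :=
  t5 h

theorem rt6 (h : Sound) : Emp cT (ordSt false 2575929) :=
  t6 h

theorem rt7 (h : Sound) : Emp cT (ordSt true 2575929) :=
  t7 h

theorem rt8 (h : Sound) : Emp cT (ordSt false 4935225) :=
  t8 h

theorem rt9 (h : Sound) : Emp cT (ordSt true 4935225) :=
  t9 h

theorem rt10 (h : Sound) : Emp cT (ordSt false 1789497) :=
  t10 h

theorem rt11 (h : Sound) : Emp cT (ordSt true 1789497) :=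
  t11 h

theorem rt12 (h : Sound) : Emp cT (ordSt false 9555513) :=
  t12 h

theorem rt13 (h : Sound) : Emp cT (ordSt true 9555513) :=
  t13 h

theorem rt14 (h : Sound) : Emp cT (ordSt false 6409785) :=
  t14 h

theorem rt15 (h : Sound) : Emp cT (ordSt true 6409785) :=
  t15 h

theorem rt16 (h : Sound) : Emp cT (ordSt false 8769081) :=
  t16 h

theorem rt17 (h : Sound) : Emp cT (ordSt true 8769081) :=
  t17 h

theorem rt18 (h : Sound) : Emp cT (ordSt false 2477625) :=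
  t18 h

theorem rt19 (h : Sound) : Emp cT (ordSt true 2477625) :=
  t19 h

theorem rt20 (h : Sound) : Emp cT (ordSt false 4836921) :=
  t20 h

theorem rt21 (h : Sound) : Emp cT (ordSt true 4836921) :=
  t21 h

theorem rt22 (h : Sound) : Emp cT (ordSt false 1691193) :=
  t22 h

theorem rt23 (h : Sound) : Emp cT (ordSt true 1691193) :=
  t23 h

theorem rt24 (h : Sound) : Emp cT (ordSt false 9518649) :=
  t24 h

theorem rt25 (h : Sound) : Emp cT (ordSt true 9518649) :=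
  t25 h

theorem rt26 (h : Sound) : Emp cT (ordSt false 6372921) :=
  t26 h

theorem rt27 (h : Sound) : Emp cT (ordSt true 6372921) :=
  t27 h

theorem rt28 (h : Sound) : Emp cT (ordSt false 8732217) :=
  t28 h

theorem rt29 (h : Sound) : Emp cT (ordSt true 8732217) :=
  t29 h

theorem rt30 (h : Sound) : Emp cT (ordSt false 2440761) :=
  t30 h

theorem rt31 (h : Sound) : Emp cT (ordSt true 2440761) :=
  t31 h

theorem rt32 (h : Sound) : Emp cT (ordSt false 4800057) :=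
  t32 h

theorem rt96 (h : Sound) : Emp cT (ordSt true 4800057) :=
  t96 h ⟨t78 h ⟨t36 h ⟨t33 h, t35 h ⟨t34 h, trivial⟩, trivial⟩, t41 h ⟨t37 h, t40 h ⟨t39 h, t38 h, trivial⟩, trivial⟩, t48 h ⟨t42 h, t46 h ⟨t43 h, t45 h ⟨t44 h, trivial⟩, trivial⟩, trivial⟩, t47 h, t53 h ⟨t52 h ⟨t51 h ⟨t50 h, t49 h, trivial⟩, trivial⟩, trivial⟩, trivial⟩, t67 h ⟨t54 h, trivial⟩, t66 h ⟨t55 h, trivial⟩, t59 h, t58 h ⟨t56 h, trivial⟩, t57 h, t65 h ⟨t62 h ⟨t61 h ⟨t60 h, trivial⟩, trivial⟩, t64 h ⟨t63 h, trivial⟩, trivial⟩, t77 h ⟨t69 h ⟨t68 h, trivial⟩, t76 h ⟨t70 h, t71 h, t75 h ⟨t72 h, t74 h ⟨t73 h, trivial⟩, trivial⟩, trivial⟩, trivial⟩, t95 h ⟨t84 h ⟨t82 h ⟨t79 h, t81 h ⟨t80 h, trivial⟩, trivial⟩, trivial⟩, t83 h, t89 h ⟨t88 h, t87 h ⟨t85 h, t86 h, trivial⟩, trivial⟩, t94 h ⟨t91 h, t90 h, trivial⟩, t92 h, t93 h, trivial⟩, trivial⟩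

theorem rt97 (h : Sound) : Emp cT (ordSt false 1654329) :=
  t97 h

theorem rt172 (h : Sound) : Emp cT (ordSt true 1654329) :=
  t172 h ⟨t110 h ⟨t101 h ⟨t98 h, trivial⟩, t100 h, t99 h, trivial⟩, t109 h ⟨t103 h ⟨t102 h, trivial⟩, trivial⟩, t108 h ⟨t105 h ⟨t104 h, trivial⟩, trivial⟩, t107 h, t106 h, t122 h ⟨t119 h ⟨t112 h, t111 h, trivial⟩, t118 h ⟨t113 h, trivial⟩, t115 h ⟨t114 h, trivial⟩, t117 h ⟨t116 h, trivial⟩, t121 h ⟨t120 h, trivial⟩, trivial⟩, t142 h ⟨t126 h, t123 h, t125 h, t124 h, t134 h ⟨t130 h ⟨t127 h, trivial⟩, t129 h, t128 h, t132 h ⟨t131 h, trivial⟩, t133 h, trivial⟩, t141 h ⟨t140 h ⟨t135 h, t136 h, trivial⟩, t137 h, t138 h, t139 h, trivial⟩, trivial⟩, t171 h ⟨t145 h, t144 h, t143 h, t158 h ⟨t147 h ⟨t146 h, trivial⟩, t150 h ⟨t149 h, t148 h, trivial⟩, t151 h, trivial⟩, t157 h ⟨t156 h ⟨t152 h, trivial⟩, t153 h, t154 h, t155 h,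 trivial⟩, trivial⟩, t167 h ⟨t162 h ⟨t161 h ⟨t159 h, trivial⟩, t160 h, trivial⟩, trivial⟩, t166 h ⟨t163 h, trivial⟩, t165 h ⟨t164 h, trivial⟩, t170 h ⟨t168 h, t169 h, trivial⟩, trivial⟩

theorem rt173 (h : Sound) : Emp cT (ordSt false 9653049) :=
  t173 h

theorem rt174 (h : Sound) : Emp cT (ordSt true 9653049) :=
  t174 h

theorem rt175 (h : Sound) : Emp cT (ordSt false 6507321) :=
  t175 h

theorem rt176 (h : Sound) : Emp cT (ordSt true 6507321) :=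
  t176 h

theorem rt177 (h : Sound) : Emp cT (ordSt false 8866617) :=
  t177 h

theorem rt178 (h : Sound) : Emp cT (ordSt true 8866617) :=
  t178 h

theorem rt179 (h : Sound) : Emp cT (ordSt false 2575161) :=
  t179 h

theorem rt180 (h : Sound) : Emp cT (ordSt true 2575161) :=
  t180 h

theorem rt181 (h : Sound) : Emp cT (ordSt false 4934457) :=
  t181 h

theorem rt182 (h : Sound) : Emp cT (ordSt true 4934457) :=
  t182 h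

theorem rt183 (h : Sound) : Emp cT (ordSt false 1788729) :=
  t183 h

theorem rt184 (h : Sound) : Emp cT (ordSt true 1788729) :=
  t184 h

theorem rt185 (h : Sound) : Emp cT (ordSt false 9554745) :=
  t185 h

theorem rt186 (h : Sound) : Emp cT (ordSt true 9554745) :=
  t186 h

theorem rt187 (h : Sound) : Emp cT (ordSt false 6409017) :=
  t187 h

theorem rt188 (h : Sound) : Emp cT (ordSt true 6409017) :=
  t188 h

theorem rt189 (h : Sound) : Emp cT (ordSt false 2476857) :=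
  t189 h

theorem rt190 (h : Sound) : Emp cT (ordSt true 2476857) :=
  t190 h

theorem rt191 (h : Sound) : Emp cT (ordSt false 4836153) :=
  t191 h

theorem rt192 (h : Sound) : Emp cT (ordSt true 4836153) :=
  t192 h

theorem rt193 (h : Sound) : Emp cT (ordSt false 1690425) :=
  t193 h

theorem rt194 (h : Sound) : Emp cT (ordSt true 1690425) :=
  t194 h

theorem rt195 (h : Sound) : Emp cT (ordSt false 9640761) :=
  t195 h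

theorem rt196 (h : Sound) : Emp cT (ordSt true 9640761) :=
  t196 h

theorem rt197 (h : Sound) : Emp cT (ordSt false 6495033) :=
  t197 h

theorem rt198 (h : Sound) : Emp cT (ordSt true 6495033) :=
  t198 h

theorem rt199 (h : Sound) : Emp cT (ordSt false 4922169) :=
  t199 h

theorem rt200 (h : Sound) : Emp cT (ordSt true 4922169) :=
  t200 h

theorem rt201 (h : Sound) : Emp cT (ordSt false 1776441) :=
  t201 h

theorem rt202 (h : Sound) : Emp cT (ordSt true 1776441) :=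
  t202 h

theorem rt203 (h : Sound) : Emp cT (ordSt false 6347577) :=
  t203 h

theorem rt204 (h : Sound) : Emp cT (ordSt true 6347577) :=
  t204 h

theorem rt205 (h : Sound) : Emp cT (ordSt false 4774713) :=
  t205 h

theorem rt206 (h : Sound) : Emp cT (ordSt true 4774713) :=
  t206 h

theorem rt207 (h : Sound) : Emp cT (ordSt false 1628985) :=
  t207 h

theorem rt208 (h : Sound) : Emp cT (ordSt true 1628985) :=
  t208 h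

theorem rt209 (h : Sound) : Emp cT (ordSt false 1653561) :=
  t209 h

theorem rt324 (h : Sound) : Emp cT (ordSt true 1653561) :=
  t324 h ⟨t323 h ⟨t225 h ⟨t210 h, t214 h ⟨t211 h, trivial⟩, t213 h ⟨t212 h, trivial⟩, t216 h ⟨t215 h, trivial⟩, trivial⟩, t224 h ⟨t217 h, t218 h, trivial⟩, t220 h, t219 h, t223 h ⟨t222 h ⟨t221 h, trivial⟩, trivial⟩, t235 h ⟨t234 h ⟨t226 h, t227 h, trivial⟩, t228 h, t233 h ⟨t229 h, t232 h ⟨t231 h ⟨t230 h, trivial⟩, trivial⟩, trivial⟩, trivial⟩, t248 h ⟨t238 h ⟨t237 h, t236 h, trivial⟩, t240 h ⟨t239 h, trivial⟩, t247 h ⟨t241 h, t242 h, t245 h ⟨t244 h ⟨t243 h, trivial⟩, trivial⟩, trivial⟩, t246 h, trivial⟩, t279 h ⟨t252 h ⟨t249 h, trivial⟩, t251 h ⟨t250 h, trivial⟩, t254 h ⟨t253 h, trivial⟩, t255 h, t259 h ⟨t258 h ⟨t257 h ⟨t256 h, trivial⟩, trivial⟩, trivial⟩, t264 h ⟨t260 h, t263 h, t262 h, t261 h, trivial⟩, trivial⟩,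 t278 h ⟨t269 h ⟨t265 h, t267 h ⟨t266 h, trivial⟩, trivial⟩, t268 h, trivial⟩, t277 h ⟨t271 h, t270 h, t272 h, trivial⟩, t276 h ⟨t273 h, trivial⟩, t274 h, t275 h, trivial⟩, t307 h ⟨t282 h, t281 h ⟨t280 h, trivial⟩, t286 h ⟨t283 h, trivial⟩, t285 h ⟨t284 h, trivial⟩, t291 h ⟨t290 h ⟨t287 h, trivial⟩, t288 h, t289 h, trivial⟩, trivial⟩, t293 h, t292 h, t296 h ⟨t295 h ⟨t294 h, trivial⟩, trivial⟩, t306 h ⟨t298 h ⟨t297 h, trivial⟩, t299 h, t305 h ⟨t301 h, t300 h, t302 h, t304 h ⟨t303 h, trivial⟩, trivial⟩, trivial⟩, t322 h ⟨t312 h ⟨t308 h, trivial⟩, t309 h, t311 h ⟨t310 h, trivial⟩, t314 h ⟨t313 h, trivial⟩, t321 h ⟨t315 h, t317 h, t316 h, trivial⟩, t318 h, t320 h ⟨t319 h, trivial⟩, trivial⟩, trivial⟩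

theorem rt325 (h : Sound) : Emp cT (ordSt false 4750137) :=
  t325 h

theorem rt412 (h : Sound) : Emp cT (ordSt true 4750137) :=
  t412 h ⟨t378 h ⟨t334 h ⟨t329 h ⟨t328 h ⟨t327 h, t326 h, trivial⟩, trivial⟩, t331 h ⟨t330 h, trivial⟩, trivial⟩, t333 h ⟨t332 h, trivial⟩, t335 h, t340 h ⟨t336 h, t337 h, t339 h ⟨t338 h, trivial⟩, trivial⟩, t355 h ⟨t343 h, t342 h, t341 h, t354 h ⟨t346 h ⟨t344 h, t345 h, trivial⟩, trivial⟩, t353 h ⟨t348 h ⟨t347 h, trivial⟩, trivial⟩, t352 h ⟨t349 h, trivial⟩, t351 h ⟨t350 h, trivial⟩, trivial⟩, trivial⟩, t363 h ⟨t357 h ⟨t356 h, trivial⟩, t362 h ⟨t359 h ⟨t358 h, trivial⟩, t361 h ⟨t360 h, trivial⟩, trivial⟩, trivial⟩, t377 h ⟨t372 h ⟨t366 h ⟨t364 h, trivial⟩, t365 h, t370 h ⟨t367 h, t368 h, trivial⟩, t369 h, trivial⟩, t371 h, t376 h ⟨t373 h, trivial⟩, t375 h, t374 h, trivial⟩, t400 h ⟨t380 h ⟨t379 h, trivial⟩, t385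 h ⟨t382 h ⟨t381 h, trivial⟩, t384 h ⟨t383 h, trivial⟩, trivial⟩, trivial⟩, t399 h ⟨t388 h ⟨t386 h, trivial⟩, t387 h, t392 h ⟨t389 h, t390 h, trivial⟩, t391 h, t393 h, trivial⟩, t395 h, t394 h, t398 h ⟨t396 h, t397 h, trivial⟩, t411 h ⟨t410 h ⟨t401 h, t403 h ⟨t402 h, trivial⟩, t409 h ⟨t407 h ⟨t404 h, trivial⟩, t405 h, t406 h, t408 h, trivial⟩, trivial⟩, trivial⟩, trivial⟩

theorem rt413 (h : Sound) : Emp cT (ordSt false 9653433) :=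
  t413 h

theorem rt414 (h : Sound) : Emp cT (ordSt true 9653433) :=
  t414 h

theorem rt415 (h : Sound) : Emp cT (ordSt false 6507705) :=
  t415 h

theorem rt416 (h : Sound) : Emp cT (ordSt true 6507705) :=
  t416 h

theorem rt417 (h : Sound) : Emp cT (ordSt false 9555129) :=
  t417 h

theorem rt418 (h : Sound) : Emp cT (ordSt true 9555129) :=
  t418 h

theorem rt419 (h : Sound) : Emp cT (ordSt false 6409401) :=
  t419 h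

theorem rt420 (h : Sound) : Emp cT (ordSt true 6409401) :=
  t420 h

theorem rt421 (h : Sound) : Emp cT (ordSt false 8768697) :=
  t421 h

theorem rt422 (h : Sound) : Emp cT (ordSt true 8768697) :=
  t422 h

theorem rt423 (h : Sound) : Emp cT (ordSt false 2477241) :=
  t423 h

theorem rt424 (h : Sound) : Emp cT (ordSt true 2477241) :=
  t424 h

theorem rt425 (h : Sound) : Emp cT (ordSt false 4836537) :=
  t425 h

theorem rt426 (h : Sound) : Emp cT (ordSt true 4836537) :=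
  t426 h

theorem rt427 (h : Sound) : Emp cT (ordSt false 1690809) :=
  t427 h

theorem rt428 (h : Sound) : Emp cT (ordSt true 1690809) :=
  t428 h

theorem rt467 (h : Sound) : Emp cT (ordSt false 9518265) :=
  t467 h ⟨t466 h ⟨t448 h ⟨t436 h ⟨t429 h, trivial⟩, t433 h ⟨t431 h ⟨t430 h, trivial⟩, trivial⟩, t432 h, t435 h ⟨t434 h, trivial⟩, t440 h ⟨t437 h, t438 h, t439 h, trivial⟩, t442 h ⟨t441 h, trivial⟩, trivial⟩, t447 h ⟨t443 h, trivial⟩, t446 h ⟨t444 h, t445 h, trivial⟩, trivial⟩, t449 h, t465 h, t464 h, t450 h, t463 h ⟨t462 h, t451 h, t461 h ⟨t453 h ⟨t452 h, trivial⟩, t455 h ⟨t454 h, trivial⟩, t456 h, t460 h ⟨t457 h, t459 h ⟨t458 h, trivial⟩, trivial⟩, trivial⟩, trivial⟩, trivial⟩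

theorem rt468 (h : Sound) : Emp cT (ordSt true 9518265) :=
  t468 h

theorem rt643 (h : Sound) : Emp cT (ordSt false 6372537) :=
  t643 h ⟨t642 h ⟨t578 h ⟨t470 h ⟨t469 h, trivial⟩, t472 h ⟨t471 h, trivial⟩, t474 h ⟨t473 h, trivial⟩, t500 h ⟨t499 h ⟨t475 h, t478 h ⟨t477 h, t476 h, trivial⟩, t493 h ⟨t479 h, t487 h ⟨t486 h ⟨t480 h, trivial⟩, t481 h, t482 h, t485 h ⟨t483 h, trivial⟩, t484 h, trivial⟩, t488 h, t492 h ⟨t490 h ⟨t489 h, trivial⟩, t491 h, trivial⟩, trivial⟩, t498 h ⟨t495 h, t494 h, t496 h, t497 h, trivial⟩, trivial⟩, trivial⟩, trivial⟩, t577 h ⟨t517 h ⟨t514 h ⟨t502 h ⟨t501 h, trivial⟩, t506 h ⟨t505 h ⟨t503 h, trivial⟩, t504 h, trivial⟩, t509 h ⟨t507 h, t508 h, trivial⟩, trivial⟩, t513 h ⟨t510 h, trivial⟩, t511 h, t512 h, trivial⟩, t516 h ⟨t515 h, trivial⟩, t526 h ⟨t525 h ⟨t523 h ⟨t518 h, trivial⟩, t519 h, t522 h ⟨t521 h, t520 h, trivial⟩,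 trivial⟩, t524 h, trivial⟩, t545 h ⟨t528 h, t527 h, t534 h, t531 h ⟨t529 h, t530 h, trivial⟩, t533 h ⟨t532 h, trivial⟩, t544 h ⟨t540 h ⟨t536 h, t535 h, trivial⟩, t537 h, t539 h ⟨t538 h, trivial⟩, t543 h, t542 h ⟨t541 h, trivial⟩, trivial⟩, trivial⟩, trivial⟩, t558 h ⟨t553 h, t551 h, t550 h ⟨t547 h, t546 h, trivial⟩, t549 h ⟨t548 h, trivial⟩, t552 h, trivial⟩, t554 h, t556 h ⟨t555 h, trivial⟩, t557 h, t568 h ⟨t564 h ⟨t560 h ⟨t559 h, trivial⟩, t561 h, t562 h, t563 h, trivial⟩, t567 h ⟨t566 h ⟨t565 h, trivial⟩, trivial⟩, trivial⟩, t576 h ⟨t569 h, t572 h ⟨t570 h, t571 h, trivial⟩, t575 h ⟨t574 h ⟨t573 h, trivial⟩, trivial⟩, trivial⟩, t587 h ⟨t581 h ⟨t579 h, trivial⟩, t580 h, trivial⟩, t586 h ⟨t582 h, t583 h, trivial⟩, t585 h ⟨t584 h, trivial⟩, t588 h, t592 h ⟨t591 h ⟨t590 h, t589 h, trivial⟩, trivial⟩, t601 h ⟨t598 h ⟨t593 h, t594 h, trivial⟩,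 t597 h, t596 h ⟨t595 h, trivial⟩, t600 h ⟨t599 h, trivial⟩, trivial⟩, trivial⟩, t641 h ⟨t606 h ⟨t602 h, trivial⟩, t605 h ⟨t604 h ⟨t603 h, trivial⟩, trivial⟩, t610 h ⟨t609 h ⟨t608 h, t607 h, trivial⟩, trivial⟩, t623 h ⟨t613 h ⟨t611 h, trivial⟩, t612 h, t614 h, t622 h ⟨t621 h ⟨t619 h ⟨t615 h, trivial⟩, t618 h, t617 h, t616 h, trivial⟩, t620 h, trivial⟩, trivial⟩, trivial⟩, t624 h, t628 h ⟨t625 h, t627 h ⟨t626 h, trivial⟩, trivial⟩, t630 h ⟨t629 h, trivial⟩, t640 h ⟨t639 h ⟨t632 h ⟨t631 h, trivial⟩, t633 h, trivial⟩, t634 h, t638 h, t637 h ⟨t635 h, trivial⟩, t636 h, trivial⟩, trivial⟩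

theorem rt644 (h : Sound) : Emp cT (ordSt true 6372537) :=
  t644 h

theorem rt842 (h : Sound) : Emp cT (ordSt false 8731833) :=
  t842 h ⟨t841 h ⟨t746 h ⟨t660 h ⟨t647 h ⟨t645 h, t646 h, trivial⟩, t651 h ⟨t649 h ⟨t648 h, trivial⟩, trivial⟩, t650 h, t652 h, trivial⟩, t659 h ⟨t654 h, t653 h, t655 h, trivial⟩, t658 h ⟨t656 h, trivial⟩, t657 h, t705 h ⟨t704 h ⟨t690 h ⟨t670 h ⟨t661 h, trivial⟩, t663 h ⟨t662 h, trivial⟩, t669 h ⟨t664 h, t666 h ⟨t665 h, trivial⟩, t668 h, t667 h, trivial⟩, trivial⟩, t689 h ⟨t675 h ⟨t673 h, t671 h, t672 h, trivial⟩, t674 h, t682 h ⟨t676 h, t679 h ⟨t677 h, trivial⟩, t678 h, trivial⟩, t681 h, t680 h, trivial⟩, t688 h ⟨t685 h ⟨t683 h, t684 h, trivial⟩, t687 h ⟨t686 h, trivial⟩, trivial⟩, trivial⟩, t695 h ⟨t691 h, t693 h ⟨t692 h, trivial⟩, t694 h, trivial⟩, t700 h ⟨t698 h ⟨t696 h, trivial⟩, t697 h, t699 h, trivial⟩, t703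 h ⟨t702 h ⟨t701 h, trivial⟩, trivial⟩, trivial⟩, trivial⟩, t745 h ⟨t716 h ⟨t708 h ⟨t706 h, t707 h, trivial⟩, t710 h ⟨t709 h, trivial⟩, trivial⟩, t711 h, t715 h ⟨t713 h, t712 h, t714 h, trivial⟩, t721 h ⟨t720 h ⟨t717 h, t718 h, trivial⟩, t719 h, trivial⟩, t726 h ⟨t725 h ⟨t724 h, t722 h, t723 h, trivial⟩, trivial⟩, trivial⟩, t727 h, t731 h ⟨t730 h, t728 h, t729 h, trivial⟩, t736 h ⟨t735 h ⟨t733 h ⟨t732 h, trivial⟩, t734 h, trivial⟩, trivial⟩, t744 h ⟨t737 h, t738 h, t743 h ⟨t741 h ⟨t739 h, trivial⟩, t740 h, t742 h, trivial⟩, trivial⟩, trivial⟩, t811 h ⟨t748 h ⟨t747 h, trivial⟩, t749 h, t759 h ⟨t752 h, t751 h, t750 h, t753 h, trivial⟩, t758 h ⟨t754 h, trivial⟩, t756 h, t755 h, t757 h, trivial⟩, t793 h ⟨t765 h ⟨t764 h ⟨t760 h, t762 h ⟨t761 h, trivial⟩, trivial⟩, t763 h, trivial⟩, t767 h ⟨t766 h, trivial⟩, t771 h ⟨t768 h, trivial⟩, t769 h, t770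 h, trivial⟩, t792 h ⟨t772 h, t776 h ⟨t773 h, t775 h ⟨t774 h, trivial⟩, trivial⟩, t779 h ⟨t777 h, t778 h, trivial⟩, trivial⟩, t791 h ⟨t780 h, t783 h, t782 h, t781 h, trivial⟩, t790 h ⟨t784 h, trivial⟩, t789 h ⟨t785 h, t786 h, t787 h, trivial⟩, t788 h, t810 h ⟨t796 h ⟨t795 h ⟨t794 h, trivial⟩, trivial⟩, t809 h ⟨t808 h ⟨t803 h ⟨t797 h, trivial⟩, t802 h ⟨t799 h ⟨t798 h, trivial⟩, trivial⟩, t801 h, t800 h, trivial⟩, t804 h, t806 h ⟨t805 h, trivial⟩, t807 h, trivial⟩, trivial⟩, t840 h ⟨t812 h, t814 h ⟨t813 h, trivial⟩, t817 h ⟨t815 h, t816 h, trivial⟩, t825 h ⟨t819 h ⟨t818 h, trivial⟩, t822 h ⟨t821 h ⟨t820 h, trivial⟩, trivial⟩, t824 h ⟨t823 h, trivial⟩, trivial⟩, t831 h ⟨t826 h, t827 h, trivial⟩, t830 h ⟨t829 h ⟨t828 h, trivial⟩, trivial⟩, t839 h ⟨t832 h, t833 h, t838 h ⟨t834 h, t837 h ⟨t836 h, t835 h, trivial⟩, trivial⟩, trivial⟩, trivial⟩, trivial⟩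

theorem rt843 (h : Sound) : Emp cT (ordSt true 8731833) :=
  t843 h

theorem rt844 (h : Sound) : Emp cT (ordSt false 2440377) :=
  t844 h

theorem rt845 (h : Sound) : Emp cT (ordSt true 2440377) :=
  t845 h

theorem rt878 (h : Sound) : Emp cT (ordSt false 9469113) :=
  t878 h ⟨t849 h ⟨t847 h, t846 h, trivial⟩, t848 h, t859 h ⟨t857 h ⟨t851 h ⟨t850 h, trivial⟩, t853 h ⟨t852 h, trivial⟩, t854 h, trivial⟩, t856 h ⟨t855 h, trivial⟩, t858 h, trivial⟩, t862 h ⟨t860 h, t861 h, trivial⟩, t866 h ⟨t865 h ⟨t863 h, t864 h, trivial⟩, trivial⟩, t869 h ⟨t867 h, t868 h, trivial⟩, t877 h ⟨t874 h ⟨t871 h, t870 h, trivial⟩, t873 h ⟨t872 h, trivial⟩, t876 h, t875 h, trivial⟩, trivial⟩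

theorem rt879 (h : Sound) : Emp cT (ordSt true 9469113) :=
  t879 h

theorem rt956 (h : Sound) : Emp cT (ordSt false 6323385) :=
  t956 h ⟨t920 h ⟨t886 h, t885 h, t884 h ⟨t880 h, trivial⟩, t883 h, t882 h, t881 h, t894 h ⟨t887 h, t893 h ⟨t892 h ⟨t888 h, t891 h ⟨t889 h, trivial⟩, t890 h, trivial⟩, trivial⟩, trivial⟩, t902 h ⟨t896 h ⟨t895 h, trivial⟩, trivial⟩, t898 h ⟨t897 h, trivial⟩, t901 h ⟨t899 h, t900 h, trivial⟩, trivial⟩, t916 h ⟨t908 h ⟨t903 h, t904 h, t905 h, trivial⟩, t907 h ⟨t906 h, trivial⟩, t911 h ⟨t910 h ⟨t909 h, trivial⟩, trivial⟩, trivial⟩, t915 h ⟨t912 h, trivial⟩, t914 h, t913 h, t919 h ⟨t918 h, t917 h, trivial⟩, t955 h ⟨t954 h ⟨t931 h ⟨t924 h, t923 h ⟨t921 h, t922 h, trivial⟩, t928 h, t925 h, t926 h, t927 h, trivial⟩, t930 h, t929 h, trivial⟩, t943 h ⟨t932 h, trivial⟩, t937 h ⟨t933 h, trivial⟩, t936 h ⟨t934 h, t935 h, trivial⟩,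 t942 h ⟨t941 h ⟨t938 h, t940 h ⟨t939 h, trivial⟩, trivial⟩, trivial⟩, t953 h ⟨t952 h ⟨t944 h, t945 h, t947 h, t946 h, t950 h ⟨t949 h ⟨t948 h, trivial⟩, trivial⟩, trivial⟩, t951 h, trivial⟩, trivial⟩, trivial⟩

theorem rt957 (h : Sound) : Emp cT (ordSt true 6323385) :=
  t957 h

theorem rt958 (h : Sound) : Emp cT (ordSt false 8682681) :=
  t958 h

theorem rt959 (h : Sound) : Emp cT (ordSt true 8682681) :=
  t959 h

theorem rt960 (h : Sound) : Emp cT (ordSt false 9552825) :=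
  t960 h

theorem rt961 (h : Sound) : Emp cT (ordSt true 9552825) :=
  t961 h

theorem rt962 (h : Sound) : Emp cT (ordSt false 6407097) :=
  t962 h

theorem rt963 (h : Sound) : Emp cT (ordSt true 6407097) :=
  t963 h

theorem rt964 (h : Sound) : Emp cT (ordSt false 8766393) :=
  t964 h

theorem rt965 (h : Sound) : Emp cT (ordSt true 8766393) :=
  t965 h

theorem rt966 (h : Sound) : Emp cT (ordSt false 1688505) :=
  t966 h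

theorem rt967 (h : Sound) : Emp cT (ordSt true 1688505) :=
  t967 h

theorem rt1117 (h : Sound) : Emp cT (ordSt false 9515961) :=
  t1117 h ⟨t970 h, t969 h ⟨t968 h, trivial⟩, t975 h, t974 h ⟨t973 h ⟨t972 h ⟨t971 h, trivial⟩, trivial⟩, trivial⟩, t1116 h ⟨t976 h, t978 h ⟨t977 h, trivial⟩, t983 h ⟨t979 h, t980 h, trivial⟩, t982 h ⟨t981 h, trivial⟩, t1115 h ⟨t984 h, t1114 h ⟨t993 h ⟨t992 h ⟨t991 h ⟨t990 h ⟨t989 h ⟨t985 h, trivial⟩, t988 h ⟨t987 h, t986 h, trivial⟩, trivial⟩, trivial⟩, trivial⟩, trivial⟩, t1113 h ⟨t1021 h, t1020 h ⟨t996 h ⟨t995 h ⟨t994 h, trivial⟩, trivial⟩, t1019 h ⟨t1018 h, t1010 h, t997 h, t1009 h ⟨t998 h, t1008 h ⟨t1007 h ⟨t1006 h ⟨t1001 h ⟨t1000 h, t999 h, trivial⟩, t1005 h ⟨t1004 h ⟨t1002 h, t1003 h, trivial⟩, trivial⟩, trivial⟩, trivial⟩, trivial⟩, trivial⟩, t1017 h ⟨t1016 h ⟨t1015 h ⟨t1013 h ⟨t1011 h, trivial⟩, t1012 h,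 trivial⟩, t1014 h, trivial⟩, trivial⟩, trivial⟩, trivial⟩, trivial⟩, t1112 h ⟨t1111 h ⟨t1023 h ⟨t1022 h, trivial⟩, trivial⟩, t1110 h ⟨t1109 h ⟨t1108 h ⟨t1025 h ⟨t1024 h, trivial⟩, t1107 h ⟨t1028 h ⟨t1027 h, t1026 h, trivial⟩, t1106 h ⟨t1029 h, trivial⟩, t1030 h, t1033 h ⟨t1031 h, t1032 h, trivial⟩, t1105 h ⟨t1064 h ⟨t1063 h ⟨t1062 h ⟨t1046 h ⟨t1034 h, t1040 h ⟨t1039 h ⟨t1037 h, t1036 h, t1035 h, t1038 h, trivial⟩, trivial⟩, t1045 h ⟨t1044 h ⟨t1041 h, t1043 h ⟨t1042 h, trivial⟩, trivial⟩, trivial⟩, trivial⟩, t1054 h ⟨t1053 h ⟨t1047 h, t1052 h ⟨t1048 h, t1051 h ⟨t1049 h, t1050 h, trivial⟩, trivial⟩, trivial⟩, trivial⟩, t1061 h ⟨t1059 h ⟨t1057 h ⟨t1056 h ⟨t1055 h, trivial⟩, trivial⟩, trivial⟩, t1058 h, t1060 h, trivial⟩, trivial⟩, trivial⟩, trivial⟩, t1104 h ⟨t1100 h ⟨t1099 h ⟨t1065 h, trivial⟩, t1097 h ⟨t1066 h, t1069 h ⟨t1068 h ⟨t1067 h, trivial⟩,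 trivial⟩, trivial⟩, t1096 h ⟨t1076 h ⟨t1075 h ⟨t1070 h, trivial⟩, t1074 h ⟨t1072 h ⟨t1071 h, trivial⟩, t1073 h, trivial⟩, trivial⟩, trivial⟩, t1077 h, t1095 h ⟨t1093 h ⟨t1092 h ⟨t1078 h, t1080 h ⟨t1079 h, trivial⟩, trivial⟩, t1090 h ⟨t1081 h, t1089 h ⟨t1086 h ⟨t1084 h ⟨t1082 h, t1083 h, trivial⟩, t1085 h, trivial⟩, t1087 h, trivial⟩, t1088 h, trivial⟩, t1091 h, trivial⟩, t1094 h, trivial⟩, t1098 h, trivial⟩, trivial⟩, t1102 h ⟨t1101 h, trivial⟩, t1103 h, trivial⟩, trivial⟩, trivial⟩, trivial⟩, trivial⟩, trivial⟩, trivial⟩, trivial⟩, trivial⟩, trivial⟩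

theorem rt1118 (h : Sound) : Emp cT (ordSt true 9515961) :=
  t1118 h

theorem rt1179 (h : Sound) : Emp cT (ordSt false 1689849) :=
  t1179 h ⟨t1178 h ⟨t1144 h ⟨t1122 h ⟨t1119 h, trivial⟩, t1121 h, t1120 h, t1128 h ⟨t1123 h, t1124 h, trivial⟩, t1127 h, t1126 h ⟨t1125 h, trivial⟩, trivial⟩, t1143 h ⟨t1129 h, t1131 h ⟨t1130 h, trivial⟩, t1134 h, t1133 h, t1132 h, trivial⟩, t1142 h ⟨t1135 h, t1136 h, trivial⟩, t1141 h ⟨t1137 h, trivial⟩, t1140 h ⟨t1138 h, trivial⟩, t1139 h, trivial⟩, t1177 h ⟨t1148 h, t1147 h ⟨t1146 h ⟨t1145 h, trivial⟩, trivial⟩, t1152 h ⟨t1150 h ⟨t1149 h, trivial⟩, trivial⟩, t1151 h, t1157 h ⟨t1153 h, trivial⟩, t1154 h, t1156 h ⟨t1155 h, trivial⟩, trivial⟩, t1176 h ⟨t1160 h ⟨t1158 h, t1159 h, trivial⟩, trivial⟩, t1175 h ⟨t1161 h, t1162 h, t1164 h ⟨t1163 h, trivial⟩, trivial⟩, t1165 h, t1167 h ⟨t1166 h, trivial⟩, t1174 h ⟨t1173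 h ⟨t1168 h, t1169 h, t1170 h, trivial⟩, t1172 h, t1171 h, trivial⟩, trivial⟩

theorem rt1180 (h : Sound) : Emp cT (ordSt true 1689849) :=
  t1180 h

theorem rt1290 (h : Sound) : Emp cT (ordSt false 4921593) :=
  t1290 h ⟨t1252 h ⟨t1182 h ⟨t1181 h, trivial⟩, t1189 h ⟨t1188 h ⟨t1183 h, trivial⟩, t1184 h, t1185 h, t1187 h, t1186 h, trivial⟩, trivial⟩, t1196 h ⟨t1191 h, t1190 h, trivial⟩, t1192 h, t1195 h ⟨t1193 h, t1194 h, trivial⟩, t1200 h ⟨t1199 h ⟨t1197 h, t1198 h, trivial⟩, trivial⟩, t1228 h ⟨t1227 h ⟨t1208 h ⟨t1205 h, t1201 h, t1202 h, t1204 h ⟨t1203 h, trivial⟩, t1207 h, t1206 h, trivial⟩, t1211 h ⟨t1209 h, t1210 h, trivial⟩, t1215 h ⟨t1213 h ⟨t1212 h, trivial⟩, trivial⟩, t1214 h, t1218 h ⟨t1216 h, t1217 h, trivial⟩, trivial⟩, t1223 h ⟨t1219 h, trivial⟩, t1222 h, t1221 h, t1220 h, t1226 h, t1224 h, t1225 h, trivial⟩, t1243 h ⟨t1231 h ⟨t1229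 h, trivial⟩, t1230 h, t1238 h ⟨t1233 h ⟨t1232 h, trivial⟩, t1235 h, t1234 h, trivial⟩, t1236 h, t1237 h, t1242 h ⟨t1239 h, t1241 h ⟨t1240 h, trivial⟩, trivial⟩, trivial⟩, t1251 h ⟨t1245 h ⟨t1244 h, trivial⟩, t1246 h, t1248 h ⟨t1247 h, trivial⟩, t1250 h ⟨t1249 h, trivial⟩, trivial⟩, t1262 h ⟨t1256 h ⟨t1253 h, t1254 h, trivial⟩, t1255 h, t1259 h ⟨t1258 h ⟨t1257 h, trivial⟩, trivial⟩, trivial⟩, t1261 h ⟨t1260 h, trivial⟩, t1266 h ⟨t1264 h ⟨t1263 h, trivial⟩, t1265 h, trivial⟩, t1268 h ⟨t1267 h, trivial⟩, t1269 h, t1289 h ⟨t1270 h, t1288 h ⟨t1282 h ⟨t1277 h ⟨t1272 h ⟨t1271 h, trivial⟩, t1273 h, trivial⟩, t1274 h, t1275 h, t1276 h, trivial⟩, t1281 h ⟨t1279 h ⟨t1278 h, trivial⟩, trivial⟩, t1280 h, t1283 h, t1284 h, t1287 h ⟨t1286 h ⟨t1285 h, trivial⟩, trivial⟩, trivial⟩, trivial⟩, trivial⟩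

theorem rt1291 (h : Sound) : Emp cT (ordSt true 4921593) :=
  t1291 h

theorem runt (h : Sound) : AllO cT ocodes := ⟨rt1 h, rt0 h, rt3 h, rt2 h, rt5 h, rt4 h, rt7 h, rt6 h, rt9 h, rt8 h, rt11 h, rt10 h, rt13 h, rt12 h, rt15 h, rt14 h, rt17 h, rt16 h, rt19 h, rt18 h, rt21 h, rt20 h, rt23 h, rt22 h, rt25 h, rt24 h, rt27 h, rt26 h, rt29 h, rt28 h, rt31 h, rt30 h, rt96 h, rt32 h, rt172 h, rt97 h, rt174 h, rt173 h, rt176 h, rt175 h, rt178 h, rt177 h, rt180 h, rt179 h, rt182 h, rt181 h, rt184 h, rt183 h, rt186 h, rt185 h, rt188 h, rt187 h, rt190 h, rt189 h, rt192 h, rt191 h, rt194 h, rt193 h, rt196 h, rt195 h, rt198 h, rt197 h, rt200 h, rt199 h, rt202 h, rt201 h, rt204 h, rt203 h, rt206 h, rt205 h, rt208 h, rt207 h, rt324 h, rt209 h, rt412 h, rt325 h, rt414 h, rt413 h, rt416 h, rt415 h, rt418 h, rt417 h, rt420 h, rt419 h, rt422 h, rt421 h, rt424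 h, rt423 h, rt426 h, rt425 h, rt428 h, rt427 h, rt468 h, rt467 h, rt644 h, rt643 h, rt843 h, rt842 h, rt845 h, rt844 h, rt879 h, rt878 h, rt957 h, rt956 h, rt959 h, rt958 h, rt961 h, rt960 h, rt963 h, rt962 h, rt965 h, rt964 h, rt967 h, rt966 h, rt1118 h, rt1117 h, rt1180 h, rt1179 h, rt1291 h, rt1290 h, trivial⟩

theorem ra0 (h : Sound) : Emp (cD 2 1 1) (ordSt false 9653817) :=
  a0 h

theorem ra1 (h : Sound) : Emp (cD 2 1 1) (ordSt true 9653817) :=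
  a1 h

theorem ra2 (h : Sound) : Emp (cD 2 1 1) (ordSt false 6508089) :=
  a2 h

theorem ra3 (h : Sound) : Emp (cD 2 1 1) (ordSt true 6508089) :=
  a3 h

theorem ra4 (h : Sound) : Emp (cD 2 1 1) (ordSt false 8867385) :=
  a4 h

theorem ra5 (h : Sound) : Emp (cD 2 1 1) (ordSt true 8867385) :=
  a5 h

theorem ra6 (h : Sound) : Emp (cD 2 1 1) (ordSt false 2575929) :=
  a6 h

theorem ra7 (h : Sound) : Emp (cD 2 1 1) (ordSt true 2575929) :=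
  a7 h

theorem ra8 (h : Sound) : Emp (cD 2 1 1) (ordSt false 4935225) :=
  a8 h

theorem ra9 (h : Sound) : Emp (cD 2 1 1) (ordSt true 4935225) :=
  a9 h

theorem ra10 (h : Sound) : Emp (cD 2 1 1) (ordSt false 1789497) :=
  a10 h

theorem ra11 (h : Sound) : Emp (cD 2 1 1) (ordSt true 1789497) :=
  a11 h

theorem ra12 (h : Sound) : Emp (cD 2 1 1) (ordSt false 9555513) :=
  a12 h

theorem ra13 (h : Sound) : Emp (cD 2 1 1) (ordSt true 9555513) :=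
  a13 h

theorem ra14 (h : Sound) : Emp (cD 2 1 1) (ordSt false 6409785) :=
  a14 h

theorem ra15 (h : Sound) : Emp (cD 2 1 1) (ordSt true 6409785) :=
  a15 h

theorem ra16 (h : Sound) : Emp (cD 2 1 1) (ordSt false 8769081) :=
  a16 h

theorem ra17 (h : Sound) : Emp (cD 2 1 1) (ordSt true 8769081) :=
  a17 h

theorem ra18 (h : Sound) : Emp (cD 2 1 1) (ordSt false 2477625) :=
  a18 h

theorem ra19 (h : Sound) : Emp (cD 2 1 1) (ordSt true 2477625) :=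
  a19 h

theorem ra20 (h : Sound) : Emp (cD 2 1 1) (ordSt false 4836921) :=
  a20 h

theorem ra21 (h : Sound) : Emp (cD 2 1 1) (ordSt true 4836921) :=
  a21 h

theorem ra22 (h : Sound) : Emp (cD 2 1 1) (ordSt false 1691193) :=
  a22 h

theorem ra23 (h : Sound) : Emp (cD 2 1 1) (ordSt true 1691193) :=
  a23 h

theorem ra24 (h : Sound) : Emp (cD 2 1 1) (ordSt false 9518649) :=
  a24 h

theorem ra25 (h : Sound) : Emp (cD 2 1 1) (ordSt true 9518649) :=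
  a25 h

theorem ra26 (h : Sound) : Emp (cD 2 1 1) (ordSt false 6372921) :=
  a26 h

theorem ra27 (h : Sound) : Emp (cD 2 1 1) (ordSt true 6372921) :=
  a27 h

theorem ra28 (h : Sound) : Emp (cD 2 1 1) (ordSt false 8732217) :=
  a28 h

theorem ra29 (h : Sound) : Emp (cD 2 1 1) (ordSt true 8732217) :=
  a29 h

theorem ra30 (h : Sound) : Emp (cD 2 1 1) (ordSt false 2440761) :=
  a30 h

theorem ra31 (h : Sound) : Emp (cD 2 1 1) (ordSt true 2440761) :=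
  a31 h

theorem ra32 (h : Sound) : Emp (cD 2 1 1) (ordSt false 4800057) :=
  a32 h

theorem ra38 (h : Sound) : Emp (cD 2 1 1) (ordSt true 4800057) :=
  a38 h ⟨a37 h ⟨a35 h ⟨a34 h ⟨a33 h, trivial⟩, trivial⟩, trivial⟩, a36 h, trivial⟩

theorem ra39 (h : Sound) : Emp (cD 2 1 1) (ordSt false 1654329) :=
  a39 h

theorem ra46 (h : Sound) : Emp (cD 2 1 1) (ordSt true 1654329) :=
  a46 h ⟨a43 h ⟨a41 h, a40 h, a42 h, trivial⟩, a45 h ⟨a44 h, trivial⟩, trivial⟩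

theorem ra47 (h : Sound) : Emp (cD 2 1 1) (ordSt false 9653049) :=
  a47 h

theorem ra48 (h : Sound) : Emp (cD 2 1 1) (ordSt true 9653049) :=
  a48 h

theorem ra49 (h : Sound) : Emp (cD 2 1 1) (ordSt false 6507321) :=
  a49 h

theorem ra50 (h : Sound) : Emp (cD 2 1 1) (ordSt true 6507321) :=
  a50 h

theorem ra51 (h : Sound) : Emp (cD 2 1 1) (ordSt false 8866617) :=
  a51 h

theorem ra52 (h : Sound) : Emp (cD 2 1 1) (ordSt true 8866617) :=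
  a52 h

theorem ra53 (h : Sound) : Emp (cD 2 1 1) (ordSt false 2575161) :=
  a53 h

theorem ra54 (h : Sound) : Emp (cD 2 1 1) (ordSt true 2575161) :=
  a54 h

theorem ra55 (h : Sound) : Emp (cD 2 1 1) (ordSt false 4934457) :=
  a55 h

theorem ra56 (h : Sound) : Emp (cD 2 1 1) (ordSt true 4934457) :=
  a56 h

theorem ra57 (h : Sound) : Emp (cD 2 1 1) (ordSt false 1788729) :=
  a57 h

theorem ra58 (h : Sound) : Emp (cD 2 1 1) (ordSt true 1788729) :=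
  a58 h

theorem ra59 (h : Sound) : Emp (cD 2 1 1) (ordSt false 9554745) :=
  a59 h

theorem ra60 (h : Sound) : Emp (cD 2 1 1) (ordSt true 9554745) :=
  a60 h

theorem ra61 (h : Sound) : Emp (cD 2 1 1) (ordSt false 6409017) :=
  a61 h

theorem ra62 (h : Sound) : Emp (cD 2 1 1) (ordSt true 6409017) :=
  a62 h

theorem ra63 (h : Sound) : Emp (cD 2 1 1) (ordSt false 2476857) :=
  a63 h

theorem ra64 (h : Sound) : Emp (cD 2 1 1) (ordSt true 2476857) :=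
  a64 h

theorem ra65 (h : Sound) : Emp (cD 2 1 1) (ordSt false 4836153) :=
  a65 h

theorem ra66 (h : Sound) : Emp (cD 2 1 1) (ordSt true 4836153) :=
  a66 h

theorem ra67 (h : Sound) : Emp (cD 2 1 1) (ordSt false 1690425) :=
  a67 h

theorem ra68 (h : Sound) : Emp (cD 2 1 1) (ordSt true 1690425) :=
  a68 h

theorem ra69 (h : Sound) : Emp (cD 2 1 1) (ordSt false 9640761) :=
  a69 h

theorem ra70 (h : Sound) : Emp (cD 2 1 1) (ordSt true 9640761) :=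
  a70 h

theorem ra71 (h : Sound) : Emp (cD 2 1 1) (ordSt false 6495033) :=
  a71 h

theorem ra72 (h : Sound) : Emp (cD 2 1 1) (ordSt true 6495033) :=
  a72 h

theorem ra73 (h : Sound) : Emp (cD 2 1 1) (ordSt false 4922169) :=
  a73 h

theorem ra74 (h : Sound) : Emp (cD 2 1 1) (ordSt true 4922169) :=
  a74 h

theorem ra75 (h : Sound) : Emp (cD 2 1 1) (ordSt false 1776441) :=
  a75 h

theorem ra76 (h : Sound) : Emp (cD 2 1 1) (ordSt true 1776441) :=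
  a76 h

theorem ra77 (h : Sound) : Emp (cD 2 1 1) (ordSt false 6347577) :=
  a77 h

theorem ra78 (h : Sound) : Emp (cD 2 1 1) (ordSt true 6347577) :=
  a78 h

theorem ra79 (h : Sound) : Emp (cD 2 1 1) (ordSt false 4774713) :=
  a79 h

theorem ra80 (h : Sound) : Emp (cD 2 1 1) (ordSt true 4774713) :=
  a80 h

theorem ra81 (h : Sound) : Emp (cD 2 1 1) (ordSt false 1628985) :=
  a81 h

theorem ra82 (h : Sound) : Emp (cD 2 1 1) (ordSt true 1628985) :=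
  a82 h

theorem ra83 (h : Sound) : Emp (cD 2 1 1) (ordSt false 1653561) :=
  a83 h

theorem ra90 (h : Sound) : Emp (cD 2 1 1) (ordSt true 1653561) :=
  a90 h ⟨a89 h ⟨a84 h, a85 h, trivial⟩, a87 h, a86 h, a88 h, trivial⟩

theorem ra91 (h : Sound) : Emp (cD 2 1 1) (ordSt false 4750137) :=
  a91 h

theorem ra98 (h : Sound) : Emp (cD 2 1 1) (ordSt true 4750137) :=
  a98 h ⟨a96 h ⟨a95 h ⟨a93 h, a92 h, trivial⟩, a94 h, trivial⟩, a97 h, trivial⟩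

theorem ra99 (h : Sound) : Emp (cD 2 1 1) (ordSt false 9653433) :=
  a99 h

theorem ra100 (h : Sound) : Emp (cD 2 1 1) (ordSt true 9653433) :=
  a100 h

theorem ra101 (h : Sound) : Emp (cD 2 1 1) (ordSt false 6507705) :=
  a101 h

theorem ra102 (h : Sound) : Emp (cD 2 1 1) (ordSt true 6507705) :=
  a102 h

theorem ra103 (h : Sound) : Emp (cD 2 1 1) (ordSt false 9555129) :=
  a103 h

theorem ra104 (h : Sound) : Emp (cD 2 1 1) (ordSt true 9555129) :=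
  a104 h

theorem ra105 (h : Sound) : Emp (cD 2 1 1) (ordSt false 6409401) :=
  a105 h

theorem ra106 (h : Sound) : Emp (cD 2 1 1) (ordSt true 6409401) :=
  a106 h

theorem ra107 (h : Sound) : Emp (cD 2 1 1) (ordSt false 8768697) :=
  a107 h

theorem ra108 (h : Sound) : Emp (cD 2 1 1) (ordSt true 8768697) :=
  a108 h

theorem ra109 (h : Sound) : Emp (cD 2 1 1) (ordSt false 2477241) :=
  a109 h

theorem ra110 (h : Sound) : Emp (cD 2 1 1) (ordSt true 2477241) :=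
  a110 h

theorem ra111 (h : Sound) : Emp (cD 2 1 1) (ordSt false 4836537) :=
  a111 h

theorem ra112 (h : Sound) : Emp (cD 2 1 1) (ordSt true 4836537) :=
  a112 h

theorem ra113 (h : Sound) : Emp (cD 2 1 1) (ordSt false 1690809) :=
  a113 h

theorem ra114 (h : Sound) : Emp (cD 2 1 1) (ordSt true 1690809) :=
  a114 h

theorem ra120 (h : Sound) : Emp (cD 2 1 1) (ordSt false 9518265) :=
  a120 h ⟨a115 h, a116 h, a117 h, a119 h ⟨a118 h, trivial⟩, trivial⟩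

theorem ra121 (h : Sound) : Emp (cD 2 1 1) (ordSt true 9518265) :=
  a121 h

theorem ra126 (h : Sound) : Emp (cD 2 1 1) (ordSt false 6372537) :=
  a126 h ⟨a122 h, a123 h, a125 h ⟨a124 h, trivial⟩, trivial⟩

theorem ra127 (h : Sound) : Emp (cD 2 1 1) (ordSt true 6372537) :=
  a127 h

theorem ra128 (h : Sound) : Emp (cD 2 1 1) (ordSt false 8731833) :=
  a128 h

theorem ra129 (h : Sound) : Emp (cD 2 1 1) (ordSt true 8731833) :=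
  a129 h

theorem ra130 (h : Sound) : Emp (cD 2 1 1) (ordSt false 2440377) :=
  a130 h

theorem ra131 (h : Sound) : Emp (cD 2 1 1) (ordSt true 2440377) :=
  a131 h

theorem ra140 (h : Sound) : Emp (cD 2 1 1) (ordSt false 9469113) :=
  a140 h ⟨a139 h ⟨a133 h ⟨a132 h, trivial⟩, a134 h, a136 h ⟨a135 h, trivial⟩, trivial⟩, a137 h, a138 h, trivial⟩

theorem ra141 (h : Sound) : Emp (cD 2 1 1) (ordSt true 9469113) :=
  a141 h

theorem ra152 (h : Sound) : Emp (cD 2 1 1) (ordSt false 6323385) :=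
  a152 h ⟨a151 h ⟨a143 h, a142 h, a147 h ⟨a144 h, a145 h, a146 h, trivial⟩, a148 h, trivial⟩, a150 h, a149 h, trivial⟩

theorem ra153 (h : Sound) : Emp (cD 2 1 1) (ordSt true 6323385) :=
  a153 h

theorem ra154 (h : Sound) : Emp (cD 2 1 1) (ordSt false 8682681) :=
  a154 h

theorem ra155 (h : Sound) : Emp (cD 2 1 1) (ordSt true 8682681) :=
  a155 h

theorem ra156 (h : Sound) : Emp (cD 2 1 1) (ordSt false 9552825) :=
  a156 h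

theorem ra157 (h : Sound) : Emp (cD 2 1 1) (ordSt true 9552825) :=
  a157 h

theorem ra158 (h : Sound) : Emp (cD 2 1 1) (ordSt false 6407097) :=
  a158 h

theorem ra159 (h : Sound) : Emp (cD 2 1 1) (ordSt true 6407097) :=
  a159 h

theorem ra160 (h : Sound) : Emp (cD 2 1 1) (ordSt false 8766393) :=
  a160 h

theorem ra161 (h : Sound) : Emp (cD 2 1 1) (ordSt true 8766393) :=
  a161 h

theorem ra162 (h : Sound) : Emp (cD 2 1 1) (ordSt false 1688505) :=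
  a162 h

theorem ra163 (h : Sound) : Emp (cD 2 1 1) (ordSt true 1688505) :=
  a163 h

theorem ra170 (h : Sound) : Emp (cD 2 1 1) (ordSt false 9515961) :=
  a170 h ⟨a169 h ⟨a165 h ⟨a164 h, trivial⟩, trivial⟩, a167 h ⟨a166 h, trivial⟩, a168 h, trivial⟩

theorem ra171 (h : Sound) : Emp (cD 2 1 1) (ordSt true 9515961) :=
  a171 h

theorem ra185 (h : Sound) : Emp (cD 2 1 1) (ordSt false 1689849) :=
  a185 h ⟨a184 h ⟨a172 h, a174 h ⟨a173 h, trivial⟩, a177 h, a176 h ⟨a175 h, trivial⟩, trivial⟩, a183 h ⟨a180 h ⟨a179 h, a178 h, trivial⟩, trivial⟩, a181 h, a182 h, trivial⟩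

theorem ra186 (h : Sound) : Emp (cD 2 1 1) (ordSt true 1689849) :=
  a186 h

theorem ra187 (h : Sound) : Emp (cD 2 1 1) (ordSt false 4921593) :=
  a187 h

theorem ra188 (h : Sound) : Emp (cD 2 1 1) (ordSt true 4921593) :=
  a188 h

theorem runa (h : Sound) : AllO (cD 2 1 1) ocodes := ⟨ra1 h, ra0 h, ra3 h, ra2 h, ra5 h, ra4 h, ra7 h, ra6 h, ra9 h, ra8 h, ra11 h, ra10 h, ra13 h, ra12 h, ra15 h, ra14 h, ra17 h, ra16 h, ra19 h, ra18 h, ra21 h, ra20 h, ra23 h, ra22 h, ra25 h, ra24 h, ra27 h, ra26 h, ra29 h, ra28 h, ra31 h, ra30 h, ra38 h, ra32 h, ra46 h, ra39 h, ra48 h, ra47 h, ra50 h, ra49 h, ra52 h, ra51 h, ra54 h, ra53 h, ra56 h, ra55 h, ra58 h, ra57 h, ra60 h, ra59 h, ra62 h, ra61 h, ra64 h, ra63 h, ra66 h, ra65 h, ra68 h, ra67 h, ra70 h, ra69 h, ra72 h, ra71 h, ra74 h, ra73 h, ra76 h, ra75 h, ra78 h, ra77 h, ra80 h, ra79 h, ra82 h, ra81 h,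 ra90 h, ra83 h, ra98 h, ra91 h, ra100 h, ra99 h, ra102 h, ra101 h, ra104 h, ra103 h, ra106 h, ra105 h, ra108 h, ra107 h, ra110 h, ra109 h, ra112 h, ra111 h, ra114 h, ra113 h, ra121 h, ra120 h, ra127 h, ra126 h, ra129 h, ra128 h, ra131 h, ra130 h, ra141 h, ra140 h, ra153 h, ra152 h, ra155 h, ra154 h, ra157 h, ra156 h, ra159 h, ra158 h, ra161 h, ra160 h, ra163 h, ra162 h, ra171 h, ra170 h, ra186 h, ra185 h, ra188 h, ra187 h, trivial⟩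

theorem rb163 (h : Sound) : Emp (cD 3 2 2) (root false) :=
  b163 h ⟨b162 h ⟨b28 h ⟨b2 h ⟨b0 h, trivial⟩, b1 h, b6 h ⟨b3 h, b5 h ⟨b4 h, trivial⟩, trivial⟩, b10 h ⟨b7 h, b9 h ⟨b8 h, trivial⟩, trivial⟩, b13 h ⟨b12 h, b11 h, trivial⟩, b17 h ⟨b16 h, b14 h, b15 h, trivial⟩, b19 h ⟨b18 h, trivial⟩, trivial⟩, b23 h, b22 h ⟨b20 h, trivial⟩, b21 h, b27 h ⟨b26 h ⟨b24 h, trivial⟩, b25 h, trivial⟩, b31 h ⟨b30 h, b29 h, trivial⟩, b74 h ⟨b55 h ⟨b37 h ⟨b33 h, b32 h, b34 h, b35 h, trivial⟩, b36 h, b46 h ⟨b42 h ⟨b38 h, b40 h, b39 h, trivial⟩, b41 h, b45 h ⟨b43 h, b44 h, trivial⟩, trivial⟩, trivial⟩, b54 h ⟨b47 h, b48 h, b50 h ⟨b49 h, trivial⟩, b53 h ⟨b52 h, b51 h, trivial⟩, trivial⟩, b56 h, b58 h ⟨b57 h, trivial⟩, b67 h ⟨b64 h ⟨b62 h ⟨b60 h, b59 h, b61 h, trivial⟩, trivial⟩, b63 h, b66 h ⟨b65 h, trivial⟩, trivial⟩, b73 h ⟨b68 h, b70 h, b69 h, b72 h ⟨b71 h,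 trivial⟩, trivial⟩, trivial⟩, trivial⟩, b161 h ⟨b82 h ⟨b79 h ⟨b76 h ⟨b75 h, trivial⟩, b77 h, trivial⟩, b78 h, b81 h ⟨b80 h, trivial⟩, trivial⟩, b103 h ⟨b89 h ⟨b85 h, b83 h, b84 h, b88 h ⟨b87 h ⟨b86 h, trivial⟩, trivial⟩, trivial⟩, trivial⟩, b102 h ⟨b96 h ⟨b90 h, trivial⟩, b93 h, b91 h, b92 h, b95 h, b94 h, trivial⟩, b101 h ⟨b97 h, trivial⟩, b99 h, b98 h, b100 h, trivial⟩, b147 h ⟨b116 h ⟨b110 h ⟨b104 h, b105 h, b108 h ⟨b106 h, b107 h, trivial⟩, trivial⟩, b109 h, trivial⟩, b113 h, b111 h, b112 h, b115 h ⟨b114 h, trivial⟩, b133 h ⟨b118 h, b117 h, b125 h ⟨b121 h, b120 h, b119 h, b122 h, trivial⟩, b124 h, b123 h, b132 h ⟨b126 h, b128 h ⟨b127 h, trivial⟩, b129 h, b131 h ⟨b130 h, trivial⟩, trivial⟩, trivial⟩, trivial⟩, b136 h ⟨b135 h, b134 h, trivial⟩, b146 h ⟨b137 h, b140 h ⟨b139 h, b138 h, trivial⟩, b145 h ⟨b142 h ⟨b141 h, trivial⟩, trivial⟩, b144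 h, b143 h, trivial⟩, b160 h ⟨b159 h ⟨b148 h, b150 h ⟨b149 h, trivial⟩, b158 h ⟨b151 h, b152 h, b154 h ⟨b153 h, trivial⟩, trivial⟩, b155 h, b157 h ⟨b156 h, trivial⟩, trivial⟩, trivial⟩, trivial⟩

theorem rb202 (h : Sound) : Emp (cD 3 2 2) (root true) :=
  b202 h ⟨b201 h ⟨b185 h ⟨b164 h, b165 h, b166 h, b167 h, b170 h ⟨b168 h, b169 h, trivial⟩, trivial⟩, b184 h ⟨b175 h ⟨b171 h, b173 h ⟨b172 h, trivial⟩, trivial⟩, b174 h, trivial⟩, b177 h, b176 h, b179 h ⟨b178 h, trivial⟩, b183 h ⟨b181 h ⟨b180 h, trivial⟩, b182 h, trivial⟩, trivial⟩, b200 h ⟨b191 h ⟨b186 h, b188 h ⟨b187 h, trivial⟩, b189 h, trivial⟩, b190 h, trivial⟩, b196 h ⟨b192 h, b193 h, trivial⟩, b194 h, b195 h, b199 h ⟨b197 h, b198 h, trivial⟩, trivial⟩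

theorem runb (h : Sound) : RunD 3 2 2 := ⟨rb202 h, rb163 h⟩

theorem rc11 (h : Sound) : Emp (cD 4 3 3) (root false) :=
  c11 h ⟨c10 h ⟨c0 h, c3 h ⟨c2 h, c1 h, trivial⟩, trivial⟩, c9 h ⟨c4 h, trivial⟩, c5 h, c8 h ⟨c6 h, c7 h, trivial⟩, trivial⟩

theorem rc16 (h : Sound) : Emp (cD 4 3 3) (root true) :=
  c16 h ⟨c12 h, c15 h, c14 h, c13 h, trivial⟩

theorem runc (h : Sound) : RunD 4 3 3 := ⟨rc16 h, rc11 h⟩

theorem rd0 (h : Sound) : Emp (cD 5 4 4) (root false) :=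
  d0 h

theorem rd1 (h : Sound) : Emp (cD 5 4 4) (root true) :=
  d1 h

theorem rund (h : Sound) : RunD 5 4 4 := ⟨rd1 h, rd0 h⟩

theorem re9 (h : Sound) : Emp (cD 5 4 3) (root false) :=
  e9 h ⟨e3 h ⟨e0 h, e1 h, trivial⟩, e2 h, e8 h ⟨e7 h, e5 h ⟨e4 h, trivial⟩, e6 h, trivial⟩, trivial⟩

theorem re12 (h : Sound) : Emp (cD 5 4 3) (root true) :=
  e12 h ⟨e10 h, e11 h, trivial⟩

theorem rune (h : Sound) : RunD 5 4 3 := ⟨re12 h, re9 h⟩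

theorem rf0 (h : Sound) : Emp (cD 7 6 5) (root false) :=
  f0 h

theorem rf1 (h : Sound) : Emp (cD 7 6 5) (root true) :=
  f1 h

theorem runf (h : Sound) : RunD 7 6 5 := ⟨rf1 h, rf0 h⟩

theorem rg0 (h : Sound) : Emp (cD 8 7 5) (root false) :=
  g0 h

theorem rg1 (h : Sound) : Emp (cD 8 7 5) (root true) :=
  g1 h

theorem rung (h : Sound) : RunD 8 7 5 := ⟨rg1 h, rg0 h⟩

theorem ri0 (h : Sound) : Emp (cD 10 9 7) (root false) :=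
  i0 h

theorem ri1 (h : Sound) : Emp (cD 10 9 7) (root true) :=
  i1 h

theorem runi (h : Sound) : RunD 10 9 7 := ⟨ri1 h, ri0 h⟩

theorem rj0 (h : Sound) : Emp (cD 13 12 8) (root false) :=
  j0 h

theorem rj1 (h : Sound) : Emp (cD 13 12 8) (root true) :=
  j1 h

theorem runj (h : Sound) : RunD 13 12 8 := ⟨rj1 h, rj0 h⟩

theorem runAll (h : Sound) : RunAll := ⟨runb h, runc h, rund h, rune h, runf h, rung h, runi h, runj h⟩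

end Pool.Agent.P.MP_65d7bf_co.Dat
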