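import Pool.Agent.P.MP_65d7bf_co.Alg

namespace Pool.Agent.P.MP_65d7bf_co

def R3.neg (x : R3) : R3 := ⟨-x.a, -x.b, -x.c⟩
def dg (a b i : ℕ) : ℕ := if i = a ∨ i = b then 0 else 1

def RKok (e : Env) (d0 d1 d2 d3 k : ℕ) (q : RK) (x : X4) : Prop :=
  RQ3 e d0 d1 d2 d3 q.v (x.nv k) ∧ RN e d0 d1 d2 d3 q.k q.km x.x0 ∧
    RN e d0 d1 d2 d3 q.s q.sm x.sig

/-- A configuration in the cell, with the weights of its rows. -/
structure At (cf : Cfg) (st : St) (R : Rows) (e : Env) : Prop where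
  fx : Fx cf R
  dt : 0 < sgn st.s * R.det cf.ka
  n0 : e.t0.nn
  n1 : e.t1.nn
  n2 : e.t2.nn
  n3 : e.t3.nn
  i0 : InT st.r0 R.r0 e.t0
  i1 : InT st.r1 R.r1 e.t1
  i2 : InT st.r2 R.r2 e.t2
  i3 : InT st.r3 R.r3 e.t3
  cx : Ctx cf.ka st.s R st.ctx

structure PreOk (e : Env) (k : ℕ) (R : Rows) (p : Pre) : Prop where
  hB : p.B = e.B
  ng : ∀ (d0 d1 d2 d3 : ℕ) (x : Q) (v : ℝ), d0 ≤ 2 → d1 ≤ 2 → d2 ≤ 2 → d3 ≤ 2 →
    RQ e d0 d1 d2 d3 x v → negQ p.h p.mask x = true → v ≤ 0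
  q0 : RKok e 1 0 0 0 k p.q0 R.r0
  q1 : RKok e 0 1 0 0 k p.q1 R.r1
  q2 : RKok e 0 0 1 0 k p.q2 R.r2
  q3 : RKok e 0 0 0 1 k p.q3 R.r3
  x01 : RQ3 e 1 1 0 0 p.x01 ((R.r0.nv k).crs (R.r1.nv k))
  x02 : RQ3 e 1 0 1 0 p.x02 ((R.r0.nv k).crs (R.r2.nv k))
  x12 : RQ3 e 0 1 1 0 p.x12 ((R.r1.nv k).crs (R.r2.nv k))
  ee : ∀ (u v : U) (a b : ℕ), a < 4 → b < 4 → v.re = u.re.neg →
    RQ e (dg a b 0) (dg a b 1) (dg a b 2) (dg a b 3) (p.e u v a b)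
      (R.phi k u.re a - R.phi k u.re b)

structure LfOk (e : Env) (k : ℕ) (s : Bool) (R : Rows) (l : Lf) : Prop where
  p : PreOk e k R l.p
  d0 : RQ e 0 1 1 1 l.d0 (sgn s * R.det k)
  d1 : RQ e 1 0 1 1 l.d1 (sgn s * R.det k)
  d2 : RQ e 1 1 0 1 l.d2 (sgn s * R.det k)
  d3 : RQ e 1 1 1 0 l.d3 (sgn s * R.det k)
  S : RQ e 1 1 1 1 l.S (sgn s * R.det k)
  w : ∃ W0 W1 W2 W3 : ℝ, 0 < W0 ∧ 0 < W1 ∧ 0 < W2 ∧ 0 < W3 ∧ RN e 1 0 0 0 l.w0 l.m0 W0 ∧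
    RN e 0 1 0 0 l.w1 l.m1 W1 ∧ RN e 0 0 1 0 l.w2 l.m2 W2 ∧ RN e 0 0 0 1 l.w3 l.m3 W3 ∧
    RQ e 1 1 1 1 l.e0 (sgn s * R.det k * W0) ∧ RQ e 1 1 1 1 l.e1 (sgn s * R.det k * W1) ∧
    RQ e 1 1 1 1 l.e2 (sgn s * R.det k * W2) ∧ RQ e 1 1 1 1 l.e3 (sgn s * R.det k * W3)
  pi : RN e 1 1 1 1 l.pi l.pm (R.r0.sig * R.r1.sig * R.r2.sig * R.r3.sig)

/-- Some option of the column is a polynomial with positive value. -/
def ColOk (e : Env) (f : (Q → Bool) → Bool) : Prop :=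
  ∀ k, f k = true → ∃ o w, 0 < w ∧ RQ e 2 2 2 2 o w ∧ k o = true

def PreSpec : Prop := ∀ cf st R e b, At cf st R e → e.B = b + 1 →
  PreOk e cf.ka R (mkPre cf.ka b st.r0 st.r1 st.r2 st.r3)
def LfSpec : Prop := ∀ cf st R e p x, At cf st R e → PreOk e cf.ka R p →
  LfOk e cf.ka st.s R (mkLf st.s p x)
def CandSpec : Prop := ∀ e k s R p ctx key j (v : U), PreOk e k R p → Ctx k s R ctx →
  v.re = ((dirU key).sg s).re.neg → candOk p ctx ((dirU key).sg s) v key j = true →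
  ∃ a < 4, candAl ctx key j a = true ∧ IsTop k s R key a
def ColW : Prop := ∀ cf st R e l n j1 j2 lam, At cf st R e → LfOk e cf.ka st.s R l → 0 < lam →
  ColOk e (colW cf st l n j1 j2 lam)
def ColC : Prop := ∀ cf st R e l n lam, At cf st R e → LfOk e cf.ka st.s R l → 0 < lam →
  ColOk e (colC cf st l (dec3 n) lam)
def ColH : Prop := ∀ cf st R e l n lam, At cf st R e → LfOk e cf.ka st.s R l → 0 < lam →
  ColOk e (colH cf st l n lam)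
def ColV : Prop := ∀ cf st R e l lam, At cf st R e → LfOk e cf.ka st.s R l → 0 < lam →
  (∃ w, 0 < w ∧ RQ e 2 2 2 2 (optV0 cf l lam) w) ∧
    ∀ a < 4, ∃ w, 0 < w ∧ RQ e 2 2 2 2 (optV1 cf l a lam) w
def ColL : Prop := ∀ cf st R e l lam, At cf st R e → LfOk e cf.ka st.s R l → 0 < lam →
  ColOk e (colL cf st l lam)
def ColT : Prop := ∀ cf st R e l lam, At cf st R e → LfOk e cf.ka st.s R l → 0 < lam →
  ColOk e (colT cf st l lam)
def WbrSpec : Prop := ∀ cf st R e b x (f0 f1 f2 f3 : St → Bool), At cf st R e → e.B = b + 1 →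
  wbr cf st b x f0 f1 f2 f3 = true → ∃ h, IsTop cf.ka st.s R (h >>> 2) (h &&& 3) ∧
    (f0 { st with ctx := h :: st.ctx } = true ∨ f1 { st with ctx := h :: st.ctx } = true ∨
      f2 { st with ctx := h :: st.ctx } = true ∨ f3 { st with ctx := h :: st.ctx } = true)
def SplitSpec : Prop := ∀ st x (f g : St → Bool) R, split st x f g = true → InS st R →
  ∃ st', st'.s = st.s ∧ st'.ctx = st.ctx ∧ InS st' R ∧ (f st' = true ∨ g st' = true)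
def NthSpec : Prop := ∀ cf kn st k, AllE cf kn → nth kn st k = true → Emp cf st

def Sound : Prop := ∀ cf kn t st, AllE cf kn → chk cf kn t st = true → Emp cf st

theorem exAt {cf st R} (b : ℕ) (f : Fx cf R) (d : 0 < sgn st.s * R.det cf.ka) (i : InS st R)
    (c : Ctx cf.ka st.s R st.ctx) : ∃ e, At cf st R e ∧ e.B = b + 1 := by
  obtain ⟨⟨t0, a0, b0⟩, ⟨t1, a1, b1⟩, ⟨t2, a2, b2⟩, t3, a3, b3⟩ := i
  exact ⟨⟨b + 1, t0, t1, t2, t3⟩, ⟨f, d, a0, a1, a2, a3, b0, b1, b2, b3, c⟩, rfl⟩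

theorem col_ok (hW : ColW) (hC : ColC) (hH : ColH) (hV : ColV) (hL : ColL) (hT : ColT)
    {cf st R e l} (a : At cf st R e) (h : LfOk e cf.ka st.s R l) (x : ℕ) :
    ColOk e (col cf st l x) := by
  intro k hk
  have hl := Nat.succ_pos (Nat.shiftRight x 45)
  unfold col col2 at hk
  cases h0 : Nat.beq (Nat.land x 7) 0 <;> rw [h0] at hk
  swap
  · exact hW _ _ _ _ _ _ _ _ _ a h hl k hk
  cases h1 : Nat.beq (Nat.land x 7) 1 <;> rw [h1] at hk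
  swap
  · exact hC _ _ _ _ _ _ _ a h hl k hk
  cases h2 : Nat.beq (Nat.land x 7) 2 <;> rw [h2] at hk
  swap
  · exact hH _ _ _ _ _ _ _ a h hl k hk
  cases h3 : Nat.beq (Nat.land x 7) 3 <;> rw [h3] at hk
  swap
  · obtain ⟨w, a, b⟩ := (hV _ _ _ _ _ _ a h hl).1
    exact ⟨_, w, a, b, hk⟩
  cases h4 : Nat.beq (Nat.land x 7) 4 <;> rw [h4] at hk
  swap
  · obtain ⟨w, a, b⟩ := (hV _ _ _ _ _ _ a h hl).2 _ (Nat.lt_succ_of_le Nat.and_le_right)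
    exact ⟨_, w, a, b, hk⟩
  cases h5 : Nat.beq (Nat.land x 7) 5 <;> rw [h5] at hk
  · exact hT _ _ _ _ _ _ a h hl k hk
  · exact hL _ _ _ _ _ _ a h hl k hk

theorem go_ok {cf st R e l} (h : LfOk e cf.ka st.s R l) (hc : ∀ x, ColOk e (col cf st l x))
    (cs : List ℕ) : ∀ acc v, 0 < v → RQ e 2 2 2 2 acc v → go cf st l cs acc = true → False := by
  induction cs with
  | nil =>
    intro acc v hv hr hg
    exact absurd (h.p.ng _ _ _ _ _ _ le_rfl le_rfl le_rfl le_rfl hr hg) (not_le.2 hv)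
  | cons c cs ih =>
    intro acc v hv hr hg
    obtain ⟨o, w, hw, ho, hk⟩ := hc c _ hg
    exact ih _ _ (add_pos hv hw) (hr.add ho) hk

theorem sound_of (hP : PreSpec) (hF : LfSpec) (hW : ColW) (hC : ColC) (hH : ColH) (hV : ColV)
    (hL : ColL) (hT : ColT) (hB : WbrSpec) (hS : SplitSpec) (hN : NthSpec) : Sound := by
  intro cf kn t st hk
  induction t generalizing st with
  | sp x l r ihl ihr =>
    intro h R f d i c
    obtain ⟨st', e1, e2, i', h' | h'⟩ := hS st x _ _ R h i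
    · exact ihl st' h' R f (e1 ▸ d) i' (e1 ▸ e2 ▸ c)
    · exact ihr st' h' R f (e1 ▸ d) i' (e1 ▸ e2 ▸ c)
  | wb b x t0 t1 t2 t3 i0 i1 i2 i3 =>
    intro h R f d i c
    obtain ⟨e, a, hb⟩ := exAt b f d i c
    obtain ⟨y, hy, h'⟩ := hB cf st R e b x _ _ _ _ a hb h
    have c' : Ctx cf.ka st.s R (y :: st.ctx) := fun z hz => by
      rcases List.mem_cons.1 hz with rfl | hz
      exacts [hy, c z hz]
    rcases h' with h' | h' | h' | h'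
    exacts [i0 _ h' R f d i c', i1 _ h' R f d i c', i2 _ h' R f d i c', i3 _ h' R f d i c']
  | lf b w c cs =>
    intro h R f d i x
    obtain ⟨e, a, hb⟩ := exAt b f d i x
    have hl := hF _ _ _ _ _ w a (hP _ _ _ _ b a hb)
    have hc := col_ok hW hC hH hV hL hT a hl
    obtain ⟨o, v, hv, ho, hk⟩ := hc c _ h
    exact go_ok hl hc cs o v hv ho hk
  | rf k => exact hN cf kn st k hk

end Pool.Agent.P.MP_65d7bf_co
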