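import Pool.Agent.P.MP_65d7bf_co.St

namespace Pool.Agent.P.MP_65d7bf_co

namespace SqNorm

theorem low {s t x y l : ℝ} (hs : 0 < s) (ht : 0 < t) (h1 : 0 < s * x + y)
    (h2 : 0 < t * (1 - x) + y) : -(l ^ 2 * s + (1 - l) ^ 2 * t) < y := by
  have h3 : 0 < (s + t) * y + s * t := by nlinarith [mul_pos ht h1, mul_pos hs h2]
  have h4 : s * t ≤ (s + t) * (l ^ 2 * s + (1 - l) ^ 2 * t) := by
    nlinarith [sq_nonneg (l * s - (1 - l) * t)]
  have h5 : 0 < (s + t) * (y + (l ^ 2 * s + (1 - l) ^ 2 * t)) := by nlinarith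
  have := (mul_pos_iff_of_pos_left (add_pos hs ht)).1 h5
  linarith

theorem norm {A B x y : ℝ} (hB : 0 < B) (h : 0 < A * x + B * y) : 0 < A / B * x + y := by
  have e : A / B * x + y = (A * x + B * y) / B := by field_simp
  rw [e]
  exact div_pos h hB

theorem core {α β γ δ : ℝ} (ha : 0 < α) (hb : 0 < β) (hc : 0 < γ) (hd : 0 < δ)
    {x x' y y' u u' v v' : ℝ}
    (p0 : 0 < α * x' + y') (p3 : 0 < δ * x' + (1 - y'))
    (q1 : 0 < β * (1 - x) + y) (q2 : 0 < γ * (1 - x) + (1 - y)) (hx : 2 < x - x')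
    (r0 : 0 < α * u' + v') (r1 : 0 < β * (1 - u') + v')
    (s3 : 0 < δ * u + (1 - v)) (s2 : 0 < γ * (1 - u) + (1 - v)) (hv : 2 < v - v') : False := by
  have hU : 0 < α + δ := add_pos ha hd
  have hV : 0 < β + γ := add_pos hb hc
  have e1 : 0 < (α + δ) * x' + 1 := by linarith
  have e2 : 0 < (β + γ) * (1 - x) + 1 := by linarith
  have e3 : (α + δ) * (β + γ) < (α + δ) + (β + γ) := by
    nlinarith [mul_pos hU e2, mul_pos hV e1, mul_pos hU hV]
  have f1 := low (l := (β + γ) / ((α + δ) + (β + γ))) ha hb r0 r1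
  have f2 := low (l := (β + γ) / ((α + δ) + (β + γ))) hd hc s3 s2
  have hS : 0 < (α + δ) + (β + γ) := add_pos hU hV
  have f3 : ((β + γ) / ((α + δ) + (β + γ))) ^ 2 * (α + δ) +
      (1 - (β + γ) / ((α + δ) + (β + γ))) ^ 2 * (β + γ) =
      (α + δ) * (β + γ) / ((α + δ) + (β + γ)) := by
    field_simp
    ring
  have f4 : (α + δ) * (β + γ) / ((α + δ) + (β + γ)) < 1 := (div_lt_one hS).2 e3
  linarith

end SqNorm

theorem sqNorm : SqNorm := by
  intro a b c hw hb
  obtain ⟨h0, h1⟩ := hb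
  have z0 := h0 0
  have z1 := h0 1
  have z2 := h0 2
  have z3 := h0 3
  have p01 := h1 0 1 (by decide)
  have p03 := h1 0 3 (by decide)
  have p10 := h1 1 0 (by decide)
  have p12 := h1 1 2 (by decide)
  have p21 := h1 2 1 (by decide)
  have p23 := h1 2 3 (by decide)
  have p30 := h1 3 0 (by decide)
  have p32 := h1 3 2 (by decide)
  simp only [Matrix.cons_val_zero, Matrix.cons_val_one, Matrix.cons_val, Int.cast_zero,
    Int.cast_one, mul_zero, mul_one, add_zero, zero_add] at z0 z1 z2 z3 p01 p03 p10 p12 p21 p23 p30 p32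
  have A0 : 0 < a 0 := by linarith
  have B0 : 0 < b 0 := by linarith
  have B1 : 0 < b 1 := by linarith
  have A2 : 0 < -a 2 := by linarith
  have B2 : 0 < -b 2 := by linarith
  have A3 : 0 < a 3 := by linarith
  have key : ∀ x ∈ Pol a b c, 0 < a 0 / b 0 * x.1 + x.2 ∧ 0 < c 1 / b 1 * (1 - x.1) + x.2 ∧
      0 < -a 2 / -b 2 * (1 - x.1) + (1 - x.2) ∧ 0 < a 3 / c 3 * x.1 + (1 - x.2) := by
    intro x hx
    have e1 : a 1 = -c 1 := by linarith
    have e2 : c 2 = -a 2 - b 2 := by linarith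
    have e3 : b 3 = -c 3 := by linarith
    have x0 := hx 0
    have x1 := hx 1
    have x2 := hx 2
    have x3 := hx 3
    rw [z0] at x0
    rw [e1] at x1
    rw [e2] at x2
    rw [e3] at x3
    exact ⟨SqNorm.norm B0 (by linarith), SqNorm.norm B1 (by linarith),
      SqNorm.norm B2 (by linarith), SqNorm.norm p30 (by linarith)⟩
  obtain ⟨x, hx, x', hx', hxx⟩ := hw 1 0 (Or.inl one_ne_zero)
  obtain ⟨u, hu, u', hu', huu⟩ := hw 0 1 (Or.inr one_ne_zero)
  simp only [Int.cast_zero, Int.cast_one, zero_mul, one_mul, add_zero, zero_add] at hxx huu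
  exact SqNorm.core (div_pos A0 B0) (div_pos p10 B1) (div_pos A2 B2) (div_pos A3 p30)
    (key x' hx').1 (key x' hx').2.2.2 (key x hx).2.1 (key x hx).2.2.1 (by linarith)
    (key u' hu').1 (key u' hu').2.1 (key u hu).2.2.2 (key u hu).2.2.1 (by linarith)

end Pool.Agent.P.MP_65d7bf_co
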