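import Mathlib

namespace Pool.Agent.P.MP_65d7bf_co

open Finset Matrix

/-- A tetrahedron given by its barycentric coordinate functionals and its vertices. -/
structure Tet where
  a : Fin 4 → Fin 3 → ℝ
  b : Fin 4 → ℝ
  v : Fin 4 → Fin 3 → ℝ
  sa : ∀ k, ∑ i, a i k = 0
  sb : ∑ i, b i = 1
  dual : ∀ i j, ∑ k, a i k * v j k + b i = if i = j then 1 else 0

/-- Barycentric coordinate of a real point. -/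
def Tet.evR (T : Tet) (i : Fin 4) (x : Fin 3 → ℝ) : ℝ := ∑ k, T.a i k * x k + T.b i
/-- Barycentric coordinate of a lattice point. -/
def Tet.ev (T : Tet) (i : Fin 4) (z : Fin 3 → ℤ) : ℝ := ∑ k, T.a i k * z k + T.b i
/-- Linear part at a lattice vector. -/
def Tet.lin (T : Tet) (i : Fin 4) (y : Fin 3 → ℤ) : ℝ := ∑ k, T.a i k * y k
def Tet.mat (T : Tet) : Matrix (Fin 4) (Fin 4) ℝ :=
  Matrix.of fun i => ![T.a i 0, T.a i 1, T.a i 2, T.b i]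

def Hollow (T : Tet) : Prop := ∀ z : Fin 3 → ℤ, ∃ i, T.ev i z ≤ 0
def Wide (T : Tet) : Prop := ∀ u : Fin 3 → ℤ, u ≠ 0 →
  ∃ i j, 2 + √2 < ∑ k, (u k : ℝ) * T.v i k - ∑ k, (u k : ℝ) * T.v j k
def Gen (T : Tet) : Prop := ∀ y : Fin 3 → ℤ, y ≠ 0 → ∀ i, T.lin i y ≠ 0
def Blocked (T : Tet) (p : Fin 4 → Fin 3 → ℤ) : Prop :=
  (∀ i, T.ev i (p i) = 0) ∧ ∀ i j, i ≠ j → 0 < T.ev i (p j)
def Chord (T : Tet) : Prop := ∀ y : Fin 3 → ℤ, y ≠ 0 → 14 / 19 < ∑ i, |T.lin i y|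
def Vol (T : Tet) : Prop := 1 / 80 < |T.mat.det|

/-- The facts used by the certificate checker, in barycentric coordinates. -/
structure Good (c : ℤ) (g : Fin 4 → ℤ) (P : Fin 4 → Fin 4 → ℤ)
    (A : Matrix (Fin 4) (Fin 4) ℝ) : Prop where
  sum : ∀ j, ∑ i, A i j = 1
  hol : ∀ z : Fin 4 → ℤ, ∑ j, z j = c → (∃ k : ℤ, ∀ j, c ∣ z j - k * g j) → (∀ i, z ≠ P i) →
    ∃ i, ∑ j, A i j * z j < 0
  wid : ∀ u : Fin 4 → ℤ, c ∣ ∑ j, u j * g j → (∃ i j, u i ≠ u j) → ∃ a b,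
    2 + √2 < ((A.updateRow a fun j => (u j : ℝ)).det - (A.updateRow b fun j => (u j : ℝ)).det) / A.det
  cho : ∀ y : Fin 4 → ℤ, ∑ j, y j = 0 → (∃ k : ℤ, ∀ j, c ∣ y j - k * g j) → y ≠ 0 →
    14 / 19 * (c : ℝ) < ∑ i, |∑ j, A i j * y j|
  vol : (c : ℝ) / 80 < |A.det|

/-- Zero diagonal, positive elsewhere. -/
def ZD (A : Matrix (Fin 4) (Fin 4) ℝ) : Prop := (∀ i, A i i = 0) ∧ ∀ i j, i ≠ j → 0 < A i j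
def Pd (c : ℤ) : Fin 4 → Fin 4 → ℤ := fun i j => if i = j then c else 0
def Psq : Fin 4 → Fin 4 → ℤ := ![![1, 0, 0, 0], ![0, 1, 0, 0], ![-1, 1, 1, 0], ![0, 0, 1, 0]]
def SqCone (A : Matrix (Fin 4) (Fin 4) ℝ) : Prop :=
  (A 0 0 = 0 ∧ 0 < A 0 1 ∧ 0 < A 0 2 ∧ 0 ≤ A 0 1 + A 0 2 + A 0 3) ∧
  (A 1 1 = 0 ∧ 0 < A 1 0 ∧ A 1 0 < A 1 2 ∧ 0 ≤ A 1 3 + A 1 2 - A 1 0) ∧
  (A 2 0 = A 2 1 + A 2 2 ∧ 0 < A 2 1 ∧ 0 < A 2 2 ∧ 0 ≤ A 2 3) ∧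
  (A 3 2 = 0 ∧ 0 < A 3 0 ∧ A 3 0 < A 3 1 ∧ 0 ≤ A 3 3 + A 3 1 - A 3 0)
def reps : List (ℤ × (Fin 4 → ℤ)) :=
  [(1, ![1, 1, 1, 1]), (2, ![1, 1, 1, 1]), (3, ![1, 2, 2, 1]), (4, ![1, 3, 3, 1]),
   (5, ![1, 4, 4, 1]), (5, ![2, 4, 3, 1]), (7, ![2, 6, 5, 1]), (8, ![3, 7, 5, 1]),
   (10, ![3, 9, 7, 1]), (13, ![5, 12, 8, 1])]

/-! Plane notions -/

def Free2 (Q : Set (ℝ × ℝ)) : Prop := ∀ m n : ℤ, ((m : ℝ), (n : ℝ)) ∉ Q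
def Wide2 (Q : Set (ℝ × ℝ)) : Prop := ∀ m n : ℤ, (m ≠ 0 ∨ n ≠ 0) →
  ∃ x ∈ Q, ∃ y ∈ Q, (2156 / 1000 : ℝ) < m * (x.1 - y.1) + n * (x.2 - y.2)
def Pol {n : ℕ} (a b c : Fin n → ℝ) : Set (ℝ × ℝ) := {x | ∀ i, 0 < a i * x.1 + b i * x.2 + c i}
def Blocked2 {n : ℕ} (a b c : Fin n → ℝ) (p q : Fin n → ℤ) : Prop :=
  (∀ i, a i * p i + b i * q i + c i = 0) ∧ ∀ i j, i ≠ j → 0 < a i * p j + b i * q j + c i

/-! Statements -/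

def Main : Prop := ∀ v : Fin 4 → Fin 3 → ℝ, AffineIndependent ℝ v →
  (∀ z : Fin 3 → ℤ, (fun k => (z k : ℝ)) ∉ interior (convexHull ℝ (Set.range v))) →
  ∃ c : Fin 3 → ℤ, c ≠ 0 ∧ ∀ x ∈ convexHull ℝ (Set.range v), ∀ y ∈ convexHull ℝ (Set.range v),
    ∑ k, (c k : ℝ) * x k - ∑ k, (c k : ℝ) * y k ≤ 2 + √2

def ToTet : Prop := (∀ T : Tet, Hollow T → Wide T → False) → Main

def Generic : Prop := ∀ T : Tet, Hollow T → Wide T → ∃ T' : Tet, Hollow T' ∧ Wide T' ∧ Gen T'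

def Push : Prop := ∀ (X : Type) (n : ℕ) (f : Fin n → X → ℝ),
  (∀ t : ℝ, {x | ∀ j, -t < f j x}.Finite) → (∀ x, ∃ j, f j x ≤ 0) →
  (∀ i, ∃ x, ∀ j, j ≠ i → 0 < f j x) →
  ∃ (c : Fin n → ℝ) (p : Fin n → X), (∀ j, 0 ≤ c j) ∧ (∀ x, ∃ j, f j x + c j ≤ 0) ∧
    (∀ i, f i (p i) + c i = 0) ∧ ∀ i j, i ≠ j → 0 < f i (p j) + c i

def Block : Prop := ∀ T : Tet, Hollow T → Wide T → Gen T →
  ∃ (T' : Tet) (p : Fin 4 → Fin 3 → ℤ), Hollow T' ∧ Wide T' ∧ Gen T' ∧ Blocked T' p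

def Transport : Prop := ∀ (T : Tet) (U U' : Matrix (Fin 3) (Fin 3) ℤ) (t : Fin 3 → ℤ)
  (π : Equiv.Perm (Fin 4)), U * U' = 1 → ∃ T' : Tet,
    (∀ i z, T'.ev i z = T.ev (π i) (U *ᵥ z + t)) ∧
    (∀ i y, T'.lin i y = T.lin (π i) (U *ᵥ y)) ∧
    (∀ i x, T'.evR i x = T.evR (π i) fun k => ∑ l, (U k l : ℝ) * x l + t k) ∧
    (Hollow T → Hollow T') ∧ (Wide T → Wide T') ∧ (Gen T → Gen T')

def PrimBasis : Prop := ∀ y : Fin 3 → ℤ, y ≠ 0 → ∃ (U U' : Matrix (Fin 3) (Fin 3) ℤ) (k : ℤ),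
  U * U' = 1 ∧ 1 ≤ k ∧ y = U *ᵥ ![k, 0, 0]

def Tri : Prop := ∀ v w : Fin 3 → ℤ,
  (∀ α β l : ℤ, 0 ≤ α → 0 ≤ β → α + β ≤ l → α < l → β < l → (∀ k, l ∣ α * v k + β * w k) →
    α = 0 ∧ β = 0) →
  ∃ x : Fin 3 → ℤ, (v 1 * w 2 - v 2 * w 1) * x 0 + (v 2 * w 0 - v 0 * w 2) * x 1 +
    (v 0 * w 1 - v 1 * w 0) * x 2 = 1

def Flat2 : Prop := ∀ K : Set (ℝ × ℝ), Convex ℝ K → IsOpen K → Bornology.IsBounded K →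
  Free2 K → Wide2 K → False

def Chord0 : Prop := ∀ T : Tet, Hollow T → Wide T → 14 / 19 < ∑ i, |T.a i 0|

def ChordAll : Prop := ∀ T : Tet, Hollow T → Wide T → Chord T

def Mink : Prop := ∀ T : Tet, Chord T → Vol T

def Normal : Prop := ∀ (T : Tet) (p : Fin 4 → Fin 3 → ℤ), Hollow T → Wide T → Gen T →
  Blocked T p → ∃ (T' : Tet) (a b c : ℤ), Hollow T' ∧ Wide T' ∧ Gen T' ∧
    Blocked T' ![![0, 0, 0], ![1, 0, 0], ![0, 1, 0], ![a, b, c]] ∧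
    (c = 0 ∨ (0 ≤ a ∧ a < c ∧ 0 ≤ b ∧ b < c))

def Square : Prop := ∀ (T : Tet) (a b : ℤ), Hollow T → Wide T → Gen T →
  Blocked T ![![0, 0, 0], ![1, 0, 0], ![0, 1, 0], ![a, b, 0]] →
  ∃ (T' : Tet) (x y : ℝ), Hollow T' ∧ Wide T' ∧ Gen T' ∧
    Blocked T' ![![0, 0, 0], ![1, 0, 0], ![1, 1, 0], ![0, 1, 0]] ∧
    0 ≤ x ∧ x ≤ 1 ∧ 0 ≤ y ∧ y ≤ 1 ∧ ∀ i, 0 ≤ T'.evR i ![x, y, 1]

def GoodTet : Prop := ∀ (T : Tet) (a b c : ℤ), Hollow T → Wide T → Gen T → Chord T → Vol T →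
  Blocked T ![![0, 0, 0], ![1, 0, 0], ![0, 1, 0], ![a, b, c]] → 0 < c →
  ∃ A, Good c ![a + b - 1, -a, -b, 1] (Pd c) A ∧ ZD A

def GoodSq : Prop := ∀ (T : Tet) (x y : ℝ), Hollow T → Wide T → Gen T → Chord T → Vol T →
  Blocked T ![![0, 0, 0], ![1, 0, 0], ![1, 1, 0], ![0, 1, 0]] →
  0 ≤ x → x ≤ 1 → 0 ≤ y → y ≤ 1 → (∀ i, 0 ≤ T.evR i ![x, y, 1]) →
  ∃ A, Good 1 ![1, 1, 1, 1] Psq A ∧ SqCone A

def GoodPerm : Prop := ∀ (c : ℤ) (g : Fin 4 → ℤ) (A : Matrix (Fin 4) (Fin 4) ℝ)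
  (π : Equiv.Perm (Fin 4)), Good c g (Pd c) A → Good c (g ∘ π) (Pd c) (A.submatrix π π)

def Classify : Prop := ∀ (a b c : ℤ) (A : Matrix (Fin 4) (Fin 4) ℝ), 0 ≤ a → a < c → 0 ≤ b →
  b < c → Good c ![a + b - 1, -a, -b, 1] (Pd c) A → ZD A →
  ∃ r ∈ reps, ∃ A', Good r.1 r.2 (Pd r.1) A' ∧ ZD A'

def Chord2 : Prop := ∀ Q : Set (ℝ × ℝ), Convex ℝ Q → Free2 Q → Wide2 Q →
  ∀ x ∈ Q, ∀ m n : ℤ, (m ≠ 0 ∨ n ≠ 0) → (x.1 + 15 / 8 * m, x.2 + 15 / 8 * n) ∉ Q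

def NoRay : Prop := ∀ Q : Set (ℝ × ℝ), Convex ℝ Q → IsOpen Q → Free2 Q → Wide2 Q →
  ∀ x ∈ Q, ∀ d : ℝ × ℝ, d ≠ 0 → ∃ t : ℝ, 0 ≤ t ∧ x + t • d ∉ Q

def Reduce2 : Prop := ∀ K : Set (ℝ × ℝ), Convex ℝ K → IsOpen K → Bornology.IsBounded K →
  Free2 K → Wide2 K → ∃ (n : ℕ) (a b c : Fin n → ℝ) (p q : Fin n → ℤ), (n = 3 ∨ n = 4) ∧
    Free2 (Pol a b c) ∧ Wide2 (Pol a b c) ∧ Blocked2 a b c p q

def TriNorm : Prop := ∀ a b c : Fin 3 → ℝ, Free2 (Pol a b c) → Wide2 (Pol a b c) →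
  Blocked2 a b c ![0, 1, 0] ![0, 0, 1] → False

def SqNorm : Prop := ∀ a b c : Fin 4 → ℝ, Wide2 (Pol a b c) →
  Blocked2 a b c ![0, 1, 1, 0] ![0, 0, 1, 1] → False

def Trans2 : Prop := ∀ (n : ℕ) (a b c : Fin n → ℝ) (r s t u x y : ℤ) (π : Equiv.Perm (Fin n)),
  (r * u - s * t = 1 ∨ r * u - s * t = -1) → ∃ a' b' c' : Fin n → ℝ,
    (∀ i (p q : ℝ), a' i * p + b' i * q + c' i =
      a (π i) * (r * p + s * q + x) + b (π i) * (t * p + u * q + y) + c (π i)) ∧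
    (Free2 (Pol a b c) → Free2 (Pol a' b' c')) ∧ (Wide2 (Pol a b c) → Wide2 (Pol a' b' c'))

def Case3 : Prop := ∀ (a b c : Fin 3 → ℝ) (p q : Fin 3 → ℤ), Free2 (Pol a b c) →
  Wide2 (Pol a b c) → Blocked2 a b c p q → False

def Case4 : Prop := ∀ (a b c : Fin 4 → ℝ) (p q : Fin 4 → ℤ), Free2 (Pol a b c) →
  Wide2 (Pol a b c) → Blocked2 a b c p q → False

def CheckTet : Prop := ∀ r ∈ reps, ∀ A, Good r.1 r.2 (Pd r.1) A → ZD A → False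

def CheckSq : Prop := ∀ A, Good 1 ![1, 1, 1, 1] Psq A → SqCone A → False

theorem flat2_of (h : Reduce2) (h3 : Case3) (h4 : Case4) : Flat2 := by
  intro K a b c d e
  obtain ⟨n, a, b, c, p, q, rfl | rfl, f, w, bl⟩ := h K a b c d e
  exacts [h3 a b c p q f w bl, h4 a b c p q f w bl]

theorem main_of (h1 : ToTet) (h2 : Generic) (h3 : Block) (h4 : ChordAll) (h5 : Mink)
    (h6 : Normal) (h7 : Square) (h8 : GoodTet) (h9 : GoodSq) (h10 : Classify)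
    (c1 : CheckTet) (c2 : CheckSq) : Main := by
  refine h1 fun T a b => ?_
  obtain ⟨T, a, b, g⟩ := h2 T a b
  obtain ⟨T, p, a, b, g, bl⟩ := h3 T a b g
  obtain ⟨T, x, y, z, a, b, g, bl, rfl | ⟨e1, e2, e3, e4⟩⟩ := h6 T p a b g bl
  · obtain ⟨T, s, t, a, b, g, bl, e1, e2, e3, e4, e5⟩ := h7 T x y a b g bl
    obtain ⟨A, hA, hS⟩ := h9 T s t a b g (h4 T a b) (h5 T (h4 T a b)) bl e1 e2 e3 e4 e5
    exact c2 A hA hS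
  · obtain ⟨A, hA, hZ⟩ := h8 T x y z a b g (h4 T a b) (h5 T (h4 T a b)) bl (by omega)
    obtain ⟨r, hr, A, hA, hZ⟩ := h10 x y z A e1 e2 e3 e4 hA hZ
    exact c1 r hr A hA hZ

end Pool.Agent.P.MP_65d7bf_co
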